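import Mathlib
import Pool.Agent.H6.EG.Defs2
import Pool.Agent.H67.GT.Defs

/-! Positive proportion of long prime-free intervals, part A: this file joins several modules to save build time. -/

section S_H69_PG_Ab0

/-!
# MP_028722, positive proportion of long prime-free intervals: the abstract argument, definitions

Overview with the complete proof: /team-store/H69_PG.md

`ι`: the shifts, `m`: the number of scales, a configuration `n : ι → Fin (m+1)` gives each shift `i` a scale `n i` or nothing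
(`n i = 0`).
-/

open Finset

namespace H69PG

variable {ι : Type} [Fintype ι] [DecidableEq ι]

/-- the active coordinates of a configuration -/
def sp {m : ℕ} (n : ι → Fin (m + 1)) : Finset ι := univ.filter (fun i => n i ≠ 0)

open Classical in
/-- admissible configurations: at most `N` active coordinates, total cost at most `l` -/
noncomputable def Cf (ι : Type) [Fintype ι] [DecidableEq ι] (m N : ℕ) (v : ℕ → ℝ) (l : ℝ) :
    Finset (ι → Fin (m + 1)) :=
  univ.filter (fun n => (sp n).card ≤ N ∧ ∑ i, v (n i) ≤ l)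

/-- the mass of a configuration -/
noncomputable def ms {m : ℕ} (V : Finset ι → ℝ) (s : ℕ → ℝ) (n : ι → Fin (m + 1)) : ℝ :=
  V (sp n) * ∏ i, s (n i)

/-- the total mass -/
noncomputable def MM (m N : ℕ) (v : ℕ → ℝ) (l : ℝ) (V : Finset ι → ℝ) (s : ℕ → ℝ) : ℝ :=
  ∑ n ∈ Cf ι m N v l, ms V s n

/-- the amplitude -/
noncomputable def Ps (m N : ℕ) (v : ℕ → ℝ) (l : ℝ) (g : ι → ℕ → ℕ → ℝ) (t : ℕ) : ℝ :=
  ∑ n ∈ Cf ι m N v l, ∏ i, g i (n i) t

open Classical in
/-- the amplitude factor left when one more coordinate is rough -/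
noncomputable def om {m : ℕ} (N : ℕ) (v : ℕ → ℝ) (l : ℝ) (q : ℕ → ℝ) (n : ι → Fin (m + 1)) : ℝ :=
  1 - ∑ a ∈ Icc 1 m, if (sp n).card + 1 ≤ N ∧ ∑ i, v (n i) + v a ≤ l then q a else 0

/-- the conditions on the function `V` of finite sets of shifts, for sets with fewer than `M` elements -/
structure Vh (V : Finset ι → ℝ) (μ : ℝ) (M : ℕ) : Prop where
  nonneg : ∀ U, 0 ≤ V U
  empty : V ∅ = 1
  μ_nonneg : 0 ≤ μ
  step : ∀ A : Finset ι, A.card < M → ∑ k ∈ Aᶜ, V (insert k A) ≤ μ * V A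

end H69PG

end S_H69_PG_Ab0

section S_H69_PG_Vsm

/-!
# VSM: sums of `V` over sets of given size

`vsum`: induction on `j`: `(j+1) ∑_{|U| = j+1} V(U) = ∑_{|A| = j} ∑_{k ∉ A} V(A ∪ {k}) ≤ μ ∑_{|A| = j} V(A)` (every `U` with `j+1` elements
is `insert k A` for exactly `j+1` pairs `(A, k)`).
`vsum2`: group by the cardinality `j`, `∑_{j ≤ M} a^j μ^j/j! ≤ ∑_j choose(M,j) (a μ)^j = (1 + a μ)^M`.
-/

open Finset

namespace H69PG

variable {ι : Type} [Fintype ι] [DecidableEq ι]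

theorem Vsm_count (V : Finset ι → ℝ) (j : ℕ) :
    ((j : ℝ) + 1) * ∑ U ∈ (univ : Finset (Finset ι)).filter (fun U => U.card = j + 1), V U =
      ∑ A ∈ (univ : Finset (Finset ι)).filter (fun A => A.card = j), ∑ k ∈ Aᶜ, V (insert k A) := by
  have h1 : ((j : ℝ) + 1) * ∑ U ∈ (univ : Finset (Finset ι)).filter (fun U => U.card = j + 1), V U =
      ∑ U ∈ (univ : Finset (Finset ι)).filter (fun U => U.card = j + 1), ∑ _k ∈ U, V U := by
    rw [Finset.mul_sum]
    refine Finset.sum_congr rfl fun U hU => ?_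
    rw [Finset.mem_filter] at hU
    rw [Finset.sum_const, hU.2, nsmul_eq_mul]
    push_cast
    ring
  rw [h1, Finset.sum_sigma', Finset.sum_sigma']
  refine Finset.sum_bij' (fun x _ => (⟨x.1.erase x.2, x.2⟩ : Σ _ : Finset ι, ι))
    (fun x _ => (⟨insert x.2 x.1, x.2⟩ : Σ _ : Finset ι, ι)) ?_ ?_ ?_ ?_ ?_
  · rintro ⟨U, k⟩ h
    simp only [Finset.mem_sigma, Finset.mem_filter, Finset.mem_univ, true_and,
      Finset.mem_compl] at h ⊢
    refine ⟨?_, Finset.notMem_erase k U⟩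
    rw [Finset.card_erase_of_mem h.2, h.1]
    rfl
  · rintro ⟨A, k⟩ h
    simp only [Finset.mem_sigma, Finset.mem_filter, Finset.mem_univ, true_and,
      Finset.mem_compl] at h ⊢
    refine ⟨?_, Finset.mem_insert_self k A⟩
    rw [Finset.card_insert_of_notMem h.2, h.1]
  · rintro ⟨U, k⟩ h
    simp only [Finset.mem_sigma] at h
    show (⟨insert k (U.erase k), k⟩ : Σ _ : Finset ι, ι) = ⟨U, k⟩
    rw [Finset.insert_erase h.2]
  · rintro ⟨A, k⟩ h
    simp only [Finset.mem_sigma, Finset.mem_compl] at h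
    show (⟨(insert k A).erase k, k⟩ : Σ _ : Finset ι, ι) = ⟨A, k⟩
    rw [Finset.erase_insert h.2]
  · rintro ⟨U, k⟩ h
    simp only [Finset.mem_sigma] at h
    show V U = V (insert k (U.erase k))
    rw [Finset.insert_erase h.2]

theorem vsum {V : Finset ι → ℝ} {μ : ℝ} {M : ℕ} (h : Vh V μ M) (j : ℕ) (hj : j ≤ M) :
    ∑ U ∈ (univ : Finset (Finset ι)).filter (fun U => U.card = j), V U ≤ μ ^ j / (j.factorial : ℝ) := by
  induction j with
  | zero =>
    have e : (univ : Finset (Finset ι)).filter (fun U => U.card = 0) = {∅} := by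
      ext U
      rw [Finset.mem_filter, Finset.mem_singleton, Finset.card_eq_zero]
      exact ⟨fun h => h.2, fun h => ⟨Finset.mem_univ _, h⟩⟩
    rw [e, Finset.sum_singleton, h.empty]
    simp
  | succ j ih =>
    have ih' := ih (by omega)
    have h1 := Vsm_count V j
    have h2 : ∑ A ∈ (univ : Finset (Finset ι)).filter (fun A => A.card = j), ∑ k ∈ Aᶜ, V (insert k A) ≤
        μ * ∑ A ∈ (univ : Finset (Finset ι)).filter (fun A => A.card = j), V A := by
      rw [Finset.mul_sum]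
      refine Finset.sum_le_sum fun A hA => ?_
      rw [Finset.mem_filter] at hA
      exact h.step A (by omega)
    rw [← h1] at h2
    have h3 := h2.trans (mul_le_mul_of_nonneg_left ih' h.μ_nonneg)
    have hj0 : (0 : ℝ) < (j : ℝ) + 1 := by positivity
    have hf : (0 : ℝ) < (j.factorial : ℝ) := by exact_mod_cast Nat.factorial_pos j
    have e : μ ^ (j + 1) / ((j + 1).factorial : ℝ) = (μ * (μ ^ j / (j.factorial : ℝ))) / ((j : ℝ) + 1) := by
      rw [Nat.factorial_succ]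
      push_cast
      field_simp
      ring
    rw [e, le_div_iff₀ hj0, mul_comm]
    exact h3

theorem vsum2 {V : Finset ι → ℝ} {μ : ℝ} {M : ℕ} (h : Vh V μ M) {a : ℝ} (ha : 0 ≤ a) :
    ∑ U ∈ (univ : Finset (Finset ι)).filter (fun U => U.card ≤ M), a ^ U.card * V U ≤ (1 + a * μ) ^ M := by
  have hμ := h.μ_nonneg
  have h1 : ∑ U ∈ (univ : Finset (Finset ι)).filter (fun U => U.card ≤ M), a ^ U.card * V U =
      ∑ j ∈ range (M + 1), ∑ U ∈ (univ : Finset (Finset ι)).filter (fun U => U.card = j), a ^ j * V U := by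
    rw [← Finset.sum_fiberwise_of_maps_to (s := (univ : Finset (Finset ι)).filter (fun U => U.card ≤ M))
      (t := range (M + 1)) (g := fun U => U.card)
      (fun U hU => by
        rw [Finset.mem_filter] at hU
        rw [Finset.mem_range]
        omega)]
    refine Finset.sum_congr rfl fun j hj => ?_
    rw [Finset.mem_range] at hj
    have e : ((univ : Finset (Finset ι)).filter (fun U => U.card ≤ M)).filter (fun U => U.card = j) =
        (univ : Finset (Finset ι)).filter (fun U => U.card = j) := by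
      ext U
      simp only [Finset.mem_filter, Finset.mem_univ, true_and]
      omega
    rw [e]
    refine Finset.sum_congr rfl fun U hU => ?_
    rw [Finset.mem_filter] at hU
    rw [hU.2]
  rw [h1, add_comm 1 (a * μ), add_pow]
  refine Finset.sum_le_sum fun j hj => ?_
  rw [Finset.mem_range] at hj
  have hjM : j ≤ M := by omega
  rw [← Finset.mul_sum, one_pow, mul_one]
  have h2 := vsum h j hjM
  have hf : (1 : ℝ) ≤ (j.factorial : ℝ) := by exact_mod_cast Nat.factorial_pos j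
  have hc : (1 : ℝ) ≤ (M.choose j : ℝ) := by exact_mod_cast Nat.choose_pos hjM
  have h3 : μ ^ j / (j.factorial : ℝ) ≤ μ ^ j := div_le_self (by positivity) hf
  have h4 : a ^ j * ∑ U ∈ (univ : Finset (Finset ι)).filter (fun U => U.card = j), V U ≤ a ^ j * μ ^ j :=
    mul_le_mul_of_nonneg_left (h2.trans h3) (by positivity)
  refine h4.trans ?_
  rw [← mul_pow]
  have h5 : 0 ≤ (a * μ) ^ j := by positivity
  nlinarith

end H69PG

end S_H69_PG_Vsm

section S_H69_PG_Prs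

/-!
# PRS: sums over pairs of configurations

`pairs1`: group the pairs `(n, n')` by `U = sp n ∪ sp n'` (`|U| ≤ 2N`). For given `U` there are at most `(m+1)^(2|U|)` pairs (outside `U` both are
`0`), so the sum is at most `∑_{|U| ≤ 2N} ((m+1)^2)^|U| V(U)`; `vsum2` with `M = 2N`, `a = (m+1)^2`.
`pairs2`: the same with `W = insert k (sp n ∪ sp n')`, `|W| ≤ 2N+1`; `k ∉ sp n ∪ sp n'` because `n k = n' k = 0`. For given `W` there
are at most `|W|` choices of `k ∈ W` and then at most `(m+1)^(2|W|)` pairs. `vsum2` with `M = 2N+1`.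
-/

open Finset

namespace H69PG

variable {ι : Type} [Fintype ι] [DecidableEq ι]

/-- the configurations with support in `U` -/
def Prs_S (m : ℕ) (U : Finset ι) : Finset (ι → Fin (m + 1)) :=
  Fintype.piFinset fun i => if i ∈ U then univ else {0}

theorem Prs_card (m : ℕ) (U : Finset ι) : (Prs_S m U).card = (m + 1) ^ U.card := by
  unfold Prs_S
  rw [Fintype.card_piFinset]
  have h : ∀ i : ι, (if i ∈ U then (univ : Finset (Fin (m + 1))) else {0}).card = if i ∈ U then m + 1 else 1 := by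
    intro i
    split_ifs <;> simp
  rw [Finset.prod_congr rfl fun i _ => h i, Finset.prod_ite_mem, Finset.univ_inter, Finset.prod_const]

theorem Prs_mem {m : ℕ} {U : Finset ι} {n : ι → Fin (m + 1)} (h : sp n ⊆ U) : n ∈ Prs_S m U := by
  unfold Prs_S
  rw [Fintype.mem_piFinset]
  intro i
  split_ifs with hi
  · exact mem_univ _
  · rw [mem_singleton]
    by_contra hn
    exact hi (h (by
      unfold sp
      rw [mem_filter]
      exact ⟨mem_univ _, hn⟩))

theorem Prs_fib {m : ℕ} {V : Finset ι → ℝ} (hV : ∀ U, 0 ≤ V U)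
    (P : Finset ((ι → Fin (m + 1)) × (ι → Fin (m + 1))))
    (φ : (ι → Fin (m + 1)) × (ι → Fin (m + 1)) → Finset ι) (F : Finset (Finset ι)) (hφ : ∀ p ∈ P, φ p ∈ F)
    (hs : ∀ p ∈ P, sp p.1 ⊆ φ p ∧ sp p.2 ⊆ φ p) :
    ∑ p ∈ P, V (φ p) ≤ ∑ W ∈ F, (((m : ℝ) + 1) ^ 2) ^ W.card * V W := by
  rw [← Finset.sum_fiberwise_of_maps_to hφ]
  refine Finset.sum_le_sum fun W _ => ?_
  have h1 : ∑ p ∈ P with φ p = W, V (φ p) = ((P.filter fun p => φ p = W).card : ℝ) * V W := by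
    rw [Finset.sum_congr rfl (g := fun _ => V W) (fun p hp => by rw [(mem_filter.1 hp).2]), Finset.sum_const,
      nsmul_eq_mul]
  rw [h1]
  refine mul_le_mul_of_nonneg_right ?_ (hV W)
  have h2 : (P.filter fun p => φ p = W).card ≤ (Prs_S m W ×ˢ Prs_S m W).card := by
    refine Finset.card_le_card fun p hp => ?_
    obtain ⟨hp1, hp2⟩ := mem_filter.1 hp
    have h3 := hs p hp1
    rw [hp2] at h3
    exact mem_product.2 ⟨Prs_mem h3.1, Prs_mem h3.2⟩
  rw [Finset.card_product, Prs_card] at h2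
  have h3 : (((m : ℝ) + 1) ^ 2) ^ W.card = (((m + 1) ^ W.card * (m + 1) ^ W.card : ℕ) : ℝ) := by
    push_cast
    rw [← pow_mul, ← pow_add]
    congr 1
    ring
  rw [h3]
  exact_mod_cast h2

theorem Prs_Cf {m N : ℕ} {v : ℕ → ℝ} {l : ℝ} {n : ι → Fin (m + 1)} (h : n ∈ Cf ι m N v l) : (sp n).card ≤ N := by
  unfold Cf at h
  exact (mem_filter.1 h).2.1

theorem pairs1 {m N : ℕ} {v : ℕ → ℝ} {l : ℝ} {V : Finset ι → ℝ} {μ : ℝ} (h : Vh V μ (2 * N)) :
    ∑ n ∈ Cf ι m N v l, ∑ n' ∈ Cf ι m N v l, V (sp n ∪ sp n') ≤ (1 + ((m : ℝ) + 1) ^ 2 * μ) ^ (2 * N) := by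
  rw [← Finset.sum_product']
  refine le_trans (Prs_fib h.nonneg (Cf ι m N v l ×ˢ Cf ι m N v l) (fun p => sp p.1 ∪ sp p.2)
    ((univ : Finset (Finset ι)).filter (fun U => U.card ≤ 2 * N)) ?_ ?_) (vsum2 h (by positivity))
  · intro p hp
    obtain ⟨h1, h2⟩ := mem_product.1 hp
    have h3 := Prs_Cf h1
    have h4 := Prs_Cf h2
    have h5 := Finset.card_union_le (sp p.1) (sp p.2)
    exact mem_filter.2 ⟨mem_univ _, by omega⟩
  · intro p _
    exact ⟨subset_union_left, subset_union_right⟩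

theorem pairs2 {m N : ℕ} {v : ℕ → ℝ} {l : ℝ} {V : Finset ι → ℝ} {μ : ℝ} (h : Vh V μ (2 * N + 1)) :
    ∑ k : ι, ∑ n ∈ (Cf ι m N v l).filter (fun n => n k = 0), ∑ n' ∈ (Cf ι m N v l).filter (fun n => n k = 0),
      V (insert k (sp n ∪ sp n')) ≤ (2 * (N : ℝ) + 1) * (1 + ((m : ℝ) + 1) ^ 2 * μ) ^ (2 * N + 1) := by
  obtain ⟨a, ha⟩ : ∃ a : ℝ, a = ((m : ℝ) + 1) ^ 2 := ⟨_, rfl⟩
  obtain ⟨F, hF⟩ : ∃ F, F = (univ : Finset (Finset ι)).filter (fun U => U.card ≤ 2 * N + 1) := ⟨_, rfl⟩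
  have ha0 : 0 ≤ a := by rw [ha]; positivity
  have h1 : ∀ k : ι, ∑ n ∈ (Cf ι m N v l).filter (fun n => n k = 0), ∑ n' ∈ (Cf ι m N v l).filter (fun n => n k = 0),
      V (insert k (sp n ∪ sp n')) ≤ ∑ W ∈ F, if k ∈ W then a ^ W.card * V W else 0 := by
    intro k
    rw [← Finset.sum_product', ← Finset.sum_filter, ha]
    refine Prs_fib h.nonneg _ (fun p => insert k (sp p.1 ∪ sp p.2)) _ ?_ ?_
    · intro p hp
      obtain ⟨h1, h2⟩ := mem_product.1 hp
      have h3 := Prs_Cf (mem_filter.1 h1).1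
      have h4 := Prs_Cf (mem_filter.1 h2).1
      have h5 := Finset.card_union_le (sp p.1) (sp p.2)
      have h6 := Finset.card_insert_le k (sp p.1 ∪ sp p.2)
      rw [hF]
      exact mem_filter.2 ⟨mem_filter.2 ⟨mem_univ _, by omega⟩, mem_insert_self _ _⟩
    · intro p _
      exact ⟨subset_union_left.trans (subset_insert _ _), subset_union_right.trans (subset_insert _ _)⟩
  refine (Finset.sum_le_sum fun k _ => h1 k).trans ?_
  rw [Finset.sum_comm]
  have h2 : ∀ W ∈ F, ∑ k : ι, (if k ∈ W then a ^ W.card * V W else 0) ≤ (2 * (N : ℝ) + 1) * (a ^ W.card * V W) := by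
    intro W hW
    rw [Finset.sum_ite_mem, Finset.univ_inter, Finset.sum_const, nsmul_eq_mul]
    refine mul_le_mul_of_nonneg_right ?_ (mul_nonneg (pow_nonneg ha0 _) (h.nonneg W))
    rw [hF] at hW
    have h3 := (mem_filter.1 hW).2
    exact_mod_cast h3
  refine (Finset.sum_le_sum h2).trans ?_
  rw [← Finset.mul_sum, hF]
  refine mul_le_mul_of_nonneg_left ?_ (by positivity)
  have h4 := vsum2 h ha0
  rw [ha] at h4 ⊢
  exact h4

end H69PG

end S_H69_PG_Prs

section S_H69_PG_Sec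

/-!
# SEC: the second moment from below

Expand `Ps^2 = ∑_{n, n'} ∏ g(n) g(n')`, sum over `t`, insert `h1`: the main terms are those with `n = n'`, their sum is
`|T| MM`; the errors are bounded by `pairs1`.
-/

open Finset

namespace H69PG

variable {ι : Type} [Fintype ι] [DecidableEq ι]

theorem sec {m N : ℕ} {v : ℕ → ℝ} {l : ℝ} {V : Finset ι → ℝ} {μ : ℝ} (h : Vh V μ (2 * N)) {s : ℕ → ℝ}
    {T : Finset ℕ} {g : ι → ℕ → ℕ → ℝ} {η : ℝ} (hη : 0 ≤ η)
    (h1 : ∀ n ∈ Cf ι m N v l, ∀ n' ∈ Cf ι m N v l,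
      |∑ t ∈ T, ∏ i, (g i (n i) t * g i (n' i) t) - (T.card : ℝ) * (if n = n' then ms V s n else 0)| ≤
        (T.card : ℝ) * (η * V (sp n ∪ sp n'))) :
    (T.card : ℝ) * (MM m N v l V s - η * (1 + ((m : ℝ) + 1) ^ 2 * μ) ^ (2 * N)) ≤
      ∑ t ∈ T, Ps m N v l g t ^ 2 := by
  have hT : (0 : ℝ) ≤ (T.card : ℝ) := Nat.cast_nonneg _
  have e1 : ∑ t ∈ T, Ps m N v l g t ^ 2 =
      ∑ n ∈ Cf ι m N v l, ∑ n' ∈ Cf ι m N v l, ∑ t ∈ T, ∏ i, (g i (n i) t * g i (n' i) t) := by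
    have : ∀ t ∈ T, Ps m N v l g t ^ 2 =
        ∑ n ∈ Cf ι m N v l, ∑ n' ∈ Cf ι m N v l, ∏ i, (g i (n i) t * g i (n' i) t) := by
      intro t _
      unfold Ps
      rw [sq, Finset.sum_mul_sum]
      refine Finset.sum_congr rfl (fun n _ => Finset.sum_congr rfl (fun n' _ => ?_))
      rw [Finset.prod_mul_distrib]
    rw [Finset.sum_congr rfl this, Finset.sum_comm]
    refine Finset.sum_congr rfl (fun n _ => ?_)
    rw [Finset.sum_comm]
  have e2 : MM m N v l V s = ∑ n ∈ Cf ι m N v l, ∑ n' ∈ Cf ι m N v l, (if n = n' then ms V s n else 0) := by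
    unfold MM
    refine Finset.sum_congr rfl (fun n hn => ?_)
    rw [Finset.sum_ite_eq, if_pos hn]
  have hp := pairs1 (m := m) (N := N) (v := v) (l := l) h
  have e3 : (T.card : ℝ) * (MM m N v l V s -
      η * ∑ n ∈ Cf ι m N v l, ∑ n' ∈ Cf ι m N v l, V (sp n ∪ sp n')) ≤ ∑ t ∈ T, Ps m N v l g t ^ 2 := by
    rw [e1, e2, mul_sub, Finset.mul_sum, Finset.mul_sum, Finset.mul_sum, ← Finset.sum_sub_distrib]
    refine Finset.sum_le_sum (fun n hn => ?_)
    rw [Finset.mul_sum, Finset.mul_sum, Finset.mul_sum, ← Finset.sum_sub_distrib]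
    refine Finset.sum_le_sum (fun n' hn' => ?_)
    have := (abs_le.1 (h1 n hn n' hn')).1
    linarith
  refine le_trans ?_ e3
  have := mul_le_mul_of_nonneg_left hp hη
  exact mul_le_mul_of_nonneg_left (by linarith) hT

end H69PG

end S_H69_PG_Sec

section S_H69_PG_Mkv

/-!
# MKV: Markov's inequality for configurations

`∑_{n ∈ Cf} (∑_i w(n_i)) ms(n) = ∑_i ∑_{n ∈ Cf, n_i ≠ 0} w(n_i) ms(n)` (`w 0 = 0`). Write `n = update n' i a` with `n'_i = 0`, `a = n_i ≥ 1`; then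
`n' ∈ Cf` (fewer active coordinates, smaller cost, `v ≥ 0`), `sp n = insert i (sp n')`, `∏ s(n) = s(a) ∏ s(n')` (`s 0 = 1`). So the sum is at most
`∑_{n' ∈ Cf, |sp n'| < N} ∏ s(n') (∑_a w(a) s(a)) ∑_{i ∉ sp n'} V(insert i (sp n')) ≤ (∑_a w(a) s(a)) μ ∑_{n'} ms(n')`.
-/

open Finset

namespace H69PG

variable {ι : Type} [Fintype ι] [DecidableEq ι]

lemma mkv_sp_erase {m : ℕ} (n : ι → Fin (m + 1)) (i : ι) :
    sp (Function.update n i 0) = (sp n).erase i := by
  ext j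
  by_cases h : j = i
  · subst h
    simp [sp]
  · simp [sp, h, Function.update_of_ne h]

lemma mkv_prod {m : ℕ} {s : ℕ → ℝ} (hs0 : s 0 = 1) (n : ι → Fin (m + 1)) (i : ι) :
    s (n i) * ∏ j, s ((Function.update n i 0) j) = ∏ j, s (n j) := by
  rw [← Finset.mul_prod_erase univ (fun j => s (n j)) (mem_univ i),
    ← Finset.mul_prod_erase univ (fun j => s ((Function.update n i 0) j)) (mem_univ i)]
  simp only [Function.update_self, Fin.val_zero, hs0, one_mul]
  congr 1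
  refine Finset.prod_congr rfl fun j hj => ?_
  rw [Function.update_of_ne (Finset.ne_of_mem_erase hj)]

lemma mkv_cost {m : ℕ} {v : ℕ → ℝ} (hv : ∀ a, 0 ≤ v a) (hv0 : v 0 = 0) (n : ι → Fin (m + 1))
    (i : ι) : ∑ j, v ((Function.update n i 0) j) ≤ ∑ j, v (n j) := by
  refine Finset.sum_le_sum fun j _ => ?_
  by_cases h : j = i
  · subst h
    simp only [Function.update_self, Fin.val_zero, hv0]
    exact hv _
  · rw [Function.update_of_ne h]

theorem mkv {m N : ℕ} {v : ℕ → ℝ} {l : ℝ} {V : Finset ι → ℝ} {μ : ℝ} (h : Vh V μ N) {s w : ℕ → ℝ}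
    (hs : ∀ a, 0 ≤ s a) (hs0 : s 0 = 1) (hv : ∀ a, 0 ≤ v a) (hv0 : v 0 = 0) (hw : ∀ a, 0 ≤ w a) (hw0 : w 0 = 0) :
    ∑ n ∈ Cf ι m N v l, (∑ i, w (n i)) * ms V s n ≤ μ * (∑ a ∈ Icc 1 m, s a * w a) * MM m N v l V s := by
  classical
  have hW : ∑ a : Fin (m + 1), s a * w a = ∑ a ∈ Icc 1 m, s a * w a := by
    rw [Fin.sum_univ_eq_sum_range (fun a => s a * w a) (m + 1), Finset.range_eq_Ico,
      Finset.sum_eq_sum_Ico_succ_bot (by omega), hw0, mul_zero, zero_add]
    rfl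
  have hW0 : 0 ≤ ∑ a : Fin (m + 1), s a * w a :=
    Finset.sum_nonneg fun a _ => mul_nonneg (hs _) (hw _)
  have hP0 : ∀ n : ι → Fin (m + 1), 0 ≤ ∏ j, s (n j) := fun n =>
    Finset.prod_nonneg fun j _ => hs _
  -- step 1
  have key : ∀ i : ι, ∑ n ∈ Cf ι m N v l, w (n i) * ms V s n
      ≤ ∑ n ∈ (Cf ι m N v l).filter (fun n => n i = 0 ∧ (sp n).card < N),
        (∑ a : Fin (m + 1), s a * w a) * ((∏ j, s (n j)) * V (insert i (sp n))) := by
    intro i
    have e1 : ∑ n ∈ Cf ι m N v l, w (n i) * ms V s n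
        = ∑ n ∈ (Cf ι m N v l).filter (fun n => n i ≠ 0), w (n i) * ms V s n := by
      symm
      apply Finset.sum_subset (Finset.filter_subset _ _)
      intro n hn hn2
      have : n i = 0 := by
        by_contra hne
        exact hn2 (Finset.mem_filter.2 ⟨hn, hne⟩)
      rw [this, Fin.val_zero, hw0, zero_mul]
    let F : (ι → Fin (m + 1)) × Fin (m + 1) → ℝ := fun p =>
      (s p.2 * w p.2) * ((∏ j, s (p.1 j)) * V (insert i (sp p.1)))
    have e2 : ∑ n ∈ (Cf ι m N v l).filter (fun n => n i ≠ 0), w (n i) * ms V s n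
        = ∑ n ∈ (Cf ι m N v l).filter (fun n => n i ≠ 0), F (Function.update n i 0, n i) := by
      refine Finset.sum_congr rfl fun n hn => ?_
      have hni : n i ≠ 0 := (Finset.mem_filter.1 hn).2
      have hmem : i ∈ sp n := by simp [sp, hni]
      simp only [F]
      rw [mkv_sp_erase, Finset.insert_erase hmem, ms, ← mkv_prod hs0 n i]
      ring
    rw [e1, e2]
    have hinj : Set.InjOn (fun n : ι → Fin (m + 1) => (Function.update n i 0, n i))
        ((Cf ι m N v l).filter (fun n => n i ≠ 0)) := by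
      intro n _ n' _ hnn
      simp only [Prod.mk.injEq] at hnn
      funext j
      by_cases hj : j = i
      · subst hj
        exact hnn.2
      · have := congrFun hnn.1 j
        rwa [Function.update_of_ne hj, Function.update_of_ne hj] at this
    rw [← Finset.sum_image (f := F) (g := fun n : ι → Fin (m + 1) => (Function.update n i 0, n i))
      hinj]
    have hsub : ((Cf ι m N v l).filter (fun n => n i ≠ 0)).image
        (fun n : ι → Fin (m + 1) => (Function.update n i 0, n i))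
        ⊆ ((Cf ι m N v l).filter (fun n => n i = 0 ∧ (sp n).card < N)) ×ˢ
          (univ : Finset (Fin (m + 1))) := by
      intro p hp
      obtain ⟨n, hn, rfl⟩ := Finset.mem_image.1 hp
      rw [Finset.mem_filter] at hn
      obtain ⟨hn1, hn2⟩ := hn
      have hmem : i ∈ sp n := by simp [sp, hn2]
      rw [Cf, Finset.mem_filter] at hn1
      obtain ⟨-, hn3, hn4⟩ := hn1
      have hc : ((sp n).erase i).card < (sp n).card := Finset.card_erase_lt_of_mem hmem
      rw [Finset.mem_product]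
      refine ⟨?_, Finset.mem_univ _⟩
      rw [Finset.mem_filter, Cf, Finset.mem_filter]
      simp only [mkv_sp_erase]
      refine ⟨⟨Finset.mem_univ _, by omega, (mkv_cost hv hv0 n i).trans hn4⟩,
        Function.update_self _ _ _, by omega⟩
    refine (Finset.sum_le_sum_of_subset_of_nonneg hsub fun p _ _ => ?_).trans (le_of_eq ?_)
    · exact mul_nonneg (mul_nonneg (hs _) (hw _)) (mul_nonneg (hP0 _) (h.nonneg _))
    · rw [Finset.sum_product]
      refine Finset.sum_congr rfl fun n _ => ?_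
      simp only [F]
      rw [Finset.sum_mul]
  -- step 2
  calc ∑ n ∈ Cf ι m N v l, (∑ i, w (n i)) * ms V s n
      = ∑ i, ∑ n ∈ Cf ι m N v l, w (n i) * ms V s n := by
        rw [Finset.sum_comm]
        exact Finset.sum_congr rfl fun n _ => Finset.sum_mul _ _ _
    _ ≤ ∑ i, ∑ n ∈ (Cf ι m N v l).filter (fun n => n i = 0 ∧ (sp n).card < N),
        (∑ a : Fin (m + 1), s a * w a) * ((∏ j, s (n j)) * V (insert i (sp n))) :=
        Finset.sum_le_sum fun i _ => key i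
    _ = ∑ n ∈ (Cf ι m N v l).filter (fun n => (sp n).card < N), ∑ i ∈ (sp n)ᶜ,
        (∑ a : Fin (m + 1), s a * w a) * ((∏ j, s (n j)) * V (insert i (sp n))) := by
        apply Finset.sum_comm'
        intro i n
        simp only [Finset.mem_univ, Finset.mem_filter, true_and, Finset.mem_compl, sp,
          not_not]
        tauto
    _ ≤ ∑ n ∈ (Cf ι m N v l).filter (fun n => (sp n).card < N),
        (∑ a : Fin (m + 1), s a * w a) * (μ * ms V s n) := by
        refine Finset.sum_le_sum fun n hn => ?_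
        rw [← Finset.mul_sum, ← Finset.mul_sum]
        refine mul_le_mul_of_nonneg_left ?_ hW0
        calc (∏ j, s (n j)) * ∑ i ∈ (sp n)ᶜ, V (insert i (sp n))
            ≤ (∏ j, s (n j)) * (μ * V (sp n)) :=
              mul_le_mul_of_nonneg_left (h.step _ (Finset.mem_filter.1 hn).2) (hP0 n)
          _ = μ * ms V s n := by rw [ms]; ring
    _ ≤ ∑ n ∈ Cf ι m N v l, (∑ a : Fin (m + 1), s a * w a) * (μ * ms V s n) := by
        refine Finset.sum_le_sum_of_subset_of_nonneg (Finset.filter_subset _ _) fun n _ _ => ?_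
        exact mul_nonneg hW0 (mul_nonneg h.μ_nonneg (mul_nonneg (h.nonneg _) (hP0 n)))
    _ = μ * (∑ a ∈ Icc 1 m, s a * w a) * MM m N v l V s := by
        rw [← Finset.mul_sum, ← Finset.mul_sum, MM, hW]
        ring

end H69PG

end S_H69_PG_Mkv

section S_H69_PG_Bdy

/-!
# BDY: the boundary terms

`0 ≤ om n ≤ 1` (`q ≥ 0`, `∑_{a=1}^m q_a = 1`), and `om n = 0` if `|sp n| < N` and `∑ v(n_i) + vm ≤ l` (all `a` are allowed). So for `n ∈ Cf`:
`om n ^ 2 ≤ |sp n|/N + (∑ v(n_i))/(l - vm)` (one of the two quotients is at least `1` if `om n ≠ 0`). The left side of `bdy` is at most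
`∑_{n ∈ Cf} om(n)^2 (∏ s(n)) ∑_{k ∉ sp n} V(insert k (sp n)) ≤ μ ∑_{n ∈ Cf} om(n)^2 ms(n)` (`n k = 0` iff `k ∉ sp n`), and `mkv` with `w = 1_{a ≠ 0}` and with `w = v`
gives the claim.
-/

open Finset

namespace H69PG

variable {ι : Type} [Fintype ι] [DecidableEq ι]

theorem om_nonneg {m N : ℕ} {v : ℕ → ℝ} {l : ℝ} {q : ℕ → ℝ} (hq : ∀ a, 0 ≤ q a) (hq1 : ∑ a ∈ Icc 1 m, q a = 1)
    (n : ι → Fin (m + 1)) : 0 ≤ om N v l q n := by
  classical
  unfold om
  have h : (∑ a ∈ Icc 1 m, if (sp n).card + 1 ≤ N ∧ ∑ i, v (n i) + v a ≤ l then q a else 0) ≤ ∑ a ∈ Icc 1 m, q a := by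
    refine Finset.sum_le_sum fun a _ => ?_
    split_ifs
    · exact le_refl _
    · exact hq a
  rw [hq1] at h
  have h' := sub_nonneg.2 h
  convert h'

theorem om_le_one {m N : ℕ} {v : ℕ → ℝ} {l : ℝ} {q : ℕ → ℝ} (hq : ∀ a, 0 ≤ q a)
    (n : ι → Fin (m + 1)) : om N v l q n ≤ 1 := by
  classical
  unfold om
  have h : 0 ≤ (∑ a ∈ Icc 1 m, if (sp n).card + 1 ≤ N ∧ ∑ i, v (n i) + v a ≤ l then q a else 0) := by
    refine Finset.sum_nonneg fun a _ => ?_
    split_ifs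
    · exact hq a
    · exact le_refl _
  have h' : (1 : ℝ) - (∑ a ∈ Icc 1 m, if (sp n).card + 1 ≤ N ∧ ∑ i, v (n i) + v a ≤ l then q a else 0) ≤ 1 := by
    linarith
  convert h'

theorem Bdy_om_sq_le {m N : ℕ} (hN : 1 ≤ N) {v : ℕ → ℝ} {l vm : ℝ}
    (hv : ∀ a, 0 ≤ v a) (hvm : ∀ a ∈ Icc 1 m, v a ≤ vm) (hl : vm < l)
    {q : ℕ → ℝ} (hq : ∀ a, 0 ≤ q a) (hq1 : ∑ a ∈ Icc 1 m, q a = 1)
    (n : ι → Fin (m + 1)) (hn : n ∈ Cf ι m N v l) :
    om N v l q n ^ 2 ≤ ((sp n).card : ℝ) / N + (∑ i, v (n i)) / (l - vm) := by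
  classical
  have h0 := om_nonneg (N := N) (v := v) (l := l) hq hq1 n
  have h1 := om_le_one (N := N) (v := v) (l := l) hq n
  have hsq : om N v l q n ^ 2 ≤ 1 := by nlinarith
  have hNr : (0 : ℝ) < N := by exact_mod_cast hN
  have hlv : 0 < l - vm := by linarith
  have hsv : 0 ≤ ∑ i, v (n i) := Finset.sum_nonneg fun i _ => hv _
  have hA : 0 ≤ ((sp n).card : ℝ) / N := by positivity
  have hB : 0 ≤ (∑ i, v (n i)) / (l - vm) := div_nonneg hsv hlv.le
  by_cases hc : (sp n).card + 1 ≤ N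
  · by_cases hd : ∑ i, v (n i) + vm ≤ l
    · have hz : om N v l q n = 0 := by
        unfold om
        have hs : (∑ a ∈ Icc 1 m, if (sp n).card + 1 ≤ N ∧ ∑ i, v (n i) + v a ≤ l then q a else 0) =
            ∑ a ∈ Icc 1 m, q a := by
          refine Finset.sum_congr rfl fun a ha => ?_
          rw [if_pos ⟨hc, by linarith [hvm a ha]⟩]
        rw [hq1] at hs
        have hs' : (1 : ℝ) - (∑ a ∈ Icc 1 m, if (sp n).card + 1 ≤ N ∧ ∑ i, v (n i) + v a ≤ l then q a else 0) = 0 := by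
          rw [hs]; norm_num
        convert hs'
      rw [hz]
      have : (0 : ℝ) ^ 2 = 0 := by norm_num
      rw [this]
      linarith
    · push Not at hd
      have : 1 ≤ (∑ i, v (n i)) / (l - vm) := by
        rw [le_div_iff₀ hlv]; linarith
      linarith
  · have hle : N ≤ (sp n).card := by omega
    have : (1 : ℝ) ≤ ((sp n).card : ℝ) / N := by
      rw [le_div_iff₀ hNr, one_mul]
      exact_mod_cast hle
    linarith

theorem bdy {m N : ℕ} (hN : 1 ≤ N) {v : ℕ → ℝ} {l vm : ℝ} {V : Finset ι → ℝ} {μ : ℝ} (h : Vh V μ (N + 1)) {s q : ℕ → ℝ}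
    (hs : ∀ a, 0 ≤ s a) (hs0 : s 0 = 1) (hv : ∀ a, 0 ≤ v a) (hv0 : v 0 = 0) (hvm : ∀ a ∈ Icc 1 m, v a ≤ vm) (hl : vm < l)
    (hq : ∀ a, 0 ≤ q a) (hq1 : ∑ a ∈ Icc 1 m, q a = 1) :
    ∑ k : ι, ∑ n ∈ (Cf ι m N v l).filter (fun n => n k = 0),
      om N v l q n ^ 2 * (V (insert k (sp n)) * ∏ i, s (n i)) ≤
        μ * (μ * (∑ a ∈ Icc 1 m, s a) / N + μ * (∑ a ∈ Icc 1 m, s a * v a) / (l - vm)) * MM m N v l V s := by
  classical
  have hNr : (0 : ℝ) < N := by exact_mod_cast hN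
  have hlv : 0 < l - vm := by linarith
  have hVh : Vh V μ N := ⟨h.nonneg, h.empty, h.μ_nonneg, fun A hA => h.step A (by omega)⟩
  have hms : ∀ n : ι → Fin (m + 1), 0 ≤ ms V s n := fun n =>
    mul_nonneg (h.nonneg _) (Finset.prod_nonneg fun i _ => hs _)
  -- swap the sums
  have e1 : ∑ k : ι, ∑ n ∈ (Cf ι m N v l).filter (fun n => n k = 0),
      om N v l q n ^ 2 * (V (insert k (sp n)) * ∏ i, s (n i)) =
      ∑ n ∈ Cf ι m N v l, ∑ k ∈ (sp n)ᶜ, om N v l q n ^ 2 * (V (insert k (sp n)) * ∏ i, s (n i)) := by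
    simp_rw [Finset.sum_filter]
    rw [Finset.sum_comm]
    refine Finset.sum_congr rfl fun n _ => ?_
    rw [← Finset.sum_filter]
    refine Finset.sum_congr ?_ fun _ _ => rfl
    ext k
    simp [sp]
  have e2 : ∀ n ∈ Cf ι m N v l, ∑ k ∈ (sp n)ᶜ, om N v l q n ^ 2 * (V (insert k (sp n)) * ∏ i, s (n i)) ≤
      om N v l q n ^ 2 * (μ * ms V s n) := by
    intro n hn
    have hcard : (sp n).card < N + 1 := by
      have := (Finset.mem_filter.1 hn).2.1
      omega
    have hst := h.step (sp n) hcard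
    rw [← Finset.mul_sum, ← Finset.sum_mul]
    refine mul_le_mul_of_nonneg_left ?_ (sq_nonneg _)
    unfold ms
    rw [← mul_assoc]
    exact mul_le_mul_of_nonneg_right hst (Finset.prod_nonneg fun i _ => hs _)
  let w : ℕ → ℝ := fun a => if a = 0 then 0 else 1
  have hcs : ∀ n : ι → Fin (m + 1), ((sp n).card : ℝ) = ∑ i, w (n i) := by
    intro n
    have : ∀ i, w (n i) = if n i ≠ 0 then (1 : ℝ) else 0 := by
      intro i
      show (if ((n i : Fin (m + 1)) : ℕ) = 0 then (0 : ℝ) else 1) = _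
      by_cases hi : n i = 0
      · simp [hi]
      · have : ((n i : Fin (m + 1)) : ℕ) ≠ 0 := fun hh => hi (Fin.ext (by simpa using hh))
        simp [hi, this]
    simp_rw [this]
    rw [← Finset.sum_filter]
    simp [sp]
  have hm1 := mkv (m := m) (l := l) hVh (s := s) (w := w) hs hs0 hv hv0
    (fun a => by show 0 ≤ (if a = 0 then (0 : ℝ) else 1); split_ifs <;> norm_num) (by simp [w])
  have hm2 := mkv (m := m) (l := l) hVh (s := s) (w := v) hs hs0 hv hv0 hv hv0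
  have hw1 : ∑ a ∈ Icc 1 m, s a * w a = ∑ a ∈ Icc 1 m, s a := by
    refine Finset.sum_congr rfl fun a ha => ?_
    have : a ≠ 0 := by have := (Finset.mem_Icc.1 ha).1; omega
    simp [w, this]
  rw [hw1] at hm1
  have e3 : ∀ n ∈ Cf ι m N v l, om N v l q n ^ 2 * (μ * ms V s n) ≤
      μ * (1 / N * ((∑ i, w (n i)) * ms V s n) + 1 / (l - vm) * ((∑ i, v (n i)) * ms V s n)) := by
    intro n hn
    have hb := Bdy_om_sq_le hN hv hvm hl hq hq1 n hn
    rw [hcs n] at hb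
    have hb2 := mul_le_mul_of_nonneg_right hb (mul_nonneg h.μ_nonneg (hms n))
    refine hb2.trans (le_of_eq ?_)
    ring
  calc ∑ k : ι, ∑ n ∈ (Cf ι m N v l).filter (fun n => n k = 0),
      om N v l q n ^ 2 * (V (insert k (sp n)) * ∏ i, s (n i))
      = ∑ n ∈ Cf ι m N v l, ∑ k ∈ (sp n)ᶜ, om N v l q n ^ 2 * (V (insert k (sp n)) * ∏ i, s (n i)) := e1
    _ ≤ ∑ n ∈ Cf ι m N v l, om N v l q n ^ 2 * (μ * ms V s n) := Finset.sum_le_sum e2
    _ ≤ ∑ n ∈ Cf ι m N v l, μ * (1 / N * ((∑ i, w (n i)) * ms V s n) + 1 / (l - vm) * ((∑ i, v (n i)) * ms V s n)) :=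
        Finset.sum_le_sum e3
    _ = μ * (1 / N * (∑ n ∈ Cf ι m N v l, (∑ i, w (n i)) * ms V s n) +
          1 / (l - vm) * (∑ n ∈ Cf ι m N v l, (∑ i, v (n i)) * ms V s n)) := by
        rw [← Finset.mul_sum, Finset.sum_add_distrib, ← Finset.mul_sum, ← Finset.mul_sum]
    _ ≤ μ * (1 / N * (μ * (∑ a ∈ Icc 1 m, s a) * MM m N v l V s) +
          1 / (l - vm) * (μ * (∑ a ∈ Icc 1 m, s a * v a) * MM m N v l V s)) := by
        refine mul_le_mul_of_nonneg_left ?_ h.μ_nonneg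
        have ha : (0 : ℝ) ≤ 1 / N := by positivity
        have hb : (0 : ℝ) ≤ 1 / (l - vm) := by positivity
        exact add_le_add (mul_le_mul_of_nonneg_left hm1 ha) (mul_le_mul_of_nonneg_left hm2 hb)
    _ = μ * (μ * (∑ a ∈ Icc 1 m, s a) / N + μ * (∑ a ∈ Icc 1 m, s a * v a) / (l - vm)) * MM m N v l V s := by
        ring

end H69PG

end S_H69_PG_Bdy

section S_H69_PG_Rgh

/-!
# RGH: the amplitude when one coordinate is rough

Split `Cf` according to `n k = 0` or `n k = a ≥ 1`. The configurations with `n k = a ≥ 1` are the `update n' k a`, `n' k = 0`, with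
`|sp n'| + 1 ≤ N` and `∑ v(n'_i) + v(a) ≤ l` (`v 0 = 0`; such an `n'` is in `Cf` because `v ≥ 0`), and
`∏ g_i(n_i) = g_k(a) ∏_{i ≠ k} g_i(n'_i) = -q_a ∏_i g_i(n'_i)` as `g_k(0) = 1`.
-/

open Finset

namespace H69PG

variable {ι : Type} [Fintype ι] [DecidableEq ι]

theorem Rgh_sp {m : ℕ} (n : ι → Fin (m + 1)) (k : ι) (h0 : n k = 0) {b : Fin (m + 1)} (hb : b ≠ 0) :
    (sp (Function.update n k b)).card = (sp n).card + 1 := by
  have e : sp (Function.update n k b) = insert k (sp n) := by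
    ext i
    unfold sp
    rw [mem_filter, mem_insert, mem_filter]
    by_cases hi : i = k
    · subst hi
      simp [hb]
    · rw [Function.update_of_ne hi]
      simp [hi]
  have hk : k ∉ sp n := by
    unfold sp
    rw [mem_filter]
    exact fun h => h.2 h0
  rw [e, card_insert_of_notMem hk]

theorem Rgh_sum {m : ℕ} {v : ℕ → ℝ} (hv0 : v 0 = 0) (n : ι → Fin (m + 1)) (k : ι) (h0 : n k = 0)
    (b : Fin (m + 1)) :
    ∑ i, v (Function.update n k b i) = ∑ i, v (n i) + v b := by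
  rw [← add_sum_erase univ (fun i => v (Function.update n k b i)) (mem_univ k),
    ← add_sum_erase univ (fun i => v (n i)) (mem_univ k)]
  have e : ∑ i ∈ univ.erase k, v (Function.update n k b i) = ∑ i ∈ univ.erase k, v (n i) := by
    refine sum_congr rfl fun i hi => ?_
    rw [Function.update_of_ne (ne_of_mem_erase hi)]
  rw [e, Function.update_self, h0, Fin.val_zero, hv0]
  ring

theorem Rgh_prod {m : ℕ} {g : ι → ℕ → ℕ → ℝ} {t : ℕ} (hg0 : ∀ i, g i 0 t = 1) (n : ι → Fin (m + 1)) (k : ι)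
    (h0 : n k = 0) (b : Fin (m + 1)) :
    ∏ i, g i (Function.update n k b i) t = g k b t * ∏ i, g i (n i) t := by
  rw [← mul_prod_erase univ (fun i => g i (Function.update n k b i) t) (mem_univ k),
    ← mul_prod_erase univ (fun i => g i (n i) t) (mem_univ k)]
  have e : ∏ i ∈ univ.erase k, g i (Function.update n k b i) t = ∏ i ∈ univ.erase k, g i (n i) t := by
    refine prod_congr rfl fun i hi => ?_
    rw [Function.update_of_ne (ne_of_mem_erase hi)]
  rw [e, Function.update_self, h0, Fin.val_zero, hg0, one_mul]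

theorem Rgh_mem {m N : ℕ} {v : ℕ → ℝ} {l : ℝ} (n : ι → Fin (m + 1)) :
    n ∈ Cf ι m N v l ↔ (sp n).card ≤ N ∧ ∑ i, v (n i) ≤ l := by
  classical
  unfold Cf
  rw [mem_filter]
  simp

open Classical in
theorem Rgh_split {m N : ℕ} {v : ℕ → ℝ} {l : ℝ} {q : ℕ → ℝ} (hv : ∀ a, 0 ≤ v a) (hv0 : v 0 = 0)
    {g : ι → ℕ → ℕ → ℝ} {t : ℕ} (hg0 : ∀ i, g i 0 t = 1) {k : ι} (hr : ∀ a ∈ Icc 1 m, g k a t = - q a) :
    ∑ n ∈ (Cf ι m N v l).filter (fun n => ¬ n k = 0), ∏ i, g i (n i) t =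
      ∑ x ∈ (((Cf ι m N v l).filter (fun n => n k = 0)) ×ˢ Icc 1 m).filter
        (fun x => (sp x.1).card + 1 ≤ N ∧ ∑ i, v (x.1 i) + v x.2 ≤ l), -(q x.2 * ∏ i, g i (x.1 i) t) := by
  have hupd : ∀ n : ι → Fin (m + 1), Function.update (Function.update n k 0) k (n k) = n := by
    intro n
    rw [Function.update_idem, Function.update_eq_self]
  have h0 : ∀ n : ι → Fin (m + 1), (Function.update n k 0 : ι → Fin (m + 1)) k = 0 := fun n => Function.update_self k 0 n
  refine sum_bij' (fun n _ => (Function.update n k 0, (n k : ℕ))) (fun x _ => Function.update x.1 k (Fin.ofNat (m + 1) x.2))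
    ?_ ?_ ?_ ?_ ?_
  · intro n hn
    rw [mem_filter, Rgh_mem] at hn
    obtain ⟨⟨h1, h2⟩, h3⟩ := hn
    have e1 := Rgh_sp (Function.update n k 0) k (h0 n) h3
    have e2 := Rgh_sum hv0 (Function.update n k 0) k (h0 n) (n k)
    rw [hupd] at e1 e2
    have h4 := hv (n k : ℕ)
    have h5 : (sp (Function.update n k 0)).card + 1 ≤ N := by rw [← e1]; exact h1
    have h6 : ∑ i, v (Function.update n k 0 i) + v (n k) ≤ l := by rw [← e2]; exact h2
    rw [mem_filter, mem_product, mem_filter, Rgh_mem, mem_Icc]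
    refine ⟨⟨⟨⟨(Nat.le_succ _).trans h5, by linarith⟩, h0 n⟩, ?_, ?_⟩, h5, h6⟩
    · rw [Nat.one_le_iff_ne_zero]
      intro h
      exact h3 (Fin.ext h)
    · exact Nat.lt_succ_iff.mp (n k).2
  · intro x hx
    rw [mem_filter, mem_product, mem_filter, Rgh_mem, mem_Icc] at hx
    obtain ⟨⟨⟨⟨h1, h2⟩, h3⟩, h4, h5⟩, h6, h7⟩ := hx
    have hval : ((Fin.ofNat (m + 1) x.2 : Fin (m + 1)) : ℕ) = x.2 := Nat.mod_eq_of_lt (by omega)
    have hne : (Fin.ofNat (m + 1) x.2 : Fin (m + 1)) ≠ 0 := by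
      intro h
      have := congrArg Fin.val h
      rw [hval, Fin.val_zero] at this
      omega
    rw [mem_filter, Rgh_mem, Rgh_sp x.1 k h3 hne, Rgh_sum hv0 x.1 k h3, hval, Function.update_self]
    exact ⟨⟨h6, h7⟩, hne⟩
  · intro n hn
    have hval : (Fin.ofNat (m + 1) (n k : ℕ) : Fin (m + 1)) = n k := Fin.ext (Nat.mod_eq_of_lt (n k).2)
    change Function.update (Function.update n k 0) k (Fin.ofNat (m + 1) (n k : ℕ)) = n
    rw [hval, hupd]
  · intro x hx
    rw [mem_filter, mem_product, mem_filter, Rgh_mem, mem_Icc] at hx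
    obtain ⟨⟨⟨⟨h1, h2⟩, h3⟩, h4, h5⟩, h6, h7⟩ := hx
    have hval : ((Fin.ofNat (m + 1) x.2 : Fin (m + 1)) : ℕ) = x.2 := Nat.mod_eq_of_lt (by omega)
    refine Prod.ext ?_ ?_
    · change Function.update (Function.update x.1 k (Fin.ofNat (m + 1) x.2)) k 0 = x.1
      rw [Function.update_idem, ← h3, Function.update_eq_self]
    · change ((Function.update x.1 k (Fin.ofNat (m + 1) x.2) k : Fin (m + 1)) : ℕ) = x.2
      rw [Function.update_self, hval]
  · intro n hn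
    rw [mem_filter, Rgh_mem] at hn
    obtain ⟨⟨h1, h2⟩, h3⟩ := hn
    have e1 := Rgh_prod hg0 (Function.update n k 0) k (h0 n) (n k)
    rw [hupd] at e1
    change ∏ i, g i (n i) t = -(q (n k : ℕ) * ∏ i, g i (Function.update n k 0 i) t)
    rw [e1, hr (n k : ℕ) (mem_Icc.mpr ⟨?_, Nat.lt_succ_iff.mp (n k).2⟩)]
    · ring
    · rw [Nat.one_le_iff_ne_zero]
      intro h
      exact h3 (Fin.ext h)

theorem rgh {m N : ℕ} {v : ℕ → ℝ} {l : ℝ} {q : ℕ → ℝ} (hv : ∀ a, 0 ≤ v a) (hv0 : v 0 = 0)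
    {g : ι → ℕ → ℕ → ℝ} {t : ℕ} (hg0 : ∀ i, g i 0 t = 1) {k : ι} (hr : ∀ a ∈ Icc 1 m, g k a t = - q a) :
    Ps m N v l g t = ∑ n ∈ (Cf ι m N v l).filter (fun n => n k = 0), om N v l q n * ∏ i, g i (n i) t := by
  classical
  unfold Ps
  rw [← sum_filter_add_sum_filter_not (Cf ι m N v l) (fun n => n k = 0), Rgh_split hv hv0 hg0 hr,
    sum_filter (fun x : (ι → Fin (m + 1)) × ℕ => (sp x.1).card + 1 ≤ N ∧ ∑ i, v (x.1 i) + v x.2 ≤ l), sum_product,
    ← sum_add_distrib]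
  refine sum_congr rfl fun n hn => ?_
  unfold om
  rw [sub_mul, one_mul, sub_eq_add_neg, sum_mul, ← sum_neg_distrib]
  congr 1
  refine sum_congr rfl fun a ha => ?_
  split_ifs
  · rfl
  · rw [zero_mul, neg_zero]

end H69PG

end S_H69_PG_Rgh

section S_H69_PG_Upr

/-!
# UPR: the weighted number of rough values from above

For `ρ k t` (`t ∈ T`) by `rgh` `Ps(t) = P_k(t) := ∑_{n ∈ Cf, n k = 0} om(n) ∏ g(n)`, and `1 ≤ β_k(t)`; so
`∑_{t ∈ T, ρ k t} Ps(t)^2 ≤ ∑_{t ∈ T} P_k(t)^2 β_k(t) = ∑_{n, n'} om(n) om(n') ∑_t ∏ g(n) g(n') β_k`. Insert `h2`, `0 ≤ om ≤ 1`; sum over `k`; `bdy` and `pairs2`.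
-/

open Finset

namespace H69PG

variable {ι : Type} [Fintype ι] [DecidableEq ι]

open Classical in
theorem upr {m N : ℕ} (hN : 1 ≤ N) {v : ℕ → ℝ} {l vm : ℝ} {V : Finset ι → ℝ} {μ : ℝ} (h : Vh V μ (2 * N + 1)) {s q : ℕ → ℝ}
    (hs : ∀ a, 0 ≤ s a) (hs0 : s 0 = 1) (hv : ∀ a, 0 ≤ v a) (hv0 : v 0 = 0) (hvm : ∀ a ∈ Icc 1 m, v a ≤ vm) (hl : vm < l)
    (hq : ∀ a, 0 ≤ q a) (hq1 : ∑ a ∈ Icc 1 m, q a = 1)
    {T : Finset ℕ} {g : ι → ℕ → ℕ → ℝ} {β : ι → ℕ → ℝ} {ρ : ι → ℕ → Prop} {η G : ℝ} (hη : 0 ≤ η) (hG : 0 ≤ G)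
    (hg0 : ∀ i t, g i 0 t = 1) (hβ : ∀ i t, 0 ≤ β i t)
    (hρ : ∀ i, ∀ t ∈ T, ρ i t → 1 ≤ β i t ∧ ∀ a ∈ Icc 1 m, g i a t = - q a)
    (h2 : ∀ k : ι, ∀ n ∈ Cf ι m N v l, ∀ n' ∈ Cf ι m N v l, n k = 0 → n' k = 0 →
      |∑ t ∈ T, (∏ i, (g i (n i) t * g i (n' i) t)) * β k t -
          (T.card : ℝ) * (if n = n' then G * (V (insert k (sp n)) * ∏ i, s (n i)) else 0)| ≤
        (T.card : ℝ) * (η * V (insert k (sp n ∪ sp n')))) :
    ∑ k : ι, ∑ t ∈ T.filter (fun t => ρ k t), Ps m N v l g t ^ 2 ≤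
      (T.card : ℝ) * (G * (μ * (μ * (∑ a ∈ Icc 1 m, s a) / N + μ * (∑ a ∈ Icc 1 m, s a * v a) / (l - vm))
        * MM m N v l V s) + η * ((2 * (N : ℝ) + 1) * (1 + ((m : ℝ) + 1) ^ 2 * μ) ^ (2 * N + 1))) := by
  have hV1 : Vh V μ (N + 1) :=
    ⟨h.nonneg, h.empty, h.μ_nonneg, fun A hA => h.step A (by omega)⟩
  have hb := bdy hN (v := v) (l := l) (vm := vm) hV1 hs hs0 hv hv0 hvm hl hq hq1
  have hp := pairs2 (m := m) (v := v) (l := l) h
  have hT : (0 : ℝ) ≤ T.card := Nat.cast_nonneg _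
  have key : ∀ k : ι, ∑ t ∈ T.filter (fun t => ρ k t), Ps m N v l g t ^ 2 ≤
      (T.card : ℝ) * (G * (∑ n ∈ (Cf ι m N v l).filter (fun n => n k = 0),
        om N v l q n ^ 2 * (V (insert k (sp n)) * ∏ i, s (n i)))) +
      (T.card : ℝ) * (η * (∑ n ∈ (Cf ι m N v l).filter (fun n => n k = 0),
        ∑ n' ∈ (Cf ι m N v l).filter (fun n => n k = 0), V (insert k (sp n ∪ sp n')))) := by
    intro k
    set F := (Cf ι m N v l).filter (fun n => n k = 0) with hF
    set R : ℕ → ℝ := fun t => ∑ n ∈ F, om N v l q n * ∏ i, g i (n i) t with hR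
    have s1 : ∑ t ∈ T.filter (fun t => ρ k t), Ps m N v l g t ^ 2 ≤ ∑ t ∈ T, R t ^ 2 * β k t := by
      calc ∑ t ∈ T.filter (fun t => ρ k t), Ps m N v l g t ^ 2
          ≤ ∑ t ∈ T.filter (fun t => ρ k t), R t ^ 2 * β k t := by
            apply Finset.sum_le_sum
            intro t ht
            rw [Finset.mem_filter] at ht
            obtain ⟨h1, h3⟩ := hρ k t ht.1 ht.2
            have : Ps m N v l g t = R t := rgh hv hv0 (fun i => hg0 i t) h3
            rw [this]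
            nlinarith [sq_nonneg (R t)]
        _ ≤ ∑ t ∈ T, R t ^ 2 * β k t := by
            apply Finset.sum_le_sum_of_subset_of_nonneg (Finset.filter_subset _ _)
            intro t _ _
            exact mul_nonneg (sq_nonneg _) (hβ k t)
    have s2 : ∑ t ∈ T, R t ^ 2 * β k t = ∑ n ∈ F, ∑ n' ∈ F, om N v l q n * om N v l q n' *
        ∑ t ∈ T, (∏ i, (g i (n i) t * g i (n' i) t)) * β k t := by
      have e1 : ∀ t, R t ^ 2 * β k t = ∑ n ∈ F, ∑ n' ∈ F, om N v l q n * om N v l q n' *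
          ((∏ i, (g i (n i) t * g i (n' i) t)) * β k t) := by
        intro t
        rw [hR, sq, Finset.sum_mul_sum, Finset.sum_mul]
        apply Finset.sum_congr rfl
        intro n _
        rw [Finset.sum_mul]
        apply Finset.sum_congr rfl
        intro n' _
        rw [Finset.prod_mul_distrib]
        ring
      simp only [e1]
      rw [Finset.sum_comm]
      apply Finset.sum_congr rfl
      intro n _
      rw [Finset.sum_comm]
      apply Finset.sum_congr rfl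
      intro n' _
      rw [Finset.mul_sum]
    have s3 : ∀ n ∈ F, ∀ n' ∈ F, om N v l q n * om N v l q n' *
        ∑ t ∈ T, (∏ i, (g i (n i) t * g i (n' i) t)) * β k t ≤
        (if n = n' then (T.card : ℝ) * (G * (om N v l q n ^ 2 * (V (insert k (sp n)) * ∏ i, s (n i)))) else 0) +
        (T.card : ℝ) * (η * V (insert k (sp n ∪ sp n'))) := by
      intro n hn n' hn'
      rw [hF, Finset.mem_filter] at hn hn'
      have h3 := (abs_le.mp (h2 k n hn.1 n' hn'.1 hn.2 hn'.2)).2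
      have o1 := om_nonneg (N := N) (v := v) (l := l) hq hq1 n
      have o2 := om_nonneg (N := N) (v := v) (l := l) hq hq1 n'
      have o3 := om_le_one (N := N) (v := v) (l := l) hq n
      have o4 := om_le_one (N := N) (v := v) (l := l) hq n'
      have o5 : 0 ≤ om N v l q n * om N v l q n' := mul_nonneg o1 o2
      have o6 : om N v l q n * om N v l q n' ≤ 1 := mul_le_one₀ o3 o2 o4
      have hE : 0 ≤ (T.card : ℝ) * (η * V (insert k (sp n ∪ sp n'))) :=
        mul_nonneg hT (mul_nonneg hη (h.nonneg _))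
      have h4 := mul_le_mul_of_nonneg_left (sub_le_iff_le_add.mp h3) o5
      refine h4.trans ?_
      rw [mul_add]
      have h5 : om N v l q n * om N v l q n' * ((T.card : ℝ) * (η * V (insert k (sp n ∪ sp n')))) ≤
          (T.card : ℝ) * (η * V (insert k (sp n ∪ sp n'))) := by
        nlinarith
      by_cases hnn : n = n'
      · subst hnn
        rw [if_pos rfl, if_pos rfl]
        have : om N v l q n * om N v l q n * ((T.card : ℝ) * (G * (V (insert k (sp n)) * ∏ i, s (n i)))) =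
            (T.card : ℝ) * (G * (om N v l q n ^ 2 * (V (insert k (sp n)) * ∏ i, s (n i)))) := by ring
        linarith
      · rw [if_neg hnn, if_neg hnn]
        linarith
    refine s1.trans ?_
    rw [s2]
    refine (Finset.sum_le_sum (fun n hn => Finset.sum_le_sum (fun n' hn' => s3 n hn n' hn'))).trans ?_
    have s4 : ∑ n ∈ F, ∑ n' ∈ F, ((if n = n' then (T.card : ℝ) * (G * (om N v l q n ^ 2 * (V (insert k (sp n)) * ∏ i, s (n i)))) else 0) +
        (T.card : ℝ) * (η * V (insert k (sp n ∪ sp n')))) =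
        (T.card : ℝ) * (G * (∑ n ∈ F, om N v l q n ^ 2 * (V (insert k (sp n)) * ∏ i, s (n i)))) +
        (T.card : ℝ) * (η * (∑ n ∈ F, ∑ n' ∈ F, V (insert k (sp n ∪ sp n')))) := by
      simp only [Finset.sum_add_distrib, Finset.mul_sum]
      congr 1
      apply Finset.sum_congr rfl
      intro n hn
      rw [Finset.sum_eq_single n]
      · rw [if_pos rfl]
      · intro b _ hb
        rw [if_neg (Ne.symm hb)]
      · intro h'
        exact absurd hn h'
    rw [s4]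
  refine (Finset.sum_le_sum (fun k _ => key k)).trans ?_
  rw [Finset.sum_add_distrib, ← Finset.mul_sum, ← Finset.mul_sum, ← Finset.mul_sum, ← Finset.mul_sum, mul_add]
  apply add_le_add
  · exact mul_le_mul_of_nonneg_left (mul_le_mul_of_nonneg_left hb hG) hT
  · exact mul_le_mul_of_nonneg_left (mul_le_mul_of_nonneg_left hp hη) hT

end H69PG

end S_H69_PG_Upr

section S_H69_PG_Frt

/-!
# FRT: the fourth moment

Let `t ∈ T`, `Y = {i : th i t = 1}`, `y = |Y|`. A configuration with an active coordinate outside `Y` contributes `0` (`|g i a t| ≤ C0 th i t`), and the others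
at most `C0^|sp n|` (we assume `C0 ≥ 1`); there are at most `m^j` configurations with a given support of size `j`, and at most `(1+y)^N` subsets of `Y` with at most `N` elements
(`∑_{j ≤ N} choose(y,j) ≤ (1+y)^N`). So `|Ps(t)| ≤ (m C0)^N (1+y)^N` if `m ≥ 1` (and `Ps = 1` at most if `m = 0`: the only configuration is `0`); in all cases
`|Ps(t)| ≤ (1 + m C0)^N (1+y)^N`. With `M = 4N`: `(1+y)^M ≤ M! choose(y+M, M)` (`choose(y+M,M) = ∏_{i=1}^M (y+i)/M!`) and
`choose(y+M,M) = ∑_j choose(y,j) choose(M,M-j) ≤ 2^M ∑_{j ≤ M} choose(y,j)` (Vandermonde). `∑_t choose(y,j) = ∑_{|U| = j} ∑_t ∏_{i ∈ U} th i t ≤ 2 |T| ∑_{|U|=j} V(U) ≤ 2 |T| μ^j/j!`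
(`vsum`), and `∑_{j ≤ M} μ^j/j! ≤ (1+μ)^M`.
-/

open Finset

namespace H69PG

variable {ι : Type} [Fintype ι] [DecidableEq ι]

/-- the number of configurations with a given support -/
private theorem Frt_fib {m : ℕ} (U : Finset ι) :
    ((univ : Finset (ι → Fin (m + 1))).filter (fun n => sp n = U)).card = m ^ U.card := by
  have h1 : (univ : Finset (ι → Fin (m + 1))).filter (fun n => sp n = U) =
      Fintype.piFinset (fun i => if i ∈ U then (univ : Finset (Fin (m + 1))).erase 0 else {0}) := by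
    ext n
    rw [mem_filter, Fintype.mem_piFinset]
    simp only [mem_univ, true_and]
    constructor
    · intro h i
      by_cases hi : i ∈ U
      · rw [if_pos hi, mem_erase]
        rw [← h] at hi
        exact ⟨(mem_filter.1 hi).2, mem_univ _⟩
      · rw [if_neg hi, mem_singleton]
        by_contra hcon
        exact hi (h ▸ mem_filter.2 ⟨mem_univ i, hcon⟩)
    · intro h
      ext i
      rw [sp, mem_filter]
      have h2 := h i
      by_cases hi : i ∈ U
      · rw [if_pos hi, mem_erase] at h2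
        exact ⟨fun _ => hi, fun _ => ⟨mem_univ i, h2.1⟩⟩
      · rw [if_neg hi, mem_singleton] at h2
        exact ⟨fun h3 => absurd h2 h3.2, fun h3 => absurd h3 hi⟩
  rw [h1, Fintype.card_piFinset]
  have h2 : ∀ i, (if i ∈ U then (univ : Finset (Fin (m + 1))).erase 0 else {0}).card =
      if i ∈ U then m else 1 := by
    intro i
    by_cases hi : i ∈ U
    · rw [if_pos hi, if_pos hi, card_erase_of_mem (mem_univ _), card_univ, Fintype.card_fin]
      omega
    · rw [if_neg hi, if_neg hi, card_singleton]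
  simp only [h2]
  rw [prod_ite, prod_const, prod_const_one, mul_one]
  congr 2
  ext i
  simp

/-- the amplitude as a sum over supports -/
private theorem Frt_abs {m N : ℕ} {v : ℕ → ℝ} {l : ℝ} {T : Finset ℕ} {g : ι → ℕ → ℕ → ℝ}
    {th : ι → ℕ → ℝ} {C0 : ℝ} (hC0 : 1 ≤ C0)
    (hg0 : ∀ i t, g i 0 t = 1) (hth : ∀ i t, th i t = 0 ∨ th i t = 1)
    (hg : ∀ i, ∀ t ∈ T, ∀ a ∈ Icc 1 m, |g i a t| ≤ C0 * th i t) {t : ℕ} (ht : t ∈ T) :
    |Ps m N v l g t| ≤ ∑ U ∈ (univ : Finset (Finset ι)).filter (fun U => U.card ≤ N),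
      (m * C0) ^ U.card * ∏ i ∈ U, th i t := by
  have hth0 : ∀ i, 0 ≤ th i t := by
    intro i
    rcases hth i t with h | h <;> rw [h] <;> norm_num
  have hC00 : 0 ≤ C0 := by linarith
  have hF0 : ∀ U : Finset ι, 0 ≤ ∏ i ∈ U, (C0 * th i t) :=
    fun U => prod_nonneg fun i _ => mul_nonneg hC00 (hth0 i)
  have h1 : ∀ n : ι → Fin (m + 1), |∏ i, g i (n i) t| ≤ ∏ i ∈ sp n, (C0 * th i t) := by
    intro n
    rw [abs_prod]
    have h2 : ∏ i, |g i (n i) t| = ∏ i ∈ sp n, |g i (n i) t| := by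
      symm
      refine prod_subset (subset_univ _) fun i _ hi => ?_
      have h3 : n i = 0 := by
        by_contra hcon
        exact hi (mem_filter.2 ⟨mem_univ i, hcon⟩)
      rw [h3]
      have h4 : ((0 : Fin (m + 1)) : ℕ) = 0 := rfl
      rw [h4, hg0, abs_one]
    rw [h2]
    refine prod_le_prod (fun i _ => abs_nonneg _) fun i hi => ?_
    have h3 : n i ≠ 0 := (mem_filter.1 hi).2
    have h4 : (n i : ℕ) ≠ 0 := fun h5 => h3 (Fin.ext h5)
    have h5 := (n i).2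
    exact hg i t ht _ (mem_Icc.2 ⟨by omega, by omega⟩)
  have h2 : |Ps m N v l g t| ≤ ∑ n ∈ Cf ι m N v l, ∏ i ∈ sp n, (C0 * th i t) := by
    unfold Ps
    exact (abs_sum_le_sum_abs _ _).trans (sum_le_sum fun n _ => h1 n)
  have h3 : ∑ n ∈ Cf ι m N v l, ∏ i ∈ sp n, (C0 * th i t) ≤
      ∑ n ∈ (univ : Finset (ι → Fin (m + 1))).filter (fun n => (sp n).card ≤ N),
        ∏ i ∈ sp n, (C0 * th i t) := by
    refine sum_le_sum_of_subset_of_nonneg ?_ fun n _ _ => hF0 _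
    intro n hn
    unfold Cf at hn
    exact mem_filter.2 ⟨mem_univ n, (mem_filter.1 hn).2.1⟩
  have h4 : ∑ n ∈ (univ : Finset (ι → Fin (m + 1))).filter (fun n => (sp n).card ≤ N),
        ∏ i ∈ sp n, (C0 * th i t) =
      ∑ U ∈ (univ : Finset (Finset ι)).filter (fun U => U.card ≤ N),
        ∑ n ∈ ((univ : Finset (ι → Fin (m + 1))).filter (fun n => (sp n).card ≤ N)).filter
          (fun n => sp n = U), ∏ i ∈ sp n, (C0 * th i t) := by
    symm
    refine sum_fiberwise_of_maps_to (fun n hn => ?_) _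
    exact mem_filter.2 ⟨mem_univ _, (mem_filter.1 hn).2⟩
  refine h2.trans (h3.trans (le_of_eq h4 |>.trans (sum_le_sum fun U hU => ?_)))
  have h5 : ∑ n ∈ ((univ : Finset (ι → Fin (m + 1))).filter (fun n => (sp n).card ≤ N)).filter
          (fun n => sp n = U), ∏ i ∈ sp n, (C0 * th i t) ≤
      ∑ n ∈ (univ : Finset (ι → Fin (m + 1))).filter (fun n => sp n = U),
        ∏ i ∈ sp n, (C0 * th i t) := by
    refine sum_le_sum_of_subset_of_nonneg ?_ fun n _ _ => hF0 _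
    intro n hn
    exact mem_filter.2 ⟨mem_univ n, (mem_filter.1 hn).2⟩
  refine h5.trans (le_of_eq ?_)
  rw [sum_congr rfl (fun n hn => by rw [(mem_filter.1 hn).2]), sum_const, Frt_fib, prod_mul_distrib,
    prod_const, nsmul_eq_mul, mul_pow]
  push_cast
  ring

/-- sums over the sets of a given size -/
private theorem Frt_cnt {th : ι → ℕ → ℝ} (hth : ∀ i t, th i t = 0 ∨ th i t = 1) (t j : ℕ) :
    ∑ U ∈ (univ : Finset (Finset ι)).filter (fun U => U.card = j), ∏ i ∈ U, th i t =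
      ((((univ : Finset ι).filter (fun i => th i t = 1)).card.choose j : ℕ) : ℝ) := by
  classical
  have h1 : ((univ : Finset ι).filter (fun i => th i t = 1)).powersetCard j ⊆
      (univ : Finset (Finset ι)).filter (fun U => U.card = j) := by
    intro U hU
    exact mem_filter.2 ⟨mem_univ U, (mem_powersetCard.1 hU).2⟩
  rw [← sum_subset h1 (fun U hU hU2 => ?_)]
  · rw [sum_congr rfl (g := fun _ => (1 : ℝ)) (fun U hU => ?_), sum_const, card_powersetCard,
      nsmul_eq_mul, mul_one]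
    refine prod_eq_one fun i hi => ?_
    exact (mem_filter.1 ((mem_powersetCard.1 hU).1 hi)).2
  · have h2 : ∃ i ∈ U, th i t ≠ 1 := by
      by_contra hcon
      push Not at hcon
      refine hU2 (mem_powersetCard.2 ⟨fun i hi => mem_filter.2 ⟨mem_univ i, hcon i hi⟩, ?_⟩)
      exact (mem_filter.1 hU).2
    obtain ⟨i, hi, hi1⟩ := h2
    exact prod_eq_zero hi ((hth i t).resolve_right hi1)

private theorem Frt_choose (y N : ℕ) : ∑ j ∈ range (N + 1), y.choose j ≤ (1 + y) ^ N := by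
  rw [add_comm 1 y, add_pow]
  refine sum_le_sum fun j hj => ?_
  have hj' : j ≤ N := by
    have := mem_range.1 hj
    omega
  rw [one_pow, mul_one, Nat.cast_id]
  calc y.choose j ≤ y ^ j := Nat.choose_le_pow y j
    _ = y ^ j * 1 := (mul_one _).symm
    _ ≤ y ^ j * N.choose j := Nat.mul_le_mul_left _ (Nat.choose_pos hj')

private theorem Frt_pow (y M : ℕ) :
    (1 + y) ^ M ≤ M.factorial * (2 ^ M * ∑ j ∈ range (M + 1), y.choose j) := by
  have h1 : (y + 1) ^ M ≤ (y + 1).ascFactorial M := Nat.pow_succ_le_ascFactorial (y + 1) M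
  rw [Nat.ascFactorial_eq_factorial_mul_choose] at h1
  rw [add_comm 1 y]
  refine h1.trans (Nat.mul_le_mul_left _ ?_)
  rw [Nat.add_choose_eq, Finset.Nat.sum_antidiagonal_eq_sum_range_succ_mk, mul_sum]
  refine sum_le_sum fun j _ => ?_
  rw [mul_comm (2 ^ M)]
  exact Nat.mul_le_mul_left _ (Nat.choose_le_two_pow _ _)

/-- sets of size at most `N` by their size -/
private theorem Frt_grp (F : Finset ι → ℝ) (N : ℕ) :
    ∑ U ∈ (univ : Finset (Finset ι)).filter (fun U => U.card ≤ N), F U =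
      ∑ j ∈ range (N + 1), ∑ U ∈ (univ : Finset (Finset ι)).filter (fun U => U.card = j), F U := by
  rw [← sum_fiberwise_of_maps_to (s := (univ : Finset (Finset ι)).filter (fun U => U.card ≤ N))
    (t := range (N + 1)) (g := fun U => U.card) (fun U hU => ?_)]
  · refine sum_congr rfl fun j hj => ?_
    congr 1
    ext U
    simp only [mem_filter, mem_univ, true_and]
    constructor
    · exact fun h => h.2
    · intro h
      have := mem_range.1 hj
      exact ⟨by omega, h⟩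
  · have := (mem_filter.1 hU).2
    exact mem_range.2 (by omega)

theorem frt {m N : ℕ} {v : ℕ → ℝ} {l : ℝ} {V : Finset ι → ℝ} {μ : ℝ} (h : Vh V μ (4 * N))
    {T : Finset ℕ} {g : ι → ℕ → ℕ → ℝ} {th : ι → ℕ → ℝ} {C0 : ℝ} (hC0 : 1 ≤ C0)
    (hg0 : ∀ i t, g i 0 t = 1) (hth : ∀ i t, th i t = 0 ∨ th i t = 1)
    (hg : ∀ i, ∀ t ∈ T, ∀ a ∈ Icc 1 m, |g i a t| ≤ C0 * th i t)
    (h4 : ∀ U : Finset ι, U.card ≤ 4 * N → ∑ t ∈ T, ∏ i ∈ U, th i t ≤ 2 * (T.card : ℝ) * V U) :
    ∑ t ∈ T, Ps m N v l g t ^ 4 ≤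
      (T.card : ℝ) * ((1 + m * C0) ^ (4 * N) * ((4 * N).factorial : ℝ) * 2 ^ (4 * N + 1) * (1 + μ) ^ (4 * N)) := by
  have hμ := h.μ_nonneg
  have hmC : 0 ≤ (m : ℝ) * C0 := mul_nonneg (Nat.cast_nonneg m) (by linarith)
  have hc1 : (1 : ℝ) ≤ 1 + m * C0 := by linarith
  -- the bound for one `t`
  have h1 : ∀ t ∈ T, Ps m N v l g t ^ 4 ≤ (1 + m * C0) ^ (4 * N) *
      (((4 * N).factorial : ℝ) * (2 ^ (4 * N) * ∑ j ∈ range (4 * N + 1),
        ∑ U ∈ (univ : Finset (Finset ι)).filter (fun U => U.card = j), ∏ i ∈ U, th i t)) := by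
    intro t ht
    have hth0 : ∀ i, 0 ≤ th i t := by
      intro i
      rcases hth i t with h | h <;> rw [h] <;> norm_num
    have h2 := Frt_abs (v := v) (l := l) (N := N) hC0 hg0 hth hg ht
    have h3 : ∑ U ∈ (univ : Finset (Finset ι)).filter (fun U => U.card ≤ N),
        (m * C0) ^ U.card * ∏ i ∈ U, th i t ≤ (1 + m * C0) ^ N *
          ∑ U ∈ (univ : Finset (Finset ι)).filter (fun U => U.card ≤ N), ∏ i ∈ U, th i t := by
      rw [mul_sum]
      refine sum_le_sum fun U hU => ?_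
      refine mul_le_mul_of_nonneg_right ?_ (prod_nonneg fun i _ => hth0 i)
      calc (m * C0) ^ U.card ≤ (1 + m * C0) ^ U.card := pow_le_pow_left₀ hmC (by linarith) _
        _ ≤ (1 + m * C0) ^ N := pow_le_pow_right₀ hc1 (mem_filter.1 hU).2
    have hR : ∑ U ∈ (univ : Finset (Finset ι)).filter (fun U => U.card ≤ N), ∏ i ∈ U, th i t =
        ∑ j ∈ range (N + 1),
        ((((univ : Finset ι).filter (fun i => th i t = 1)).card.choose j : ℕ) : ℝ) := by
      rw [Frt_grp (fun U => ∏ i ∈ U, th i t) N]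
      exact sum_congr rfl fun j _ => Frt_cnt hth t j
    rw [hR] at h3
    simp only [Frt_cnt hth]
    have h5 : (∑ j ∈ range (N + 1),
        ((((univ : Finset ι).filter (fun i => th i t = 1)).card.choose j : ℕ) : ℝ)) ≤
          (1 + (((univ : Finset ι).filter (fun i => th i t = 1)).card : ℝ)) ^ N := by
      exact_mod_cast Frt_choose ((univ : Finset ι).filter (fun i => th i t = 1)).card N
    have h6 : (1 + (((univ : Finset ι).filter (fun i => th i t = 1)).card : ℝ)) ^ (4 * N) ≤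
        ((4 * N).factorial : ℝ) * (2 ^ (4 * N) * ∑ j ∈ range (4 * N + 1),
          ((((univ : Finset ι).filter (fun i => th i t = 1)).card.choose j : ℕ) : ℝ)) := by
      exact_mod_cast Frt_pow ((univ : Finset ι).filter (fun i => th i t = 1)).card (4 * N)
    have h7 : |Ps m N v l g t| ≤ (1 + m * C0) ^ N *
        (1 + (((univ : Finset ι).filter (fun i => th i t = 1)).card : ℝ)) ^ N :=
      h2.trans (h3.trans (mul_le_mul_of_nonneg_left h5 (by positivity)))
    calc Ps m N v l g t ^ 4 = |Ps m N v l g t| ^ 4 := by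
          rw [← abs_pow, abs_of_nonneg (by positivity)]
      _ ≤ ((1 + m * C0) ^ N *
        (1 + (((univ : Finset ι).filter (fun i => th i t = 1)).card : ℝ)) ^ N) ^ 4 :=
          pow_le_pow_left₀ (abs_nonneg _) h7 4
      _ = (1 + m * C0) ^ (4 * N) *
        (1 + (((univ : Finset ι).filter (fun i => th i t = 1)).card : ℝ)) ^ (4 * N) := by
          rw [mul_pow, ← pow_mul, ← pow_mul, mul_comm N 4]
      _ ≤ _ := mul_le_mul_of_nonneg_left h6 (by positivity)
  refine (sum_le_sum h1).trans ?_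
  rw [← mul_sum, ← mul_sum, ← mul_sum, sum_comm]
  have h2 : ∑ j ∈ range (4 * N + 1), ∑ t ∈ T,
      ∑ U ∈ (univ : Finset (Finset ι)).filter (fun U => U.card = j), ∏ i ∈ U, th i t ≤
      2 * (T.card : ℝ) * (1 + μ) ^ (4 * N) := by
    have h3 : ∀ j ∈ range (4 * N + 1), ∑ t ∈ T,
        ∑ U ∈ (univ : Finset (Finset ι)).filter (fun U => U.card = j), ∏ i ∈ U, th i t ≤
        2 * (T.card : ℝ) * (μ ^ j * ((4 * N).choose j : ℝ)) := by
      intro j hj
      have hj' : j ≤ 4 * N := by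
        have := mem_range.1 hj
        omega
      rw [sum_comm]
      calc ∑ U ∈ (univ : Finset (Finset ι)).filter (fun U => U.card = j),
            ∑ t ∈ T, ∏ i ∈ U, th i t
          ≤ ∑ U ∈ (univ : Finset (Finset ι)).filter (fun U => U.card = j),
            2 * (T.card : ℝ) * V U :=
            sum_le_sum fun U hU => h4 U (by rw [(mem_filter.1 hU).2]; exact hj')
        _ = 2 * (T.card : ℝ) *
            ∑ U ∈ (univ : Finset (Finset ι)).filter (fun U => U.card = j), V U := by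
            rw [mul_sum]
        _ ≤ 2 * (T.card : ℝ) * (μ ^ j / (j.factorial : ℝ)) :=
            mul_le_mul_of_nonneg_left (vsum h j hj') (by positivity)
        _ ≤ 2 * (T.card : ℝ) * (μ ^ j * ((4 * N).choose j : ℝ)) := by
            refine mul_le_mul_of_nonneg_left ?_ (by positivity)
            have h5 : (1 : ℝ) ≤ ((4 * N).choose j : ℝ) := by
              exact_mod_cast Nat.choose_pos hj'
            have h6 : (1 : ℝ) ≤ (j.factorial : ℝ) := by
              exact_mod_cast Nat.factorial_pos j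
            have h7 : 0 ≤ μ ^ j := pow_nonneg hμ j
            calc μ ^ j / (j.factorial : ℝ) ≤ μ ^ j := div_le_self h7 h6
              _ = μ ^ j * 1 := (mul_one _).symm
              _ ≤ _ := mul_le_mul_of_nonneg_left h5 h7
    refine (sum_le_sum h3).trans ?_
    rw [← mul_sum, add_comm 1 μ, add_pow]
    simp only [one_pow, mul_one]
    exact le_refl _
  calc _ ≤ (1 + m * C0) ^ (4 * N) * (((4 * N).factorial : ℝ) * (2 ^ (4 * N) *
        (2 * (T.card : ℝ) * (1 + μ) ^ (4 * N)))) := by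
        refine mul_le_mul_of_nonneg_left ?_ (by positivity)
        refine mul_le_mul_of_nonneg_left ?_ (by positivity)
        exact mul_le_mul_of_nonneg_left h2 (by positivity)
    _ = _ := by
        rw [pow_succ 2 (4 * N)]
        ring

end H69PG

end S_H69_PG_Frt

section S_H69_PG_Abs

/-!
# ABS: the abstract theorem

`MM ≥ 1` (the zero configuration is admissible: `0 ≤ l`, `V ∅ = 1`, `s 0 = 1`; all masses are `≥ 0`). By `sec` and `hE1`: `∑ Ps^2 ≥ |T| (MM - 1/8)`; by `upr`, `hB`, `hE2`: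
`∑_k ∑_{t : ρ k t} Ps^2 ≤ |T| (MM/8 + 1/8)`. Let `Z = {t ∈ T : no k with ρ k t}`. `∑_{t ∈ Z} Ps^2 ≥ ∑_{t ∈ T} Ps^2 - ∑_k ∑_{t : ρ k t} Ps^2 ≥ |T| (7/8 MM - 1/4) ≥ |T|/2`.
Cauchy-Schwarz: `(∑_{Z} Ps^2)^2 ≤ |Z| ∑_T Ps^4 ≤ |Z| |T| C4`, so `|T|^2/4 ≤ |Z| |T| C4`.
-/

open Finset

namespace H69PG

variable {ι : Type} [Fintype ι] [DecidableEq ι]

theorem Abs_vh {V : Finset ι → ℝ} {μ : ℝ} {M M' : ℕ} (h : Vh V μ M) (hM : M' ≤ M) : Vh V μ M' where
  nonneg := h.nonneg
  empty := h.empty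
  μ_nonneg := h.μ_nonneg
  step := fun A hA => h.step A (lt_of_lt_of_le hA hM)

theorem Abs_MM {m N : ℕ} {v : ℕ → ℝ} {l : ℝ} {V : Finset ι → ℝ} {s : ℕ → ℝ} (hV : ∀ U, 0 ≤ V U) (hV0 : V ∅ = 1)
    (hs : ∀ a, 0 ≤ s a) (hs0 : s 0 = 1) (hv0 : v 0 = 0) (hl0 : 0 ≤ l) : 1 ≤ MM m N v l V s := by
  have hsp : sp (fun _ : ι => (0 : Fin (m + 1))) = ∅ := by
    unfold sp
    simp
  have hmem : (fun _ : ι => (0 : Fin (m + 1))) ∈ Cf ι m N v l := by
    unfold Cf
    rw [Finset.mem_filter]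
    refine ⟨Finset.mem_univ _, ?_, ?_⟩
    · rw [hsp]
      simp
    · simp [hv0, hl0]
  have hms : ms V s (fun _ : ι => (0 : Fin (m + 1))) = 1 := by
    unfold ms
    rw [hsp, hV0]
    simp [hs0]
  rw [← hms]
  unfold MM
  exact Finset.single_le_sum (f := fun n => ms V s n)
    (fun n _ => mul_nonneg (hV _) (Finset.prod_nonneg fun i _ => hs _)) hmem

open Classical in
theorem Abs_split (T : Finset ℕ) (ρ : ι → ℕ → Prop) (f : ℕ → ℝ) (hf : ∀ t, 0 ≤ f t) :
    ∑ t ∈ T, f t ≤ ∑ t ∈ T.filter (fun t => ∀ k, ¬ ρ k t), f t + ∑ k : ι, ∑ t ∈ T.filter (fun t => ρ k t), f t := by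
  have e1 : ∑ k : ι, ∑ t ∈ T.filter (fun t => ρ k t), f t = ∑ t ∈ T, ∑ k : ι, if ρ k t then f t else 0 := by
    rw [Finset.sum_comm]
    exact Finset.sum_congr rfl fun k _ => Finset.sum_filter _ _
  rw [e1, Finset.sum_filter, ← Finset.sum_add_distrib]
  refine Finset.sum_le_sum fun t _ => ?_
  by_cases h : ∀ k, ¬ ρ k t
  · rw [if_pos h]
    have : 0 ≤ ∑ k : ι, if ρ k t then f t else 0 :=
      Finset.sum_nonneg fun k _ => by split_ifs <;> [exact hf t; exact le_refl 0]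
    linarith
  · rw [if_neg h, zero_add]
    push Not at h
    obtain ⟨k, hk⟩ := h
    have h2 := Finset.single_le_sum (s := (univ : Finset ι)) (f := fun k => if ρ k t then f t else 0)
      (fun k _ => by
        show 0 ≤ if ρ k t then f t else 0
        split_ifs <;> [exact hf t; exact le_refl 0]) (Finset.mem_univ k)
    have h3 : (if ρ k t then f t else 0) = f t := if_pos hk
    calc f t = (if ρ k t then f t else 0) := h3.symm
      _ ≤ _ := h2

open Classical in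
theorem abs_main {m N : ℕ} (hN : 1 ≤ N) {v : ℕ → ℝ} {l vm : ℝ} {V : Finset ι → ℝ} {μ : ℝ} (h : Vh V μ (4 * N)) {s q : ℕ → ℝ}
    (hs : ∀ a, 0 ≤ s a) (hs0 : s 0 = 1) (hv : ∀ a, 0 ≤ v a) (hv0 : v 0 = 0) (hvm : ∀ a ∈ Icc 1 m, v a ≤ vm) (hl : vm < l)
    (hl0 : 0 ≤ l) (hq : ∀ a, 0 ≤ q a) (hq1 : ∑ a ∈ Icc 1 m, q a = 1)
    {T : Finset ℕ} {g : ι → ℕ → ℕ → ℝ} {β th : ι → ℕ → ℝ} {ρ : ι → ℕ → Prop} {η G C0 : ℝ} (hη : 0 ≤ η) (hG : 0 ≤ G)
    (hC0 : 1 ≤ C0) (hg0 : ∀ i t, g i 0 t = 1) (hβ : ∀ i t, 0 ≤ β i t) (hth : ∀ i t, th i t = 0 ∨ th i t = 1)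
    (hg : ∀ i, ∀ t ∈ T, ∀ a ∈ Icc 1 m, |g i a t| ≤ C0 * th i t)
    (hρ : ∀ i, ∀ t ∈ T, ρ i t → 1 ≤ β i t ∧ ∀ a ∈ Icc 1 m, g i a t = - q a)
    (h1 : ∀ n ∈ Cf ι m N v l, ∀ n' ∈ Cf ι m N v l,
      |∑ t ∈ T, ∏ i, (g i (n i) t * g i (n' i) t) - (T.card : ℝ) * (if n = n' then ms V s n else 0)| ≤
        (T.card : ℝ) * (η * V (sp n ∪ sp n')))
    (h2 : ∀ k : ι, ∀ n ∈ Cf ι m N v l, ∀ n' ∈ Cf ι m N v l, n k = 0 → n' k = 0 →
      |∑ t ∈ T, (∏ i, (g i (n i) t * g i (n' i) t)) * β k t -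
          (T.card : ℝ) * (if n = n' then G * (V (insert k (sp n)) * ∏ i, s (n i)) else 0)| ≤
        (T.card : ℝ) * (η * V (insert k (sp n ∪ sp n'))))
    (h4 : ∀ U : Finset ι, U.card ≤ 4 * N → ∑ t ∈ T, ∏ i ∈ U, th i t ≤ 2 * (T.card : ℝ) * V U)
    (hE1 : η * (1 + ((m : ℝ) + 1) ^ 2 * μ) ^ (2 * N) ≤ 1 / 8)
    (hE2 : η * ((2 * (N : ℝ) + 1) * (1 + ((m : ℝ) + 1) ^ 2 * μ) ^ (2 * N + 1)) ≤ 1 / 8)
    (hB : G * (μ * (μ * (∑ a ∈ Icc 1 m, s a) / N + μ * (∑ a ∈ Icc 1 m, s a * v a) / (l - vm))) ≤ 1 / 8) :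
    (T.card : ℝ) ≤ 4 * ((1 + m * C0) ^ (4 * N) * ((4 * N).factorial : ℝ) * 2 ^ (4 * N + 1) * (1 + μ) ^ (4 * N)) *
      ((T.filter (fun t => ∀ k, ¬ ρ k t)).card : ℝ) := by
  have hμ : 0 ≤ μ := h.μ_nonneg
  have hT0 : (0 : ℝ) ≤ (T.card : ℝ) := Nat.cast_nonneg _
  have hZ0 : (0 : ℝ) ≤ ((T.filter (fun t => ∀ k, ¬ ρ k t)).card : ℝ) := Nat.cast_nonneg _
  have hMM : 1 ≤ MM m N v l V s := Abs_MM h.nonneg h.empty hs hs0 hv0 hl0
  have hsec := sec (v := v) (l := l) (Abs_vh h (by omega : 2 * N ≤ 4 * N)) hη h1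
  have hupr := upr hN (Abs_vh h (by omega : 2 * N + 1 ≤ 4 * N)) hs hs0 hv hv0 hvm hl hq hq1 hη hG hg0 hβ hρ h2
  have hfrt := frt (v := v) (l := l) h hC0 hg0 hth hg h4
  obtain ⟨M, hM⟩ : ∃ M : ℝ, M = MM m N v l V s := ⟨_, rfl⟩
  rw [← hM] at hMM hsec hupr
  obtain ⟨C4, hC4⟩ : ∃ C4 : ℝ, C4 = (1 + m * C0) ^ (4 * N) * ((4 * N).factorial : ℝ) * 2 ^ (4 * N + 1) *
    (1 + μ) ^ (4 * N) := ⟨_, rfl⟩
  rw [← hC4] at hfrt ⊢
  have hC40 : 0 ≤ C4 := by
    rw [hC4]
    have : 0 ≤ C0 := by linarith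
    positivity
  have ha : (T.card : ℝ) * (M - 1 / 8) ≤ ∑ t ∈ T, Ps m N v l g t ^ 2 :=
    (mul_le_mul_of_nonneg_left (by linarith) hT0).trans hsec
  have hb : ∑ k : ι, ∑ t ∈ T.filter (fun t => ρ k t), Ps m N v l g t ^ 2 ≤ (T.card : ℝ) * (M / 8 + 1 / 8) := by
    refine hupr.trans (mul_le_mul_of_nonneg_left ?_ hT0)
    have h5 := mul_le_mul_of_nonneg_right hB (by linarith : 0 ≤ M)
    have h6 : G * (μ * (μ * (∑ a ∈ Icc 1 m, s a) / N + μ * (∑ a ∈ Icc 1 m, s a * v a) / (l - vm)) * M) =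
      G * (μ * (μ * (∑ a ∈ Icc 1 m, s a) / N + μ * (∑ a ∈ Icc 1 m, s a * v a) / (l - vm))) * M := by ring
    rw [h6]
    linarith
  have hsp := Abs_split T ρ (fun t => Ps m N v l g t ^ 2) (fun t => sq_nonneg _)
  have hc : (T.card : ℝ) / 2 ≤ ∑ t ∈ T.filter (fun t => ∀ k, ¬ ρ k t), Ps m N v l g t ^ 2 := by
    have h7 : (T.card : ℝ) * (M - 1 / 8) - (T.card : ℝ) * (M / 8 + 1 / 8) ≤
        ∑ t ∈ T.filter (fun t => ∀ k, ¬ ρ k t), Ps m N v l g t ^ 2 := by linarith
    refine le_trans ?_ h7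
    have h8 : (T.card : ℝ) * (1 / 2) ≤ (T.card : ℝ) * (M - 1 / 8 - (M / 8 + 1 / 8)) :=
      mul_le_mul_of_nonneg_left (by linarith) hT0
    linarith
  have hd : (∑ t ∈ T.filter (fun t => ∀ k, ¬ ρ k t), Ps m N v l g t ^ 2) ^ 2 ≤
      ((T.filter (fun t => ∀ k, ¬ ρ k t)).card : ℝ) * ((T.card : ℝ) * C4) := by
    refine (sq_sum_le_card_mul_sum_sq (s := T.filter (fun t => ∀ k, ¬ ρ k t))
      (f := fun t => Ps m N v l g t ^ 2)).trans (mul_le_mul_of_nonneg_left ?_ hZ0)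
    refine le_trans ?_ hfrt
    calc ∑ t ∈ T.filter (fun t => ∀ k, ¬ ρ k t), (Ps m N v l g t ^ 2) ^ 2
        ≤ ∑ t ∈ T, (Ps m N v l g t ^ 2) ^ 2 :=
          Finset.sum_le_sum_of_subset_of_nonneg (Finset.filter_subset _ _) (fun t _ _ => sq_nonneg _)
      _ = ∑ t ∈ T, Ps m N v l g t ^ 4 := Finset.sum_congr rfl fun t _ => by ring
  have he : ((T.card : ℝ) / 2) ^ 2 ≤ ((T.filter (fun t => ∀ k, ¬ ρ k t)).card : ℝ) * ((T.card : ℝ) * C4) :=
    (pow_le_pow_left₀ (by positivity) hc 2).trans hd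
  rcases hT0.eq_or_lt with h0 | h0
  · rw [← h0]
    positivity
  · refine le_of_mul_le_mul_left ?_ h0
    linarith

end H69PG

end S_H69_PG_Abs

section S_H69_PG_Ar0

/-!
# MP_028722, positive proportion of long prime-free intervals: arithmetic definitions
-/

open Finset EG

namespace H69PG

/-- the primes in `(K, z]` -/
def PK (K z : ℕ) : Finset ℕ := (Ioc K z).filter Nat.Prime

/-- `∏_{K < p ≤ z} (1 - j/p)` -/
noncomputable def VV (K z j : ℕ) : ℝ := ∏ p ∈ PK K z, (1 - (j : ℝ) / p)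

open Classical in
/-- `1` if `L` has no prime factor in `(K, z]`, else `0` -/
noncomputable def th0 (K z L : ℕ) : ℝ := if ∀ p ∈ PK K z, ¬ p ∣ L then 1 else 0

/-- the linear forms `Q0 t + c i` -/
structure Fm {ι : Type} (K Q0 : ℕ) (c : ι → ℕ) : Prop where
  pos : 1 ≤ Q0
  pr : ∀ p : ℕ, p.Prime → p ∣ Q0 → p ≤ K
  inj : Function.Injective c
  df : ∀ i j, |(c i : ℤ) - c j| ≤ K
  cpos : ∀ i, 1 ≤ c i

open Classical in
/-- truncated inclusion-exclusion over the subsets of `P` with at most `2b` elements -/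
noncomputable def UU (P : Finset ℕ) (b : ℕ) (B : ℕ → Prop) : ℝ :=
  ∑ S ∈ P.powerset.filter (fun S => S.card ≤ 2 * b ∧ ∀ p ∈ S, B p), (-1 : ℝ) ^ S.card

open Classical in
/-- the number of subsets with `2b+1` elements in `B` -/
noncomputable def WW (P : Finset ℕ) (b : ℕ) (B : ℕ → Prop) : ℝ :=
  ((P.powerset.filter (fun S => S.card = 2 * b + 1 ∧ ∀ p ∈ S, B p)).card : ℝ)

open Classical in
/-- the indicator of `B` being empty in `P` -/
noncomputable def II (P : Finset ℕ) (B : ℕ → Prop) : ℝ := if ∀ p ∈ P, ¬ B p then 1 else 0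

/-- expectation of `WW` -/
noncomputable def eW (P : Finset ℕ) (b : ℕ) (g : ℕ → ℝ) : ℝ :=
  ∑ S ∈ P.powerset.filter (fun S => S.card = 2 * b + 1), ∏ p ∈ S, g p

/-- expectation of `UU` -/
noncomputable def eU (P : Finset ℕ) (b : ℕ) (g : ℕ → ℝ) : ℝ :=
  ∑ S ∈ P.powerset.filter (fun S => S.card ≤ 2 * b), (-1 : ℝ) ^ S.card * ∏ p ∈ S, g p

/-- expectation of `II` -/
noncomputable def eI (P : Finset ℕ) (g : ℕ → ℝ) : ℝ := ∏ p ∈ P, (1 - g p)

/-- diagonal variables of the block `(Z (a-1), Z a]`; the block `0` is `{1}` -/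
noncomputable def yb (Z : ℕ → ℕ) (a r : ℕ) : ℝ := if a = 0 ∨ Z (a - 1) < r then 1 else 0

/-- Selberg coefficients of the block `a` -/
noncomputable def lamA (Z : ℕ → ℕ) (Q a d : ℕ) : ℝ := lam Q (Z a) (yb Z a) d

/-- the norm of the block `a` -/
noncomputable def wA (Z : ℕ → ℕ) (Q a : ℕ) : ℝ := if a = 0 then 1 else GG Q (Z a) - GG Q (Z (a - 1))

/-- support of the product of the blocks `a` and `a'` -/
def DAB (Z : ℕ → ℕ) (Q a a' : ℕ) : Finset ℕ := lcD (sq Q (Z a)) (sq Q (Z a'))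

/-- coefficients of the product of the blocks `a` and `a'` -/
noncomputable def fAB (Z : ℕ → ℕ) (Q a a' : ℕ) : ℕ → ℝ :=
  lcf (sq Q (Z a)) (sq Q (Z a')) (lamA Z Q a) (lamA Z Q a')

/-- the function `V` of the abstract argument -/
noncomputable def Vf {ι : Type} (N K z : ℕ) (U : Finset ι) : ℝ := if U.card ≤ 4 * N + 2 then VV K z U.card else 0

/-- the amplitudes -/
noncomputable def gA {ι : Type} (K z Q0 : ℕ) (Z : ℕ → ℕ) (f0 : ℕ → ℝ) (c : ι → ℕ) (i : ι) (a t : ℕ) : ℝ :=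
  if a = 0 then 1 else
    - f0 a * (th0 K z (Q0 * t + c i) * Fn (sq (primorial z) (Z a)) (lamA Z (primorial z) a) (Q0 * t + c i))

/-- the majorant of the rough numbers -/
noncomputable def bA {ι : Type} (K z Q0 R : ℕ) (c : ι → ℕ) (i : ι) (t : ℕ) : ℝ :=
  th0 K z (Q0 * t + c i) * be (primorial z) R (Q0 * t + c i)

/-- `s_a = f0(a)² w_a`, `s_0 = 1` -/
noncomputable def sA (Z : ℕ → ℕ) (Q : ℕ) (f0 : ℕ → ℝ) (a : ℕ) : ℝ := if a = 0 then 1 else f0 a ^ 2 * wA Z Q a

end H69PG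

end S_H69_PG_Ar0
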