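import Mathlib
import Pool.Agent.H67.GT.MERT
import Pool.Agent.H6.EG.S3
import Pool.Agent.H69.PGM.A

/-! Positive proportion of long prime-free intervals, part B: this file joins several modules to save build time. -/

section S_H69_PG_Crt

/-!
# CRT: counting with prescribed divisors

For `p ∈ P` (`p > K`, so `p ∤ Q0`) the condition `∃ i, p ∣ Q0 t + c i` means that `t` is in one of `card ι` residue classes modulo `p`, which are different: `p ∣ c i - c i'` is
impossible for `i ≠ i'`, as `0 < |c i - c i'| ≤ K < p`. `D i ∣ Q0 t + c i` is one class modulo `D i` (`D i` is coprime to `primorial z`, so its prime factors are `> z ≥ K`, hence coprime to `Q0`). The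
numbers `p ∈ P` (`p ≤ z`) and `D i` are pairwise coprime. By the Chinese remainder theorem the condition is that `t` is in one of `(card ι)^|P|` classes modulo
`W = ∏_{p ∈ P} p ∏ D i`, and each class contains `T/W + O(1)` numbers `t < T` (error at most `1`: `⌊T/W⌋` or `⌈T/W⌉`, `Nat.count_modEq_card`).
-/

open Finset EG

namespace H69PG

theorem Crt_lin {Q m c : ℕ} (hm : 0 < m) (hQ : Nat.Coprime m Q) :
    ∃ r : ℕ, ∀ t : ℕ, m ∣ Q * t + c ↔ t ≡ r [MOD m] := by
  have hu : IsUnit ((Q : ℕ) : ZMod m) := by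
    rw [ZMod.isUnit_iff_coprime]
    exact hQ.symm
  obtain ⟨u, hu⟩ := hu
  have : NeZero m := ⟨hm.ne'⟩
  refine ⟨(-(↑u⁻¹ : ZMod m) * (c : ZMod m)).val, fun t => ?_⟩
  rw [← ZMod.natCast_eq_natCast_iff, ZMod.natCast_val, ZMod.cast_id, ← ZMod.natCast_eq_zero_iff]
  push_cast
  rw [← hu]
  constructor
  · intro h
    have h2 : (u : ZMod m) * (t : ZMod m) = -(c : ZMod m) := by
      rw [eq_neg_iff_add_eq_zero]; exact h
    calc (t : ZMod m) = (↑u⁻¹ : ZMod m) * ((u : ZMod m) * (t : ZMod m)) := by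
          rw [← mul_assoc, Units.inv_mul, one_mul]
      _ = _ := by rw [h2]; ring
  · intro h
    rw [h]
    calc (u : ZMod m) * (-(↑u⁻¹ : ZMod m) * (c : ZMod m)) + (c : ZMod m)
        = -((u : ZMod m) * (↑u⁻¹ : ZMod m)) * (c : ZMod m) + (c : ZMod m) := by ring
      _ = 0 := by rw [Units.mul_inv]; ring

theorem Crt_sys {ι : Type} [Fintype ι] {Q : ℕ} {c m : ι → ℕ} (hm : ∀ i, 0 < m i)
    (hQ : ∀ i, Nat.Coprime (m i) Q) (hco : ∀ i j, i ≠ j → Nat.Coprime (m i) (m j)) :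
    ∃ r : ℕ, ∀ t : ℕ, (∀ i, m i ∣ Q * t + c i) ↔ t ≡ r [MOD ∏ i, m i] := by
  classical
  choose r hr using fun i => Crt_lin (c := c i) (hm i) (hQ i)
  obtain ⟨k, hk⟩ := Nat.chineseRemainderOfFinset r m Finset.univ (fun i _ => (hm i).ne')
    (fun i _ j _ hij => hco i j hij)
  refine ⟨k, fun t => ?_⟩
  constructor
  · intro h
    rw [Nat.modEq_iff_dvd]
    push_cast
    apply Finset.prod_dvd_of_coprime
    · intro i _ j _ hij
      exact Nat.isCoprime_iff_coprime.2 (hco i j hij)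
    · intro i _
      have h1 : t ≡ r i [MOD m i] := (hr i t).1 (h i)
      have h2 : k ≡ r i [MOD m i] := hk i (Finset.mem_univ _)
      exact (Nat.modEq_iff_dvd.1 (h1.trans h2.symm))
  · intro h i
    rw [hr i t]
    have h2 : k ≡ r i [MOD m i] := hk i (Finset.mem_univ _)
    exact (h.of_dvd (Finset.dvd_prod_of_mem m (Finset.mem_univ i))).trans h2

theorem Crt_count {W : ℕ} (hW : 0 < W) (r T : ℕ) :
    |(((range T).filter (fun t => t ≡ r [MOD W])).card : ℝ) - (T : ℝ) / W| ≤ 1 := by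
  have h1 : ((range T).filter (fun t => t ≡ r [MOD W])).card = Nat.count (· ≡ r [MOD W]) T := by
    rw [Nat.count_eq_card_filter_range]
  rw [h1, Nat.count_modEq_card T hW r]
  have h2 : (T : ℝ) = W * (T / W : ℕ) + (T % W : ℕ) := by
    exact_mod_cast (Nat.div_add_mod T W).symm
  have hW' : (0 : ℝ) < W := by exact_mod_cast hW
  have h3 : (T : ℝ) / W = (T / W : ℕ) + (T % W : ℕ) / W := by
    rw [h2, add_div, mul_div_cancel_left₀ _ hW'.ne']
  have h4 : (0 : ℝ) ≤ (T % W : ℕ) / W := by positivity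
  have h5 : ((T % W : ℕ) : ℝ) / W ≤ 1 := by
    rw [div_le_one hW']
    exact_mod_cast (Nat.mod_lt T hW).le
  rw [h3]
  push_cast
  rw [abs_le]
  split_ifs <;> constructor <;> linarith

open Classical in
theorem crt {ι : Type} [Fintype ι] [DecidableEq ι] {K z Q0 : ℕ} (hKz : K ≤ z) {c : ι → ℕ} (h : Fm K Q0 c) (T : ℕ)
    (D : ι → ℕ) (hD : ∀ i, Squarefree (D i) ∧ Nat.Coprime (D i) (primorial z))
    (hco : ∀ i i', i ≠ i' → Nat.Coprime (D i) (D i')) (P : Finset ℕ) (hP : P ⊆ PK K z) :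
    |(((range T).filter (fun t => (∀ i, D i ∣ Q0 * t + c i) ∧ ∀ p ∈ P, ∃ i, p ∣ Q0 * t + c i)).card : ℝ) -
        (T : ℝ) / (∏ i, (D i : ℝ)) * ∏ p ∈ P, ((Fintype.card ι : ℝ) / p)| ≤ (Fintype.card ι : ℝ) ^ P.card := by
  have hPp : ∀ p ∈ P, p.Prime ∧ K < p ∧ p ≤ z := by
    intro p hp
    have := hP hp
    rw [PK, Finset.mem_filter, Finset.mem_Ioc] at this
    exact ⟨this.2, this.1.1, this.1.2⟩
  have hDP : ∀ i, ∀ p ∈ P, Nat.Coprime (D i) p := by
    intro i p hp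
    obtain ⟨h1, h2, h3⟩ := hPp p hp
    exact Nat.Coprime.coprime_dvd_right ((h1.dvd_primorial_iff).2 h3) (hD i).2
  have hDQ : ∀ i, Nat.Coprime (D i) Q0 := by
    intro i
    apply Nat.Coprime.symm
    apply Nat.coprime_of_dvd
    intro q hq hqQ hqD
    have h1 := h.pr q hq hqQ
    have h2 : Nat.Coprime (D i) q :=
      Nat.Coprime.coprime_dvd_right ((hq.dvd_primorial_iff).2 (h1.trans hKz)) (hD i).2
    have h3 := Nat.Coprime.eq_one_of_dvd h2.symm hqD
    exact hq.one_lt.ne' h3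
  have hPQ : ∀ p ∈ P, Nat.Coprime p Q0 := by
    intro p hp
    obtain ⟨h1, h2, h3⟩ := hPp p hp
    rw [h1.coprime_iff_not_dvd]
    intro h4
    have := h.pr p h1 h4
    omega
  have huniq : ∀ p ∈ P, ∀ t : ℕ, ∀ i j, p ∣ Q0 * t + c i → p ∣ Q0 * t + c j → i = j := by
    intro p hp t i j hi hj
    obtain ⟨h1, h2, h3⟩ := hPp p hp
    by_contra hij
    have h4 : ((p : ℕ) : ℤ) ∣ (c i : ℤ) - c j := by
      have e : (c i : ℤ) - c j = ((Q0 * t + c i : ℕ) : ℤ) - ((Q0 * t + c j : ℕ) : ℤ) := by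
        push_cast; ring
      rw [e]
      exact dvd_sub (by exact_mod_cast hi) (by exact_mod_cast hj)
    have h5 := h.df i j
    have h6 : (c i : ℤ) - c j ≠ 0 := by
      intro h0
      apply hij
      apply h.inj
      omega
    have h7 := Int.le_of_dvd (abs_pos.2 h6) ((dvd_abs _ _).2 h4)
    omega
  -- the moduli for a choice function
  set m : (P → ι) → ι → ℕ := fun e i => D i * ∏ p ∈ Finset.univ.filter (fun p : P => e p = i), (p : ℕ)
    with hm
  have hmpos : ∀ e i, 0 < m e i := by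
    intro e i
    apply Nat.mul_pos
    · exact Nat.pos_of_ne_zero (hD i).1.ne_zero
    · exact Finset.prod_pos fun p _ => (hPp p p.2).1.pos
  have hmQ : ∀ e i, Nat.Coprime (m e i) Q0 := by
    intro e i
    apply Nat.Coprime.mul_left (hDQ i)
    exact Nat.Coprime.prod_left fun p _ => hPQ p p.2
  have hmco : ∀ e i j, i ≠ j → Nat.Coprime (m e i) (m e j) := by
    intro e i j hij
    apply Nat.Coprime.mul_left
    · apply Nat.Coprime.mul_right (hco i j hij)
      exact Nat.Coprime.prod_right fun p _ => hDP i p p.2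
    · apply Nat.Coprime.mul_right
      · apply Nat.Coprime.symm
        exact Nat.Coprime.prod_right fun p _ => hDP j p p.2
      · apply Nat.Coprime.prod_left
        intro p hp
        apply Nat.Coprime.prod_right
        intro q hq
        rw [Nat.coprime_primes (hPp p p.2).1 (hPp q q.2).1]
        intro hpq
        have hpq' : p = q := Subtype.ext hpq
        rw [Finset.mem_filter] at hp hq
        apply hij
        rw [← hp.2, ← hq.2, hpq']
  have hmdvd : ∀ e t, (∀ i, m e i ∣ Q0 * t + c i) ↔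
      ((∀ i, D i ∣ Q0 * t + c i) ∧ ∀ p : P, (p : ℕ) ∣ Q0 * t + c (e p)) := by
    intro e t
    constructor
    · intro h1
      refine ⟨fun i => (Dvd.intro _ rfl).trans (h1 i), fun p => ?_⟩
      refine dvd_trans ?_ (h1 (e p))
      apply Dvd.dvd.mul_left
      exact Finset.dvd_prod_of_mem (fun p : P => (p : ℕ)) (by simp)
    · rintro ⟨h1, h2⟩ i
      apply Nat.Coprime.mul_dvd_of_dvd_of_dvd
      · exact Nat.Coprime.prod_right fun p _ => hDP i p p.2
      · exact h1 i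
      · have h3 : ((∏ p ∈ Finset.univ.filter (fun p : P => e p = i), (p : ℕ) : ℕ) : ℤ) ∣
            ((Q0 * t + c i : ℕ) : ℤ) := by
          rw [Nat.cast_prod]
          apply Finset.prod_dvd_of_coprime
          · intro p _ q _ hpq
            apply Nat.isCoprime_iff_coprime.2
            rw [Nat.coprime_primes (hPp p p.2).1 (hPp q q.2).1]
            intro h4
            exact hpq (Subtype.ext h4)
          · intro p hp
            rw [Finset.mem_filter] at hp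
            have := h2 p
            rw [hp.2] at this
            exact_mod_cast this
        exact_mod_cast h3
  have hmprod : ∀ e, ∏ i, m e i = (∏ i, D i) * ∏ p ∈ P, p := by
    intro e
    simp only [hm]
    rw [Finset.prod_mul_distrib]
    congr 1
    rw [Finset.prod_fiberwise (s := (Finset.univ : Finset P)) (g := e) (f := fun p : P => (p : ℕ))]
    rw [Finset.prod_coe_sort P (fun p => p)]
  -- the count as a sum over choice functions
  have hcount : (((range T).filter (fun t => (∀ i, D i ∣ Q0 * t + c i) ∧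
      ∀ p ∈ P, ∃ i, p ∣ Q0 * t + c i)).card : ℝ)
      = ∑ e : P → ι, (((range T).filter (fun t => ∀ i, m e i ∣ Q0 * t + c i)).card : ℝ) := by
    rw [Finset.card_filter]
    push_cast
    have h1 : ∀ e : P → ι, (((range T).filter (fun t => ∀ i, m e i ∣ Q0 * t + c i)).card : ℝ)
        = ∑ t ∈ range T, (if ∀ i, m e i ∣ Q0 * t + c i then (1 : ℝ) else 0) := by
      intro e
      rw [Finset.card_filter]
      push_cast
      rfl
    simp only [h1]
    rw [Finset.sum_comm]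
    refine Finset.sum_congr rfl fun t _ => ?_
    by_cases hDt : ∀ i, D i ∣ Q0 * t + c i
    · by_cases hPt : ∀ p ∈ P, ∃ i, p ∣ Q0 * t + c i
      · rw [if_pos ⟨hDt, hPt⟩]
        choose g hg using hPt
        rw [Finset.sum_eq_single (fun p : P => g p p.2)]
        · rw [if_pos]
          rw [hmdvd]
          exact ⟨hDt, fun p => hg p p.2⟩
        · intro e _ he
          rw [if_neg]
          rw [hmdvd]
          rintro ⟨_, h2⟩
          apply he
          funext p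
          exact huniq p p.2 t _ _ (h2 p) (hg p p.2)
        · intro h2
          exact absurd (Finset.mem_univ _) h2
      · rw [if_neg (fun hh => hPt hh.2)]
        symm
        apply Finset.sum_eq_zero
        intro e _
        rw [if_neg]
        rw [hmdvd]
        rintro ⟨_, h2⟩
        exact hPt fun p hp => ⟨_, h2 ⟨p, hp⟩⟩
    · rw [if_neg (fun hh => hDt hh.1)]
      symm
      apply Finset.sum_eq_zero
      intro e _
      rw [if_neg]
      rw [hmdvd]
      rintro ⟨h2, _⟩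
      exact hDt h2
  have hone : ∀ e : P → ι, |(((range T).filter (fun t => ∀ i, m e i ∣ Q0 * t + c i)).card : ℝ)
      - (T : ℝ) / ((∏ i, (D i : ℝ)) * ∏ p ∈ P, (p : ℝ))| ≤ 1 := by
    intro e
    obtain ⟨r, hr⟩ := Crt_sys (c := c) (hmpos e) (hmQ e) (hmco e)
    have h1 : (range T).filter (fun t => ∀ i, m e i ∣ Q0 * t + c i)
        = (range T).filter (fun t => t ≡ r [MOD ∏ i, m e i]) := by
      apply Finset.filter_congr
      intro t _
      exact hr t
    rw [h1]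
    have h2 : (∏ i, (D i : ℝ)) * ∏ p ∈ P, (p : ℝ) = ((∏ i, m e i : ℕ) : ℝ) := by
      rw [hmprod]
      push_cast
      rfl
    rw [h2]
    exact Crt_count (Finset.prod_pos fun i _ => hmpos e i) r T
  have hcardE : (Finset.univ : Finset (P → ι)).card = Fintype.card ι ^ P.card := by
    rw [Finset.card_univ, Fintype.card_fun, Fintype.card_coe]
  have hmain : (T : ℝ) / (∏ i, (D i : ℝ)) * ∏ p ∈ P, ((Fintype.card ι : ℝ) / p)
      = ∑ e : P → ι, (T : ℝ) / ((∏ i, (D i : ℝ)) * ∏ p ∈ P, (p : ℝ)) := by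
    rw [Finset.sum_const, hcardE, nsmul_eq_mul, Finset.prod_div_distrib, Finset.prod_const]
    push_cast
    have hD0 : (∏ i, (D i : ℝ)) ≠ 0 := by
      apply Finset.prod_ne_zero_iff.2
      intro i _
      exact_mod_cast (hD i).1.ne_zero
    have hP0 : (∏ p ∈ P, (p : ℝ)) ≠ 0 := by
      apply Finset.prod_ne_zero_iff.2
      intro p hp
      exact_mod_cast (hPp p hp).1.ne_zero
    field_simp
  rw [hcount, hmain, ← Finset.sum_sub_distrib]
  calc |∑ e : P → ι, ((((range T).filter (fun t => ∀ i, m e i ∣ Q0 * t + c i)).card : ℝ)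
        - (T : ℝ) / ((∏ i, (D i : ℝ)) * ∏ p ∈ P, (p : ℝ)))|
      ≤ ∑ e : P → ι, |(((range T).filter (fun t => ∀ i, m e i ∣ Q0 * t + c i)).card : ℝ)
        - (T : ℝ) / ((∏ i, (D i : ℝ)) * ∏ p ∈ P, (p : ℝ))| := Finset.abs_sum_le_sum_abs _ _
    _ ≤ ∑ e : P → ι, (1 : ℝ) := Finset.sum_le_sum fun e _ => hone e
    _ = _ := by
        rw [Finset.sum_const, hcardE, nsmul_eq_mul, mul_one]
        push_cast
        rfl

end H69PG

end S_H69_PG_Crt

section S_H69_PG_BhA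

/-!
# BHA: Bonferroni inequalities for one block

Let `ν = #{p ∈ P : B p}`. `UU = ∑_{l ≤ 2b} (-1)^l choose(ν, l)`, which is `1` for `ν = 0` and `choose(ν-1, 2b)` for `ν ≥ 1`
(`Int.alternating_sum_range_choose_of_ne` / induction), `WW = choose(ν, 2b+1)`, `II = [ν = 0]`, and
`choose(ν-1, 2b) ≤ choose(ν, 2b+1)` (Pascal: `choose(ν, 2b+1) = choose(ν-1, 2b) + choose(ν-1, 2b+1)`).
-/

open Finset EG

namespace H69PG

theorem BhA_filter (P : Finset ℕ) (B : ℕ → Prop) (q : ℕ → Prop)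
    {_ : DecidablePred fun S : Finset ℕ => q S.card ∧ ∀ p ∈ S, B p} {_ : DecidablePred B}
    {_ : DecidablePred fun S : Finset ℕ => q S.card} :
    P.powerset.filter (fun S => q S.card ∧ ∀ p ∈ S, B p) =
      (P.filter B).powerset.filter (fun S => q S.card) := by
  ext S
  simp only [Finset.mem_filter, Finset.mem_powerset, Finset.subset_iff]
  constructor
  · rintro ⟨h1, h2, h3⟩
    exact ⟨fun x hx => ⟨h1 hx, h3 x hx⟩, h2⟩
  · rintro ⟨h1, h2⟩
    exact ⟨fun x hx => (h1 hx).1, h2, fun x hx => (h1 hx).2⟩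

open Classical in
theorem BhA_WW (P : Finset ℕ) (b : ℕ) (B : ℕ → Prop) :
    WW P b B = ((P.filter B).card.choose (2 * b + 1) : ℕ) := by
  unfold WW
  rw [BhA_filter P B (fun k => k = 2 * b + 1), ← Finset.powersetCard_eq_filter,
    Finset.card_powersetCard]

open Classical in
theorem BhA_UU (P : Finset ℕ) (b : ℕ) (B : ℕ → Prop) :
    UU P b B = ((∑ l ∈ range (2 * b + 1), ((-1) ^ l * (P.filter B).card.choose l : ℤ) : ℤ) : ℝ) := by
  unfold UU
  rw [BhA_filter P B (fun k => k ≤ 2 * b)]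
  set F := P.filter B with hF
  rw [← Finset.sum_fiberwise_of_maps_to (g := fun S : Finset ℕ => S.card) (t := range (2 * b + 1))
    (fun S hS => by
      rw [Finset.mem_filter] at hS
      exact Finset.mem_range.mpr (by have := hS.2; omega))]
  rw [Int.cast_sum]
  apply Finset.sum_congr rfl
  intro l hl
  have h1 : (F.powerset.filter (fun S => S.card ≤ 2 * b)).filter (fun S => S.card = l) =
      Finset.powersetCard l F := by
    rw [Finset.powersetCard_eq_filter, Finset.filter_filter]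
    apply Finset.filter_congr
    intro S _
    have := Finset.mem_range.mp hl
    constructor
    · exact fun h => h.2
    · exact fun h => ⟨by omega, h⟩
  rw [h1]
  rw [Finset.sum_congr rfl (fun S hS => by rw [(Finset.mem_powersetCard.mp hS).2])]
  rw [Finset.sum_const, Finset.card_powersetCard, nsmul_eq_mul]
  push_cast
  ring

open Classical in
theorem BhA_II (P : Finset ℕ) (B : ℕ → Prop) :
    II P B = if (P.filter B).card = 0 then 1 else 0 := by
  unfold II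
  congr 1
  rw [Finset.card_eq_zero, Finset.filter_eq_empty_iff]

theorem BhA_zero (b : ℕ) :
    ((∑ l ∈ range (2 * b + 1), ((-1) ^ l * (0 : ℕ).choose l : ℤ) : ℤ) : ℝ) = 1 := by
  have h : (∑ l ∈ range (2 * b + 1), ((-1) ^ l * (0 : ℕ).choose l : ℤ)) = 1 := by
    rw [Finset.sum_eq_single 0]
    · simp
    · intro l _ hl
      rw [Nat.choose_eq_zero_of_lt (Nat.pos_of_ne_zero hl)]
      simp
    · intro h
      exact absurd (Finset.mem_range.mpr (Nat.succ_pos _)) h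
  rw [h]
  norm_num

theorem BhA_succ (n b : ℕ) :
    ((∑ l ∈ range (2 * b + 1), ((-1) ^ l * (n + 1).choose l : ℤ) : ℤ) : ℝ) = (n.choose (2 * b) : ℕ) := by
  rw [Int.alternating_sum_range_choose_eq_choose, pow_mul]
  norm_num

theorem bha_lower (P : Finset ℕ) (b : ℕ) (B : ℕ → Prop) : II P B ≤ UU P b B := by
  classical
  rw [BhA_II, BhA_UU]
  rcases Nat.eq_zero_or_pos (P.filter B).card with h | h
  · rw [if_pos h, h, BhA_zero]
  · rw [if_neg h.ne']
    obtain ⟨n, hn⟩ := Nat.exists_eq_succ_of_ne_zero h.ne'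
    rw [hn, Nat.succ_eq_add_one, BhA_succ]
    exact Nat.cast_nonneg _

theorem bha_upper (P : Finset ℕ) (b : ℕ) (B : ℕ → Prop) : UU P b B ≤ II P B + WW P b B := by
  classical
  rw [BhA_II, BhA_UU, BhA_WW]
  rcases Nat.eq_zero_or_pos (P.filter B).card with h | h
  · rw [if_pos h, h, BhA_zero]
    have : (0 : ℝ) ≤ ((0 : ℕ).choose (2 * b + 1) : ℕ) := Nat.cast_nonneg _
    linarith
  · rw [if_neg h.ne']
    obtain ⟨n, hn⟩ := Nat.exists_eq_succ_of_ne_zero h.ne'
    rw [hn, Nat.succ_eq_add_one, BhA_succ, zero_add]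
    have h1 : n.choose (2 * b) ≤ (n + 1).choose (2 * b + 1) := by
      rw [Nat.choose_succ_succ]
      exact Nat.le_add_right _ _
    exact_mod_cast h1

end H69PG

end S_H69_PG_BhA

section S_H69_PG_BhB

/-!
# BHB: the expectations for one block

Let `w(A) = ∏_{p ∈ A} g p ∏_{p ∈ P \ A} (1 - g p) ≥ 0` for `A ⊆ P`. For `S ⊆ P`: `∑_{S ⊆ A ⊆ P} w(A) = ∏_{p ∈ S} g p`. So
`∑_A w(A) UU P b (· ∈ A) = eU`, `∑_A w(A) WW P b (· ∈ A) = eW`, `∑_A w(A) II P (· ∈ A) = w(∅) = eI`; apply `bha_lower` and `bha_upper` for every `A`.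
`ehb_W`: `(∑_{p ∈ P} g p)^n ≥ n! ∑_{|S| = n} ∏_{p ∈ S} g p` (each product over a set `S` with `n` elements occurs `n!` times in the expansion;
`Finset.esymm`/`Finset.prod_univ_sum` or induction on `P`).
`ehb_I`: `1 - x ≥ exp(-2x)` for `0 ≤ x ≤ 1/2`.
-/

open Finset EG

namespace H69PG

/-- the weight of `A` -/
noncomputable def BhB_w (P : Finset ℕ) (g : ℕ → ℝ) (A : Finset ℕ) : ℝ :=
  (∏ p ∈ A, g p) * ∏ p ∈ P \ A, (1 - g p)

theorem BhB_w_nonneg {P : Finset ℕ} {g : ℕ → ℝ} (hg : ∀ p ∈ P, 0 ≤ g p ∧ g p ≤ 1) {A : Finset ℕ}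
    (hA : A ∈ P.powerset) : 0 ≤ BhB_w P g A := by
  rw [mem_powerset] at hA
  unfold BhB_w
  refine mul_nonneg (prod_nonneg fun p hp => (hg p (hA hp)).1) (prod_nonneg fun p hp => ?_)
  have := (hg p (mem_sdiff.1 hp).1).2
  linarith

open Classical in
theorem BhB_sum {P : Finset ℕ} (g : ℕ → ℝ) {S : Finset ℕ} (hS : S ∈ P.powerset) :
    ∑ A ∈ P.powerset, (if S ⊆ A then BhB_w P g A else 0) = ∏ p ∈ S, g p := by
  rw [mem_powerset] at hS
  have h1 := prod_add g (fun p => if p ∈ S then 0 else 1 - g p) P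
  have h2 : ∏ p ∈ P, (g p + (if p ∈ S then 0 else 1 - g p)) = ∏ p ∈ S, g p := by
    have h3 : ∀ p ∈ P, g p + (if p ∈ S then 0 else 1 - g p) = if p ∈ S then g p else 1 := by
      intro p _
      split_ifs <;> ring
    rw [prod_congr rfl h3, prod_ite_mem, inter_eq_right.2 hS]
  rw [h2] at h1
  rw [h1]
  refine sum_congr rfl fun A hA => ?_
  by_cases h : S ⊆ A
  · rw [if_pos h]
    unfold BhB_w
    congr 1
    refine prod_congr rfl fun p hp => ?_
    rw [if_neg (fun h5 => (mem_sdiff.1 hp).2 (h h5))]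
  · rw [if_neg h]
    obtain ⟨p, hpS, hpA⟩ := not_subset.1 h
    symm
    refine mul_eq_zero_of_right _ ?_
    exact prod_eq_zero (mem_sdiff.2 ⟨hS hpS, hpA⟩) (if_pos hpS)

open Classical in
theorem BhB_gen (P : Finset ℕ) (g : ℕ → ℝ) (q : Finset ℕ → Prop) (c : Finset ℕ → ℝ) :
    ∑ A ∈ P.powerset, BhB_w P g A *
      (∑ S ∈ P.powerset.filter (fun S => q S ∧ ∀ p ∈ S, p ∈ A), c S) =
      ∑ S ∈ P.powerset.filter q, c S * ∏ p ∈ S, g p := by
  have h1 : ∀ A ∈ P.powerset, BhB_w P g A *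
      (∑ S ∈ P.powerset.filter (fun S => q S ∧ ∀ p ∈ S, p ∈ A), c S) =
      ∑ S ∈ P.powerset.filter q, c S * (if S ⊆ A then BhB_w P g A else 0) := by
    intro A _
    rw [mul_sum, sum_filter, sum_filter]
    refine sum_congr rfl fun S _ => ?_
    by_cases hq : q S
    · by_cases hSA : S ⊆ A
      · rw [if_pos ⟨hq, fun p hp => hSA hp⟩, if_pos hq, if_pos hSA, mul_comm]
      · rw [if_neg (fun h => hSA (fun p hp => h.2 p hp)), if_pos hq, if_neg hSA, mul_zero]
    · rw [if_neg (fun h => hq h.1), if_neg hq]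
  rw [sum_congr rfl h1, sum_comm]
  refine sum_congr rfl fun S hS => ?_
  rw [← mul_sum, BhB_sum g (mem_filter.1 hS).1]

theorem BhB_ite {p q : Prop} {dp : Decidable p} {dq : Decidable q} (h : p ↔ q) (x y : ℝ) :
    (if p then x else y) = if q then x else y := by
  by_cases hp : p
  · rw [if_pos hp, if_pos (h.1 hp)]
  · rw [if_neg hp, if_neg (fun hq => hp (h.2 hq))]

theorem BhB_U (P : Finset ℕ) (b : ℕ) (g : ℕ → ℝ) :
    ∑ A ∈ P.powerset, BhB_w P g A * UU P b (fun p => p ∈ A) = eU P b g := by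
  have h := BhB_gen P g (fun S => S.card ≤ 2 * b) (fun S => (-1 : ℝ) ^ S.card)
  unfold UU eU
  rw [sum_filter] at h ⊢
  refine Eq.trans ?_ (h.trans ?_)
  · refine sum_congr rfl fun A _ => ?_
    rw [sum_filter, sum_filter]
    congr 1
    exact sum_congr rfl fun S _ => BhB_ite Iff.rfl _ _
  · exact sum_congr rfl fun S _ => BhB_ite Iff.rfl _ _

theorem BhB_W (P : Finset ℕ) (b : ℕ) (g : ℕ → ℝ) :
    ∑ A ∈ P.powerset, BhB_w P g A * WW P b (fun p => p ∈ A) = eW P b g := by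
  have h := BhB_gen P g (fun S => S.card = 2 * b + 1) (fun _ => 1)
  unfold WW eW
  rw [sum_filter] at h ⊢
  refine Eq.trans ?_ (h.trans ?_)
  · refine sum_congr rfl fun A _ => ?_
    rw [card_filter, sum_filter]
    push_cast
    congr 1
    exact sum_congr rfl fun S _ => BhB_ite Iff.rfl _ _
  · refine sum_congr rfl fun S _ => ?_
    rw [one_mul]
    exact BhB_ite Iff.rfl _ _

theorem BhB_I (P : Finset ℕ) (g : ℕ → ℝ) :
    ∑ A ∈ P.powerset, BhB_w P g A * II P (fun p => p ∈ A) = eI P g := by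
  rw [sum_eq_single_of_mem ∅ (empty_mem_powerset P)]
  · unfold BhB_w II eI
    rw [if_pos (fun p _ => notMem_empty p)]
    simp
  · intro A hA hne
    unfold II
    rw [if_neg, mul_zero]
    intro h
    obtain ⟨p, hp⟩ := nonempty_iff_ne_empty.2 hne
    exact h p (mem_powerset.1 hA hp) hp

theorem bhb_lower (P : Finset ℕ) (b : ℕ) (g : ℕ → ℝ) (hg : ∀ p ∈ P, 0 ≤ g p ∧ g p ≤ 1) : eI P g ≤ eU P b g := by
  rw [← BhB_I, ← BhB_U]
  exact sum_le_sum fun A hA =>
    mul_le_mul_of_nonneg_left (bha_lower P b (fun p => p ∈ A)) (BhB_w_nonneg hg hA)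

theorem bhb_upper (P : Finset ℕ) (b : ℕ) (g : ℕ → ℝ) (hg : ∀ p ∈ P, 0 ≤ g p ∧ g p ≤ 1) :
    eU P b g ≤ eI P g + eW P b g := by
  rw [← BhB_I, ← BhB_U, ← BhB_W, ← sum_add_distrib]
  refine sum_le_sum fun A hA => ?_
  rw [← mul_add]
  exact mul_le_mul_of_nonneg_left (bha_upper P b (fun p => p ∈ A)) (BhB_w_nonneg hg hA)

theorem BhB_bern {s x : ℝ} (hs : 0 ≤ s) (hx : 0 ≤ x) (n : ℕ) :
    s ^ (n + 1) + (n + 1) * (x * s ^ n) ≤ (s + x) ^ (n + 1) := by
  induction n with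
  | zero => simp
  | succ k ih =>
    have h1 : (s + x) * (s ^ (k + 1) + (k + 1) * (x * s ^ k)) ≤ (s + x) * (s + x) ^ (k + 1) :=
      mul_le_mul_of_nonneg_left ih (by positivity)
    have h2 : (s + x) * (s + x) ^ (k + 1) = (s + x) ^ (k + 1 + 1) := by ring
    have h3 : 0 ≤ (k + 1) * (x * x * s ^ k) := by positivity
    rw [h2] at h1
    refine le_trans ?_ h1
    push_cast
    have h4 : (s + x) * (s ^ (k + 1) + (k + 1) * (x * s ^ k)) =
        s ^ (k + 1 + 1) + (k + 1 + 1) * (x * s ^ (k + 1)) + (k + 1) * (x * x * s ^ k) := by ring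
    rw [h4]
    linarith

theorem BhB_esymm (P : Finset ℕ) (g : ℕ → ℝ) (hg : ∀ p ∈ P, 0 ≤ g p) (n : ℕ) :
    (n.factorial : ℝ) * ∑ S ∈ powersetCard n P, ∏ p ∈ S, g p ≤ (∑ p ∈ P, g p) ^ n := by
  induction P using Finset.induction_on generalizing n with
  | empty =>
    cases n with
    | zero => simp
    | succ k =>
      rw [powersetCard_eq_empty.2 (by simp), sum_empty, mul_zero, sum_empty]
      positivity
  | insert a P ha ih =>
    have hgP : ∀ p ∈ P, 0 ≤ g p := fun p hp => hg p (mem_insert_of_mem hp)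
    have hga : 0 ≤ g a := hg a (mem_insert_self a P)
    have hs : 0 ≤ ∑ p ∈ P, g p := sum_nonneg hgP
    cases n with
    | zero => simp
    | succ k =>
      have h1 := ih hgP (k + 1)
      have h2 := ih hgP k
      have h3 : ∑ S ∈ powersetCard (k + 1) (insert a P), ∏ p ∈ S, g p =
          ∑ S ∈ powersetCard (k + 1) P, ∏ p ∈ S, g p +
            g a * ∑ S ∈ powersetCard k P, ∏ p ∈ S, g p := by
        rw [powersetCard_succ_insert ha, sum_union, sum_image, mul_sum]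
        · congr 1
          refine sum_congr rfl fun S hS => ?_
          rw [prod_insert]
          intro h
          exact ha ((mem_powersetCard.1 hS).1 h)
        · intro S hS T hT hST
          have hS' : a ∉ S := fun h => ha ((mem_powersetCard.1 hS).1 h)
          have hT' : a ∉ T := fun h => ha ((mem_powersetCard.1 hT).1 h)
          rw [← erase_insert hS', ← erase_insert hT', hST]
        · rw [disjoint_left]
          intro S hS hS2
          rw [mem_image] at hS2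
          obtain ⟨T, _, rfl⟩ := hS2
          exact ha ((mem_powersetCard.1 hS).1 (mem_insert_self a T))
      rw [h3, sum_insert ha, add_comm (g a)]
      refine le_trans ?_ (BhB_bern hs hga k)
      rw [mul_add]
      refine add_le_add h1 ?_
      have h4 : ((k + 1).factorial : ℝ) * (g a * ∑ S ∈ powersetCard k P, ∏ p ∈ S, g p) =
          (k + 1) * (g a * ((k.factorial : ℝ) * ∑ S ∈ powersetCard k P, ∏ p ∈ S, g p)) := by
        rw [Nat.factorial_succ]
        push_cast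
        ring
      rw [h4]
      exact mul_le_mul_of_nonneg_left (mul_le_mul_of_nonneg_left h2 hga) (by positivity)

theorem ehb_W (P : Finset ℕ) (b : ℕ) (g : ℕ → ℝ) (hg : ∀ p ∈ P, 0 ≤ g p) {σ : ℝ} (hσ : ∑ p ∈ P, g p ≤ σ) :
    eW P b g ≤ σ ^ (2 * b + 1) / ((2 * b + 1).factorial : ℝ) := by
  have h1 := BhB_esymm P g hg (2 * b + 1)
  have h2 : (0 : ℝ) < ((2 * b + 1).factorial : ℝ) := by exact_mod_cast Nat.factorial_pos _
  have h3 : eW P b g = ∑ S ∈ powersetCard (2 * b + 1) P, ∏ p ∈ S, g p := by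
    unfold eW
    rw [powersetCard_eq_filter]
  rw [h3, le_div_iff₀ h2, mul_comm]
  exact h1.trans (pow_le_pow_left₀ (sum_nonneg hg) hσ _)

theorem BhB_exp {x : ℝ} (h0 : 0 ≤ x) (h1 : x ≤ 1 / 2) : Real.exp (-(2 * x)) ≤ 1 - x := by
  have h2 := Real.add_one_le_exp (2 * x)
  have h3 : Real.exp (2 * x) * Real.exp (-(2 * x)) = 1 := by
    rw [← Real.exp_add]
    simp
  have h4 := Real.exp_pos (-(2 * x))
  have h5 : 1 ≤ (2 * x + 1) * (1 - x) := by nlinarith
  have h6 : (2 * x + 1) * Real.exp (-(2 * x)) ≤ 1 := by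
    calc (2 * x + 1) * Real.exp (-(2 * x)) ≤ Real.exp (2 * x) * Real.exp (-(2 * x)) :=
          mul_le_mul_of_nonneg_right h2 h4.le
      _ = 1 := h3
  have h7 : (2 * x + 1) * Real.exp (-(2 * x)) ≤ (2 * x + 1) * (1 - x) := h6.trans h5
  exact le_of_mul_le_mul_left h7 (by linarith)

theorem ehb_I (P : Finset ℕ) (g : ℕ → ℝ) (hg : ∀ p ∈ P, 0 ≤ g p ∧ g p ≤ 1 / 2) {σ : ℝ} (hσ : ∑ p ∈ P, g p ≤ σ) :
    Real.exp (-(2 * σ)) ≤ eI P g := by
  calc Real.exp (-(2 * σ)) ≤ Real.exp (∑ p ∈ P, -(2 * g p)) := by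
        rw [Real.exp_le_exp, sum_neg_distrib, ← mul_sum]
        linarith
    _ = ∏ p ∈ P, Real.exp (-(2 * g p)) := Real.exp_sum _ _
    _ ≤ eI P g := prod_le_prod (fun p _ => (Real.exp_pos _).le)
        (fun p hp => BhB_exp (hg p hp).1 (hg p hp).2)

end H69PG

end S_H69_PG_BhB

section S_H69_PG_BhC

/-!
# BHC: the Brun-Hooley sieve

Write `II_i, UU_i, WW_i` for the block `i < I` and the predicate `B t`. Pointwise in `t`: `0 ≤ II_i ≤ UU_i ≤ II_i + WW_i`, so
`∏ UU_i - ∑_i WW_i ∏_{i' ≠ i} UU_{i'} ≤ ∏ II_i ≤ ∏ UU_i` (replace the factors one by one, `II ≤ UU`), and `∏ II_i` is the indicator of no `p` in the union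
with `B t p`. Sum over `t ∈ T` and expand: `∑_t ∏ UU_i(t) = ∑_{(S_i)} (-1)^(∑|S_i|) N(⋃ S_i)`, `S_i ⊆ Pb i`, `|S_i| ≤ 2 b_i`, and
`∑_t WW_i ∏_{i' ≠ i} UU_{i'}` similarly with `|S_i| = 2b_i + 1`; `N(S) = #{t ∈ T : ∀ p ∈ S, B t p} = Y ∏_{p ∈ S} g p + O(R S)`. The blocks are disjoint, so the families `(S_i)`
correspond to subsets `S = ⋃ S_i` of the union, which are in the set `adm` of the statement. So the sums are `Y ∏ eU_i + O(∑_{adm} R)` and
`Y eW_i ∏_{i' ≠ i} eU_{i'} + O(∑_{adm} R)`. With `eI ≤ eU ≤ eI + eW ≤ (1+δ_i) eI_i`, `Δ = ∑ δ_i ≤ 1`: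
`∏ eI ≤ ∏ eU ≤ e^Δ ∏ eI ≤ (1 + 2Δ) ∏ eI`, `∑_i eW_i ∏_{i' ≠ i} eU_{i'} ≤ Δ e^Δ ∏ eI ≤ 3 Δ ∏ eI`.
-/

open Finset EG

namespace H69PG

/-- replacing factors one by one -/
theorem bhc_tel {ι : Type} [DecidableEq ι] (s : Finset ι) (x y w : ι → ℝ) (hx : ∀ i ∈ s, 0 ≤ x i) (hxy : ∀ i ∈ s, x i ≤ y i)
    (hyw : ∀ i ∈ s, y i ≤ x i + w i) :
    ∏ i ∈ s, x i ≤ ∏ i ∈ s, y i ∧
    ∏ i ∈ s, y i - ∑ i ∈ s, w i * ∏ j ∈ s.erase i, y j ≤ ∏ i ∈ s, x i := by
  refine ⟨Finset.prod_le_prod hx hxy, ?_⟩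
  induction s using Finset.induction_on with
  | empty => simp
  | insert a s ha ih =>
    have hx' : ∀ i ∈ s, 0 ≤ x i := fun i hi => hx i (Finset.mem_insert_of_mem hi)
    have hxy' : ∀ i ∈ s, x i ≤ y i := fun i hi => hxy i (Finset.mem_insert_of_mem hi)
    have hyw' : ∀ i ∈ s, y i ≤ x i + w i := fun i hi => hyw i (Finset.mem_insert_of_mem hi)
    have h1 := ih hx' hxy' hyw'
    have hxa := hx a (Finset.mem_insert_self a s)
    have hxya := hxy a (Finset.mem_insert_self a s)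
    have hywa := hyw a (Finset.mem_insert_self a s)
    have hle : ∏ i ∈ s, x i ≤ ∏ i ∈ s, y i := Finset.prod_le_prod hx' hxy'
    have hx0 : 0 ≤ ∏ i ∈ s, x i := Finset.prod_nonneg hx'
    rw [Finset.prod_insert ha, Finset.prod_insert ha, Finset.sum_insert ha, Finset.erase_insert ha]
    have h2 : ∑ i ∈ s, w i * ∏ j ∈ (insert a s).erase i, y j = y a * ∑ i ∈ s, w i * ∏ j ∈ s.erase i, y j := by
      rw [Finset.mul_sum]
      refine Finset.sum_congr rfl fun i hi => ?_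
      have hne : a ≠ i := fun h => ha (h ▸ hi)
      rw [Finset.erase_insert_of_ne hne, Finset.prod_insert (fun h => ha (Finset.mem_of_mem_erase h))]
      ring
    rw [h2]
    have hya : 0 ≤ y a := le_trans hxa hxya
    have h3 : (y a - x a) * ∏ i ∈ s, x i ≤ w a * ∏ i ∈ s, y i := by
      have hw : y a - x a ≤ w a := by linarith
      have h0 : 0 ≤ w a := by linarith
      calc (y a - x a) * ∏ i ∈ s, x i ≤ w a * ∏ i ∈ s, x i := mul_le_mul_of_nonneg_right hw hx0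
        _ ≤ w a * ∏ i ∈ s, y i := mul_le_mul_of_nonneg_left hle h0
    have h4 := mul_le_mul_of_nonneg_left h1 hya
    nlinarith

/-- expansion of a product of sums over subsets of disjoint blocks -/
theorem bhc_exp (Pb : ℕ → Finset ℕ) (φ : ℕ → Finset ℕ → ℝ) (I : ℕ)
    (hdis : ∀ i < I, ∀ i' < I, i ≠ i' → Disjoint (Pb i) (Pb i')) :
    ∏ i ∈ range I, ∑ S ∈ (Pb i).powerset, φ i S =
      ∑ S ∈ ((range I).biUnion Pb).powerset, ∏ i ∈ range I, φ i (S ∩ Pb i) := by
  induction I with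
  | zero => simp
  | succ I ih =>
    have hd' : ∀ i < I, ∀ i' < I, i ≠ i' → Disjoint (Pb i) (Pb i') :=
      fun i hi i' hi' h => hdis i (by omega) i' (by omega) h
    rw [Finset.prod_range_succ, ih hd', Finset.sum_mul_sum, ← Finset.sum_product']
    have hun : (range (I + 1)).biUnion Pb = (range I).biUnion Pb ∪ Pb I := by
      ext p
      simp only [Finset.mem_biUnion, Finset.mem_range, Finset.mem_union]
      constructor
      · rintro ⟨i, hi, hp⟩
        rcases Nat.lt_succ_iff_lt_or_eq.mp hi with h | h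
        · exact Or.inl ⟨i, h, hp⟩
        · exact Or.inr (h ▸ hp)
      · rintro (⟨i, hi, hp⟩ | hp)
        · exact ⟨i, by omega, hp⟩
        · exact ⟨I, by omega, hp⟩
    have hdu : Disjoint ((range I).biUnion Pb) (Pb I) := by
      rw [Finset.disjoint_biUnion_left]
      intro i hi
      have := Finset.mem_range.mp hi
      exact hdis i (by omega) I (by omega) (by omega)
    rw [hun]
    refine Finset.sum_nbij' (fun x => x.1 ∪ x.2) (fun S => (S ∩ (range I).biUnion Pb, S ∩ Pb I)) ?_ ?_ ?_ ?_ ?_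
    · intro x hx
      simp only [Finset.mem_product, Finset.mem_powerset] at hx ⊢
      exact Finset.union_subset_union hx.1 hx.2
    · intro S hS
      simp only [Finset.mem_product, Finset.mem_powerset] at hS ⊢
      exact ⟨Finset.inter_subset_right, Finset.inter_subset_right⟩
    · rintro ⟨A, C⟩ hx
      simp only [Finset.mem_product, Finset.mem_powerset] at hx
      have h1 : (A ∪ C) ∩ (range I).biUnion Pb = A := by
        ext p
        simp only [Finset.mem_inter, Finset.mem_union]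
        constructor
        · rintro ⟨h | h, h'⟩
          · exact h
          · exact absurd (hx.2 h) (Finset.disjoint_left.mp hdu h')
        · intro h
          exact ⟨Or.inl h, hx.1 h⟩
      have h2 : (A ∪ C) ∩ Pb I = C := by
        ext p
        simp only [Finset.mem_inter, Finset.mem_union]
        constructor
        · rintro ⟨h | h, h'⟩
          · exact absurd h' (Finset.disjoint_left.mp hdu (hx.1 h))
          · exact h
        · intro h
          exact ⟨Or.inr h, hx.2 h⟩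
      simp only [h1, h2]
    · intro S hS
      simp only [Finset.mem_powerset] at hS
      rw [← Finset.inter_union_distrib_left]
      exact Finset.inter_eq_left.mpr hS
    · rintro ⟨A, C⟩ hx
      simp only [Finset.mem_product, Finset.mem_powerset] at hx
      rw [Finset.prod_range_succ]
      have h2 : (A ∪ C) ∩ Pb I = C := by
        ext p
        simp only [Finset.mem_inter, Finset.mem_union]
        constructor
        · rintro ⟨h | h, h'⟩
          · exact absurd h' (Finset.disjoint_left.mp hdu (hx.1 h))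
          · exact h
        · intro h
          exact ⟨Or.inr h, hx.2 h⟩
      rw [h2]
      congr 1
      refine Finset.prod_congr rfl fun i hi => ?_
      have hi' := Finset.mem_range.mp hi
      congr 1
      ext p
      simp only [Finset.mem_inter, Finset.mem_union]
      constructor
      · rintro ⟨h, h'⟩
        exact ⟨Or.inl h, h'⟩
      · rintro ⟨h | h, h'⟩
        · exact ⟨h, h'⟩
        · exact absurd (hx.2 h) (Finset.disjoint_left.mp (hdis i (by omega) I (by omega) (by omega)) h')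

open Classical in
/-- the main expansion with error -/
theorem bhc_main (I : ℕ) (Pb : ℕ → Finset ℕ) (hdis : ∀ i < I, ∀ i' < I, i ≠ i' → Disjoint (Pb i) (Pb i')) (b : ℕ → ℕ)
    (g : ℕ → ℝ) (a : ℕ → Finset ℕ → ℝ) (ha : ∀ i S, |a i S| ≤ 1) (ha0 : ∀ i S, 2 * b i + 1 < S.card → a i S = 0)
    (T : Finset ℕ) (B : ℕ → ℕ → Prop) {Y : ℝ} (R : Finset ℕ → ℝ) (hR : ∀ S, 0 ≤ R S)
    (hN : ∀ S : Finset ℕ, S ⊆ (range I).biUnion Pb → (∀ i < I, (S ∩ Pb i).card ≤ 2 * b i + 1) →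
      |((T.filter (fun t => ∀ p ∈ S, B t p)).card : ℝ) - Y * ∏ p ∈ S, g p| ≤ R S) :
    |∑ t ∈ T, ∏ i ∈ range I, ∑ S ∈ (Pb i).powerset, a i S * (if ∀ p ∈ S, B t p then 1 else 0) -
        Y * ∏ i ∈ range I, ∑ S ∈ (Pb i).powerset, a i S * ∏ p ∈ S, g p| ≤
      ∑ S ∈ ((range I).biUnion Pb).powerset.filter (fun S => ∀ i < I, (S ∩ Pb i).card ≤ 2 * b i + 1), R S := by
  have hbU : ∀ S ∈ ((range I).biUnion Pb).powerset, (range I).biUnion (fun i => S ∩ Pb i) = S := by
    intro S hS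
    rw [Finset.mem_powerset] at hS
    ext p
    simp only [Finset.mem_biUnion, Finset.mem_inter]
    constructor
    · rintro ⟨i, _, h, _⟩
      exact h
    · intro h
      obtain ⟨i, hi, hp⟩ := Finset.mem_biUnion.mp (hS h)
      exact ⟨i, hi, h, hp⟩
  have e1 : ∑ t ∈ T, ∏ i ∈ range I, ∑ S ∈ (Pb i).powerset, a i S * (if ∀ p ∈ S, B t p then (1 : ℝ) else 0) =
      ∑ S ∈ ((range I).biUnion Pb).powerset, (∏ i ∈ range I, a i (S ∩ Pb i)) *
        ((T.filter (fun t => ∀ p ∈ S, B t p)).card : ℝ) := by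
    have : ∀ t ∈ T, ∏ i ∈ range I, ∑ S ∈ (Pb i).powerset, a i S * (if ∀ p ∈ S, B t p then (1 : ℝ) else 0) =
        ∑ S ∈ ((range I).biUnion Pb).powerset, (∏ i ∈ range I, a i (S ∩ Pb i)) *
          (if ∀ p ∈ S, B t p then (1 : ℝ) else 0) := by
      intro t _
      rw [bhc_exp Pb (fun i S => a i S * (if ∀ p ∈ S, B t p then (1 : ℝ) else 0)) I hdis]
      refine Finset.sum_congr rfl fun S hS => ?_
      rw [Finset.prod_mul_distrib]
      congr 1
      rw [Finset.prod_ite_zero]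
      have hiff : (∀ i ∈ range I, ∀ p ∈ S ∩ Pb i, B t p) ↔ ∀ p ∈ S, B t p := by
        constructor
        · intro h p hp
          have hp' := hp
          rw [← hbU S hS, Finset.mem_biUnion] at hp'
          obtain ⟨i, hi, hpi⟩ := hp'
          exact h i hi p hpi
        · intro h i _ p hp
          exact h p (Finset.mem_inter.mp hp).1
      simp only [hiff, Finset.prod_const_one]
    rw [Finset.sum_congr rfl this, Finset.sum_comm]
    refine Finset.sum_congr rfl fun S _ => ?_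
    rw [← Finset.mul_sum]
    congr 1
    rw [Finset.sum_ite, Finset.sum_const_zero, add_zero, Finset.sum_const, nsmul_eq_mul, mul_one]
  have e2 : Y * ∏ i ∈ range I, ∑ S ∈ (Pb i).powerset, a i S * ∏ p ∈ S, g p =
      ∑ S ∈ ((range I).biUnion Pb).powerset, (∏ i ∈ range I, a i (S ∩ Pb i)) * (Y * ∏ p ∈ S, g p) := by
    rw [bhc_exp Pb (fun i S => a i S * ∏ p ∈ S, g p) I hdis, Finset.mul_sum]
    refine Finset.sum_congr rfl fun S hS => ?_
    rw [Finset.prod_mul_distrib]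
    have : ∏ i ∈ range I, ∏ p ∈ S ∩ Pb i, g p = ∏ p ∈ S, g p := by
      conv_rhs => rw [← hbU S hS]
      rw [Finset.prod_biUnion]
      intro i hi j hj hij
      have hi' := Finset.mem_range.mp (Finset.mem_coe.mp hi)
      have hj' := Finset.mem_range.mp (Finset.mem_coe.mp hj)
      exact (hdis i hi' j hj' hij).mono Finset.inter_subset_right Finset.inter_subset_right
    rw [this]
    ring
  rw [e1, e2, ← Finset.sum_sub_distrib]
  refine (Finset.abs_sum_le_sum_abs _ _).trans ?_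
  rw [Finset.sum_filter]
  refine Finset.sum_le_sum fun S hS => ?_
  rw [← mul_sub, abs_mul]
  split_ifs with h
  · have h1 : |∏ i ∈ range I, a i (S ∩ Pb i)| ≤ 1 := by
      rw [Finset.abs_prod]
      exact Finset.prod_le_one (fun _ _ => abs_nonneg _) fun i _ => ha i _
    have h2 := hN S (Finset.mem_powerset.mp hS) h
    calc |∏ i ∈ range I, a i (S ∩ Pb i)| * |((T.filter (fun t => ∀ p ∈ S, B t p)).card : ℝ) - Y * ∏ p ∈ S, g p|
        ≤ 1 * R S := mul_le_mul h1 h2 (abs_nonneg _) zero_le_one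
      _ = R S := one_mul _
  · push Not at h
    obtain ⟨i, hi, hc⟩ := h
    have : ∏ i ∈ range I, a i (S ∩ Pb i) = 0 :=
      Finset.prod_eq_zero (Finset.mem_range.mpr hi) (ha0 i _ hc)
    rw [this]
    simp

/-- coefficients of `UU` -/
noncomputable def aU (b : ℕ → ℕ) (i : ℕ) (S : Finset ℕ) : ℝ := if S.card ≤ 2 * b i then (-1 : ℝ) ^ S.card else 0

/-- coefficients of `WW` -/
noncomputable def aW (b : ℕ → ℕ) (i : ℕ) (S : Finset ℕ) : ℝ := if S.card = 2 * b i + 1 then 1 else 0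

open Classical in
theorem UU_eq (Pb : ℕ → Finset ℕ) (b : ℕ → ℕ) (B : ℕ → Prop) (i : ℕ) :
    UU (Pb i) (b i) B = ∑ S ∈ (Pb i).powerset, aU b i S * (if ∀ p ∈ S, B p then 1 else 0) := by
  unfold UU aU
  rw [Finset.sum_filter]
  refine Finset.sum_congr rfl fun S _ => ?_
  by_cases h1 : S.card ≤ 2 * b i <;> by_cases h2 : ∀ p ∈ S, B p <;> simp [h1, h2]

open Classical in
theorem WW_eq (Pb : ℕ → Finset ℕ) (b : ℕ → ℕ) (B : ℕ → Prop) (i : ℕ) :
    WW (Pb i) (b i) B = ∑ S ∈ (Pb i).powerset, aW b i S * (if ∀ p ∈ S, B p then 1 else 0) := by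
  unfold WW aW
  rw [Finset.card_filter]
  push_cast
  refine Finset.sum_congr rfl fun S _ => ?_
  by_cases h1 : S.card = 2 * b i + 1 <;> by_cases h2 : ∀ p ∈ S, B p <;> simp [h1, h2]

theorem eU_eq (Pb : ℕ → Finset ℕ) (b : ℕ → ℕ) (g : ℕ → ℝ) (i : ℕ) :
    eU (Pb i) (b i) g = ∑ S ∈ (Pb i).powerset, aU b i S * ∏ p ∈ S, g p := by
  unfold eU aU
  rw [Finset.sum_filter]
  refine Finset.sum_congr rfl fun S _ => ?_
  by_cases h1 : S.card ≤ 2 * b i <;> simp [h1]

theorem eW_eq (Pb : ℕ → Finset ℕ) (b : ℕ → ℕ) (g : ℕ → ℝ) (i : ℕ) :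
    eW (Pb i) (b i) g = ∑ S ∈ (Pb i).powerset, aW b i S * ∏ p ∈ S, g p := by
  unfold eW aW
  rw [Finset.sum_filter]
  refine Finset.sum_congr rfl fun S _ => ?_
  by_cases h1 : S.card = 2 * b i + 1 <;> simp [h1]

open Classical in
theorem bhc (I : ℕ) (Pb : ℕ → Finset ℕ) (hdis : ∀ i < I, ∀ i' < I, i ≠ i' → Disjoint (Pb i) (Pb i')) (b : ℕ → ℕ)
    (g : ℕ → ℝ) (hg : ∀ i < I, ∀ p ∈ Pb i, 0 ≤ g p ∧ g p ≤ 1) (δ : ℕ → ℝ) (hδ0 : ∀ i < I, 0 ≤ δ i)
    (hδ : ∀ i < I, eW (Pb i) (b i) g ≤ δ i * eI (Pb i) g) {Δ : ℝ} (hΔ : ∑ i ∈ range I, δ i ≤ Δ) (hΔ1 : Δ ≤ 1)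
    (T : Finset ℕ) (B : ℕ → ℕ → Prop) {Y : ℝ} (hY : 0 ≤ Y) (R : Finset ℕ → ℝ) (hR : ∀ S, 0 ≤ R S)
    (hN : ∀ S : Finset ℕ, S ⊆ (range I).biUnion Pb → (∀ i < I, (S ∩ Pb i).card ≤ 2 * b i + 1) →
      |((T.filter (fun t => ∀ p ∈ S, B t p)).card : ℝ) - Y * ∏ p ∈ S, g p| ≤ R S) :
    |((T.filter (fun t => ∀ p ∈ (range I).biUnion Pb, ¬ B t p)).card : ℝ) -
        Y * ∏ p ∈ (range I).biUnion Pb, (1 - g p)| ≤
      5 * Δ * (Y * ∏ p ∈ (range I).biUnion Pb, (1 - g p)) +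
        ((I : ℝ) + 1) * ∑ S ∈ ((range I).biUnion Pb).powerset.filter (fun S => ∀ i < I, (S ∩ Pb i).card ≤ 2 * b i + 1),
          R S := by
  set SR := ∑ S ∈ ((range I).biUnion Pb).powerset.filter (fun S => ∀ i < I, (S ∩ Pb i).card ≤ 2 * b i + 1), R S
    with hSR
  have hSR0 : 0 ≤ SR := Finset.sum_nonneg fun S _ => hR S
  have hΔ0 : 0 ≤ Δ := le_trans (Finset.sum_nonneg fun i hi => hδ0 i (Finset.mem_range.mp hi)) hΔ
  -- the indicator
  have hX : ((T.filter (fun t => ∀ p ∈ (range I).biUnion Pb, ¬ B t p)).card : ℝ) =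
      ∑ t ∈ T, ∏ i ∈ range I, II (Pb i) (B t) := by
    rw [Finset.card_filter]
    push_cast
    refine Finset.sum_congr rfl fun t _ => ?_
    unfold II
    rw [Finset.prod_ite_zero, Finset.prod_const_one]
    have hiff : (∀ p ∈ (range I).biUnion Pb, ¬ B t p) ↔ ∀ i ∈ range I, ∀ p ∈ Pb i, ¬ B t p := by
      constructor
      · intro h i hi p hp
        exact h p (Finset.mem_biUnion.mpr ⟨i, hi, hp⟩)
      · intro h p hp
        obtain ⟨i, hi, hp'⟩ := Finset.mem_biUnion.mp hp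
        exact h i hi p hp'
    by_cases h : ∀ i ∈ range I, ∀ p ∈ Pb i, ¬ B t p
    · rw [if_pos h, if_pos (hiff.mpr h)]
    · rw [if_neg h, if_neg (fun h' => h (hiff.mp h'))]
  have hE : ∏ p ∈ (range I).biUnion Pb, (1 - g p) = ∏ i ∈ range I, eI (Pb i) g := by
    unfold eI
    rw [Finset.prod_biUnion]
    intro i hi j hj hij
    exact hdis i (Finset.mem_range.mp (Finset.mem_coe.mp hi)) j (Finset.mem_range.mp (Finset.mem_coe.mp hj)) hij
  rw [hX, hE]
  -- pointwise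
  have hII0 : ∀ t i, 0 ≤ II (Pb i) (B t) := by
    intro t i
    unfold II
    split_ifs <;> norm_num
  have hpt := fun t => bhc_tel (range I) (fun i => II (Pb i) (B t)) (fun i => UU (Pb i) (b i) (B t))
    (fun i => WW (Pb i) (b i) (B t)) (fun i _ => hII0 t i) (fun i _ => bha_lower _ _ _) (fun i _ => bha_upper _ _ _)
  -- the sums
  have haU : ∀ i S, |aU b i S| ≤ 1 := by
    intro i S
    unfold aU
    split_ifs
    · rw [abs_pow]; simp
    · simp
  have haU0 : ∀ i S, 2 * b i + 1 < S.card → aU b i S = 0 := by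
    intro i S h
    unfold aU
    rw [if_neg (by omega)]
  have haW : ∀ i S, |aW b i S| ≤ 1 := by
    intro i S
    unfold aW
    split_ifs <;> simp
  have haW0 : ∀ i S, 2 * b i + 1 < S.card → aW b i S = 0 := by
    intro i S h
    unfold aW
    rw [if_neg (by omega)]
  have hU : |∑ t ∈ T, ∏ i ∈ range I, UU (Pb i) (b i) (B t) - Y * ∏ i ∈ range I, eU (Pb i) (b i) g| ≤ SR := by
    have := bhc_main I Pb hdis b g (aU b) haU haU0 T B (Y := Y) R hR hN
    simp only [UU_eq, eU_eq]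
    exact this
  have hW : ∀ i ∈ range I, |∑ t ∈ T, WW (Pb i) (b i) (B t) * ∏ j ∈ (range I).erase i, UU (Pb j) (b j) (B t) -
      Y * (eW (Pb i) (b i) g * ∏ j ∈ (range I).erase i, eU (Pb j) (b j) g)| ≤ SR := by
    intro i hi
    have := bhc_main I Pb hdis b g (fun j => if j = i then aW b j else aU b j)
      (by intro j S; by_cases h : j = i <;> simp only [h, if_true, if_false]
          · exact haW i S
          · exact haU j S)
      (by intro j S hc; by_cases h : j = i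
          · subst h; simp only [if_true]; exact haW0 j S hc
          · simp only [h, if_false]; exact haU0 j S hc) T B (Y := Y) R hR hN
    have f1 : ∀ t, ∏ j ∈ range I, ∑ S ∈ (Pb j).powerset, (if j = i then aW b j else aU b j) S *
        (if ∀ p ∈ S, B t p then (1 : ℝ) else 0) = WW (Pb i) (b i) (B t) * ∏ j ∈ (range I).erase i, UU (Pb j) (b j) (B t) := by
      intro t
      rw [← Finset.mul_prod_erase (range I) _ hi]
      congr 1
      · rw [WW_eq]; simp
      · refine Finset.prod_congr rfl fun j hj => ?_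
        rw [UU_eq]
        simp only [if_neg (Finset.ne_of_mem_erase hj)]
    have f2 : ∏ j ∈ range I, ∑ S ∈ (Pb j).powerset, (if j = i then aW b j else aU b j) S * ∏ p ∈ S, g p =
        eW (Pb i) (b i) g * ∏ j ∈ (range I).erase i, eU (Pb j) (b j) g := by
      rw [← Finset.mul_prod_erase (range I) _ hi]
      congr 1
      · rw [eW_eq]; simp
      · refine Finset.prod_congr rfl fun j hj => ?_
        rw [eU_eq]
        simp only [if_neg (Finset.ne_of_mem_erase hj)]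
    simp only [f1, f2] at this
    exact this
  -- expectations
  have hI0 : ∀ i ∈ range I, 0 ≤ eI (Pb i) g := by
    intro i hi
    unfold eI
    exact Finset.prod_nonneg fun p hp => by
      have := (hg i (Finset.mem_range.mp hi) p hp).2
      linarith
  have hlow : ∀ i ∈ range I, eI (Pb i) g ≤ eU (Pb i) (b i) g := fun i hi => bhb_lower _ _ _ (hg i (Finset.mem_range.mp hi))
  have hup : ∀ i ∈ range I, eU (Pb i) (b i) g ≤ (1 + δ i) * eI (Pb i) g := fun i hi => by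
    have h1 := bhb_upper (Pb i) (b i) g (hg i (Finset.mem_range.mp hi))
    have h2 := hδ i (Finset.mem_range.mp hi)
    linarith
  have hU0 : ∀ i ∈ range I, 0 ≤ eU (Pb i) (b i) g := fun i hi => le_trans (hI0 i hi) (hlow i hi)
  set E := ∏ i ∈ range I, eI (Pb i) g with hEdef
  have hE0 : 0 ≤ E := Finset.prod_nonneg hI0
  have hEU : E ≤ ∏ i ∈ range I, eU (Pb i) (b i) g := Finset.prod_le_prod hI0 hlow
  have hexp1 : Real.exp Δ ≤ 1 + 2 * Δ := by
    have := Real.abs_exp_sub_one_sub_id_le (x := Δ) (by rw [abs_of_nonneg hΔ0]; exact hΔ1)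
    have h2 := (abs_le.mp this).2
    nlinarith
  have hprodδ : ∀ s ⊆ range I, ∏ i ∈ s, (1 + δ i) ≤ Real.exp Δ := by
    intro s hs
    calc ∏ i ∈ s, (1 + δ i) ≤ ∏ i ∈ s, Real.exp (δ i) :=
          Finset.prod_le_prod (fun i hi => by have := hδ0 i (Finset.mem_range.mp (hs hi)); linarith)
            (fun i _ => by have := Real.add_one_le_exp (δ i); linarith)
      _ = Real.exp (∑ i ∈ s, δ i) := (Real.exp_sum _ _).symm
      _ ≤ Real.exp Δ := Real.exp_le_exp.mpr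
          (le_trans (Finset.sum_le_sum_of_subset_of_nonneg hs fun i hi _ => hδ0 i (Finset.mem_range.mp hi)) hΔ)
  have hUE : ∏ i ∈ range I, eU (Pb i) (b i) g ≤ (1 + 2 * Δ) * E := by
    calc ∏ i ∈ range I, eU (Pb i) (b i) g ≤ ∏ i ∈ range I, (1 + δ i) * eI (Pb i) g := Finset.prod_le_prod hU0 hup
      _ = (∏ i ∈ range I, (1 + δ i)) * E := by rw [Finset.prod_mul_distrib]
      _ ≤ (1 + 2 * Δ) * E := mul_le_mul_of_nonneg_right (le_trans (hprodδ _ (Finset.Subset.refl _)) hexp1) hE0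
  have hWE : ∑ i ∈ range I, eW (Pb i) (b i) g * ∏ j ∈ (range I).erase i, eU (Pb j) (b j) g ≤ 3 * Δ * E := by
    have h3 : ∀ i ∈ range I, eW (Pb i) (b i) g * ∏ j ∈ (range I).erase i, eU (Pb j) (b j) g ≤ δ i * (3 * E) := by
      intro i hi
      have hsub : (range I).erase i ⊆ range I := Finset.erase_subset _ _
      have hP0 : 0 ≤ ∏ j ∈ (range I).erase i, eU (Pb j) (b j) g := Finset.prod_nonneg fun j hj => hU0 j (hsub hj)
      have hQ0 : 0 ≤ ∏ j ∈ (range I).erase i, eI (Pb j) g := Finset.prod_nonneg fun j hj => hI0 j (hsub hj)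
      have h4 : ∏ j ∈ (range I).erase i, eU (Pb j) (b j) g ≤ 3 * ∏ j ∈ (range I).erase i, eI (Pb j) g := by
        calc ∏ j ∈ (range I).erase i, eU (Pb j) (b j) g ≤ ∏ j ∈ (range I).erase i, (1 + δ j) * eI (Pb j) g :=
              Finset.prod_le_prod (fun j hj => hU0 j (hsub hj)) (fun j hj => hup j (hsub hj))
          _ = (∏ j ∈ (range I).erase i, (1 + δ j)) * ∏ j ∈ (range I).erase i, eI (Pb j) g := by
              rw [Finset.prod_mul_distrib]
          _ ≤ 3 * ∏ j ∈ (range I).erase i, eI (Pb j) g :=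
              mul_le_mul_of_nonneg_right (by have := hprodδ _ hsub; linarith) hQ0
      have h5 := hδ i (Finset.mem_range.mp hi)
      have h6 : 0 ≤ δ i * eI (Pb i) g := mul_nonneg (hδ0 i (Finset.mem_range.mp hi)) (hI0 i hi)
      have h7 : eI (Pb i) g * ∏ j ∈ (range I).erase i, eI (Pb j) g = E := Finset.mul_prod_erase (range I) (fun i => eI (Pb i) g) hi
      calc eW (Pb i) (b i) g * ∏ j ∈ (range I).erase i, eU (Pb j) (b j) g
          ≤ (δ i * eI (Pb i) g) * ∏ j ∈ (range I).erase i, eU (Pb j) (b j) g := mul_le_mul_of_nonneg_right h5 hP0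
        _ ≤ (δ i * eI (Pb i) g) * (3 * ∏ j ∈ (range I).erase i, eI (Pb j) g) := mul_le_mul_of_nonneg_left h4 h6
        _ = δ i * (3 * E) := by rw [← h7]; ring
    calc ∑ i ∈ range I, eW (Pb i) (b i) g * ∏ j ∈ (range I).erase i, eU (Pb j) (b j) g
        ≤ ∑ i ∈ range I, δ i * (3 * E) := Finset.sum_le_sum h3
      _ = (∑ i ∈ range I, δ i) * (3 * E) := by rw [Finset.sum_mul]
      _ ≤ Δ * (3 * E) := mul_le_mul_of_nonneg_right hΔ (by positivity)
      _ = 3 * Δ * E := by ring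
  -- conclusion
  have hupper : ∑ t ∈ T, ∏ i ∈ range I, II (Pb i) (B t) ≤ ∑ t ∈ T, ∏ i ∈ range I, UU (Pb i) (b i) (B t) :=
    Finset.sum_le_sum fun t _ => (hpt t).1
  have hlower : ∑ t ∈ T, ∏ i ∈ range I, UU (Pb i) (b i) (B t) -
      ∑ i ∈ range I, ∑ t ∈ T, WW (Pb i) (b i) (B t) * ∏ j ∈ (range I).erase i, UU (Pb j) (b j) (B t) ≤
      ∑ t ∈ T, ∏ i ∈ range I, II (Pb i) (B t) := by
    rw [Finset.sum_comm, ← Finset.sum_sub_distrib]
    exact Finset.sum_le_sum fun t _ => (hpt t).2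
  have hW2 : ∑ i ∈ range I, ∑ t ∈ T, WW (Pb i) (b i) (B t) * ∏ j ∈ (range I).erase i, UU (Pb j) (b j) (B t) ≤
      Y * (3 * Δ * E) + I * SR := by
    calc ∑ i ∈ range I, ∑ t ∈ T, WW (Pb i) (b i) (B t) * ∏ j ∈ (range I).erase i, UU (Pb j) (b j) (B t)
        ≤ ∑ i ∈ range I, (Y * (eW (Pb i) (b i) g * ∏ j ∈ (range I).erase i, eU (Pb j) (b j) g) + SR) :=
          Finset.sum_le_sum fun i hi => by have := (abs_le.mp (hW i hi)).2; linarith
      _ = Y * ∑ i ∈ range I, eW (Pb i) (b i) g * ∏ j ∈ (range I).erase i, eU (Pb j) (b j) g + I * SR := by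
          rw [Finset.sum_add_distrib, Finset.mul_sum, Finset.sum_const, Finset.card_range, nsmul_eq_mul]
      _ ≤ Y * (3 * Δ * E) + I * SR := by
          have := mul_le_mul_of_nonneg_left hWE hY
          linarith
  have hU' := abs_le.mp hU
  have hYE : 0 ≤ Y * E := mul_nonneg hY hE0
  have hI0' : (0 : ℝ) ≤ I := Nat.cast_nonneg I
  have hISR : 0 ≤ (I : ℝ) * SR := mul_nonneg hI0' hSR0
  have hYU1 : Y * ∏ i ∈ range I, eU (Pb i) (b i) g ≤ Y * ((1 + 2 * Δ) * E) := mul_le_mul_of_nonneg_left hUE hY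
  have hYU2 : Y * E ≤ Y * ∏ i ∈ range I, eU (Pb i) (b i) g := mul_le_mul_of_nonneg_left hEU hY
  have hDYE : 0 ≤ Δ * (Y * E) := mul_nonneg hΔ0 hYE
  rw [abs_le]
  constructor
  · nlinarith [hU'.1, hU'.2]
  · nlinarith [hU'.1, hU'.2]

end H69PG

end S_H69_PG_BhC

section S_H69_PG_Bh

/-!
# BH: the fundamental lemma

Use `bhc` with `I = z` blocks `Pb i` = primes `p ∈ (K, z]` with `z^(2^(-i-1)) < p ≤ z^(2^(-i))` (real powers; they are disjoint and their union for `i < z` is `PK K z`, because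
`z^(2^(-z)) ≤ 2 ≤ K`), `g p = j/p ≤ 1/2`, `b i = b0 + i`, `R S = r j^|S|` if `∏ S ≤ z^(4 b0 + 10)`.
* `S` in the set `adm`: `∏ S ≤ ∏_i z^(2^(-i) (2 b0 + 2 i + 1)) ≤ z^(2 (2 b0 + 1) + 4) ≤ z^(4 b0 + 10) =: D0` (`∑ 2^(-i) = 2`, `∑ 2 i 2^(-i) = 4`). So `hN` follows from the hypothesis, and
  `∑_{adm} R S ≤ r ∑_{S : ∏ S ≤ D0} j^|S| ≤ r D0²` (`S ↦ ∏ S` is injective, `j^|S| ≤ ∏ S` since `j ≤ K < p`); `(z + 1) D0² ≤ D0³`.
* `∑_{p ∈ Pb i} 1/p ≤ c6` (absolute): with `y = z^(2^(-i))`, the first bound in `Mert` (`Pool/Agent/H67/GT/MERT.lean`: `mert`) gives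
  `∑_{√y < p ≤ y} (log p)/p ≤ (1/2) log y + c`, so `∑ 1/p ≤ 1 + 2c/log y`, and `y ≥ 3` if the block is not empty.
* so with `σ = j c6`: `eI ≥ e^(-2σ)` (`ehb_I`), `eW ≤ σ^n/n!` (`ehb_W`), `n = 2 b0 + 2 i + 1`; `n! ≥ (n/e)^n`, so `eW ≤ (e σ/n)^n ≤ e^(-2n)` if `n ≥ e^3 σ`; `δ i = e^(2σ - 2n)`,
  `∑ δ i ≤ 2 e^(2σ - 4 b0 - 2)`, and `5 Δ ≤ e^(-b0)` if `3 b0 ≥ 2σ + 3`.
(`j = 0` is included: `σ = 0`.)
-/

open Finset EG

namespace H69PG

/-- the index of the block of the prime `p` -/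
def bh_ix (z p : ℕ) : ℕ := Nat.log 2 (Nat.log p z)

/-- the blocks -/
def bh_Bk (K z i : ℕ) : Finset ℕ := (PK K z).filter (fun p => bh_ix z p = i)

lemma bh_mem_PK {K z p : ℕ} : p ∈ PK K z ↔ K < p ∧ p ≤ z ∧ p.Prime := by
  simp [PK, and_assoc]

lemma bh_logpos {K z p : ℕ} (hp : p ∈ PK K z) : Nat.log p z ≠ 0 := by
  obtain ⟨_, h2, h3⟩ := bh_mem_PK.1 hp
  exact (Nat.log_pos h3.one_lt h2).ne'

lemma bh_ix_lt {K z p : ℕ} (hp : p ∈ PK K z) : bh_ix z p < z := by
  obtain ⟨_, h2, h3⟩ := bh_mem_PK.1 hp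
  have hz : z ≠ 0 := by
    have := h3.pos
    omega
  exact lt_of_le_of_lt (Nat.log_le_self _ _) (Nat.log_lt_self _ hz)

lemma bh_ix_log {K z p : ℕ} (hp : p ∈ PK K z) :
    Real.log p ≤ Real.log z / 2 ^ (bh_ix z p) ∧ Real.log z / 2 ^ (bh_ix z p + 1) < Real.log p := by
  obtain ⟨_, h2, h3⟩ := bh_mem_PK.1 hp
  have hp0 : 0 < p := h3.pos
  have hz : z ≠ 0 := by omega
  have hk := bh_logpos hp
  have e1 : p ^ (2 ^ (bh_ix z p)) ≤ z :=
    (Nat.pow_le_pow_right hp0 (Nat.pow_log_le_self 2 hk)).trans (Nat.pow_log_le_self p hz)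
  have e2 : z < p ^ (2 ^ (bh_ix z p + 1)) := by
    refine (Nat.lt_pow_succ_log_self h3.one_lt z).trans_le (Nat.pow_le_pow_right hp0 ?_)
    exact Nat.lt_pow_succ_log_self (b := 2) (by norm_num) (Nat.log p z)
  have hpr : (0 : ℝ) < p := by exact_mod_cast hp0
  have hzr : (0 : ℝ) < z := by
    have : 0 < z := by omega
    exact_mod_cast this
  constructor
  · rw [le_div_iff₀ (by positivity)]
    have h : ((p : ℝ) ^ (2 ^ (bh_ix z p))) ≤ z := by exact_mod_cast e1
    have h' := Real.log_le_log (by positivity) h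
    rw [Real.log_pow] at h'
    push_cast at h'
    linarith
  · rw [div_lt_iff₀ (by positivity)]
    have h : (z : ℝ) < (p : ℝ) ^ (2 ^ (bh_ix z p + 1)) := by exact_mod_cast e2
    have h' := Real.log_lt_log hzr h
    rw [Real.log_pow] at h'
    push_cast at h'
    linarith

lemma bh_recip : ∃ c6 : ℝ, 0 ≤ c6 ∧ ∀ K z i : ℕ, 2 ≤ K → ∑ p ∈ bh_Bk K z i, (1 : ℝ) / p ≤ c6 := by
  obtain ⟨c, hc1, hc, -⟩ := Pool.Agent.H67.GT.MERT.mert
  refine ⟨1 + 2 * c, by linarith, fun K z i hK => ?_⟩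
  rcases (bh_Bk K z i).eq_empty_or_nonempty with he | ⟨q, hq⟩
  · rw [he, sum_empty]
    linarith
  set lam : ℝ := Real.log z / 2 ^ (i + 1) with hlam
  have hlam2 : Real.log z / 2 ^ i = 2 * lam := by
    rw [hlam, pow_succ]
    field_simp
  have hB : ∀ p ∈ bh_Bk K z i, p.Prime ∧ 3 ≤ p ∧ Real.log p ≤ 2 * lam ∧ lam < Real.log p := by
    intro p hp
    rw [bh_Bk, mem_filter] at hp
    obtain ⟨h1, h2⟩ := hp
    have h3 := bh_ix_log h1
    rw [h2, hlam2] at h3
    obtain ⟨h4, _, h5⟩ := bh_mem_PK.1 h1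
    exact ⟨h5, by omega, h3.1, h3.2⟩
  have hlam0 : 1 / 2 ≤ lam := by
    obtain ⟨_, h1, h2, _⟩ := hB q hq
    have h3 : (3 : ℝ) ≤ q := by exact_mod_cast h1
    have h4 : Real.exp 1 ≤ q := by
      have := Real.exp_one_lt_d9
      linarith
    have h5 : 1 ≤ Real.log q := by
      rw [Real.le_log_iff_exp_le (by linarith)]
      exact h4
    linarith
  have h1 := hc (Real.exp lam) (Real.exp (2 * lam)) (Real.one_le_exp (by linarith))
    (Real.exp_le_exp.2 (by linarith))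
  rw [← Real.exp_sub, Real.log_exp] at h1
  have h2 : ∑ p ∈ bh_Bk K z i, Real.log p / p ≤
      ∑ p ∈ (Finset.Icc 1 ⌊Real.exp (2 * lam)⌋₊).filter
        (fun p : ℕ => p.Prime ∧ Real.exp lam < p), Real.log p / p := by
    apply sum_le_sum_of_subset_of_nonneg
    · intro p hp
      obtain ⟨g1, g2, g3, g4⟩ := hB p hp
      have hp0 : (0 : ℝ) < p := by
        have := g1.pos
        exact_mod_cast this
      rw [mem_filter, mem_Icc]
      refine ⟨⟨by omega, Nat.le_floor ?_⟩, g1, ?_⟩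
      · rw [← Real.exp_log hp0]
        exact Real.exp_le_exp.2 g3
      · rw [← Real.exp_log hp0]
        exact Real.exp_lt_exp.2 g4
    · intro p hp _
      rw [mem_filter, mem_Icc] at hp
      have : (1 : ℝ) ≤ p := by exact_mod_cast hp.1.1
      have := Real.log_nonneg this
      positivity
  have h3 : lam * ∑ p ∈ bh_Bk K z i, (1 : ℝ) / p ≤ ∑ p ∈ bh_Bk K z i, Real.log p / p := by
    rw [mul_sum]
    refine sum_le_sum fun p hp => ?_
    obtain ⟨g1, g2, g3, g4⟩ := hB p hp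
    have hp0 : (0 : ℝ) < p := by
      have := g1.pos
      exact_mod_cast this
    rw [mul_one_div]
    gcongr
  have h4 : lam * ∑ p ∈ bh_Bk K z i, (1 : ℝ) / p ≤ lam * (1 + 2 * c) := by
    have h5 : c ≤ lam * (2 * c) := by nlinarith
    linarith
  exact le_of_mul_le_mul_left h4 (by linarith)

lemma bh_geo (a : ℝ) (I : ℕ) :
    ∑ i ∈ range I, (a + 2 * i) / 2 ^ i = 2 * a + 4 - (2 * a + 4 + 4 * I) / 2 ^ I := by
  induction I with
  | zero => simp
  | succ I ih =>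
    rw [sum_range_succ, ih]
    push_cast
    rw [pow_succ]
    field_simp
    ring

lemma bh_prod_le {K z b0 : ℕ} (hz : 1 ≤ z) {S : Finset ℕ} (hS : S ⊆ PK K z)
    (hc : ∀ i < z, (S ∩ bh_Bk K z i).card ≤ 2 * (b0 + i) + 1) :
    ∏ p ∈ S, p ≤ z ^ (4 * b0 + 10) := by
  have hL : 0 ≤ Real.log z := Real.log_nonneg (by exact_mod_cast hz)
  have hpos : ∀ p ∈ S, (0 : ℝ) < p := fun p hp => by
    have := (bh_mem_PK.1 (hS hp)).2.2.pos
    exact_mod_cast this
  have h1 : Real.log (∏ p ∈ S, (p : ℝ)) = ∑ p ∈ S, Real.log p :=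
    Real.log_prod (fun p hp => (hpos p hp).ne')
  have h2 : ∑ p ∈ S, Real.log p = ∑ i ∈ range z, ∑ p ∈ S.filter (fun p => bh_ix z p = i), Real.log p :=
    (sum_fiberwise_of_maps_to (fun p hp => mem_range.2 (bh_ix_lt (hS hp))) _).symm
  have h3 : ∀ i ∈ range z, ∑ p ∈ S.filter (fun p => bh_ix z p = i), Real.log p ≤
      ((2 * b0 + 1 : ℝ) + 2 * i) / 2 ^ i * Real.log z := by
    intro i hi
    have h4 : ∀ p ∈ S.filter (fun p => bh_ix z p = i), Real.log p ≤ Real.log z / 2 ^ i := by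
      intro p hp
      rw [mem_filter] at hp
      have := (bh_ix_log (hS hp.1)).1
      rwa [hp.2] at this
    have h5 : (S.filter (fun p => bh_ix z p = i)).card ≤ 2 * (b0 + i) + 1 := by
      refine (card_le_card ?_).trans (hc i (mem_range.1 hi))
      intro p hp
      rw [mem_filter] at hp
      rw [mem_inter, bh_Bk, mem_filter]
      exact ⟨hp.1, hS hp.1, hp.2⟩
    have h5' : ((S.filter (fun p => bh_ix z p = i)).card : ℝ) ≤ (2 * b0 + 1 : ℝ) + 2 * i := by
      have : ((S.filter (fun p => bh_ix z p = i)).card : ℝ) ≤ ((2 * (b0 + i) + 1 : ℕ) : ℝ) := by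
        exact_mod_cast h5
      push_cast at this
      linarith
    calc ∑ p ∈ S.filter (fun p => bh_ix z p = i), Real.log p
        ≤ ∑ _p ∈ S.filter (fun p => bh_ix z p = i), Real.log z / 2 ^ i := sum_le_sum h4
      _ = ((S.filter (fun p => bh_ix z p = i)).card : ℝ) * (Real.log z / 2 ^ i) := by
          rw [sum_const, nsmul_eq_mul]
      _ ≤ ((2 * b0 + 1 : ℝ) + 2 * i) * (Real.log z / 2 ^ i) := by gcongr
      _ = _ := by ring
  have h6 : ∑ p ∈ S, Real.log p ≤ (4 * b0 + 10 : ℝ) * Real.log z := by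
    rw [h2]
    refine (sum_le_sum h3).trans ?_
    rw [← sum_mul, bh_geo]
    refine mul_le_mul_of_nonneg_right ?_ hL
    have : (0 : ℝ) ≤ (2 * (2 * (b0 : ℝ) + 1) + 4 + 4 * z) / 2 ^ z := by positivity
    linarith
  have h7 : (∏ p ∈ S, (p : ℝ)) ≤ (z : ℝ) ^ (4 * b0 + 10) := by
    have hz0 : (0 : ℝ) < z := by exact_mod_cast hz
    have h8 : 0 < ∏ p ∈ S, (p : ℝ) := prod_pos hpos
    rw [← Real.log_le_log_iff h8 (by positivity), h1, Real.log_pow]
    push_cast
    exact h6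
  have h9 : ((∏ p ∈ S, p : ℕ) : ℝ) ≤ ((z ^ (4 * b0 + 10) : ℕ) : ℝ) := by
    rw [Nat.cast_prod, Nat.cast_pow]
    exact h7
  exact Nat.cast_le.1 h9

lemma bh_count {K z D j : ℕ} (hj : j ≤ K) {r : ℝ} (hr : 0 ≤ r) :
    ∑ S ∈ (PK K z).powerset.filter (fun S => ∏ p ∈ S, p ≤ D), r * (j : ℝ) ^ S.card ≤
      r * ((D : ℝ) * D) := by
  have h1 : ∀ S ∈ (PK K z).powerset.filter (fun S => ∏ p ∈ S, p ≤ D),
      r * (j : ℝ) ^ S.card ≤ r * D := by
    intro S hS
    rw [mem_filter, mem_powerset] at hS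
    refine mul_le_mul_of_nonneg_left ?_ hr
    have h2 : j ^ S.card ≤ ∏ p ∈ S, p := by
      rw [← prod_const]
      refine prod_le_prod (fun _ _ => Nat.zero_le _) fun p hp => ?_
      have := (bh_mem_PK.1 (hS.1 hp)).1
      omega
    exact_mod_cast h2.trans hS.2
  have h3 : ((PK K z).powerset.filter (fun S => ∏ p ∈ S, p ≤ D)).card ≤ D := by
    have h4 : ((PK K z).powerset.filter (fun S => ∏ p ∈ S, p ≤ D)).card ≤ (Icc 1 D).card := by
      apply card_le_card_of_injOn (fun S => ∏ p ∈ S, p)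
      · intro S hS
        have hS := mem_coe.1 hS
        rw [mem_filter, mem_powerset] at hS
        rw [mem_coe, mem_Icc]
        refine ⟨?_, hS.2⟩
        exact Nat.one_le_iff_ne_zero.2 (prod_ne_zero_iff.2 fun p hp =>
          (bh_mem_PK.1 (hS.1 hp)).2.2.ne_zero)
      · intro S hS S' hS' he
        have hS := mem_coe.1 hS
        have hS' := mem_coe.1 hS'
        rw [mem_filter, mem_powerset] at hS hS'
        have e1 := Nat.primeFactors_prod (s := S) fun p hp => (bh_mem_PK.1 (hS.1 hp)).2.2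
        have e2 := Nat.primeFactors_prod (s := S') fun p hp => (bh_mem_PK.1 (hS'.1 hp)).2.2
        simp only at he
        rw [← e1, ← e2, he]
    rwa [Nat.card_Icc, Nat.add_sub_cancel] at h4
  have h3' : (((PK K z).powerset.filter (fun S => ∏ p ∈ S, p ≤ D)).card : ℝ) ≤ D := by
    exact_mod_cast h3
  calc ∑ S ∈ (PK K z).powerset.filter (fun S => ∏ p ∈ S, p ≤ D), r * (j : ℝ) ^ S.card
      ≤ ∑ _S ∈ (PK K z).powerset.filter (fun S => ∏ p ∈ S, p ≤ D), r * (D : ℝ) := sum_le_sum h1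
    _ = (((PK K z).powerset.filter (fun S => ∏ p ∈ S, p ≤ D)).card : ℝ) * (r * D) := by
        rw [sum_const, nsmul_eq_mul]
    _ ≤ D * (r * D) := by gcongr
    _ = _ := by ring

lemma bh_fact {σ : ℝ} (hσ : 0 ≤ σ) {n : ℕ} (hn : 21 * σ ≤ n) :
    σ ^ n / (n.factorial : ℝ) ≤ Real.exp (-(2 * n)) := by
  rcases Nat.eq_zero_or_pos n with rfl | hn0
  · simp
  have hn' : (0 : ℝ) < n := by exact_mod_cast hn0
  have h1 := Real.pow_div_factorial_le_exp (n : ℝ) hn'.le n
  have he : Real.exp 3 ≤ 21 := by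
    have h2 : Real.exp 3 = Real.exp 1 ^ 3 := by
      rw [← Real.exp_nat_mul]
      norm_num
    rw [h2]
    have h3 := Real.exp_one_lt_d9
    have h4 := Real.exp_pos 1
    calc Real.exp 1 ^ 3 ≤ (2.7182818286 : ℝ) ^ 3 := pow_le_pow_left₀ h4.le h3.le 3
      _ ≤ 21 := by norm_num
  have h5 : σ / n ≤ Real.exp (-3) := by
    rw [Real.exp_neg, div_le_iff₀ hn', inv_mul_eq_div, le_div_iff₀ (Real.exp_pos 3)]
    nlinarith
  calc σ ^ n / (n.factorial : ℝ) = (σ / n) ^ n * ((n : ℝ) ^ n / (n.factorial : ℝ)) := by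
        rw [div_pow]
        field_simp
    _ ≤ Real.exp (-3) ^ n * Real.exp n := by
        gcongr
    _ = Real.exp (-(2 * n)) := by
        rw [← Real.exp_nat_mul, ← Real.exp_add]
        congr 1
        ring

lemma bh_expsum (I : ℕ) : ∑ i ∈ range I, Real.exp (-(4 * (i : ℝ))) ≤ 2 := by
  have h1 : ∀ i : ℕ, Real.exp (-(4 * (i : ℝ))) ≤ (1 / 2 : ℝ) ^ i := by
    intro i
    have h2 : Real.exp (-(4 * (i : ℝ))) = Real.exp (-4) ^ i := by
      rw [← Real.exp_nat_mul]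
      congr 1
      ring
    rw [h2]
    apply pow_le_pow_left₀ (Real.exp_pos _).le
    rw [Real.exp_neg, inv_eq_one_div]
    apply one_div_le_one_div_of_le (by norm_num)
    have := Real.add_one_le_exp (4 : ℝ)
    linarith
  refine (sum_le_sum fun i _ => h1 i).trans ?_
  rw [geom_sum_eq (by norm_num)]
  have : (0 : ℝ) ≤ (1 / 2) ^ I := by positivity
  rw [div_le_iff_of_neg (by norm_num)]
  linarith

open Classical in
theorem bh (j : ℕ) : ∃ C : ℕ, ∀ b0 : ℕ, C ≤ b0 → ∀ K z : ℕ, 2 * j ≤ K → 2 ≤ K → K ≤ z →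
    ∀ (T : Finset ℕ) (B : ℕ → ℕ → Prop) (Y r : ℝ), 0 ≤ Y → 0 ≤ r →
    (∀ S ⊆ PK K z, ∏ p ∈ S, p ≤ z ^ (4 * b0 + 10) →
      |((T.filter (fun t => ∀ p ∈ S, B t p)).card : ℝ) - Y * ∏ p ∈ S, ((j : ℝ) / p)| ≤ r * (j : ℝ) ^ S.card) →
    |((T.filter (fun t => ∀ p ∈ PK K z, ¬ B t p)).card : ℝ) - Y * VV K z j| ≤
      Real.exp (-(b0 : ℝ)) * (Y * VV K z j) + r * (z : ℝ) ^ (3 * (4 * b0 + 10)) := by
  obtain ⟨c6, hc6, hrec⟩ := bh_recip
  set σ : ℝ := j * c6 with hσdef
  have hσ0 : 0 ≤ σ := by positivity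
  obtain ⟨C, hC⟩ := exists_nat_ge (21 * σ + 2)
  refine ⟨C, fun b0 hb0 K z hjK hK hKz T B Y r hY hr hN => ?_⟩
  have hb0' : 21 * σ + 2 ≤ (b0 : ℝ) := hC.trans (by exact_mod_cast hb0)
  have hz2 : 2 ≤ z := hK.trans hKz
  have hz1 : 1 ≤ z := by omega
  have hU : (range z).biUnion (bh_Bk K z) = PK K z := by
    ext p
    rw [mem_biUnion]
    constructor
    · rintro ⟨i, _, hi⟩
      exact (mem_filter.1 hi).1
    · intro hp
      exact ⟨bh_ix z p, mem_range.2 (bh_ix_lt hp), mem_filter.2 ⟨hp, rfl⟩⟩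
  have hg : ∀ i < z, ∀ p ∈ bh_Bk K z i, (0 : ℝ) ≤ (j : ℝ) / p ∧ (j : ℝ) / p ≤ 1 / 2 := by
    intro i _ p hp
    have h1 := (bh_mem_PK.1 (mem_filter.1 hp).1).1
    have hp0 : (0 : ℝ) < p := by
      have : 0 < p := by omega
      exact_mod_cast this
    refine ⟨by positivity, ?_⟩
    rw [div_le_div_iff₀ hp0 (by norm_num)]
    have : 2 * j ≤ p := by omega
    have h2 : (2 : ℝ) * j ≤ p := by exact_mod_cast this
    linarith
  have hσi : ∀ i, ∑ p ∈ bh_Bk K z i, (j : ℝ) / p ≤ σ := by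
    intro i
    have h1 := hrec K z i hK
    have h2 : ∑ p ∈ bh_Bk K z i, (j : ℝ) / p = j * ∑ p ∈ bh_Bk K z i, (1 : ℝ) / p := by
      rw [mul_sum]
      exact sum_congr rfl fun p _ => by ring
    rw [h2, hσdef]
    gcongr
  set δ : ℕ → ℝ := fun i => Real.exp (2 * σ - 2 * ((2 * (b0 + i) + 1 : ℕ) : ℝ)) with hδ
  set R : Finset ℕ → ℝ := fun S => if ∏ p ∈ S, p ≤ z ^ (4 * b0 + 10) then r * (j : ℝ) ^ S.card else 0 with hR
  have hΔ : ∑ i ∈ range z, δ i ≤ Real.exp (-(b0 : ℝ)) / 5 := by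
    have h1 : ∀ i : ℕ, δ i = Real.exp (2 * σ - 4 * b0 - 2) * Real.exp (-(4 * (i : ℝ))) := by
      intro i
      rw [hδ, ← Real.exp_add]
      simp only
      congr 1
      push_cast
      ring
    simp only [h1]
    rw [← mul_sum]
    have h2 := bh_expsum z
    have h3 : Real.exp (2 * σ - 4 * b0 - 2) ≤ Real.exp (-(b0 : ℝ)) * Real.exp (-5) := by
      rw [← Real.exp_add]
      apply Real.exp_le_exp.2
      linarith
    have h4 : Real.exp (-5) ≤ 1 / 10 := by
      have h5 : Real.exp (-5 : ℝ) = Real.exp (-(5 / 2)) * Real.exp (-(5 / 2)) := by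
        rw [← Real.exp_add]
        norm_num
      have h6 : Real.exp (-(5 / 2 : ℝ)) ≤ 2 / 7 := by
        rw [Real.exp_neg, inv_le_comm₀ (Real.exp_pos _) (by norm_num)]
        have := Real.add_one_le_exp (5 / 2 : ℝ)
        linarith
      have h7 := Real.exp_pos (-(5 / 2 : ℝ))
      rw [h5]
      nlinarith
    have h8 := Real.exp_pos (-(b0 : ℝ))
    calc Real.exp (2 * σ - 4 * b0 - 2) * ∑ i ∈ range z, Real.exp (-(4 * (i : ℝ)))
        ≤ (Real.exp (-(b0 : ℝ)) * (1 / 10)) * 2 := by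
          refine mul_le_mul (h3.trans ?_) h2 (sum_nonneg fun i _ => (Real.exp_pos _).le) (by positivity)
          gcongr
      _ = Real.exp (-(b0 : ℝ)) / 5 := by ring
  have hmain := bhc z (bh_Bk K z) (by
      intro i _ i' _ hne
      rw [Finset.disjoint_left]
      intro p hp hp'
      exact hne ((mem_filter.1 hp).2.symm.trans (mem_filter.1 hp').2)) (fun i => b0 + i)
    (fun p => (j : ℝ) / p) (fun i hi p hp => ⟨(hg i hi p hp).1, (hg i hi p hp).2.trans (by norm_num)⟩)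
    δ (fun i _ => (Real.exp_pos _).le) (by
      intro i hi
      have h1 := ehb_W (bh_Bk K z i) (b0 + i) (fun p => (j : ℝ) / p) (fun p hp => (hg i hi p hp).1)
        (hσi i)
      have h2 := ehb_I (bh_Bk K z i) (fun p => (j : ℝ) / p) (hg i hi) (hσi i)
      have h3 : 21 * σ ≤ ((2 * (b0 + i) + 1 : ℕ) : ℝ) := by
        push_cast
        have : (0 : ℝ) ≤ i := Nat.cast_nonneg i
        linarith
      have h4 := bh_fact hσ0 h3
      calc eW (bh_Bk K z i) (b0 + i) (fun p => (j : ℝ) / p)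
          ≤ Real.exp (-(2 * ((2 * (b0 + i) + 1 : ℕ) : ℝ))) := h1.trans h4
        _ = δ i * Real.exp (-(2 * σ)) := by
            rw [hδ, ← Real.exp_add]
            congr 1
            ring
        _ ≤ δ i * eI (bh_Bk K z i) (fun p => (j : ℝ) / p) :=
            mul_le_mul_of_nonneg_left h2 (Real.exp_pos _).le)
    hΔ (by
      have : Real.exp (-(b0 : ℝ)) ≤ 1 := by
        rw [Real.exp_le_one_iff]
        have : (0 : ℝ) ≤ b0 := Nat.cast_nonneg b0
        linarith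
      linarith) T B hY R (by
      intro S
      rw [hR]
      simp only
      split_ifs
      · positivity
      · exact le_rfl) (by
      intro S hS hc
      rw [hU] at hS
      have hp := bh_prod_le hz1 hS hc
      have h1 := hN S hS hp
      rw [hR]
      simp only
      rw [if_pos hp]
      exact h1)
  rw [hU] at hmain
  refine hmain.trans ?_
  have hsum : ∑ S ∈ (PK K z).powerset.filter (fun S => ∀ i < z, (S ∩ bh_Bk K z i).card ≤ 2 * (b0 + i) + 1), R S ≤
      r * (((z ^ (4 * b0 + 10) : ℕ) : ℝ) * ((z ^ (4 * b0 + 10) : ℕ) : ℝ)) := by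
    refine le_trans ?_ (bh_count (K := K) (z := z) (D := z ^ (4 * b0 + 10)) (j := j) (by omega) hr)
    calc ∑ S ∈ (PK K z).powerset.filter (fun S => ∀ i < z, (S ∩ bh_Bk K z i).card ≤ 2 * (b0 + i) + 1), R S
        = ∑ S ∈ (PK K z).powerset.filter (fun S => ∀ i < z, (S ∩ bh_Bk K z i).card ≤ 2 * (b0 + i) + 1),
          r * (j : ℝ) ^ S.card := by
          refine sum_congr rfl fun S hS => ?_
          rw [mem_filter, mem_powerset] at hS
          rw [hR]
          simp only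
          rw [if_pos (bh_prod_le hz1 hS.1 hS.2)]
      _ ≤ ∑ S ∈ (PK K z).powerset.filter (fun S => ∏ p ∈ S, p ≤ z ^ (4 * b0 + 10)),
          r * (j : ℝ) ^ S.card := by
          apply sum_le_sum_of_subset_of_nonneg
          · intro S hS
            rw [mem_filter, mem_powerset] at hS
            rw [mem_filter, mem_powerset]
            exact ⟨hS.1, bh_prod_le hz1 hS.1 hS.2⟩
          · intro S _ _
            positivity
  have hzR : (2 : ℝ) ≤ z := by exact_mod_cast hz2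
  have hzD : (z : ℝ) + 1 ≤ (z : ℝ) ^ (4 * b0 + 10) := by
    calc (z : ℝ) + 1 ≤ (z : ℝ) ^ 2 := by nlinarith
      _ ≤ (z : ℝ) ^ (4 * b0 + 10) := pow_le_pow_right₀ (by linarith) (by omega)
  have h5 : 5 * (Real.exp (-(b0 : ℝ)) / 5) = Real.exp (-(b0 : ℝ)) := by ring
  rw [h5]
  have h6 : ((z : ℝ) + 1) * ∑ S ∈ (PK K z).powerset.filter
      (fun S => ∀ i < z, (S ∩ bh_Bk K z i).card ≤ 2 * (b0 + i) + 1), R S ≤
      r * (z : ℝ) ^ (3 * (4 * b0 + 10)) := by
    calc ((z : ℝ) + 1) * ∑ S ∈ (PK K z).powerset.filter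
          (fun S => ∀ i < z, (S ∩ bh_Bk K z i).card ≤ 2 * (b0 + i) + 1), R S
        ≤ (z : ℝ) ^ (4 * b0 + 10) *
          (r * (((z ^ (4 * b0 + 10) : ℕ) : ℝ) * ((z ^ (4 * b0 + 10) : ℕ) : ℝ))) := by
          refine mul_le_mul hzD hsum (sum_nonneg fun S _ => ?_) (by positivity)
          rw [hR]
          simp only
          split_ifs
          · positivity
          · exact le_rfl
      _ = r * (z : ℝ) ^ (3 * (4 * b0 + 10)) := by
          push_cast
          ring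
  exact add_le_add le_rfl h6

end H69PG

end S_H69_PG_Bh

section S_H69_PG_Sc

/-!
# SC: the sieve for several linear forms

`bh` with the finite set `{t < T : ∀ i, D i ∣ Q0 t + c i}`, `B t p` = `∃ i, p ∣ Q0 t + c i`, `Y = T/∏ D i`, `r = 1`; the hypothesis is `crt`. `∏ i, th0 K z (Q0 t + c i)` is the
indicator of: no `p ∈ PK K z` with `B t p`.
-/

open Finset EG

namespace H69PG

theorem card_dec (s : Finset ℕ) (p : ℕ → Prop) (d1 d2 : DecidablePred p) :
    (@Finset.filter ℕ p d1 s).card = (@Finset.filter ℕ p d2 s).card := by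
  rw [Subsingleton.elim d1 d2]

open Classical in
theorem sc (j : ℕ) : ∃ C : ℕ, ∀ b0 : ℕ, C ≤ b0 → ∀ (ι : Type) [Fintype ι] [DecidableEq ι], Fintype.card ι = j →
    ∀ K z Q0 : ℕ, 2 * j ≤ K → 2 ≤ K → K ≤ z → ∀ c : ι → ℕ, Fm K Q0 c → ∀ T : ℕ, ∀ D : ι → ℕ,
    (∀ i, Squarefree (D i) ∧ Nat.Coprime (D i) (primorial z)) → (∀ i i', i ≠ i' → Nat.Coprime (D i) (D i')) →
    |∑ t ∈ range T, ∏ i, (th0 K z (Q0 * t + c i) * (if D i ∣ Q0 * t + c i then 1 else 0)) -
        (T : ℝ) / (∏ i, (D i : ℝ)) * VV K z j| ≤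
      Real.exp (-(b0 : ℝ)) * ((T : ℝ) / (∏ i, (D i : ℝ)) * VV K z j) + (z : ℝ) ^ (3 * (4 * b0 + 10)) := by
  obtain ⟨C, hC⟩ := bh j
  refine ⟨C, ?_⟩
  intro b0 hb0 ι _ _ hι K z Q0 h2j h2K hKz c hFm T D hD hco
  have h1 := hC b0 hb0 K z h2j h2K hKz ((range T).filter (fun t => ∀ i, D i ∣ Q0 * t + c i))
    (fun t p => ∃ i, p ∣ Q0 * t + c i) ((T : ℝ) / ∏ i, (D i : ℝ)) 1 (by positivity) zero_le_one
    (fun S hS _ => by
      have h2 := crt hKz hFm T D hD hco S hS
      rw [hι] at h2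
      rw [one_mul, Finset.filter_filter]
      refine le_of_eq_of_le ?_ h2
      exact congrArg (fun x : ℕ => |(x : ℝ) - (T : ℝ) / (∏ i, (D i : ℝ)) * ∏ p ∈ S, ((j : ℝ) / p)|)
        (card_dec _ _ _ _))
  rw [one_mul] at h1
  have h3 : ∑ t ∈ range T, ∏ i, (th0 K z (Q0 * t + c i) * (if D i ∣ Q0 * t + c i then 1 else 0)) =
      ((((range T).filter (fun t => ∀ i, D i ∣ Q0 * t + c i)).filter
        (fun t => ∀ p ∈ PK K z, ¬ ∃ i, p ∣ Q0 * t + c i)).card : ℝ) := by
    rw [Finset.filter_filter, Finset.card_filter]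
    push_cast
    refine Finset.sum_congr rfl fun t _ => ?_
    by_cases h : (∀ i, D i ∣ Q0 * t + c i) ∧ ∀ p ∈ PK K z, ¬ ∃ i, p ∣ Q0 * t + c i
    · rw [if_pos h]
      refine Finset.prod_eq_one fun i _ => ?_
      have e1 : th0 K z (Q0 * t + c i) = 1 := by
        unfold th0
        exact if_pos fun p hp hpi => h.2 p hp ⟨i, hpi⟩
      rw [e1, if_pos (h.1 i), one_mul]
    · rw [if_neg h]
      rw [not_and_or] at h
      rcases h with h | h
      · rw [not_forall] at h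
        obtain ⟨i, hi⟩ := h
        refine Finset.prod_eq_zero (Finset.mem_univ i) ?_
        rw [if_neg hi, mul_zero]
      · simp only [not_forall, not_not] at h
        obtain ⟨p, hp, i, hi⟩ := h
        refine Finset.prod_eq_zero (Finset.mem_univ i) ?_
        have e1 : th0 K z (Q0 * t + c i) = 0 := by
          unfold th0
          exact if_neg fun hh => hh p hp hi
        rw [e1, zero_mul]
  rw [h3]
  refine le_of_eq_of_le ?_ h1
  exact congrArg (fun x : ℕ => |(x : ℝ) - (T : ℝ) / (∏ i, (D i : ℝ)) * VV K z j|) (card_dec _ _ _ _)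

end H69PG

end S_H69_PG_Sc

section S_H69_PG_El

/-!
# EL: means of products of divisor sums

Expand `∏_i Fn (D i) (f i) (L_i) = ∑_{B ∈ piFinset D} ∏ f_i(B_i) [B_i ∣ L_i]`. If `B_i` and `B_i'` (`i ≠ i'`) have a common prime factor `p`, then `p > z ≥ K` (coprime to `primorial z`), and `p ∣ L_i, L_i'` would give
`p ∣ c i - c i'`, `0 < |c i - c i'| ≤ K < p`: impossible, so these `B` contribute `0`. For pairwise coprime `B` use `sc` (with `D = B`) times `∏ f_i(B_i)`; the main terms add up to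
`T VV (Mm D f 1)`, and the sum of the errors over all pairwise coprime `B` is at most the sum over all `B`, which factors.
(`VV K z j ≥ 0` because `2 j ≤ K`.)
-/

open Finset EG

namespace H69PG

theorem el_vv_nonneg {K z j : ℕ} (h : 2 * j ≤ K) : 0 ≤ VV K z j := by
  refine Finset.prod_nonneg (fun p hp => ?_)
  have hp' : K < p := by
    simp only [PK, Finset.mem_filter, Finset.mem_Ioc] at hp
    exact hp.1.1
  have h1 : (j : ℝ) ≤ p := by exact_mod_cast (by omega : j ≤ p)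
  have h2 : (0 : ℝ) < p := by exact_mod_cast (by omega : 0 < p)
  have : (j : ℝ) / p ≤ 1 := (div_le_one h2).2 h1
  linarith

open Classical in
/-- the value for the tuple `B` -/
noncomputable def elS {ι : Type} [Fintype ι] (K z Q0 T : ℕ) (c B : ι → ℕ) : ℝ :=
  ∑ t ∈ range T, ∏ i, (th0 K z (Q0 * t + c i) * (if B i ∣ Q0 * t + c i then 1 else 0))

theorem el_zero {ι : Type} [Fintype ι] {K z Q0 : ℕ} {c : ι → ℕ} (hKz : K ≤ z) (hF : Fm K Q0 c) (T : ℕ) {B : ι → ℕ}
    (hB : ∀ i, Nat.Coprime (B i) (primorial z)) {i i' : ι} (hii : i ≠ i') (hnc : ¬ Nat.Coprime (B i) (B i')) :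
    elS K z Q0 T c B = 0 := by
  classical
  refine Finset.sum_eq_zero (fun t _ => ?_)
  obtain ⟨p, hp, hpi, hpi'⟩ := Nat.Prime.not_coprime_iff_dvd.1 hnc
  by_cases h1 : B i ∣ Q0 * t + c i
  · by_cases h2 : B i' ∣ Q0 * t + c i'
    · exfalso
      have hpz : z < p := by
        by_contra hle
        have hdv : p ∣ primorial z := (hp.dvd_primorial_iff).2 (not_lt.1 hle)
        have := Nat.dvd_gcd hpi hdv
        rw [hB i] at this
        exact hp.one_lt.ne' (Nat.dvd_one.1 this)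
      have d1 : (p : ℤ) ∣ ((Q0 * t + c i : ℕ) : ℤ) := Int.natCast_dvd_natCast.2 (hpi.trans h1)
      have d2 : (p : ℤ) ∣ ((Q0 * t + c i' : ℕ) : ℤ) := Int.natCast_dvd_natCast.2 (hpi'.trans h2)
      have d3 : (p : ℤ) ∣ (c i : ℤ) - c i' := by
        have := dvd_sub d1 d2
        push_cast at this
        have e : ((Q0 : ℤ) * t + c i) - (Q0 * t + c i') = (c i : ℤ) - c i' := by ring
        rwa [e] at this
      have hne : (c i : ℤ) - c i' ≠ 0 := by
        intro h0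
        exact hii (hF.inj (by exact_mod_cast sub_eq_zero.1 h0))
      have h4 := Int.le_of_dvd (abs_pos.2 hne) ((dvd_abs _ _).2 d3)
      have h5 := hF.df i i'
      have h6 : (p : ℤ) ≤ K := h4.trans h5
      have h7 : p ≤ K := by exact_mod_cast h6
      omega
    · exact Finset.prod_eq_zero (Finset.mem_univ i') (by rw [if_neg h2, mul_zero])
  · exact Finset.prod_eq_zero (Finset.mem_univ i) (by rw [if_neg h1, mul_zero])

theorem el_expand {ι : Type} [Fintype ι] [DecidableEq ι] (K z Q0 T : ℕ) (c : ι → ℕ) (D : ι → Finset ℕ) (f : ι → ℕ → ℝ) :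
    ∑ t ∈ range T, ∏ i, (th0 K z (Q0 * t + c i) * Fn (D i) (f i) (Q0 * t + c i)) =
      ∑ B ∈ Fintype.piFinset D, (∏ i, f i (B i)) * elS K z Q0 T c B := by
  classical
  have h1 : ∀ t, ∏ i, (th0 K z (Q0 * t + c i) * Fn (D i) (f i) (Q0 * t + c i)) =
      ∑ B ∈ Fintype.piFinset D, ((∏ i, f i (B i)) *
        ∏ i, (th0 K z (Q0 * t + c i) * (if B i ∣ Q0 * t + c i then 1 else 0))) := by
    intro t
    have h2 : ∀ i, th0 K z (Q0 * t + c i) * Fn (D i) (f i) (Q0 * t + c i) =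
        ∑ B ∈ D i, f i B * (th0 K z (Q0 * t + c i) * (if B ∣ Q0 * t + c i then 1 else 0)) := by
      intro i
      unfold Fn
      rw [Finset.sum_filter, Finset.mul_sum]
      refine Finset.sum_congr rfl (fun B _ => ?_)
      split_ifs <;> ring
    simp_rw [h2]
    rw [Finset.prod_univ_sum]
    refine Finset.sum_congr rfl (fun B _ => ?_)
    rw [Finset.prod_mul_distrib]
  simp_rw [h1]
  rw [Finset.sum_comm]
  refine Finset.sum_congr rfl (fun B _ => ?_)
  unfold elS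
  rw [Finset.mul_sum]

theorem el (j : ℕ) : ∃ C : ℕ, ∀ b0 : ℕ, C ≤ b0 → ∀ (ι : Type) [Fintype ι] [DecidableEq ι], Fintype.card ι = j →
    ∀ K z Q0 : ℕ, 2 * j ≤ K → 2 ≤ K → K ≤ z → ∀ c : ι → ℕ, Fm K Q0 c → ∀ T : ℕ, ∀ (D : ι → Finset ℕ) (f : ι → ℕ → ℝ),
    (∀ i, Good (primorial z) (D i)) →
    |∑ t ∈ range T, ∏ i, (th0 K z (Q0 * t + c i) * Fn (D i) (f i) (Q0 * t + c i)) - (T : ℝ) * VV K z j * Mm D f 1| ≤
      Real.exp (-(b0 : ℝ)) * ((T : ℝ) * VV K z j * ∏ i, ∑ B ∈ D i, |f i B| / (B : ℝ)) +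
        (z : ℝ) ^ (3 * (4 * b0 + 10)) * ∏ i, ∑ B ∈ D i, |f i B| := by
  obtain ⟨C, hC⟩ := sc j
  refine ⟨C, ?_⟩
  intro b0 hb0 ι _ _ hcard K z Q0 hjK hK hKz c hF T D f hD
  classical
  have hV : 0 ≤ VV K z j := el_vv_nonneg hjK
  have hT : (0 : ℝ) ≤ T := Nat.cast_nonneg T
  set E : ℝ := Real.exp (-(b0 : ℝ)) with hE
  have hE0 : 0 ≤ E := (Real.exp_pos _).le
  set Z : ℝ := (z : ℝ) ^ (3 * (4 * b0 + 10)) with hZ
  have hZ0 : 0 ≤ Z := by positivity
  set F : Finset (ι → ℕ) := (Fintype.piFinset D).filter (fun B => ∀ i i', i ≠ i' → Nat.Coprime (B i) (B i')) with hFdef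
  have hmem : ∀ B ∈ Fintype.piFinset D, ∀ i, B i ∈ D i := fun B hB i => (Fintype.mem_piFinset.1 hB) i
  have hsum : ∑ B ∈ Fintype.piFinset D, (∏ i, f i (B i)) * elS K z Q0 T c B =
      ∑ B ∈ F, (∏ i, f i (B i)) * elS K z Q0 T c B := by
    symm
    refine Finset.sum_subset (Finset.filter_subset _ _) (fun B hB hBn => ?_)
    have : ¬ ∀ i i', i ≠ i' → Nat.Coprime (B i) (B i') := fun h => hBn (Finset.mem_filter.2 ⟨hB, h⟩)
    push Not at this
    obtain ⟨i, i', hii, hnc⟩ := this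
    rw [el_zero hKz hF T (fun k => (hD k (B k) (hmem B hB k)).2) hii hnc, mul_zero]
  have hMm : Mm D f 1 = ∑ B ∈ F, ∏ i, f i (B i) / (B i : ℝ) := by
    unfold Mm
    refine Finset.sum_congr ?_ (fun _ _ => rfl)
    ext B
    simp [hFdef]
  rw [el_expand, hsum, hMm, Finset.mul_sum, ← Finset.sum_sub_distrib]
  have hterm : ∀ B ∈ F, |(∏ i, f i (B i)) * elS K z Q0 T c B - (T : ℝ) * VV K z j * ∏ i, f i (B i) / (B i : ℝ)| ≤
      E * ((T : ℝ) * VV K z j * ∏ i, |f i (B i)| / (B i : ℝ)) + Z * ∏ i, |f i (B i)| := by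
    intro B hB
    obtain ⟨hB1, hB2⟩ := Finset.mem_filter.1 hB
    have h1 := hC b0 hb0 ι hcard K z Q0 hjK hK hKz c hF T B (fun i => hD i (B i) (hmem B hB1 i)) hB2
    have h2 : elS K z Q0 T c B = ∑ t ∈ range T, ∏ i, (th0 K z (Q0 * t + c i) * (if B i ∣ Q0 * t + c i then 1 else 0)) := rfl
    rw [← h2] at h1
    have h3 : (∏ i, f i (B i)) * elS K z Q0 T c B - (T : ℝ) * VV K z j * ∏ i, f i (B i) / (B i : ℝ) =
        (∏ i, f i (B i)) * (elS K z Q0 T c B - (T : ℝ) / (∏ i, (B i : ℝ)) * VV K z j) := by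
      rw [Finset.prod_div_distrib]
      ring
    rw [h3, abs_mul, Finset.abs_prod]
    have h4 : 0 ≤ ∏ i, |f i (B i)| := Finset.prod_nonneg (fun i _ => abs_nonneg _)
    refine (mul_le_mul_of_nonneg_left h1 h4).trans (le_of_eq ?_)
    rw [Finset.prod_div_distrib]
    ring
  refine (Finset.abs_sum_le_sum_abs _ _).trans ((Finset.sum_le_sum hterm).trans ?_)
  have hnn : ∀ B : ι → ℕ, 0 ≤ E * ((T : ℝ) * VV K z j * ∏ i, |f i (B i)| / (B i : ℝ)) + Z * ∏ i, |f i (B i)| := by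
    intro B
    have a1 : 0 ≤ ∏ i, |f i (B i)| / (B i : ℝ) :=
      Finset.prod_nonneg (fun i _ => div_nonneg (abs_nonneg _) (Nat.cast_nonneg _))
    have a2 : 0 ≤ ∏ i, |f i (B i)| := Finset.prod_nonneg (fun i _ => abs_nonneg _)
    have := mul_nonneg hE0 (mul_nonneg (mul_nonneg hT hV) a1)
    have := mul_nonneg hZ0 a2
    linarith
  refine (Finset.sum_le_sum_of_subset_of_nonneg (Finset.filter_subset _ _) (fun B _ _ => hnn B)).trans (le_of_eq ?_)
  rw [Finset.sum_add_distrib, ← Finset.mul_sum, ← Finset.mul_sum, ← Finset.mul_sum]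
  rw [Finset.prod_univ_sum, Finset.prod_univ_sum]

end H69PG

end S_H69_PG_El

section S_H69_PG_Elu

/-!
# ELU: means of products over a set `U` of forms, main term in product form

For `|U| = j ≤ J0`: `el` for the index type `{i // i ∈ U}` (restrict `c`, `D`, `f`) and the lemma `s3` with `K = j`, `C = 10`, `w = z`, `Q = primorial z` (`Wide z (primorial z)`),
`p = 1`, `a = Γc`: `|Mm - ∏ SS| ≤ C'/√z ∏ Γc`. `C` = the maximum over `j ≤ J0` of the constants of `el` and `s3` (rounded up). For `j = 0` all products are empty: both sides are `0`, directly (`s3` needs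
an index `j0`).
-/

open Finset EG

namespace H69PG

theorem Elu_wide (z : ℕ) : Wide z (primorial z) := by
  refine ⟨primorial_pos z, fun p hp hpz => ?_⟩
  unfold primorial
  exact Finset.dvd_prod_of_mem _ (by simp [hp]; omega)

theorem Elu_VV_nonneg (K z j : ℕ) (h : j ≤ K) : 0 ≤ VV K z j := by
  unfold VV
  refine Finset.prod_nonneg fun p hp => ?_
  unfold PK at hp
  rw [Finset.mem_filter, Finset.mem_Ioc] at hp
  have hp0 : (0 : ℝ) < p := by exact_mod_cast hp.2.pos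
  have hjp : (j : ℝ) ≤ p := by
    have : j ≤ p := by omega
    exact_mod_cast this
  have := (div_le_one hp0).2 hjp
  linarith

theorem Elu_Mm_empty {ι : Type} [Fintype ι] [DecidableEq ι] [IsEmpty ι] (D : ι → Finset ℕ) (f : ι → ℕ → ℝ) :
    Mm D f 1 = 1 := by
  unfold Mm
  have h1 : (Fintype.piFinset D) = {fun i => isEmptyElim i} := by
    ext B
    rw [Fintype.mem_piFinset, Finset.mem_singleton]
    constructor
    · intro _
      funext i
      exact isEmptyElim i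
    · intro _ i
      exact isEmptyElim i
  rw [h1, Finset.filter_singleton, if_pos ⟨fun i => isEmptyElim i, fun i => isEmptyElim i⟩, Finset.sum_singleton]
  simp

theorem Elu_s3 (j : ℕ) : ∃ C' : ℝ, 1 ≤ C' ∧ ∀ (ι : Type) [Fintype ι] [DecidableEq ι], Fintype.card ι = j →
    ∀ z : ℕ, C' ≤ z →
    ∀ (D : ι → Finset ℕ) (f : ι → ℕ → ℝ) (a : ι → ℝ), (∀ i, 0 ≤ a i) → (∀ i, Good (primorial z) (D i)) →
      (∀ i, Ctrl 10 (a i) 1 (D i) (f i)) →
      |Mm D f 1 - ∏ i, SS (D i) (f i) 1| ≤ C' / Real.sqrt z * ∏ i, a i := by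
  obtain ⟨C', hC1, hC⟩ := s3 j 10 (by norm_num)
  refine ⟨C', hC1, ?_⟩
  intro ι _ _ hcard z hz D f a ha hD hf
  rcases isEmpty_or_nonempty ι with he | hne
  · rw [Elu_Mm_empty]
    simp
    positivity
  · obtain ⟨j0⟩ := hne
    have := hC ι hcard z (primorial z) 1 (Elu_wide z) hz (Or.inl rfl) D f a j0 ha hD (fun i => by simpa using hf i)
    exact this

theorem elu (J0 : ℕ) : ∃ C : ℕ, 1 ≤ C ∧ ∀ b0 : ℕ, C ≤ b0 → ∀ (ι : Type) [Fintype ι] [DecidableEq ι],
    ∀ K z Q0 : ℕ, 2 * J0 ≤ K → 2 ≤ K → K ≤ z → C ≤ z → ∀ c : ι → ℕ, Fm K Q0 c → ∀ T : ℕ, ∀ U : Finset ι, U.card ≤ J0 →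
    ∀ (D : ι → Finset ℕ) (f : ι → ℕ → ℝ) (Γc A1 A2 : ι → ℝ), (∀ i ∈ U, Good (primorial z) (D i)) →
    (∀ i ∈ U, 0 ≤ Γc i) → (∀ i ∈ U, Ctrl 10 (Γc i) 1 (D i) (f i)) →
    (∀ i ∈ U, ∑ B ∈ D i, |f i B| / (B : ℝ) ≤ A1 i) → (∀ i ∈ U, ∑ B ∈ D i, |f i B| ≤ A2 i) →
    |∑ t ∈ range T, ∏ i ∈ U, (th0 K z (Q0 * t + c i) * Fn (D i) (f i) (Q0 * t + c i)) -
        (T : ℝ) * VV K z U.card * ∏ i ∈ U, SS (D i) (f i) 1| ≤
      (T : ℝ) * VV K z U.card * (Real.exp (-(b0 : ℝ)) * ∏ i ∈ U, A1 i + C / Real.sqrt z * ∏ i ∈ U, Γc i) +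
        (z : ℝ) ^ (3 * (4 * b0 + 10)) * ∏ i ∈ U, A2 i := by
  choose Ce hCe using el
  choose Cs hCs1 hCs using Elu_s3
  refine ⟨1 + ∑ j ∈ range (J0 + 1), (Ce j + ⌈Cs j⌉₊), by omega, ?_⟩
  intro b0 hb0 ι _ _ K z Q0 hJK hK2 hKz hCz c hc T U hU D f Γc A1 A2 hD hΓ hf hA1 hA2
  have hmem : U.card ∈ range (J0 + 1) := Finset.mem_range.2 (by omega)
  have hle : Ce U.card + ⌈Cs U.card⌉₊ ≤ ∑ j ∈ range (J0 + 1), (Ce j + ⌈Cs j⌉₊) :=
    Finset.single_le_sum (f := fun j => Ce j + ⌈Cs j⌉₊) (fun _ _ => Nat.zero_le _) hmem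
  set C := 1 + ∑ j ∈ range (J0 + 1), (Ce j + ⌈Cs j⌉₊) with hCdef
  have hCsC : Cs U.card ≤ (C : ℝ) := by
    refine (Nat.le_ceil _).trans ?_
    have : ⌈Cs U.card⌉₊ ≤ C := by omega
    exact_mod_cast this
  have hCsz : Cs U.card ≤ (z : ℝ) := hCsC.trans (by exact_mod_cast hCz)
  have hcard : Fintype.card {i // i ∈ U} = U.card := Fintype.card_coe U
  have hc' : Fm K Q0 (fun i : {i // i ∈ U} => c i) :=
    ⟨hc.pos, hc.pr, fun i i' h => Subtype.ext (hc.inj h), fun i i' => hc.df i i', fun i => hc.cpos i⟩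
  have h1 := hCe U.card b0 (by omega) {i // i ∈ U} hcard K z Q0 (by omega) hK2 hKz (fun i => c i) hc' T
    (fun i => D i) (fun i => f i) (fun i => hD i i.2)
  have h2 := hCs U.card {i // i ∈ U} hcard z hCsz (fun i => D i) (fun i => f i) (fun i => Γc i)
    (fun i => hΓ i i.2) (fun i => hD i i.2) (fun i => hf i i.2)
  have hV : 0 ≤ VV K z U.card := Elu_VV_nonneg K z _ (by omega)
  have hT0 : (0 : ℝ) ≤ (T : ℝ) * VV K z U.card := mul_nonneg (Nat.cast_nonneg _) hV
  have e1 : (∑ t ∈ range T, ∏ i : {i // i ∈ U}, (th0 K z (Q0 * t + c i) * Fn (D i) (f i) (Q0 * t + c i))) =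
      ∑ t ∈ range T, ∏ i ∈ U, (th0 K z (Q0 * t + c i) * Fn (D i) (f i) (Q0 * t + c i)) := by
    refine Finset.sum_congr rfl fun t _ => ?_
    exact Finset.prod_coe_sort U (fun i => th0 K z (Q0 * t + c i) * Fn (D i) (f i) (Q0 * t + c i))
  have e2 : (∏ i : {i // i ∈ U}, ∑ B ∈ D i, |f i B| / (B : ℝ)) = ∏ i ∈ U, ∑ B ∈ D i, |f i B| / (B : ℝ) :=
    Finset.prod_coe_sort U (fun i => ∑ B ∈ D i, |f i B| / (B : ℝ))
  have e3 : (∏ i : {i // i ∈ U}, ∑ B ∈ D i, |f i B|) = ∏ i ∈ U, ∑ B ∈ D i, |f i B| :=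
    Finset.prod_coe_sort U (fun i => ∑ B ∈ D i, |f i B|)
  have e4 : (∏ i : {i // i ∈ U}, SS (D i) (f i) 1) = ∏ i ∈ U, SS (D i) (f i) 1 :=
    Finset.prod_coe_sort U (fun i => SS (D i) (f i) 1)
  have e5 : (∏ i : {i // i ∈ U}, Γc i) = ∏ i ∈ U, Γc i :=
    Finset.prod_coe_sort U (fun i => Γc i)
  rw [e1, e2, e3] at h1
  rw [e4, e5] at h2
  have hA1' : ∏ i ∈ U, ∑ B ∈ D i, |f i B| / (B : ℝ) ≤ ∏ i ∈ U, A1 i :=
    Finset.prod_le_prod (fun i _ => Finset.sum_nonneg fun B _ => by positivity) hA1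
  have hA2' : ∏ i ∈ U, ∑ B ∈ D i, |f i B| ≤ ∏ i ∈ U, A2 i :=
    Finset.prod_le_prod (fun i _ => Finset.sum_nonneg fun B _ => by positivity) hA2
  have hΓ' : 0 ≤ ∏ i ∈ U, Γc i := Finset.prod_nonneg hΓ
  set S := ∑ t ∈ range T, ∏ i ∈ U, (th0 K z (Q0 * t + c i) * Fn (D i) (f i) (Q0 * t + c i)) with hS
  set M := Mm (fun i : {i // i ∈ U} => D i) (fun i => f i) 1 with hM
  set P := ∏ i ∈ U, SS (D i) (f i) 1 with hP
  have h3 : |S - (T : ℝ) * VV K z U.card * P| ≤ |S - (T : ℝ) * VV K z U.card * M| + (T : ℝ) * VV K z U.card * |M - P| := by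
    have : S - (T : ℝ) * VV K z U.card * P =
        (S - (T : ℝ) * VV K z U.card * M) + (T : ℝ) * VV K z U.card * (M - P) := by ring
    rw [this]
    refine (abs_add_le _ _).trans ?_
    rw [abs_mul ((T : ℝ) * VV K z U.card) (M - P), abs_of_nonneg hT0]
  refine h3.trans ?_
  have h4 : |M - P| ≤ (C : ℝ) / Real.sqrt z * ∏ i ∈ U, Γc i := by
    refine h2.trans ?_
    gcongr
  have h5 : (T : ℝ) * VV K z U.card * |M - P| ≤ (T : ℝ) * VV K z U.card * ((C : ℝ) / Real.sqrt z * ∏ i ∈ U, Γc i) :=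
    mul_le_mul_of_nonneg_left h4 hT0
  have h6 : Real.exp (-(b0 : ℝ)) * ((T : ℝ) * VV K z U.card * ∏ i ∈ U, ∑ B ∈ D i, |f i B| / (B : ℝ)) ≤
      Real.exp (-(b0 : ℝ)) * ((T : ℝ) * VV K z U.card * ∏ i ∈ U, A1 i) :=
    mul_le_mul_of_nonneg_left (mul_le_mul_of_nonneg_left hA1' hT0) (Real.exp_pos _).le
  have h7 : (z : ℝ) ^ (3 * (4 * b0 + 10)) * ∏ i ∈ U, ∑ B ∈ D i, |f i B| ≤
      (z : ℝ) ^ (3 * (4 * b0 + 10)) * ∏ i ∈ U, A2 i :=
    mul_le_mul_of_nonneg_left hA2' (by positivity)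
  calc |S - (T : ℝ) * VV K z U.card * M| + (T : ℝ) * VV K z U.card * |M - P|
      ≤ (Real.exp (-(b0 : ℝ)) * ((T : ℝ) * VV K z U.card * ∏ i ∈ U, A1 i) +
          (z : ℝ) ^ (3 * (4 * b0 + 10)) * ∏ i ∈ U, A2 i) +
          (T : ℝ) * VV K z U.card * ((C : ℝ) / Real.sqrt z * ∏ i ∈ U, Γc i) := by
        linarith
    _ = _ := by ring

end H69PG

end S_H69_PG_Elu
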