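import Mathlib
import Pool.Agent.H67.GT.MERT
import Pool.Agent.H69.PGM.A

/-! Positive proportion of long prime-free intervals, part C: this file joins several modules to save build time. -/

section S_H69_PG_VVf

/-!
# VVF: the products `VV`

For `p ∈ PK K z`: `p > K ≥ 2 j`, so `j/p ≤ 1/2`.
* `vv_pos`: all factors are positive. `vv_anti`: factor by factor. `vv_succ`: `(1 - 1/p)(1 - j/p) = 1 - (j+1)/p + j/p² ≥ 1 - (j+1)/p ≥ 0` (`2(j+1) ≤ K`).
* `vv_le_one`. `vv_low`: `1 - x ≥ exp(-2x) ≥ (1 - 1/p)^(2j)` for `x = j/p ≤ 1/2` (`1 - 1/p ≤ exp(-1/p)`), so `VV K z j ≥ (VV K z 1)^(2j)`, and `VV K z 1 ≥ V univ z ≥ 1/(c log z)` by the fourth part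
  of `Mert` (`mert` in `Pool/Agent/H67/GT/MERT.lean`; `V univ z = ∏_{p ≤ z} (1 - 1/p)`).
* `vv_mu`: `φ(primorial z0)/primorial z0 = V univ z0 ≤ c/log z0`, `VV K z 1 = V univ z/V univ K ≤ (c/log z)(c log K)` by `Mert`.
-/

open Finset EG

namespace H69PG

namespace VVFaux

open Pool.Agent.H67.GT (prs V Mert)

lemma mem_PK {K z p : ℕ} : p ∈ PK K z ↔ K < p ∧ p ≤ z ∧ p.Prime := by
  unfold PK
  rw [mem_filter, mem_Ioc]
  tauto

/-- for `p ∈ PK K z` and `2 j ≤ K` -/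
lemma frac {K z j p : ℕ} (h : 2 * j ≤ K) (hp : p ∈ PK K z) :
    0 < (p : ℝ) ∧ (j : ℝ) / p ≤ 1 / 2 ∧ 0 ≤ (j : ℝ) / p := by
  rw [mem_PK] at hp
  have hp0 : 0 < p := hp.2.2.pos
  have hpr : (0 : ℝ) < p := by exact_mod_cast hp0
  refine ⟨hpr, ?_, by positivity⟩
  rw [div_le_iff₀ hpr]
  have : 2 * j ≤ p := by omega
  have h2 : (2 : ℝ) * j ≤ p := by exact_mod_cast this
  linarith

lemma prs_univ (z : ℕ) : prs Set.univ z = (Icc 1 z).filter Nat.Prime := by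
  unfold prs
  ext p
  simp

lemma vuniv_split {K z : ℕ} (h : K ≤ z) : V Set.univ z = V Set.univ K * VV K z 1 := by
  unfold V VV
  rw [prs_univ, prs_univ]
  have e : (Icc 1 z).filter Nat.Prime = ((Icc 1 K).filter Nat.Prime) ∪ PK K z := by
    ext p
    rw [mem_union, mem_PK, mem_filter, mem_filter, mem_Icc, mem_Icc]
    constructor
    · rintro ⟨⟨h1, h2⟩, h3⟩
      rcases le_or_gt p K with hk | hk
      · exact Or.inl ⟨⟨h1, hk⟩, h3⟩
      · exact Or.inr ⟨hk, h2, h3⟩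
    · rintro (⟨⟨h1, h2⟩, h3⟩ | ⟨h1, h2, h3⟩)
      · exact ⟨⟨h1, h2.trans h⟩, h3⟩
      · exact ⟨⟨h3.one_lt.le, h2⟩, h3⟩
  have d : Disjoint ((Icc 1 K).filter Nat.Prime) (PK K z) := by
    rw [Finset.disjoint_left]
    intro p hp hq
    rw [mem_PK] at hq
    rw [mem_filter, mem_Icc] at hp
    omega
  rw [e, Finset.prod_union d]
  simp

lemma vuniv_pos (z : ℕ) : 0 < V Set.univ z := by
  unfold V
  rw [prs_univ]
  refine Finset.prod_pos (fun p hp => ?_)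
  rw [mem_filter] at hp
  have h2 : (2 : ℝ) ≤ p := by exact_mod_cast hp.2.two_le
  have : 1 / (p : ℝ) ≤ 1 / 2 := by
    apply one_div_le_one_div_of_le <;> linarith
  linarith

lemma vuniv_le_one (z : ℕ) : V Set.univ z ≤ 1 := by
  unfold V
  rw [prs_univ]
  refine Finset.prod_le_one (fun p hp => ?_) (fun p hp => ?_)
  · rw [mem_filter] at hp
    have h2 : (2 : ℝ) ≤ p := by exact_mod_cast hp.2.two_le
    have : 1 / (p : ℝ) ≤ 1 / 2 := by
      apply one_div_le_one_div_of_le <;> linarith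
    linarith
  · have : (0 : ℝ) ≤ 1 / (p : ℝ) := by positivity
    linarith

lemma tot_primorial (z : ℕ) :
    (Nat.totient (primorial z) : ℝ) / (primorial z : ℝ) = V Set.univ z := by
  have hpos : (0 : ℝ) < (primorial z : ℝ) := by exact_mod_cast primorial_pos z
  have h := Nat.totient_eq_mul_prod_factors (primorial z)
  have h' : (Nat.totient (primorial z) : ℝ) =
      (primorial z : ℝ) * ∏ p ∈ (primorial z).primeFactors, (1 - (p : ℝ)⁻¹) := by
    have := congrArg (fun x : ℚ => (x : ℝ)) h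
    push_cast at this
    exact this
  rw [h', mul_div_cancel_left₀ _ hpos.ne', primeFactors_primorial]
  unfold V
  rw [prs_univ]
  apply Finset.prod_congr
  · ext p
    rw [Nat.mem_primesLE, mem_filter, mem_Icc]
    constructor
    · rintro ⟨h1, h2⟩
      exact ⟨⟨h2.one_lt.le, h1⟩, h2⟩
    · rintro ⟨⟨h1, h2⟩, h3⟩
      exact ⟨h2, h3⟩
  · intro p _
    rw [one_div]

end VVFaux

open VVFaux
open Pool.Agent.H67.GT (V Mert)

theorem vv_pos {K z j : ℕ} (h : 2 * j ≤ K) : 0 < VV K z j := by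
  unfold VV
  refine Finset.prod_pos (fun p hp => ?_)
  obtain ⟨_, h1, _⟩ := frac h hp
  linarith

theorem vv_le_one {K z j : ℕ} (h : 2 * j ≤ K) : VV K z j ≤ 1 := by
  unfold VV
  refine Finset.prod_le_one (fun p hp => ?_) (fun p hp => ?_)
  · obtain ⟨_, h1, _⟩ := frac h hp
    linarith
  · obtain ⟨_, _, h1⟩ := frac h hp
    linarith

theorem vv_anti {K z j j' : ℕ} (hj : j ≤ j') (h : 2 * j' ≤ K) : VV K z j' ≤ VV K z j := by
  unfold VV
  refine Finset.prod_le_prod (fun p hp => ?_) (fun p hp => ?_)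
  · obtain ⟨_, h1, _⟩ := frac h hp
    linarith
  · obtain ⟨h0, _, _⟩ := frac h hp
    have hjj : (j : ℝ) ≤ j' := by exact_mod_cast hj
    have : (j : ℝ) / p ≤ (j' : ℝ) / p := by gcongr
    linarith

theorem vv_succ {K z j : ℕ} (h : 2 * (j + 1) ≤ K) : VV K z (j + 1) ≤ VV K z 1 * VV K z j := by
  unfold VV
  rw [← Finset.prod_mul_distrib]
  refine Finset.prod_le_prod (fun p hp => ?_) (fun p hp => ?_)
  · obtain ⟨_, h1, _⟩ := frac h hp
    linarith
  · obtain ⟨h0, _, _⟩ := frac h hp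
    have e : (1 - ((1 : ℕ) : ℝ) / p) * (1 - (j : ℝ) / p) =
        1 - ((j + 1 : ℕ) : ℝ) / p + (j : ℝ) / (p * p) := by
      push_cast
      field_simp
      ring
    rw [e]
    have : (0 : ℝ) ≤ (j : ℝ) / (p * p) := by positivity
    linarith

theorem vv_zero (K z : ℕ) : VV K z 0 = 1 := by
  unfold VV
  simp

theorem vv_low : ∃ C : ℝ, 1 ≤ C ∧ ∀ K z j : ℕ, 2 * j ≤ K → 2 ≤ K → K ≤ z →
    1 / (C * Real.log z) ^ (2 * j) ≤ VV K z j := by
  obtain ⟨c, hc, _, _, _, h4, _⟩ := Pool.Agent.H67.GT.MERT.mert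
  refine ⟨c, hc, ?_⟩
  intro K z j hj hK hz
  have hz2 : 2 ≤ z := hK.trans hz
  have hV := h4 Set.univ z hz2
  have hlog : 0 < Real.log z := Real.log_pos (by exact_mod_cast (by omega : 1 < z))
  have h1 : 2 * 1 ≤ K := by omega
  have hVV1 : V Set.univ z ≤ VV K z 1 := by
    rw [vuniv_split hz]
    have := vv_pos (K := K) (z := z) h1
    have h2 := vuniv_le_one K
    nlinarith
  have h5 : 1 / (c * Real.log z) ≤ VV K z 1 := hV.trans hVV1
  have h6 : (VV K z 1) ^ (2 * j) ≤ VV K z j := by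
    unfold VV
    rw [← Finset.prod_pow]
    refine Finset.prod_le_prod (fun p hp => ?_) (fun p hp => ?_)
    · obtain ⟨_, h1, _⟩ := frac (j := 1) h1 hp
      have : 0 ≤ 1 - ((1 : ℕ) : ℝ) / p := by linarith
      positivity
    · obtain ⟨hp0, hx1, hx0⟩ := frac hj hp
      obtain ⟨_, hy1, _⟩ := frac (j := 1) h1 hp
      have hb0 : 0 ≤ 1 - ((1 : ℕ) : ℝ) / p := by linarith
      have hb : 1 - ((1 : ℕ) : ℝ) / p ≤ Real.exp (-(1 / (p : ℝ))) := by
        have := Real.add_one_le_exp (-(1 / (p : ℝ)))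
        push_cast
        linarith
      have hb2 : (1 - ((1 : ℕ) : ℝ) / p) ^ (2 * j) ≤ Real.exp (-(1 / (p : ℝ))) ^ (2 * j) :=
        pow_le_pow_left₀ hb0 hb _
      refine hb2.trans ?_
      rw [← Real.exp_nat_mul]
      set x : ℝ := (j : ℝ) / p with hx
      have e : ((2 * j : ℕ) : ℝ) * -(1 / (p : ℝ)) = -(2 * x) := by
        rw [hx]; push_cast; ring
      rw [e, Real.exp_neg]
      have h7 : 1 + 2 * x ≤ Real.exp (2 * x) := by
        have := Real.add_one_le_exp (2 * x)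
        linarith
      have h8 : (Real.exp (2 * x))⁻¹ ≤ (1 + 2 * x)⁻¹ := by
        apply inv_anti₀ (by linarith) h7
      refine h8.trans ?_
      rw [inv_le_iff_one_le_mul₀ (by linarith)]
      nlinarith
  refine le_trans ?_ h6
  rw [show 1 / (c * Real.log z) ^ (2 * j) = (1 / (c * Real.log z)) ^ (2 * j) by
    rw [one_div_pow]]
  apply pow_le_pow_left₀ _ h5
  positivity

theorem vv_mu : ∃ C : ℝ, 1 ≤ C ∧ ∀ z0 K z : ℕ, 2 ≤ z0 → 2 ≤ K → K ≤ z →
    (Nat.totient (primorial z0) : ℝ) / (primorial z0 : ℝ) * VV K z 1 ≤ C * Real.log K / (Real.log z0 * Real.log z) := by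
  obtain ⟨c, hc, _, _, _, h4, h5⟩ := Pool.Agent.H67.GT.MERT.mert
  refine ⟨c * c * c, ?_, ?_⟩
  · have : 1 ≤ c * c := by nlinarith
    nlinarith
  intro z0 K z hz0 hK hz
  have hz2 : 2 ≤ z := hK.trans hz
  have l0 : 0 < Real.log z0 := Real.log_pos (by exact_mod_cast (by omega : 1 < z0))
  have lK : 0 < Real.log K := Real.log_pos (by exact_mod_cast (by omega : 1 < K))
  have lz : 0 < Real.log z := Real.log_pos (by exact_mod_cast (by omega : 1 < z))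
  rw [tot_primorial]
  have a0 : V Set.univ z0 ≤ c / Real.log z0 := by
    rw [le_div_iff₀ l0]
    exact h5 z0 hz0
  have az : V Set.univ z ≤ c / Real.log z := by
    rw [le_div_iff₀ lz]
    exact h5 z hz2
  have aK : 1 / (c * Real.log K) ≤ V Set.univ K := h4 Set.univ K hK
  have hcK : 0 < c * Real.log K := by positivity
  have hKp := vuniv_pos K
  have b1 : VV K z 1 = V Set.univ z / V Set.univ K := by
    rw [vuniv_split hz]
    field_simp
  have b2 : VV K z 1 ≤ (c / Real.log z) * (c * Real.log K) := by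
    rw [b1, div_le_iff₀ hKp]
    have : 1 ≤ (c * Real.log K) * V Set.univ K := by
      rw [div_le_iff₀ hcK] at aK
      linarith
    have h9 : 0 ≤ c / Real.log z := by positivity
    calc V Set.univ z ≤ c / Real.log z := az
      _ = (c / Real.log z) * 1 := by ring
      _ ≤ (c / Real.log z) * ((c * Real.log K) * V Set.univ K) := by gcongr
      _ = _ := by ring
  have b3 : 0 ≤ VV K z 1 := (vv_pos (by omega : 2 * 1 ≤ K)).le
  calc V Set.univ z0 * VV K z 1 ≤ (c / Real.log z0) * ((c / Real.log z) * (c * Real.log K)) := by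
        apply mul_le_mul a0 b2 b3
        positivity
    _ = c * c * c * Real.log K / (Real.log z0 * Real.log z) := by
        field_simp

end H69PG

end S_H69_PG_VVf

section S_H69_PG_Ggb

/-!
# GGB: the sums `GG (primorial z) y`, up to constants

Lower bound: every `n ≤ y` is uniquely `a b` with `a` composed of primes `≤ z` and `b` coprime to `primorial z`, so
`log y ≤ ∑_{n ≤ y} 1/n ≤ ∏_{p ≤ z} (1 - 1/p)^(-1) ∑_{b ≤ y, (b, primorial z) = 1} 1/b` and the last sum is at most `GG (primorial z) y` (`gq_lower` in `Pool/Agent/H6/EG/Gq.lean`).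
`∏_{p ≤ z} (1 - 1/p) = V univ z ≥ 1/(c log z)` (`Mert`).
(Alternative for the first step: `∑_{n ≤ y, (n,Q)=1} 1/n ≥ (φ(Q)/Q) ∑_{n ≤ y} 1/n`, e.g. adding the primes `p ∣ Q` one at a time: `∑_{n ≤ y, (n,Q)=1} 1/n ≤ (1 - 1/p)^(-1) ∑_{n ≤ y, (n,Qp)=1} 1/n`.)
Upper bound: a squarefree `s ≤ y` coprime to `primorial z` is a product of different primes in `(z, y]`: `GG ≤ ∏_{z < p ≤ y} (1 + 1/(p-1)) = V univ z/V univ y ≤ c log y/log z` (`Mert`, third part).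
-/

open Finset EG

namespace H69PG

open Pool.Agent.H67.GT

theorem Ggb_mem {Q z r : ℕ} : r ∈ EG.sq Q z ↔ (1 ≤ r ∧ r ≤ z) ∧ Squarefree r ∧ Nat.Coprime r Q := by
  unfold EG.sq
  rw [Finset.mem_filter, Finset.mem_Icc]

/-- harmonic sums over the integers without prime factors in `S` -/
noncomputable def Ggb_H (S : Finset ℕ) (y : ℕ) : ℝ :=
  ∑ n ∈ (Icc 1 y).filter (fun n => ∀ p ∈ S, ¬ p ∣ n), ((n : ℝ))⁻¹

theorem Ggb_H_ins (S : Finset ℕ) {p : ℕ} (hp : 0 < p) (y : ℕ) :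
    (1 - 1 / (p : ℝ)) * Ggb_H S y ≤ Ggb_H (insert p S) y := by
  have hp' : (0 : ℝ) < p := by exact_mod_cast hp
  set F1 := (Icc 1 y).filter (fun n => ∀ q ∈ insert p S, ¬ q ∣ n) with hF1
  set F2 := ((Icc 1 y).filter (fun n => ∀ q ∈ S, ¬ q ∣ n)).filter (fun n => p ∣ n) with hF2
  have h1 : Ggb_H S y = (∑ n ∈ F2, ((n : ℝ))⁻¹) + Ggb_H (insert p S) y := by
    unfold Ggb_H
    rw [← Finset.sum_filter_add_sum_filter_not _ (fun n => p ∣ n)]
    congr 1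
    apply Finset.sum_congr _ (fun _ _ => rfl)
    ext n
    simp only [Finset.mem_filter, Finset.mem_insert, forall_eq_or_imp]
    tauto
  have h2 : (∑ n ∈ F2, ((n : ℝ))⁻¹) ≤ 1 / (p : ℝ) * Ggb_H S y := by
    have e1 : ∀ n ∈ F2, ((n : ℝ))⁻¹ = 1 / (p : ℝ) * (((n / p : ℕ) : ℝ))⁻¹ := by
      intro n hn
      obtain ⟨k, rfl⟩ := (Finset.mem_filter.mp hn).2
      rw [Nat.mul_div_cancel_left k hp]
      push_cast
      rw [mul_inv, one_div]
    rw [Finset.sum_congr rfl e1, ← Finset.mul_sum]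
    apply mul_le_mul_of_nonneg_left _ (by positivity)
    have hinj : Set.InjOn (fun n : ℕ => n / p) (F2 : Set ℕ) := by
      intro a ha b hb hab
      obtain ⟨k, rfl⟩ := (Finset.mem_filter.mp (Finset.mem_coe.mp ha)).2
      obtain ⟨l, rfl⟩ := (Finset.mem_filter.mp (Finset.mem_coe.mp hb)).2
      have h3 : p * k / p = p * l / p := hab
      rw [Nat.mul_div_cancel_left k hp, Nat.mul_div_cancel_left l hp] at h3
      rw [h3]
    have e2 : ∑ n ∈ F2, (((n / p : ℕ) : ℝ))⁻¹ = ∑ m ∈ F2.image (fun n => n / p), ((m : ℝ))⁻¹ :=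
      (Finset.sum_image (f := fun m : ℕ => ((m : ℝ))⁻¹) hinj).symm
    rw [e2]
    unfold Ggb_H
    apply Finset.sum_le_sum_of_subset_of_nonneg
    · intro m hm
      obtain ⟨n, hn, rfl⟩ := Finset.mem_image.mp hm
      rw [hF2, Finset.mem_filter, Finset.mem_filter, Finset.mem_Icc] at hn
      obtain ⟨⟨⟨a1, a2⟩, a3⟩, k, rfl⟩ := hn
      rw [Nat.mul_div_cancel_left k hp, Finset.mem_filter, Finset.mem_Icc]
      have hk : 1 ≤ k := by
        rcases Nat.eq_zero_or_pos k with h | h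
        · subst h; simp at a1
        · exact h
      refine ⟨⟨hk, (Nat.le_mul_of_pos_left k hp).trans a2⟩, fun q hq hd => a3 q hq (hd.mul_left p)⟩
    · intro m _ _
      positivity
  have h3 : (1 - 1 / (p : ℝ)) * Ggb_H S y = Ggb_H S y - 1 / (p : ℝ) * Ggb_H S y := by ring
  rw [h3]
  linarith

theorem Ggb_H_prod (S : Finset ℕ) (hS : ∀ p ∈ S, Nat.Prime p) (y : ℕ) :
    (∏ p ∈ S, (1 - 1 / (p : ℝ))) * Ggb_H ∅ y ≤ Ggb_H S y := by
  induction S using Finset.induction_on with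
  | empty => simp
  | insert p S hp ih =>
    have hpp := hS p (Finset.mem_insert_self p S)
    have ih' := ih (fun q hq => hS q (Finset.mem_insert_of_mem hq))
    rw [Finset.prod_insert hp, mul_assoc]
    refine (mul_le_mul_of_nonneg_left ih' ?_).trans (Ggb_H_ins S hpp.pos y)
    rw [sub_nonneg, div_le_one (by exact_mod_cast hpp.pos)]
    exact_mod_cast hpp.one_lt.le

theorem Ggb_prs {z p : ℕ} : p ∈ prs Set.univ z ↔ p.Prime ∧ p ≤ z := by
  unfold prs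
  simp only [Finset.mem_filter, Finset.mem_Icc, Set.mem_univ, and_true]
  exact ⟨fun h => ⟨h.2, h.1.2⟩, fun h => ⟨⟨h.1.one_lt.le, h.2⟩, h.1⟩⟩

theorem Ggb_cop {n z : ℕ} : Nat.Coprime n (primorial z) ↔ ∀ p ∈ prs Set.univ z, ¬ p ∣ n := by
  constructor
  · intro h p hp hd
    obtain ⟨h1, h2⟩ := Ggb_prs.mp hp
    have h3 := Nat.dvd_gcd hd (h1.dvd_primorial_iff.mpr h2)
    rw [Nat.Coprime] at h
    rw [h] at h3
    exact h1.one_lt.ne' (Nat.dvd_one.mp h3)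
  · intro h
    apply Nat.Coprime.symm
    apply Nat.coprime_of_dvd
    intro k hk hk1 hk2
    exact h k (Ggb_prs.mpr ⟨hk, hk.dvd_primorial_iff.mp hk1⟩) hk2

theorem Ggb_gqH (z y : ℕ) : gqH (primorial z) y = Ggb_H (prs Set.univ z) y := by
  unfold gqH Ggb_H
  apply Finset.sum_congr _ (fun _ _ => rfl)
  apply Finset.filter_congr
  intro n _
  exact Ggb_cop

theorem Ggb_harm {y : ℕ} (hy : 1 ≤ y) : Real.log y ≤ Ggb_H ∅ y := by
  have h1 := log_add_one_le_harmonic y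
  have h2 : (harmonic y : ℝ) = Ggb_H ∅ y := by
    rw [harmonic_eq_sum_Icc]
    unfold Ggb_H
    push_cast
    apply Finset.sum_congr _ (fun _ _ => rfl)
    ext n
    simp
  rw [h2] at h1
  refine le_trans ?_ h1
  apply Real.log_le_log (by exact_mod_cast hy)
  push_cast
  linarith

theorem Ggb_tot {s : ℕ} (hs : Squarefree s) :
    (Nat.totient s : ℝ) = ∏ p ∈ s.primeFactors, ((p : ℝ) - 1) := by
  rw [Nat.totient_eq_div_primeFactors_mul, Nat.prod_primeFactors_of_squarefree hs,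
    Nat.div_self (Nat.pos_of_ne_zero hs.ne_zero), one_mul]
  push_cast
  apply Finset.prod_congr rfl
  intro p hp
  rw [Nat.cast_sub (Nat.prime_of_mem_primeFactors hp).one_lt.le]
  simp

theorem Ggb_upper (z y : ℕ) (hzy : z ≤ y) :
    GG (primorial z) y * V Set.univ y ≤ V Set.univ z := by
  set P := (prs Set.univ y).filter (fun p => z < p) with hP
  have hmP : ∀ p, p ∈ P ↔ p.Prime ∧ p ≤ y ∧ z < p := by
    intro p
    rw [hP, Finset.mem_filter, Ggb_prs]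
    tauto
  have h1 : GG (primorial z) y ≤ ∏ p ∈ P, (1 + 1 / ((p : ℝ) - 1)) := by
    rw [Finset.prod_one_add]
    unfold GG
    have e1 : ∀ s ∈ EG.sq (primorial z) y, 1 / (Nat.totient s : ℝ) =
        ∏ p ∈ s.primeFactors, 1 / ((p : ℝ) - 1) := by
      intro s hs
      rw [Ggb_tot (Ggb_mem.mp hs).2.1, Finset.prod_div_distrib, Finset.prod_const_one]
    rw [Finset.sum_congr rfl e1]
    have hinj : Set.InjOn (fun s : ℕ => s.primeFactors) (EG.sq (primorial z) y : Set ℕ) := by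
      intro a ha b hb hab
      have ha' := (Ggb_mem.mp (Finset.mem_coe.mp ha)).2.1
      have hb' := (Ggb_mem.mp (Finset.mem_coe.mp hb)).2.1
      rw [← Nat.prod_primeFactors_of_squarefree ha', ← Nat.prod_primeFactors_of_squarefree hb']
      have h2 : a.primeFactors = b.primeFactors := hab
      rw [h2]
    have e2 : ∑ s ∈ EG.sq (primorial z) y, ∏ p ∈ s.primeFactors, 1 / ((p : ℝ) - 1) =
        ∑ T ∈ (EG.sq (primorial z) y).image (fun s : ℕ => s.primeFactors), ∏ p ∈ (T : Finset ℕ), 1 / ((p : ℝ) - 1) :=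
      (Finset.sum_image (f := fun T : Finset ℕ => ∏ p ∈ T, 1 / ((p : ℝ) - 1)) hinj).symm
    rw [e2]
    apply Finset.sum_le_sum_of_subset_of_nonneg
    · intro T hT
      obtain ⟨s, hs, rfl⟩ := Finset.mem_image.mp hT
      obtain ⟨⟨hs1, hs2⟩, hs3, hs4⟩ := Ggb_mem.mp hs
      rw [Finset.mem_powerset]
      intro p hp
      have hpp := Nat.prime_of_mem_primeFactors hp
      have hpd := Nat.dvd_of_mem_primeFactors hp
      rw [hmP]
      refine ⟨hpp, (Nat.le_of_dvd (by omega) hpd).trans hs2, ?_⟩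
      by_contra hcon
      push Not at hcon
      exact Ggb_cop.mp hs4 p (Ggb_prs.mpr ⟨hpp, hcon⟩) hpd
    · intro T hT _
      apply Finset.prod_nonneg
      intro p hp
      apply div_nonneg zero_le_one
      by_cases h : 1 ≤ p
      · rw [sub_nonneg]
        exact_mod_cast h
      · exfalso
        have hT' : T ∈ P.powerset := hT
        have := ((hmP p).mp (Finset.mem_powerset.mp hT' hp)).1.one_lt
        omega
  have h2 : V Set.univ y = V Set.univ z * ∏ p ∈ P, (1 - 1 / (p : ℝ)) := by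
    unfold V
    rw [← Finset.prod_filter_mul_prod_filter_not (prs Set.univ y) (fun p => z < p), mul_comm]
    congr 1
    apply Finset.prod_congr _ (fun _ _ => rfl)
    ext p
    rw [Finset.mem_filter, Ggb_prs, Ggb_prs]
    constructor
    · rintro ⟨⟨a, b⟩, c⟩
      exact ⟨a, by omega⟩
    · rintro ⟨a, b⟩
      exact ⟨⟨a, b.trans hzy⟩, by omega⟩
  have h3 : (∏ p ∈ P, (1 + 1 / ((p : ℝ) - 1))) * ∏ p ∈ P, (1 - 1 / (p : ℝ)) = 1 := by
    rw [← Finset.prod_mul_distrib]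
    apply Finset.prod_eq_one
    intro p hp
    have hp1 : (1 : ℝ) < p := by exact_mod_cast ((hmP p).mp hp).1.one_lt
    have hp2 : (p : ℝ) - 1 ≠ 0 := by linarith
    have hp3 : (p : ℝ) ≠ 0 := by linarith
    field_simp
    ring
  have hVz : 0 ≤ V Set.univ z := by
    unfold V
    apply Finset.prod_nonneg
    intro p hp
    have hpp := (Ggb_prs.mp hp).1
    rw [sub_nonneg, div_le_one (by exact_mod_cast hpp.pos)]
    exact_mod_cast hpp.one_lt.le
  have hP0 : 0 ≤ ∏ p ∈ P, (1 - 1 / (p : ℝ)) := by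
    apply Finset.prod_nonneg
    intro p hp
    have hpp := ((hmP p).mp hp).1
    rw [sub_nonneg, div_le_one (by exact_mod_cast hpp.pos)]
    exact_mod_cast hpp.one_lt.le
  rw [h2]
  calc GG (primorial z) y * (V Set.univ z * ∏ p ∈ P, (1 - 1 / (p : ℝ)))
      = V Set.univ z * (GG (primorial z) y * ∏ p ∈ P, (1 - 1 / (p : ℝ))) := by ring
    _ ≤ V Set.univ z * ((∏ p ∈ P, (1 + 1 / ((p : ℝ) - 1))) * ∏ p ∈ P, (1 - 1 / (p : ℝ))) :=
        mul_le_mul_of_nonneg_left (mul_le_mul_of_nonneg_right h1 hP0) hVz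
    _ = V Set.univ z := by rw [h3, mul_one]

theorem ggb : ∃ C : ℝ, 1 ≤ C ∧ ∀ z y : ℕ, 2 ≤ z → z ≤ y →
    Real.log y / (C * Real.log z) ≤ GG (primorial z) y ∧ GG (primorial z) y ≤ C * (Real.log y / Real.log z) := by
  obtain ⟨c, hc, _, _, h3, h4, _⟩ := MERT.mert
  refine ⟨c, hc, fun z y hz hzy => ?_⟩
  have hc0 : 0 < c := by linarith
  have hlz : 0 < Real.log z := Real.log_pos (by exact_mod_cast hz)
  have hly : 0 ≤ Real.log y := Real.log_natCast_nonneg y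
  have hy2 : 2 ≤ y := hz.trans hzy
  have hly' : 0 < Real.log y := Real.log_pos (by exact_mod_cast hy2)
  constructor
  · have h5 := h4 Set.univ z hz
    have h6 := Ggb_H_prod (prs Set.univ z) (fun p hp => (Ggb_prs.mp hp).1) y
    have h7 := Ggb_harm (y := y) (by omega)
    have h8 : V Set.univ z * Real.log y ≤ GG (primorial z) y := by
      refine le_trans ?_ (gq_lower (primorial z) y)
      rw [Ggb_gqH]
      refine le_trans ?_ h6
      refine mul_le_mul_of_nonneg_left h7 ?_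
      exact le_trans (by positivity) h5
    refine le_trans ?_ h8
    calc Real.log y / (c * Real.log z) = 1 / (c * Real.log z) * Real.log y := by ring
      _ ≤ V Set.univ z * Real.log y := mul_le_mul_of_nonneg_right h5 hly
  · have h5 := Ggb_upper z y hzy
    have h6 := h3 Set.univ z y hz hzy
    have h7 : 0 < V Set.univ y := lt_of_lt_of_le (by positivity) (h4 Set.univ y hy2)
    have h8 := h5.trans h6
    exact le_of_mul_le_mul_right h8 h7

theorem gg_one (Q : ℕ) : GG Q 1 = 1 := by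
  have h : EG.sq Q 1 = {1} := by
    ext r
    rw [Ggb_mem, Finset.mem_singleton]
    constructor
    · rintro ⟨h, _⟩
      omega
    · rintro rfl
      exact ⟨⟨le_rfl, le_rfl⟩, squarefree_one, Nat.coprime_one_left Q⟩
  unfold GG
  rw [h]
  simp

theorem gg_mono (Q : ℕ) {y y' : ℕ} (h : y ≤ y') : GG Q y ≤ GG Q y' := by
  unfold GG
  apply Finset.sum_le_sum_of_subset_of_nonneg
  · intro r hr
    rw [Ggb_mem] at hr ⊢
    exact ⟨⟨hr.1.1, hr.1.2.trans h⟩, hr.2⟩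
  · intro r _ _
    positivity

theorem gg_ge_one (Q : ℕ) {y : ℕ} (h : 1 ≤ y) : 1 ≤ GG Q y := by
  rw [← gg_one Q]
  exact gg_mono Q h

end H69PG

end S_H69_PG_Ggb

section S_H69_PG_Zfl

/-!
# ZFL: size of the parameters

`zf ε x = ⌊x^ε⌋`. `zfl`: `x^ε - 1 ≤ zf ≤ x^ε`, and `x^ε - 1 ≥ x^(ε/2)` for large `x`. `zf_zero`: `x^0 = 1`. `zf_mono`: `x ≥ 1`.
`tlow`: `primorial n ≤ 4^n` (Mathlib `primorial_le_4_pow`), so with `n = ⌊log x/100⌋₊`: `primorial n ≤ e^(log 4 log x/100) = x^(log 4/100) ≤ x^(1/50)`, `x/primorial n ≥ x^(49/50)`, minus `1`.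
`vs` are the costs `v/B^(m-a)` (`a ≥ 1`), `vs 0 = 0`.
-/

open Finset EG

namespace H69PG

/-- `⌊x^ε⌋` -/
noncomputable def zf (ε x : ℝ) : ℕ := ⌊x ^ ε⌋₊

/-- the costs of the scales -/
noncomputable def vs (B m : ℕ) (v : ℝ) (a : ℕ) : ℝ := if a = 0 then 0 else v / (B : ℝ) ^ (m - a)

theorem zf_zero (x : ℝ) : zf 0 x = 1 := by
  unfold zf
  rw [Real.rpow_zero, Nat.floor_one]

theorem zf_le {ε x : ℝ} (hx : 0 ≤ x) : (zf ε x : ℝ) ≤ x ^ ε :=
  Nat.floor_le (Real.rpow_nonneg hx ε)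

theorem zf_mono {ε ε' x : ℝ} (hx : 1 ≤ x) (h : ε ≤ ε') : zf ε x ≤ zf ε' x :=
  Nat.floor_mono (Real.rpow_le_rpow_of_exponent_le hx h)

theorem vs_nonneg {B m : ℕ} {v : ℝ} (hv : 0 ≤ v) (a : ℕ) : 0 ≤ vs B m v a := by
  unfold vs
  split_ifs
  · exact le_rfl
  · exact div_nonneg hv (pow_nonneg (Nat.cast_nonneg _) _)

theorem vs_mono {B m : ℕ} {v : ℝ} (hB : 1 ≤ B) (hv : 0 ≤ v) : Monotone (vs B m v) := by
  intro a b hab
  by_cases ha : a = 0
  · have h0 : vs B m v a = 0 := by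
      unfold vs
      rw [if_pos ha]
    rw [h0]
    exact vs_nonneg hv b
  · have hb : b ≠ 0 := by omega
    have hB' : (1 : ℝ) ≤ B := by exact_mod_cast hB
    unfold vs
    rw [if_neg ha, if_neg hb]
    exact div_le_div_of_nonneg_left hv (pow_pos (by linarith) _)
      (pow_le_pow_right₀ hB' (by omega))

theorem vs_le {B m : ℕ} {v : ℝ} (hB : 1 ≤ B) (hv : 0 ≤ v) (a : ℕ) : vs B m v a ≤ v := by
  have hB' : (1 : ℝ) ≤ B := by exact_mod_cast hB
  unfold vs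
  split_ifs
  · exact hv
  · exact div_le_self hv (one_le_pow₀ hB')

theorem zfl {ε : ℝ} (hε : 0 < ε) : ∃ x0 : ℝ, ∀ x : ℝ, x0 ≤ x →
    ε / 2 * Real.log x ≤ Real.log (zf ε x) ∧ Real.log (zf ε x) ≤ ε * Real.log x := by
  refine ⟨(2 : ℝ) ^ (2 / ε), fun x hx => ?_⟩
  have h0 : (0 : ℝ) < (2 : ℝ) ^ (2 / ε) := Real.rpow_pos_of_pos two_pos _
  have hx0 : 0 < x := h0.trans_le hx
  have hy : (2 : ℝ) ≤ x ^ (ε / 2) := by
    have h1 : ((2 : ℝ) ^ (2 / ε)) ^ (ε / 2) ≤ x ^ (ε / 2) :=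
      Real.rpow_le_rpow h0.le hx (by positivity)
    rw [← Real.rpow_mul two_pos.le] at h1
    have h2 : 2 / ε * (ε / 2) = 1 := by
      field_simp
    rw [h2, Real.rpow_one] at h1
    exact h1
  have hsq : x ^ ε = x ^ (ε / 2) * x ^ (ε / 2) := by
    rw [← Real.rpow_add hx0]
    congr 1
    ring
  have hge : x ^ (ε / 2) ≤ x ^ ε - 1 := by
    rw [hsq]
    nlinarith
  have hfl : x ^ ε < (zf ε x : ℝ) + 1 := Nat.lt_floor_add_one _
  have hzl : x ^ (ε / 2) ≤ (zf ε x : ℝ) := by linarith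
  have hzpos : (0 : ℝ) < (zf ε x : ℝ) := by linarith
  constructor
  · rw [← Real.log_rpow hx0]
    exact Real.log_le_log (by linarith) hzl
  · rw [← Real.log_rpow hx0]
    exact Real.log_le_log hzpos (zf_le hx0.le)

theorem prim_le {x : ℝ} (hx : 1 ≤ x) : (primorial ⌊Real.log x / 100⌋₊ : ℝ) ≤ x ^ (1 / 50 : ℝ) := by
  have hx0 : 0 < x := by linarith
  have hl : 0 ≤ Real.log x := Real.log_nonneg hx
  have h1 : (primorial ⌊Real.log x / 100⌋₊ : ℝ) ≤ (4 : ℝ) ^ ⌊Real.log x / 100⌋₊ := by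
    exact_mod_cast primorial_le_four_pow _
  have h2 : ((4 : ℝ) ^ ⌊Real.log x / 100⌋₊) = Real.exp (Real.log 4 * (⌊Real.log x / 100⌋₊ : ℕ)) := by
    rw [← Real.rpow_natCast, Real.rpow_def_of_pos (by norm_num)]
  have h3 : (⌊Real.log x / 100⌋₊ : ℝ) ≤ Real.log x / 100 := Nat.floor_le (by positivity)
  have h4 : Real.log 4 ≤ 2 := by
    have h5 : (4 : ℝ) = 2 ^ (2 : ℕ) := by norm_num
    rw [h5, Real.log_pow]
    have := Real.log_two_lt_d9
    push_cast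
    linarith
  have h4' : 0 ≤ Real.log 4 := Real.log_nonneg (by norm_num)
  refine h1.trans ?_
  rw [h2, Real.rpow_def_of_pos hx0]
  refine Real.exp_le_exp.2 ?_
  calc Real.log 4 * (⌊Real.log x / 100⌋₊ : ℕ) ≤ 2 * (Real.log x / 100) :=
        mul_le_mul h4 h3 (Nat.cast_nonneg _) (by norm_num)
    _ = Real.log x * (1 / 50) := by ring

theorem tlow : ∃ x0 : ℝ, ∀ x : ℝ, x0 ≤ x →
    x ^ (97 / 100 : ℝ) ≤ (⌊x / (primorial ⌊Real.log x / 100⌋₊ : ℝ)⌋₊ : ℝ) := by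
  refine ⟨(2 : ℝ) ^ (100 : ℝ), fun x hx => ?_⟩
  have h0 : (0 : ℝ) < (2 : ℝ) ^ (100 : ℝ) := Real.rpow_pos_of_pos two_pos _
  have hx0 : 0 < x := h0.trans_le hx
  have hx1 : 1 ≤ x := by
    refine le_trans ?_ hx
    exact Real.one_le_rpow (by norm_num) (by norm_num)
  have hy : (2 : ℝ) ≤ x ^ (1 / 100 : ℝ) := by
    have h1 : ((2 : ℝ) ^ (100 : ℝ)) ^ (1 / 100 : ℝ) ≤ x ^ (1 / 100 : ℝ) :=
      Real.rpow_le_rpow h0.le hx (by norm_num)
    rw [← Real.rpow_mul two_pos.le] at h1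
    norm_num at h1 ⊢
    exact h1
  have hp0 : (0 : ℝ) < (primorial ⌊Real.log x / 100⌋₊ : ℝ) := by
    exact_mod_cast primorial_pos _
  have hdiv : x ^ (49 / 50 : ℝ) ≤ x / (primorial ⌊Real.log x / 100⌋₊ : ℝ) := by
    rw [le_div_iff₀ hp0]
    calc x ^ (49 / 50 : ℝ) * (primorial ⌊Real.log x / 100⌋₊ : ℝ)
        ≤ x ^ (49 / 50 : ℝ) * x ^ (1 / 50 : ℝ) :=
          mul_le_mul_of_nonneg_left (prim_le hx1) (Real.rpow_nonneg hx0.le _)
      _ = x := by
          rw [← Real.rpow_add hx0]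
          norm_num
  have h97 : (1 : ℝ) ≤ x ^ (97 / 100 : ℝ) := Real.one_le_rpow hx1 (by norm_num)
  have hsplit : x ^ (49 / 50 : ℝ) = x ^ (1 / 100 : ℝ) * x ^ (97 / 100 : ℝ) := by
    rw [← Real.rpow_add hx0]
    norm_num
  have hfl : x / (primorial ⌊Real.log x / 100⌋₊ : ℝ) <
      (⌊x / (primorial ⌊Real.log x / 100⌋₊ : ℝ)⌋₊ : ℝ) + 1 := Nat.lt_floor_add_one _
  have hge : x ^ (97 / 100 : ℝ) + 1 ≤ x ^ (49 / 50 : ℝ) := by
    rw [hsplit]
    nlinarith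
  linarith

end H69PG

end S_H69_PG_Zfl

section S_H69_PG_Wbd

/-!
# WBD: sizes of the norms of the blocks

`D` = the constant of `ggb`. Let `z = zf ε x`, `Z_a = zf (v_a) x`, `v_a = vs B m v a`; for `x` large `z ≥ 2`, `z ≤ Z_1 ≤ Z_a` (`ε ≤ v_1`), `z ≤ zf r x`, and by `zfl` (finitely many exponents) all
`(e/2) log x ≤ log(zf e x) ≤ e log x`. For `1 ≤ a ≤ m`: `v_a/(2Dε) ≤ GG(Z_a) ≤ 2D v_a/ε ≤ 2D/ε`; `GG(Z_0) = GG(1) = 1 ≤ 2D/ε`. So for `a ≥ 2` (`v_(a-1) = v_a/B`):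
`wA_a ≥ v_a/(2Dε) - 2D v_a/(Bε) ≥ v_a/(4Dε)` as `B ≥ 8D²`; for `a = 1`: `wA_1 ≥ v_1/(2Dε) - 1 ≥ v_1/(4Dε)` as `ε ≤ v_1/(4D)`. For `R = zf r x`: `r/(2Dε) ≤ GG(R) ≤ 2Dr/ε`.
-/

open Finset EG

namespace H69PG

theorem Wbd_one (Q : ℕ) : GG Q 1 = 1 := by
  unfold GG
  have h : sq Q 1 = {1} := by
    ext r
    unfold EG.sq
    rw [Finset.mem_filter, Finset.mem_Icc, Finset.mem_singleton]
    constructor
    · rintro ⟨⟨h1, h2⟩, -⟩
      omega
    · rintro rfl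
      exact ⟨⟨le_rfl, le_rfl⟩, squarefree_one, Nat.coprime_one_left Q⟩
  rw [h, Finset.sum_singleton]
  simp

theorem Wbd_key {C : ℝ} (hC : 1 ≤ C)
    (hg : ∀ z y : ℕ, 2 ≤ z → z ≤ y → Real.log y / (C * Real.log z) ≤ GG (primorial z) y ∧
      GG (primorial z) y ≤ C * (Real.log y / Real.log z))
    {ε e x : ℝ} (hε : 0 < ε) (he : ε ≤ e) (hx : 2 ≤ x)
    (h1 : ε / 2 * Real.log x ≤ Real.log (zf ε x) ∧ Real.log (zf ε x) ≤ ε * Real.log x)
    (h2 : e / 2 * Real.log x ≤ Real.log (zf e x) ∧ Real.log (zf e x) ≤ e * Real.log x) :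
    e / (2 * C * ε) ≤ GG (primorial (zf ε x)) (zf e x) ∧ GG (primorial (zf ε x)) (zf e x) ≤ 2 * C * e / ε := by
  have hL : 0 < Real.log x := Real.log_pos (by linarith)
  have hlz : 0 < Real.log (zf ε x) := lt_of_lt_of_le (by positivity) h1.1
  have hz2 : 2 ≤ zf ε x := by
    by_contra hc
    push Not at hc
    have h01 : zf ε x = 0 ∨ zf ε x = 1 := by omega
    rcases h01 with h | h <;> rw [h] at hlz <;> simp at hlz
  have hzy : zf ε x ≤ zf e x := zf_mono (by linarith) he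
  obtain ⟨g1, g2⟩ := hg _ _ hz2 hzy
  have he0 : 0 < e := by linarith
  have hly : 0 < Real.log (zf e x) := lt_of_lt_of_le (by positivity) h2.1
  have hC0 : 0 < C := by linarith
  constructor
  · refine le_trans ?_ g1
    rw [div_le_div_iff₀ (by positivity) (by positivity)]
    calc e * (C * Real.log (zf ε x)) ≤ e * (C * (ε * Real.log x)) := by
          gcongr
          exact h1.2
      _ = (e / 2 * Real.log x) * (2 * C * ε) := by ring
      _ ≤ Real.log (zf e x) * (2 * C * ε) := by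
          gcongr
          exact h2.1
  · refine le_trans g2 ?_
    rw [← mul_div_assoc, div_le_div_iff₀ hlz hε]
    calc C * Real.log (zf e x) * ε ≤ C * (e * Real.log x) * ε := by
          gcongr
          exact h2.2
      _ = 2 * C * e * (ε / 2 * Real.log x) := by ring
      _ ≤ 2 * C * e * Real.log (zf ε x) := by
          gcongr
          exact h1.1

theorem wbd : ∃ D : ℝ, 1 ≤ D ∧ ∀ (B m : ℕ) (v r ε : ℝ), 8 * D ^ 2 ≤ B → 1 ≤ m → 0 < v → v ≤ 1 → 0 < r → r ≤ 1 → 0 < ε →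
    ε ≤ vs B m v 1 / (4 * D) → ε ≤ r → ∃ x0 : ℝ, ∀ x : ℝ, x0 ≤ x →
    (∀ a ∈ Icc 1 m, vs B m v a / (4 * D * ε) ≤ wA (fun a => zf (vs B m v a) x) (primorial (zf ε x)) a) ∧
    (∀ a ≤ m, GG (primorial (zf ε x)) (zf (vs B m v a) x) ≤ 2 * D / ε) ∧
    GG (primorial (zf ε x)) (zf r x) ≤ 2 * D / ε ∧
    1 / GG (primorial (zf ε x)) (zf r x) ≤ 2 * D * ε / r := by
  obtain ⟨C, hC, hg⟩ := ggb
  refine ⟨C, hC, ?_⟩
  intro B m v r ε hB hm hv hv1 hr hr1 hε hεv hεr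
  have hC0 : 0 < C := by linarith
  have hB8 : (8 : ℝ) ≤ B := by nlinarith
  have hBpos : (0 : ℝ) < B := by linarith
  have hB1 : 1 ≤ B := by
    have : (1 : ℝ) ≤ B := by linarith
    exact_mod_cast this
  have hvp : ∀ a, 1 ≤ a → 0 < vs B m v a := by
    intro a ha
    unfold vs
    rw [if_neg (by omega)]
    positivity
  have hv1' : ∀ a, vs B m v a ≤ 1 := fun a => (vs_le hB1 hv.le a).trans hv1
  have hmono := vs_mono (B := B) (m := m) hB1 hv.le
  have hεv1 : ε ≤ vs B m v 1 := by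
    refine hεv.trans ?_
    rw [div_le_iff₀ (by positivity)]
    have := hvp 1 le_rfl
    nlinarith
  obtain ⟨x1, hx1⟩ := zfl hε
  obtain ⟨x2, hx2⟩ := zfl hr
  have hex : ∀ a : ℕ, ∃ x0 : ℝ, 1 ≤ a → ∀ x : ℝ, x0 ≤ x →
      vs B m v a / 2 * Real.log x ≤ Real.log (zf (vs B m v a) x) ∧
      Real.log (zf (vs B m v a) x) ≤ vs B m v a * Real.log x := by
    intro a
    by_cases ha : 1 ≤ a
    · obtain ⟨x0, hx0⟩ := zfl (hvp a ha)
      exact ⟨x0, fun _ => hx0⟩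
    · exact ⟨0, fun h => absurd h ha⟩
  choose f hf using hex
  obtain ⟨M, hM⟩ := ((Finset.range (m + 1)).image f).exists_le
  refine ⟨max (max x1 x2) (max M 2), fun x hx => ?_⟩
  have hxx1 : x1 ≤ x := ((le_max_left _ _).trans (le_max_left _ _)).trans hx
  have hxx2 : x2 ≤ x := ((le_max_right _ _).trans (le_max_left _ _)).trans hx
  have hxM : M ≤ x := ((le_max_left _ _).trans (le_max_right _ _)).trans hx
  have hxx3 : 2 ≤ x := ((le_max_right _ _).trans (le_max_right _ _)).trans hx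
  have hzε := hx1 x hxx1
  have hzr := hx2 x hxx2
  have hza : ∀ a, 1 ≤ a → a ≤ m →
      vs B m v a / (2 * C * ε) ≤ GG (primorial (zf ε x)) (zf (vs B m v a) x) ∧
      GG (primorial (zf ε x)) (zf (vs B m v a) x) ≤ 2 * C * vs B m v a / ε := by
    intro a ha ham
    refine Wbd_key hC hg hε (hεv1.trans (hmono ha)) hxx3 hzε (hf a ha x ?_)
    exact (hM _ (Finset.mem_image_of_mem _ (Finset.mem_range.2 (by omega)))).trans hxM
  have hR := Wbd_key hC hg hε hεr hxx3 hzε hzr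
  have h0 : GG (primorial (zf ε x)) (zf (vs B m v 0) x) = 1 := by
    have : vs B m v 0 = 0 := by
      unfold vs
      rw [if_pos rfl]
    rw [this, zf_zero, Wbd_one]
  refine ⟨?_, ?_, ?_, ?_⟩
  · intro a ha
    rw [Finset.mem_Icc] at ha
    obtain ⟨ha1, ham⟩ := ha
    unfold wA
    rw [if_neg (by omega)]
    show vs B m v a / (4 * C * ε) ≤ GG (primorial (zf ε x)) (zf (vs B m v a) x) -
      GG (primorial (zf ε x)) (zf (vs B m v (a - 1)) x)
    obtain ⟨g1, g2⟩ := hza a ha1 ham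
    have e1 : vs B m v a / (2 * C * ε) = 2 * (vs B m v a / (4 * C * ε)) := by
      field_simp
      ring
    rcases Nat.eq_or_lt_of_le ha1 with h | h
    · subst h
      rw [show 1 - 1 = 0 from rfl, h0]
      have : 1 ≤ vs B m v 1 / (4 * C * ε) := by
        rw [le_div_iff₀ (by positivity)]
        rw [le_div_iff₀ (by positivity)] at hεv
        linarith
      linarith
    · obtain ⟨g3, g4⟩ := hza (a - 1) (by omega) (by omega)
      have e2 : vs B m v (a - 1) = vs B m v a / B := by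
        unfold vs
        rw [if_neg (by omega), if_neg (by omega), div_div, ← pow_succ]
        congr 2
        omega
      have e3 : 2 * C * vs B m v (a - 1) / ε ≤ vs B m v a / (4 * C * ε) := by
        rw [e2, div_le_div_iff₀ hε (by positivity)]
        have hva := hvp a ha1
        calc 2 * C * (vs B m v a / B) * (4 * C * ε) = (8 * C ^ 2) / B * (vs B m v a * ε) := by ring
          _ ≤ 1 * (vs B m v a * ε) := by
              apply mul_le_mul_of_nonneg_right _ (by positivity)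
              rw [div_le_one hBpos]
              exact hB
          _ = vs B m v a * ε := one_mul _
      linarith
  · intro a ham
    rcases Nat.eq_zero_or_pos a with h | h
    · subst h
      rw [h0, le_div_iff₀ hε]
      nlinarith
    · refine (hza a h ham).2.trans ?_
      have h3 : 2 * C * vs B m v a ≤ 2 * C * 1 := mul_le_mul_of_nonneg_left (hv1' a) (by positivity)
      rw [mul_one] at h3
      exact div_le_div_of_nonneg_right h3 hε.le
  · refine hR.2.trans ?_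
    have h3 : 2 * C * r ≤ 2 * C * 1 := mul_le_mul_of_nonneg_left hr1 (by positivity)
    rw [mul_one] at h3
    exact div_le_div_of_nonneg_right h3 hε.le
  · rw [one_div_le (lt_of_lt_of_le (by positivity) hR.1) (by positivity)]
    refine le_trans (le_of_eq ?_) hR.1
    rw [one_div_div]

end H69PG

end S_H69_PG_Wbd

section S_H69_PG_Mub

/-!
# MUB: the expected number of survivors

`K = ⌊Λ log x⌋₊`, `z0 = ⌊log x/100⌋₊`, `z = zf ε x`; for large `x`: `2 ≤ z0`, `2 ≤ K ≤ z`. `vv_mu`: the product is at most `2 K D log K/(log z0 log z)`, with `K ≤ Λ log x`,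
`log K ≤ log(Λ log x) ≤ 2 log z0` (large `x`), `log z ≥ (ε/2) log x` (`zfl`): at most `2 Λ log x · D · 2/((ε/2) log x) = 8 D Λ/ε`.
-/

open Finset EG

namespace H69PG

theorem Mub_rpow {Λ ε : ℝ} (hΛ : 1 ≤ Λ) (hε : 0 < ε) : ∃ x0 : ℝ, ∀ x : ℝ, x0 ≤ x →
    Λ * Real.log x ≤ x ^ ε := by
  have h := (isLittleO_log_rpow_atTop hε).bound (show (0:ℝ) < 1 / Λ by positivity)
  obtain ⟨x0, h0⟩ := Filter.eventually_atTop.1 h
  refine ⟨max x0 1, fun x hx => ?_⟩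
  have h1 := h0 x ((le_max_left _ _).trans hx)
  have hx1 : 1 ≤ x := (le_max_right _ _).trans hx
  rw [Real.norm_eq_abs, Real.norm_eq_abs, abs_of_nonneg (Real.log_nonneg hx1),
    abs_of_nonneg (Real.rpow_nonneg (by linarith) _)] at h1
  calc Λ * Real.log x ≤ Λ * (1 / Λ * x ^ ε) := by gcongr
    _ = x ^ ε := by field_simp

theorem mub : ∃ D : ℝ, 1 ≤ D ∧ ∀ Λ ε : ℝ, 1 ≤ Λ → 0 < ε → ∃ x0 : ℝ, ∀ x : ℝ, x0 ≤ x →
    2 * (⌊Λ * Real.log x⌋₊ : ℝ) * ((Nat.totient (primorial ⌊Real.log x / 100⌋₊) : ℝ) / (primorial ⌊Real.log x / 100⌋₊ : ℝ)) *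
      VV ⌊Λ * Real.log x⌋₊ (zf ε x) 1 ≤ 8 * D * Λ / ε := by
  obtain ⟨D, hD, hmu⟩ := vv_mu
  refine ⟨D, hD, fun Λ ε hΛ hε => ?_⟩
  obtain ⟨x1, h1⟩ := zfl hε
  obtain ⟨x2, h2⟩ := Mub_rpow hΛ hε
  refine ⟨max (max x1 x2) (Real.exp (40000 * Λ)), fun x hx => ?_⟩
  have hx1 : x1 ≤ x := ((le_max_left _ _).trans (le_max_left _ _)).trans hx
  have hx2 : x2 ≤ x := ((le_max_right _ _).trans (le_max_left _ _)).trans hx
  have hx3 : Real.exp (40000 * Λ) ≤ x := (le_max_right _ _).trans hx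
  have hx0 : 0 < x := (Real.exp_pos _).trans_le hx3
  set L := Real.log x with hL
  have hL1 : 40000 * Λ ≤ L := (Real.le_log_iff_exp_le hx0).2 hx3
  have hL2 : 40000 ≤ L := by linarith
  set z0 := ⌊L / 100⌋₊ with hz0
  set K := ⌊Λ * L⌋₊ with hK
  set z := zf ε x with hz
  have hz0l : L / 200 ≤ (z0 : ℝ) := by
    have := Nat.sub_one_lt_floor (L / 100)
    linarith
  have hz02 : 2 ≤ z0 := by
    have : (2 : ℝ) ≤ (z0 : ℝ) := by linarith
    exact_mod_cast this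
  have hKu : (K : ℝ) ≤ Λ * L := Nat.floor_le (by nlinarith)
  have hK2 : 2 ≤ K := by
    apply Nat.le_floor
    push_cast
    nlinarith
  have hKz : K ≤ z := Nat.floor_mono (h2 x hx2)
  obtain ⟨hzl, -⟩ := h1 x hx1
  have hm := hmu z0 K z hz02 hK2 hKz
  have hKpos : (0 : ℝ) < K := by
    have : 0 < K := by omega
    exact_mod_cast this
  have hz0pos : (0 : ℝ) < z0 := by
    have : 0 < z0 := by omega
    exact_mod_cast this
  have lz0 : 0 < Real.log z0 := Real.log_pos (by exact_mod_cast (by omega : 1 < z0))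
  have lz : 0 < Real.log z := by
    have : 0 < ε / 2 * L := by positivity
    linarith
  have lK : Real.log K ≤ 2 * Real.log z0 := by
    rw [show 2 * Real.log (z0 : ℝ) = Real.log ((z0 : ℝ) ^ 2) by rw [Real.log_pow]; norm_num]
    apply Real.log_le_log hKpos
    calc (K : ℝ) ≤ Λ * L := hKu
      _ ≤ (L / 200) ^ 2 := by nlinarith
      _ ≤ (z0 : ℝ) ^ 2 := by gcongr
  have hb : (Nat.totient (primorial z0) : ℝ) / (primorial z0 : ℝ) * VV K z 1 ≤
      D * 2 / (ε / 2 * L) := by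
    refine hm.trans ?_
    rw [div_le_div_iff₀ (by positivity) (by positivity)]
    calc D * Real.log K * (ε / 2 * L) ≤ D * (2 * Real.log z0) * Real.log z := by
          have : 0 ≤ Real.log z0 := lz0.le
          gcongr
      _ = D * 2 * (Real.log z0 * Real.log z) := by ring
  calc 2 * (K : ℝ) * ((Nat.totient (primorial z0) : ℝ) / (primorial z0 : ℝ)) * VV K z 1
      = 2 * (K : ℝ) * ((Nat.totient (primorial z0) : ℝ) / (primorial z0 : ℝ) * VV K z 1) := by ring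
    _ ≤ 2 * (Λ * L) * (D * 2 / (ε / 2 * L)) := by
        have : 0 ≤ D * 2 / (ε / 2 * L) := by positivity
        have h3 : 2 * (K : ℝ) * ((Nat.totient (primorial z0) : ℝ) / (primorial z0 : ℝ) * VV K z 1) ≤
          2 * (K : ℝ) * (D * 2 / (ε / 2 * L)) := by gcongr
        refine h3.trans ?_
        gcongr
    _ = 8 * D * Λ / ε := by
        have : L ≠ 0 := by linarith
        field_simp
        ring

end H69PG

end S_H69_PG_Mub

section S_H69_PG_Evt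

/-!
# EVT: conditions which hold for large `x`

`K = ⌊Λ log x⌋₊`, `z = zf ε x`, `R = zf r x`, `T = ⌊x/primorial ⌊log x/100⌋₊⌋₊ ≥ x^(97/100)` (`tlow`), `b0 = ⌊1/(60ε)⌋₊`. All inequalities are immediate for large `x`:
* `z ≥ x^(ε/2)` (`zfl`), so `z^M ≥ x` for `M = ⌈2/ε⌉₊` and `z^M' ≥ x^(A+2) ≥ x + x^A` for `M' = ⌈2(A+2)/ε⌉₊`; `K ≤ Λ log x ≤ z`; `C/√z → 0`.
* `z^(3(4 b0 + 10)) ≤ x^(ε(12 b0 + 30)) ≤ x^(1/5 + 30/1000) ≤ x^(1/4)`; `(x^(1/8))² R² ≤ x^(1/4 + 1/8)` (`r ≤ 1/16`); `T VV ≥ x^(97/100)/(C' log z)^(2j)` (`vv_low`), `log z ≤ log x`. So the quotients are at most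
  a constant times `x^(1/4 + 3/8 - 97/100) (C' log x)^(8N+4) → 0`.
-/

open Finset EG

namespace H69PG

theorem Evt_small (G c : ℝ) (k : ℕ) {s δ : ℝ} (hs : 0 < s) (hδ : 0 < δ) :
    ∀ᶠ x : ℝ in Filter.atTop, G * (c * Real.log x) ^ k ≤ δ * x ^ s := by
  have h0 : 0 < δ / (|G * c ^ k| + 1) := by positivity
  have h := (isLittleO_log_rpow_rpow_atTop (k : ℝ) hs).def h0
  filter_upwards [h, Filter.eventually_ge_atTop 1] with x hx hx1
  have hxs : 0 ≤ x ^ s := Real.rpow_nonneg (by linarith) s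
  rw [Real.rpow_natCast, Real.norm_eq_abs, Real.norm_eq_abs, abs_of_nonneg hxs] at hx
  calc G * (c * Real.log x) ^ k = (G * c ^ k) * (Real.log x) ^ k := by rw [mul_pow]; ring
    _ ≤ |G * c ^ k| * |(Real.log x) ^ k| := by rw [← abs_mul]; exact le_abs_self _
    _ ≤ (|G * c ^ k| + 1) * (δ / (|G * c ^ k| + 1) * x ^ s) :=
        mul_le_mul (by linarith) hx (abs_nonneg _) (by positivity)
    _ = δ * x ^ s := by field_simp

theorem Evt_quot {Nn T' V G l x a κ : ℝ} {k : ℕ} (hN : Nn ≤ G * x ^ a)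
    (hT : x ^ (97 / 100 : ℝ) ≤ T') (hl : 0 < l) (hV : 1 / l ^ k ≤ V)
    (hs : G * l ^ k ≤ κ * x ^ (97 / 100 - a)) (hx : 1 ≤ x) (hκ : 0 ≤ κ) : Nn / (T' * V) ≤ κ := by
  have hx0 : 0 < x := by linarith
  have hlk : 0 < l ^ k := pow_pos hl k
  have h1 : 0 < x ^ (97 / 100 : ℝ) := Real.rpow_pos_of_pos hx0 _
  have h2 : 0 < 1 / l ^ k := by positivity
  have h3 : x ^ (97 / 100 : ℝ) * (1 / l ^ k) ≤ T' * V := mul_le_mul hT hV h2.le (h1.le.trans hT)
  have h4 : 0 < T' * V := lt_of_lt_of_le (mul_pos h1 h2) h3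
  rw [div_le_iff₀ h4]
  have hxa : 0 < x ^ a := Real.rpow_pos_of_pos hx0 _
  have h5 : x ^ (97 / 100 : ℝ) = x ^ (97 / 100 - a) * x ^ a := by
    rw [← Real.rpow_add hx0]
    congr 1
    ring
  have h6 : G * x ^ a ≤ κ * (x ^ (97 / 100 : ℝ) * (1 / l ^ k)) := by
    rw [h5, mul_one_div, ← mul_div_assoc, le_div_iff₀ hlk]
    calc G * x ^ a * l ^ k = (G * l ^ k) * x ^ a := by ring
      _ ≤ (κ * x ^ (97 / 100 - a)) * x ^ a := mul_le_mul_of_nonneg_right hs hxa.le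
      _ = κ * (x ^ (97 / 100 - a) * x ^ a) := by ring
  exact hN.trans (h6.trans (mul_le_mul_of_nonneg_left h3 hκ))

/-- the power of `z` -/
theorem Evt_zpow {ε x z : ℝ} (hε : 0 < ε) (hε1 : ε ≤ 1 / 1000) (hx : 1 ≤ x) (hz0 : 0 ≤ z)
    (hz : z ≤ x ^ ε) : z ^ (3 * (4 * ⌊1 / (60 * ε)⌋₊ + 10)) ≤ x ^ (1 / 4 : ℝ) := by
  have hx0 : 0 < x := by linarith
  refine (pow_le_pow_left₀ hz0 hz _).trans ?_
  rw [← Real.rpow_natCast, ← Real.rpow_mul hx0.le]
  apply Real.rpow_le_rpow_of_exponent_le hx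
  have h1 : ((⌊1 / (60 * ε)⌋₊ : ℕ) : ℝ) ≤ 1 / (60 * ε) := Nat.floor_le (by positivity)
  have h2 : ε * ((⌊1 / (60 * ε)⌋₊ : ℕ) : ℝ) ≤ 1 / 60 := by
    calc ε * ((⌊1 / (60 * ε)⌋₊ : ℕ) : ℝ) ≤ ε * (1 / (60 * ε)) := mul_le_mul_of_nonneg_left h1 hε.le
      _ = 1 / 60 := by field_simp
  push_cast
  nlinarith

theorem evt (N C : ℕ) {Λ ε r A G0 κ0 : ℝ} (hΛ : 1 ≤ Λ) (hε : 0 < ε) (hε1 : ε ≤ 1 / 1000) (hr : 0 < r) (hr1 : r ≤ 1 / 16)
    (hA : 0 < A) (hG0 : 1 ≤ G0) (hκ : 0 < κ0) : ∃ x0 : ℝ, 1 ≤ x0 ∧ ∀ x : ℝ, x0 ≤ x →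
    8 * N + 8 ≤ ⌊Λ * Real.log x⌋₊ ∧ ⌊Λ * Real.log x⌋₊ ≤ zf ε x ∧ C ≤ zf ε x ∧ 2 * ⌈2 / ε⌉₊ ≤ zf ε x ∧
    x ≤ (zf ε x : ℝ) ^ ⌈2 / ε⌉₊ ∧ x + x ^ A ≤ (zf ε x : ℝ) ^ ⌈2 * (A + 2) / ε⌉₊ ∧
    1 ≤ ⌊x / (primorial ⌊Real.log x / 100⌋₊ : ℝ)⌋₊ ∧ 1 ≤ zf r x ∧
    C / Real.sqrt (zf ε x) * (10 * G0) ^ (2 * N + 1) ≤ κ0 ∧
    (zf ε x : ℝ) ^ (3 * (4 * ⌊1 / (60 * ε)⌋₊ + 10)) * (4 * G0 ^ 2) ^ (2 * N + 1) * ((x ^ (1 / 8 : ℝ)) ^ 2 * (zf r x : ℝ) ^ 2) /
      ((⌊x / (primorial ⌊Real.log x / 100⌋₊ : ℝ)⌋₊ : ℝ) * VV ⌊Λ * Real.log x⌋₊ (zf ε x) (2 * N + 1)) ≤ κ0 ∧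
    C / Real.sqrt (zf ε x) ≤ 1 / 4 ∧
    (zf ε x : ℝ) ^ (3 * (4 * ⌊1 / (60 * ε)⌋₊ + 10)) /
      ((⌊x / (primorial ⌊Real.log x / 100⌋₊ : ℝ)⌋₊ : ℝ) * VV ⌊Λ * Real.log x⌋₊ (zf ε x) (4 * N)) ≤ 1 / 4 := by
  obtain ⟨C', hC', hVV⟩ := vv_low
  obtain ⟨x1, hzfl⟩ := zfl hε
  obtain ⟨x2, htl⟩ := tlow
  have hzinf : Filter.Tendsto (fun x : ℝ => (zf ε x : ℝ)) Filter.atTop Filter.atTop := by
    unfold zf
    exact tendsto_natCast_atTop_atTop.comp (tendsto_nat_floor_atTop.comp (tendsto_rpow_atTop hε))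
  have hq : Filter.Tendsto (fun x : ℝ => (C : ℝ) / Real.sqrt (zf ε x)) Filter.atTop (nhds 0) :=
    tendsto_const_nhds.div_atTop (Real.tendsto_sqrt_atTop.comp hzinf)
  have hq2 : Filter.Tendsto (fun x : ℝ => (C : ℝ) / Real.sqrt (zf ε x) * (10 * G0) ^ (2 * N + 1))
      Filter.atTop (nhds 0) := by
    have := hq.mul_const ((10 * G0) ^ (2 * N + 1))
    rwa [zero_mul] at this
  have e9 := hq2.eventually_le_const hκ
  have e11 := hq.eventually_le_const (show (0 : ℝ) < 1 / 4 by norm_num)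
  have e1 := Real.tendsto_log_atTop.eventually_ge_atTop (8 * (N : ℝ) + 8)
  have e2 := Evt_small 1 Λ 1 hε one_pos
  have e3 := hzinf.eventually_ge_atTop (C : ℝ)
  have e4 := hzinf.eventually_ge_atTop ((2 * ⌈2 / ε⌉₊ : ℕ) : ℝ)
  have e10 := Evt_small ((4 * G0 ^ 2) ^ (2 * N + 1)) C' (2 * (2 * N + 1))
    (show (0 : ℝ) < 97 / 100 - 5 / 8 by norm_num) hκ
  have e12 := Evt_small 1 C' (2 * (4 * N)) (show (0 : ℝ) < 97 / 100 - 1 / 4 by norm_num)
    (show (0 : ℝ) < 1 / 4 by norm_num)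
  have hall := e9.and (e11.and (e1.and (e2.and (e3.and (e4.and (e10.and (e12.and
    ((Filter.eventually_ge_atTop x1).and ((Filter.eventually_ge_atTop x2).and
      (Filter.eventually_ge_atTop (2 : ℝ)))))))))))
  obtain ⟨x0, hx0⟩ := Filter.eventually_atTop.mp hall
  refine ⟨max 1 x0, le_max_left _ _, fun x hx => ?_⟩
  obtain ⟨c9, c11, c1, c2, c3, c4, c10, c12, cx1, cx2, cx⟩ := hx0 x ((le_max_right _ _).trans hx)
  have hx1 : (1 : ℝ) ≤ x := by linarith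
  have hxp : (0 : ℝ) < x := by linarith
  obtain ⟨z1, z2⟩ := hzfl x cx1
  have t1 := htl x cx2
  set L := Real.log x with hL
  have hL8 : 8 ≤ L := by
    have : (0 : ℝ) ≤ 8 * (N : ℝ) := by positivity
    linarith
  have hLp : 0 < L := by linarith
  set z := zf ε x with hz
  have hlz : 0 < Real.log z := lt_of_lt_of_le (by positivity) z1
  have hz0 : (0 : ℝ) < z := by
    rcases Nat.eq_zero_or_pos z with h | h
    · rw [h] at hlz
      simp at hlz
    · exact_mod_cast h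
  have hzle : (z : ℝ) ≤ x ^ ε := zf_le hxp.le
  have hzL : Real.log z ≤ L := by nlinarith
  have hK1 : 8 * N + 8 ≤ ⌊Λ * L⌋₊ := by
    apply Nat.le_floor
    push_cast
    nlinarith
  have hK2 : ⌊Λ * L⌋₊ ≤ z := by
    rw [hz]
    unfold zf
    apply Nat.floor_le_floor
    rw [pow_one, one_mul, one_mul] at c2
    exact c2
  have hpow : ∀ (M : ℕ) (B : ℝ), B ≤ M * (ε / 2) → x ^ B ≤ (z : ℝ) ^ M := by
    intro M B hB
    have h1 : B * L ≤ M * Real.log z := by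
      calc B * L ≤ (M * (ε / 2)) * L := mul_le_mul_of_nonneg_right hB hLp.le
        _ = M * (ε / 2 * L) := by ring
        _ ≤ M * Real.log z := mul_le_mul_of_nonneg_left z1 (Nat.cast_nonneg M)
    rw [Real.rpow_def_of_pos hxp, ← Real.exp_log (pow_pos hz0 M), Real.log_pow]
    apply Real.exp_le_exp.mpr
    linarith
  have hVlow : ∀ j : ℕ, 2 * j ≤ ⌊Λ * L⌋₊ → 1 / (C' * L) ^ (2 * j) ≤ VV ⌊Λ * L⌋₊ z j := by
    intro j hj
    refine le_trans ?_ (hVV _ z j hj (by omega) hK2)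
    have hC'p : 0 < C' := by linarith
    apply one_div_le_one_div_of_le (by positivity)
    exact pow_le_pow_left₀ (by positivity) (mul_le_mul_of_nonneg_left hzL hC'p.le) _
  have hzp : (z : ℝ) ^ (3 * (4 * ⌊1 / (60 * ε)⌋₊ + 10)) ≤ x ^ (1 / 4 : ℝ) :=
    Evt_zpow hε hε1 hx1 hz0.le hzle
  have hC'L : 0 < C' * L := by
    have : 0 < C' := by linarith
    positivity
  refine ⟨hK1, hK2, by exact_mod_cast c3, by exact_mod_cast c4, ?_, ?_, ?_, ?_, c9, ?_, c11, ?_⟩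
  · have h1 := hpow ⌈2 / ε⌉₊ 1 (by
      have h2 := Nat.le_ceil (2 / ε)
      calc (1 : ℝ) = 2 / ε * (ε / 2) := by field_simp
        _ ≤ (⌈2 / ε⌉₊ : ℝ) * (ε / 2) := mul_le_mul_of_nonneg_right h2 (by positivity))
    rwa [Real.rpow_one] at h1
  · have h1 := hpow ⌈2 * (A + 2) / ε⌉₊ (A + 2) (by
      have h2 := Nat.le_ceil (2 * (A + 2) / ε)
      calc A + 2 = 2 * (A + 2) / ε * (ε / 2) := by field_simp
        _ ≤ (⌈2 * (A + 2) / ε⌉₊ : ℝ) * (ε / 2) := mul_le_mul_of_nonneg_right h2 (by positivity))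
    refine le_trans ?_ h1
    have h2 : x ≤ x ^ (A + 1) := by
      calc x = x ^ (1 : ℝ) := (Real.rpow_one x).symm
        _ ≤ x ^ (A + 1) := Real.rpow_le_rpow_of_exponent_le hx1 (by linarith)
    have h3 : x ^ A ≤ x ^ (A + 1) := Real.rpow_le_rpow_of_exponent_le hx1 (by linarith)
    have h4 : x ^ (A + 2) = x * x ^ (A + 1) := by
      rw [show A + 2 = 1 + (A + 1) by ring, Real.rpow_add hxp 1 (A + 1), Real.rpow_one]
    rw [h4]
    have h5 : 0 ≤ x ^ (A + 1) := Real.rpow_nonneg hxp.le _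
    nlinarith
  · have h1 : (1 : ℝ) ≤ (⌊x / (primorial ⌊L / 100⌋₊ : ℝ)⌋₊ : ℝ) :=
      (Real.one_le_rpow hx1 (by norm_num)).trans t1
    exact_mod_cast h1
  · unfold zf
    rw [Nat.one_le_floor_iff]
    exact Real.one_le_rpow hx1 hr.le
  · have hR : (zf r x : ℝ) ^ 2 ≤ x ^ (1 / 8 : ℝ) := by
      have h1 : (zf r x : ℝ) ≤ x ^ r := zf_le hxp.le
      calc (zf r x : ℝ) ^ 2 ≤ (x ^ r) ^ 2 := pow_le_pow_left₀ (Nat.cast_nonneg _) h1 2
        _ = x ^ (r * 2) := by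
          rw [← Real.rpow_natCast, ← Real.rpow_mul hxp.le]
          norm_num
        _ ≤ x ^ (1 / 8 : ℝ) := Real.rpow_le_rpow_of_exponent_le hx1 (by linarith)
    have h8 : (x ^ (1 / 8 : ℝ)) ^ 2 = x ^ (1 / 4 : ℝ) := by
      rw [← Real.rpow_natCast, ← Real.rpow_mul hxp.le]
      norm_num
    have hG : 0 ≤ (4 * G0 ^ 2) ^ (2 * N + 1) := by positivity
    refine Evt_quot (a := 5 / 8) (k := 2 * (2 * N + 1)) (G := (4 * G0 ^ 2) ^ (2 * N + 1)) (l := C' * L)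
      ?_ t1 hC'L (hVlow (2 * N + 1) (by omega)) c10 hx1 hκ.le
    rw [h8]
    have h9 : x ^ (5 / 8 : ℝ) = x ^ (1 / 4 : ℝ) * (x ^ (1 / 4 : ℝ) * x ^ (1 / 8 : ℝ)) := by
      rw [← Real.rpow_add hxp, ← Real.rpow_add hxp]
      norm_num
    rw [h9]
    have p1 : 0 ≤ x ^ (1 / 4 : ℝ) := Real.rpow_nonneg hxp.le _
    calc (z : ℝ) ^ (3 * (4 * ⌊1 / (60 * ε)⌋₊ + 10)) * (4 * G0 ^ 2) ^ (2 * N + 1) *
          (x ^ (1 / 4 : ℝ) * (zf r x : ℝ) ^ 2)
        ≤ x ^ (1 / 4 : ℝ) * (4 * G0 ^ 2) ^ (2 * N + 1) * (x ^ (1 / 4 : ℝ) * x ^ (1 / 8 : ℝ)) := by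
          apply mul_le_mul (mul_le_mul_of_nonneg_right hzp hG)
            (mul_le_mul_of_nonneg_left hR p1) (by positivity) (by positivity)
      _ = (4 * G0 ^ 2) ^ (2 * N + 1) * (x ^ (1 / 4 : ℝ) * (x ^ (1 / 4 : ℝ) * x ^ (1 / 8 : ℝ))) := by ring
  · refine Evt_quot (a := 1 / 4) (k := 2 * (4 * N)) (G := 1) (l := C' * L)
      ?_ t1 hC'L (hVlow (4 * N) (by omega)) c12 hx1 (by norm_num)
    rw [one_mul]
    exact hzp

end H69PG

end S_H69_PG_Evt

section S_H69_PG_Eps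

/-!
# EPS: choice of `ε`

All conditions hold for all sufficiently small `ε > 0`: `⌊1/(60ε)⌋₊ ≥ 1/(60ε) - 1` tends to infinity, and `exp(1 - 1/(60ε))` times a polynomial in `1/ε` tends to `0`
(put `u = 1/ε`; `u^k e^(-u/60) → 0`).
-/

namespace H69PG

theorem epsch (N m C : ℕ) {D Λ v1 : ℝ} (hD : 1 ≤ D) (hΛ : 1 ≤ Λ) (hv1 : 0 < v1) :
    ∃ ε : ℝ, 0 < ε ∧ ε ≤ v1 / (4 * D) ∧ ε ≤ 1 / 1000 ∧ C ≤ ⌊1 / (60 * ε)⌋₊ ∧
      Real.exp (-(⌊1 / (60 * ε)⌋₊ : ℝ)) ≤ 1 / 4 ∧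
      3 * Real.exp (-(⌊1 / (60 * ε)⌋₊ : ℝ)) * (4 * (2 * D / ε) ^ 5) ^ (2 * N + 1) *
        ((2 * (N : ℝ) + 1) * (1 + ((m : ℝ) + 1) ^ 2 * (8 * D * Λ / ε)) ^ (2 * N + 1)) ≤ 1 / 8 := by
  obtain ⟨A, hA⟩ : ∃ A : ℝ, A = (4 * (120 * D) ^ 5) ^ (2 * N + 1) *
      ((2 * (N : ℝ) + 1) * (1 + ((m : ℝ) + 1) ^ 2 * (480 * D * Λ)) ^ (2 * N + 1)) := ⟨_, rfl⟩
  have hD0 : 0 < D := by linarith
  have hΛ0 : 0 < Λ := by linarith
  have hlim : Filter.Tendsto (fun n : ℕ => 3 * A * ((n : ℝ) ^ (6 * (2 * N + 1)) * Real.exp (-(n : ℝ))))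
      Filter.atTop (nhds (3 * A * 0)) :=
    ((Real.tendsto_pow_mul_exp_neg_atTop_nhds_zero (6 * (2 * N + 1))).comp
      tendsto_natCast_atTop_atTop).const_mul (3 * A)
  rw [mul_zero] at hlim
  have hev := hlim.eventually (Iic_mem_nhds (show (0 : ℝ) < 1 / 8 by norm_num))
  have hev2 : ∀ᶠ n : ℕ in Filter.atTop, 4 * D / v1 ≤ (n : ℝ) :=
    tendsto_natCast_atTop_atTop.eventually_ge_atTop _
  obtain ⟨n, hn1, hn2, hn3, hn4⟩ := (hev.and (hev2.and ((Filter.eventually_ge_atTop 17).and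
    (Filter.eventually_ge_atTop C)))).exists
  have hn1' : 3 * A * ((n : ℝ) ^ (6 * (2 * N + 1)) * Real.exp (-(n : ℝ))) ≤ 1 / 8 := hn1
  have hn0 : (0 : ℝ) < n := by
    have : 0 < n := by omega
    exact_mod_cast this
  have hn17 : (17 : ℝ) ≤ n := by exact_mod_cast hn3
  have he : 1 / (60 * (1 / (60 * (n : ℝ)))) = n := by field_simp
  refine ⟨1 / (60 * (n : ℝ)), by positivity, ?_, ?_, ?_, ?_, ?_⟩
  · rw [div_le_div_iff₀ (by positivity) (by positivity)]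
    rw [div_le_iff₀ hv1] at hn2
    nlinarith [mul_pos hn0 hv1]
  · rw [div_le_div_iff₀ (by positivity) (by norm_num)]
    linarith
  · rw [he, Nat.floor_natCast]
    exact hn4
  · rw [he, Nat.floor_natCast, Real.exp_neg]
    have h1 : (4 : ℝ) ≤ Real.exp n := by
      have := Real.add_one_le_exp (n : ℝ)
      linarith
    rw [inv_eq_one_div]
    exact one_div_le_one_div_of_le (by norm_num) h1
  · rw [he, Nat.floor_natCast]
    have e1 : 2 * D / (1 / (60 * (n : ℝ))) = 120 * D * n := by field_simp; ring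
    have e2 : 8 * D * Λ / (1 / (60 * (n : ℝ))) = 480 * D * Λ * n := by field_simp; ring
    rw [e1, e2]
    refine le_trans ?_ hn1'
    have hn1 : (1 : ℝ) ≤ n := by linarith
    have e3 : (4 * (120 * D * (n : ℝ)) ^ 5) ^ (2 * N + 1) =
        (4 * (120 * D) ^ 5) ^ (2 * N + 1) * (n : ℝ) ^ (5 * (2 * N + 1)) := by
      rw [mul_pow (120 * D) (n : ℝ) 5, ← mul_assoc, mul_pow, ← pow_mul]
    have h4 : 1 + ((m : ℝ) + 1) ^ 2 * (480 * D * Λ * n) ≤
        (1 + ((m : ℝ) + 1) ^ 2 * (480 * D * Λ)) * n := by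
      nlinarith
    have h5 : (1 + ((m : ℝ) + 1) ^ 2 * (480 * D * Λ * n)) ^ (2 * N + 1) ≤
        (1 + ((m : ℝ) + 1) ^ 2 * (480 * D * Λ)) ^ (2 * N + 1) * (n : ℝ) ^ (2 * N + 1) := by
      rw [← mul_pow]
      exact pow_le_pow_left₀ (by positivity) h4 _
    rw [e3]
    calc 3 * Real.exp (-(n : ℝ)) * ((4 * (120 * D) ^ 5) ^ (2 * N + 1) * (n : ℝ) ^ (5 * (2 * N + 1))) *
        ((2 * (N : ℝ) + 1) * (1 + ((m : ℝ) + 1) ^ 2 * (480 * D * Λ * n)) ^ (2 * N + 1))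
        ≤ 3 * Real.exp (-(n : ℝ)) * ((4 * (120 * D) ^ 5) ^ (2 * N + 1) * (n : ℝ) ^ (5 * (2 * N + 1))) *
        ((2 * (N : ℝ) + 1) * ((1 + ((m : ℝ) + 1) ^ 2 * (480 * D * Λ)) ^ (2 * N + 1) *
          (n : ℝ) ^ (2 * N + 1))) := by
          refine mul_le_mul_of_nonneg_left ?_ (by positivity)
          exact mul_le_mul_of_nonneg_left h5 (by positivity)
      _ = 3 * A * ((n : ℝ) ^ (6 * (2 * N + 1)) * Real.exp (-(n : ℝ))) := by
          rw [hA, show 6 * (2 * N + 1) = 5 * (2 * N + 1) + (2 * N + 1) by ring, pow_add]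
          ring

end H69PG

end S_H69_PG_Eps
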