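import Mathlib
import Pool.Agent.H6.EG.SelU
import Pool.Agent.H6.EG.Ssu
import Pool.Agent.H6.EG.LamB
import Pool.Agent.H69.PGM.A

/-! Positive proportion of long prime-free intervals, part D: this file joins several modules to save build time. -/

section S_H69_PG_Qfa

/-!
# QFA: the blocks

* `lamA_one`: `lam Q z y 1 = ∑_{s ∈ sq Q z} y_s/φ(s)`, here the sum over the block (`sq Q (Z (a-1)) ⊆ sq Q (Z a)`; `sq Q 1 = {1}`).
* `fAB_one`: `SS (DAB) (fAB) 1 = ∑_{d, d'} lamA_d lamA'_{d'}/lcm(d,d')` (`lcf_sum`), `= ∑_{r ∈ sq Q (Z a)} Yb(r) Yb'(r)/φ(r)` by `selU` with `b = 1`, `Yb Q z y 1 r = [r ∈ sq Q z] y_r`. For `a = a'` it is the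
  norm, for `a < a'` it is `0`: `r ≤ Z a ≤ Z (a'-1)` gives `yb Z a' r = 0`.
* `fAB_ctrl`: `ctrl_of_U` with `c = 4`, `p = 1`; its hypothesis by `selB` with `N = N' = Γ` (`y² ≤ 1`, so `∑_r [rc ∈ sq] y_{rc}²/φ(r) ≤ GG Q (Z a) ≤ Γ`; if `rc ∈ sq Q z`, `c ≥ 1`).
* `lamA_abs`: `lamA = 0` if `d ∉ sq Q (Z a)`; otherwise `|lamA_d| ≤ d ∑_{s ∈ sq, d ∣ s} 1/φ(s) ≤ (d/φ(d)) GG Q (Z a)`, and all primes dividing `d` are `> z` (`Q = primorial z`), at most `M` of them as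
  `d ≤ z^M`: `d/φ(d) ≤ (1 - 1/z)^(-M) ≤ 2` because `(1 - 1/z)^M ≥ 1 - M/z ≥ 1/2`.
* `fAB_sum`: `∑_B |lcf B|/B ≤ ∑_{d,d'} |lamA_d| |lamA'_{d'}|/lcm(d,d')`; with `g = gcd(d,d')`, `d = g e`, `d' = g e'`, `lcm = g e e'`, and `(d, d') ↦ (g, e, e')` is injective:
  `∑ 1/lcm ≤ (∑_{sq} 1/g)(∑_{sq} 1/e)(∑_{sq} 1/e') ≤ Γ³` (`1/e ≤ 1/φ(e)`).
* `fAB_abs`: `lcf_abs`, `lamA_abs`, `|sq Q z| ≤ z`.
-/

open Finset EG

namespace H69PG

theorem Qfa_sq_mono (Q : ℕ) {z z' : ℕ} (h : z ≤ z') : sq Q z ⊆ sq Q z' := by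
  intro r hr
  rw [selT_mem] at hr ⊢
  exact ⟨⟨hr.1.1, hr.1.2.trans h⟩, hr.2⟩

theorem Qfa_GG_mono (Q : ℕ) {z z' : ℕ} (h : z ≤ z') : GG Q z ≤ GG Q z' :=
  sum_le_sum_of_subset_of_nonneg (Qfa_sq_mono Q h) (fun r _ _ => by positivity)

theorem Qfa_GG_nonneg (Q z : ℕ) : 0 ≤ GG Q z := sum_nonneg (fun r _ => by positivity)

theorem Qfa_yb_nonneg (Z : ℕ → ℕ) (a r : ℕ) : 0 ≤ yb Z a r := by
  unfold yb
  split_ifs <;> norm_num

theorem Qfa_yb_le (Z : ℕ → ℕ) (a r : ℕ) : yb Z a r ≤ 1 := by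
  unfold yb
  split_ifs <;> norm_num

theorem Qfa_yb_mul (Z : ℕ → ℕ) (a r : ℕ) : yb Z a r * yb Z a r = yb Z a r := by
  unfold yb
  split_ifs <;> norm_num

theorem Qfa_block {Z : ℕ → ℕ} (Q : ℕ) (hZ0 : Z 0 = 1) (hZ : Monotone Z) (a : ℕ) :
    ∑ s ∈ sq Q (Z a), yb Z a s / (Nat.totient s : ℝ) = wA Z Q a := by
  unfold wA
  split_ifs with h
  · subst h
    rw [hZ0]
    have h1 : sq Q 1 = {1} := by
      ext r
      rw [selT_mem, mem_singleton]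
      constructor
      · rintro ⟨⟨h1, h2⟩, -⟩
        omega
      · rintro rfl
        exact ⟨⟨le_rfl, le_rfl⟩, squarefree_one, Nat.coprime_one_left Q⟩
    rw [h1, sum_singleton]
    simp [yb]
  · have h1 : Z (a - 1) ≤ Z a := hZ (Nat.sub_le _ _)
    have h2 : GG Q (Z (a - 1)) =
        ∑ s ∈ (sq Q (Z a)).filter (fun s => ¬ Z (a - 1) < s), 1 / (Nat.totient s : ℝ) := by
      unfold GG
      refine sum_congr ?_ (fun _ _ => rfl)
      ext r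
      rw [mem_filter, selT_mem, selT_mem]
      constructor
      · rintro ⟨⟨h3, h4⟩, h5⟩
        exact ⟨⟨⟨h3, h4.trans h1⟩, h5⟩, by omega⟩
      · rintro ⟨⟨⟨h3, h4⟩, h5⟩, h6⟩
        exact ⟨⟨h3, by omega⟩, h5⟩
    have h3 : ∑ s ∈ sq Q (Z a), yb Z a s / (Nat.totient s : ℝ) =
        ∑ s ∈ (sq Q (Z a)).filter (fun s => Z (a - 1) < s), 1 / (Nat.totient s : ℝ) := by
      rw [sum_filter]
      refine sum_congr rfl fun s _ => ?_
      unfold yb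
      by_cases h4 : Z (a - 1) < s
      · rw [if_pos (Or.inr h4), if_pos h4]
      · rw [if_neg (by tauto), if_neg h4, zero_div]
    have h4 := sum_filter_add_sum_filter_not (sq Q (Z a)) (fun s => Z (a - 1) < s)
      (fun s => 1 / (Nat.totient s : ℝ))
    have h5 : GG Q (Z a) = ∑ s ∈ sq Q (Z a), 1 / (Nat.totient s : ℝ) := rfl
    rw [h3, h2, h5]
    linarith

theorem wA_nonneg {Z : ℕ → ℕ} (Q : ℕ) (hZ : Monotone Z) (a : ℕ) : 0 ≤ wA Z Q a := by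
  unfold wA
  split_ifs
  · norm_num
  · have := Qfa_GG_mono Q (hZ (Nat.sub_le a 1))
    linarith

theorem lamA_one {Z : ℕ → ℕ} (Q : ℕ) (hZ0 : Z 0 = 1) (hZ : Monotone Z) (a : ℕ) : lamA Z Q a 1 = wA Z Q a := by
  rw [← Qfa_block Q hZ0 hZ a]
  unfold lamA lam
  rw [filter_true_of_mem (fun s _ => one_dvd s)]
  simp

theorem Qfa_Yb_one (Q z : ℕ) (y : ℕ → ℝ) (r : ℕ) :
    Yb Q z y 1 r = if r ∈ sq Q z then y r else 0 := by
  unfold Yb
  simp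

theorem fAB_one {Z : ℕ → ℕ} (Q : ℕ) (hZ0 : Z 0 = 1) (hZ : Monotone Z) (a a' : ℕ) :
    SS (DAB Z Q a a') (fAB Z Q a a') 1 = if a = a' then wA Z Q a else 0 := by
  have h1 : SS (DAB Z Q a a') (fAB Z Q a a') 1 =
      ∑ B ∈ DAB Z Q a a', fAB Z Q a a' B * (fun n : ℕ => 1 / (n : ℝ)) B := by
    unfold SS
    rw [filter_true_of_mem (fun s _ => one_dvd s)]
    exact sum_congr rfl fun B _ => by ring
  rw [h1]
  unfold DAB fAB
  rw [lcf_sum]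
  have h2 := selU Q (Z a) (Z a') (yb Z a) (yb Z a') squarefree_one (Nat.coprime_one_left Q)
  rw [Nat.cast_one, one_mul] at h2
  have h3 : ∑ d ∈ sq Q (Z a), ∑ d' ∈ sq Q (Z a'),
      lamA Z Q a d * lamA Z Q a' d' * (fun n : ℕ => 1 / (n : ℝ)) (Nat.lcm d d') =
      ∑ d ∈ sq Q (Z a), ∑ d' ∈ sq Q (Z a'),
        lam Q (Z a) (yb Z a) d * lam Q (Z a') (yb Z a') d' / (Nat.lcm 1 (Nat.lcm d d') : ℝ) := by
    refine sum_congr rfl fun d _ => sum_congr rfl fun d' _ => ?_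
    rw [Nat.lcm_one_left]
    change lamA Z Q a d * lamA Z Q a' d' * (1 / (Nat.lcm d d' : ℝ)) = _
    rw [mul_one_div]
    rfl
  rw [h3, h2]
  have h4 : ∀ r ∈ (sq Q (Z a)).filter (fun r => Nat.Coprime r 1),
      Yb Q (Z a) (yb Z a) 1 r * Yb Q (Z a') (yb Z a') 1 r / (Nat.totient r : ℝ) =
      if a = a' then yb Z a r / (Nat.totient r : ℝ) else 0 := by
    intro r hr
    rw [mem_filter] at hr
    rw [Qfa_Yb_one, Qfa_Yb_one, if_pos hr.1]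
    have hr1 := (selT_mem.1 hr.1).1
    rcases lt_trichotomy a a' with h | h | h
    · rw [if_neg h.ne]
      have h5 : yb Z a' r = 0 := by
        unfold yb
        rw [if_neg]
        rintro (h6 | h6)
        · omega
        · have : Z a ≤ Z (a' - 1) := hZ (by omega)
          omega
      rw [h5]
      simp
    · subst h
      rw [if_pos rfl, if_pos hr.1, Qfa_yb_mul]
    · rw [if_neg h.ne']
      split_ifs with h7
      · have hr2 := (selT_mem.1 h7).1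
        have h5 : yb Z a r = 0 := by
          unfold yb
          rw [if_neg]
          rintro (h6 | h6)
          · omega
          · have : Z a' ≤ Z (a - 1) := hZ (by omega)
            omega
        rw [h5]
        simp
      · simp
  rw [sum_congr rfl h4, filter_true_of_mem (fun r _ => Nat.coprime_one_right r)]
  split_ifs
  · exact Qfa_block Q hZ0 hZ a
  · exact sum_const_zero

theorem fAB_good (Z : ℕ → ℕ) (Q a a' : ℕ) : Good Q (DAB Z Q a a') := by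
  exact good_lcD (fun B hB => (selT_mem.mp hB).2) (fun B hB => (selT_mem.mp hB).2)

theorem Qfa_N (Z : ℕ → ℕ) (Q a : ℕ) {Γ : ℝ} (h : GG Q (Z a) ≤ Γ) (c : ℕ) :
    ∑ r ∈ sq Q (Z a), (if r * c ∈ sq Q (Z a) then yb Z a (r * c) ^ 2 else 0) /
      (Nat.totient r : ℝ) ≤ Γ := by
  refine le_trans (sum_le_sum fun r hr => ?_) h
  refine div_le_div_of_nonneg_right ?_ (Nat.cast_nonneg _)
  split_ifs
  · unfold yb
    split_ifs <;> norm_num
  · norm_num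

theorem fAB_ctrl {Z : ℕ → ℕ} {Q : ℕ} {a a' : ℕ} {Γ : ℝ} (h : GG Q (Z a) ≤ Γ) (h' : GG Q (Z a') ≤ Γ) (hΓ : 0 ≤ Γ) :
    Ctrl 10 (10 * Γ) 1 (DAB Z Q a a') (fAB Z Q a a') := by
  have h1 : ∀ e : ℕ, Squarefree e → Nat.Coprime e Q →
      |∑ B ∈ DAB Z Q a a', fAB Z Q a a' B * ((Nat.gcd e B : ℝ) / B)| ≤
        (10 * Γ) * 4 ^ e.primeFactors.card * (Nat.gcd e 1 : ℝ) := by
    intro e he heQ
    have h2 := selB Q (Z a) (Z a') (yb Z a) (yb Z a') (N := Γ) (N' := Γ)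
      (fun c _ => Qfa_N Z Q a h c) (fun c _ => Qfa_N Z Q a' h' c) he heQ
    rw [Real.sqrt_mul_self hΓ] at h2
    refine le_trans h2 ?_
    rw [Nat.gcd_one_right, Nat.cast_one, mul_one]
    have h3 : (0 : ℝ) ≤ 4 ^ e.primeFactors.card * Γ := by positivity
    linarith
  have h2 := ctrl_of_U (fAB_good Z Q a a') (by linarith) (by norm_num) 1 h1
  rwa [show (2 : ℝ) * (1 + 4) = 10 by norm_num] at h2

theorem Qfa_ratio {z M d : ℕ} (hz : 1 ≤ z) (hd : Squarefree d) (hc : Nat.Coprime d (primorial z))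
    (hd1 : d ≤ z ^ M) (hM : 2 * M ≤ z) : (d : ℝ) ≤ 2 * (Nat.totient d : ℝ) := by
  have hp : ∀ p ∈ d.primeFactors, z + 1 ≤ p := by
    intro p hp
    have hpp := Nat.prime_of_mem_primeFactors hp
    by_contra hcon
    push Not at hcon
    have h1 : p ∣ primorial z := hpp.dvd_primorial_iff.2 (by omega)
    have h2 := Nat.dvd_gcd (Nat.dvd_of_mem_primeFactors hp) h1
    rw [hc] at h2
    exact hpp.one_lt.ne' (Nat.dvd_one.1 h2)
  have hk : d.primeFactors.card ≤ M := by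
    have h1 : (z + 1) ^ d.primeFactors.card ≤ (z + 1) ^ M := by
      calc (z + 1) ^ d.primeFactors.card = ∏ p ∈ d.primeFactors, (z + 1) := by
            rw [prod_const]
        _ ≤ ∏ p ∈ d.primeFactors, p := prod_le_prod' hp
        _ = d := Nat.prod_primeFactors_of_squarefree hd
        _ ≤ z ^ M := hd1
        _ ≤ (z + 1) ^ M := Nat.pow_le_pow_left (Nat.le_succ z) M
    exact (Nat.pow_le_pow_iff_right (by omega)).1 h1
  have hzr : (0 : ℝ) < (z : ℝ) + 1 := by positivity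
  have h3 : (d : ℝ) * (1 + -(1 / ((z : ℝ) + 1))) ^ d.primeFactors.card ≤ (Nat.totient d : ℝ) := by
    rw [selT_phi hd]
    have h4 : (d : ℝ) = ∏ p ∈ d.primeFactors, (p : ℝ) := by
      conv_lhs => rw [← Nat.prod_primeFactors_of_squarefree hd]
      push_cast
      rfl
    conv_lhs => rw [h4]
    rw [← prod_const, ← prod_mul_distrib]
    refine prod_le_prod ?_ ?_
    · intro p _
      have : 1 / ((z : ℝ) + 1) ≤ 1 := by
        rw [div_le_one hzr]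
        have : (0 : ℝ) ≤ z := Nat.cast_nonneg z
        linarith
      exact mul_nonneg (Nat.cast_nonneg _) (by linarith)
    · intro p hpm
      have h5 : (z : ℝ) + 1 ≤ p := by exact_mod_cast hp p hpm
      have h6 : 1 ≤ (p : ℝ) * (1 / ((z : ℝ) + 1)) := by
        rw [mul_one_div, le_div_iff₀ hzr]
        linarith
      have h7 : (p : ℝ) * (1 + -(1 / ((z : ℝ) + 1))) = p - (p : ℝ) * (1 / ((z : ℝ) + 1)) := by ring
      rw [h7]
      linarith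
  have h8 : 1 + (d.primeFactors.card : ℝ) * (-(1 / ((z : ℝ) + 1))) ≤
      (1 + -(1 / ((z : ℝ) + 1))) ^ d.primeFactors.card := by
    refine one_add_mul_le_pow ?_ _
    have : 1 / ((z : ℝ) + 1) ≤ 1 := by
      rw [div_le_one hzr]
      have : (0 : ℝ) ≤ z := Nat.cast_nonneg z
      linarith
    linarith
  have h9 : (1 : ℝ) / 2 ≤ 1 + (d.primeFactors.card : ℝ) * (-(1 / ((z : ℝ) + 1))) := by
    have h10 : (d.primeFactors.card : ℝ) ≤ M := by exact_mod_cast hk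
    have h11 : 2 * (M : ℝ) ≤ z := by exact_mod_cast hM
    have h12 : (d.primeFactors.card : ℝ) * (1 / ((z : ℝ) + 1)) ≤ 1 / 2 := by
      rw [mul_one_div, div_le_iff₀ hzr]
      linarith
    linarith
  have h13 : (d : ℝ) * (1 / 2) ≤ (Nat.totient d : ℝ) :=
    le_trans (mul_le_mul_of_nonneg_left (h9.trans h8) (Nat.cast_nonneg _)) h3
  linarith

theorem Qfa_multiples {Q z d : ℕ} (hd : d ∈ sq Q z) :
    ∑ s ∈ (sq Q z).filter (fun s => d ∣ s), 1 / (Nat.totient s : ℝ) ≤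
      1 / (Nat.totient d : ℝ) * GG Q z := by
  classical
  have hd0 : 0 < d := (selT_mem.1 hd).1.1
  have h1 : ∀ s ∈ (sq Q z).filter (fun s => d ∣ s), 1 / (Nat.totient s : ℝ) =
      1 / (Nat.totient d : ℝ) * (1 / (Nat.totient (s / d) : ℝ)) := by
    intro s hs
    rw [mem_filter, selT_mem] at hs
    obtain ⟨⟨_, hsf, _⟩, hds⟩ := hs
    obtain ⟨t, rfl⟩ := hds
    rw [Nat.mul_div_cancel_left t hd0, Nat.totient_mul (Nat.coprime_of_squarefree_mul hsf)]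
    push_cast
    rw [one_div_mul_one_div]
  rw [sum_congr rfl h1, ← mul_sum]
  refine mul_le_mul_of_nonneg_left ?_ (by positivity)
  have h2 : Set.InjOn (fun s : ℕ => s / d) ((sq Q z).filter (fun s => d ∣ s) : Set ℕ) := by
    intro s hs s' hs' h
    rw [mem_coe, mem_filter] at hs hs'
    exact (Nat.div_left_inj hs.2 hs'.2).1 h
  have h3 : ∑ s ∈ (sq Q z).filter (fun s => d ∣ s), 1 / (Nat.totient (s / d) : ℝ) =
      ∑ t ∈ ((sq Q z).filter (fun s => d ∣ s)).image (fun s => s / d), 1 / (Nat.totient t : ℝ) := by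
    rw [sum_image h2]
  rw [h3]
  refine sum_le_sum_of_subset_of_nonneg ?_ (fun _ _ _ => by positivity)
  intro t ht
  rw [mem_image] at ht
  obtain ⟨s, hs, rfl⟩ := ht
  rw [mem_filter] at hs
  exact selT_dvd hs.1 (Nat.div_dvd_of_dvd hs.2)

theorem lamA_abs {Z : ℕ → ℕ} {z M a : ℕ} (hz : 1 ≤ z) (hZ : Z a ≤ z ^ M) (hM : 2 * M ≤ z) {Γ : ℝ}
    (h : GG (primorial z) (Z a) ≤ Γ) (d : ℕ) : |lamA Z (primorial z) a d| ≤ 2 * Γ := by
  have hG := Qfa_GG_nonneg (primorial z) (Z a)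
  by_cases hd : d ∈ sq (primorial z) (Z a)
  · have hd' := selT_mem.1 hd
    have h1 := Qfa_multiples hd
    have h2 := Qfa_ratio hz hd'.2.1 hd'.2.2 (hd'.1.2.trans hZ) hM
    have hphi : (0 : ℝ) < (Nat.totient d : ℝ) := by
      exact_mod_cast Nat.totient_pos.2 hd'.1.1
    unfold lamA lam
    have h3 : |∑ s ∈ (sq (primorial z) (Z a)).filter (fun s => d ∣ s),
        yb Z a s / (Nat.totient s : ℝ)| ≤
        ∑ s ∈ (sq (primorial z) (Z a)).filter (fun s => d ∣ s), 1 / (Nat.totient s : ℝ) := by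
      refine (abs_sum_le_sum_abs _ _).trans (sum_le_sum fun s _ => ?_)
      rw [abs_of_nonneg (div_nonneg (Qfa_yb_nonneg Z a s) (Nat.cast_nonneg _))]
      exact div_le_div_of_nonneg_right (Qfa_yb_le Z a s) (Nat.cast_nonneg _)
    have h4 : |((ArithmeticFunction.moebius d : ℤ) : ℝ)| ≤ 1 := by
      exact_mod_cast ArithmeticFunction.abs_moebius_le_one
    rw [abs_mul, abs_mul, Nat.abs_cast]
    have h5 : |((ArithmeticFunction.moebius d : ℤ) : ℝ)| * (d : ℝ) ≤ d := by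
      have := mul_le_mul_of_nonneg_right h4 (Nat.cast_nonneg (α := ℝ) d)
      linarith
    calc |((ArithmeticFunction.moebius d : ℤ) : ℝ)| * (d : ℝ) *
          |∑ s ∈ (sq (primorial z) (Z a)).filter (fun s => d ∣ s), yb Z a s / (Nat.totient s : ℝ)|
        ≤ (d : ℝ) * (1 / (Nat.totient d : ℝ) * GG (primorial z) (Z a)) :=
          mul_le_mul h5 (h3.trans h1) (abs_nonneg _) (Nat.cast_nonneg _)
      _ = (d : ℝ) / (Nat.totient d : ℝ) * GG (primorial z) (Z a) := by ring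
      _ ≤ 2 * Γ := by
          refine mul_le_mul ?_ h hG (by norm_num)
          rw [div_le_iff₀ hphi]
          exact h2
  · have h1 : lamA Z (primorial z) a d = 0 := by
      unfold lamA lam
      have h2 : (sq (primorial z) (Z a)).filter (fun s => d ∣ s) = ∅ := by
        rw [filter_eq_empty_iff]
        intro s hs hds
        exact hd (selT_dvd hs hds)
      rw [h2, sum_empty, mul_zero]
    rw [h1, abs_zero]
    linarith

theorem Qfa_inv_le (Q z : ℕ) : ∑ r ∈ sq Q z, 1 / (r : ℝ) ≤ GG Q z := by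
  refine sum_le_sum fun r hr => ?_
  have h1 : 0 < r := (selT_mem.1 hr).1.1
  refine one_div_le_one_div_of_le ?_ ?_
  · exact_mod_cast Nat.totient_pos.2 h1
  · exact_mod_cast Nat.totient_le r

theorem Qfa_lcm_sum {Q z z' : ℕ} {Γ : ℝ} (h : GG Q z ≤ Γ) (h' : GG Q z' ≤ Γ) :
    ∑ d ∈ sq Q z, ∑ d' ∈ sq Q z', 1 / (Nat.lcm d d' : ℝ) ≤ Γ ^ 3 := by
  classical
  have hΓ : 0 ≤ Γ := (Qfa_GG_nonneg Q z).trans h
  let φ : ℕ × ℕ → ℕ × (ℕ × ℕ) := fun p =>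
    (Nat.gcd p.1 p.2, (p.1 / Nat.gcd p.1 p.2, p.2 / Nat.gcd p.1 p.2))
  let F : ℕ × (ℕ × ℕ) → ℝ := fun q => 1 / (q.1 : ℝ) * (1 / (q.2.1 : ℝ) * (1 / (q.2.2 : ℝ)))
  have h1 : ∑ d ∈ sq Q z, ∑ d' ∈ sq Q z', 1 / (Nat.lcm d d' : ℝ) =
      ∑ p ∈ sq Q z ×ˢ sq Q z', F (φ p) := by
    rw [sum_product]
    refine sum_congr rfl fun d hd => sum_congr rfl fun d' hd' => ?_
    have hd0 : 0 < d := (selT_mem.1 hd).1.1
    have hd0' : 0 < d' := (selT_mem.1 hd').1.1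
    have hg0 : 0 < Nat.gcd d d' := Nat.gcd_pos_of_pos_left _ hd0
    have h2 := Nat.gcd_mul_lcm d d'
    have h3 : d / Nat.gcd d d' * Nat.gcd d d' = d := Nat.div_mul_cancel (Nat.gcd_dvd_left d d')
    have h4 : d' / Nat.gcd d d' * Nat.gcd d d' = d' := Nat.div_mul_cancel (Nat.gcd_dvd_right d d')
    have h5 : Nat.lcm d d' = Nat.gcd d d' * (d / Nat.gcd d d' * (d' / Nat.gcd d d')) := by
      apply Nat.eq_of_mul_eq_mul_left hg0
      rw [h2]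
      calc d * d' = (d / Nat.gcd d d' * Nat.gcd d d') * (d' / Nat.gcd d d' * Nat.gcd d d') := by
            rw [h3, h4]
        _ = _ := by ring
    change 1 / (Nat.lcm d d' : ℝ) = 1 / ((Nat.gcd d d' : ℕ) : ℝ) *
      (1 / ((d / Nat.gcd d d' : ℕ) : ℝ) * (1 / ((d' / Nat.gcd d d' : ℕ) : ℝ)))
    rw [h5, Nat.cast_mul, Nat.cast_mul, one_div_mul_one_div, one_div_mul_one_div]
  have hinj : Set.InjOn φ (sq Q z ×ˢ sq Q z' : Finset (ℕ × ℕ)) := by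
    rintro ⟨a, b⟩ _ ⟨a', b'⟩ _ he
    simp only [φ, Prod.mk.injEq] at he
    obtain ⟨e1, e2, e3⟩ := he
    have h3 : a / Nat.gcd a b * Nat.gcd a b = a := Nat.div_mul_cancel (Nat.gcd_dvd_left a b)
    have h4 : b / Nat.gcd a b * Nat.gcd a b = b := Nat.div_mul_cancel (Nat.gcd_dvd_right a b)
    have h5 : a' / Nat.gcd a' b' * Nat.gcd a' b' = a' :=
      Nat.div_mul_cancel (Nat.gcd_dvd_left a' b')
    have h6 : b' / Nat.gcd a' b' * Nat.gcd a' b' = b' :=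
      Nat.div_mul_cancel (Nat.gcd_dvd_right a' b')
    rw [Prod.mk.injEq]
    constructor
    · rw [← h3, ← h5, e2, e1]
    · rw [← h4, ← h6, e3, e1]
  have h7 : ∑ p ∈ sq Q z ×ˢ sq Q z', F (φ p) = ∑ q ∈ (sq Q z ×ˢ sq Q z').image φ, F q := by
    rw [sum_image hinj]
  have h8 : ∑ q ∈ (sq Q z ×ˢ sq Q z').image φ, F q ≤
      ∑ q ∈ sq Q z ×ˢ (sq Q z ×ˢ sq Q z'), F q := by
    refine sum_le_sum_of_subset_of_nonneg ?_ (fun _ _ _ => by positivity)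
    intro q hq
    rw [mem_image] at hq
    obtain ⟨⟨d, d'⟩, hp, rfl⟩ := hq
    rw [mem_product] at hp
    rw [mem_product, mem_product]
    exact ⟨selT_dvd hp.1 (Nat.gcd_dvd_left d d'),
      selT_dvd hp.1 (Nat.div_dvd_of_dvd (Nat.gcd_dvd_left d d')),
      selT_dvd hp.2 (Nat.div_dvd_of_dvd (Nat.gcd_dvd_right d d'))⟩
  have h9 : ∑ q ∈ sq Q z ×ˢ (sq Q z ×ˢ sq Q z'), F q =
      (∑ r ∈ sq Q z, 1 / (r : ℝ)) * ((∑ r ∈ sq Q z, 1 / (r : ℝ)) * ∑ r ∈ sq Q z', 1 / (r : ℝ)) := by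
    rw [sum_product, sum_mul_sum, sum_mul]
    refine sum_congr rfl fun g _ => ?_
    rw [sum_product, mul_sum]
    refine sum_congr rfl fun e _ => ?_
    rw [mul_sum]
  rw [h1, h7]
  refine h8.trans ?_
  rw [h9]
  have h10 : (0 : ℝ) ≤ ∑ r ∈ sq Q z, 1 / (r : ℝ) := sum_nonneg fun _ _ => by positivity
  have h11 : (0 : ℝ) ≤ ∑ r ∈ sq Q z', 1 / (r : ℝ) := sum_nonneg fun _ _ => by positivity
  have h12 := (Qfa_inv_le Q z).trans h
  have h13 := (Qfa_inv_le Q z').trans h'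
  calc (∑ r ∈ sq Q z, 1 / (r : ℝ)) * ((∑ r ∈ sq Q z, 1 / (r : ℝ)) * ∑ r ∈ sq Q z', 1 / (r : ℝ))
      ≤ Γ * (Γ * Γ) := mul_le_mul h12 (mul_le_mul h12 h13 h11 hΓ) (mul_nonneg h10 h11) hΓ
    _ = Γ ^ 3 := by ring

theorem Qfa_lcf_abs (D D' : Finset ℕ) (f f' : ℕ → ℝ) (hh : ℕ → ℝ) (h0 : ∀ n, 0 ≤ hh n) :
    ∑ B ∈ lcD D D', |lcf D D' f f' B| * hh B ≤
      ∑ d ∈ D, ∑ d' ∈ D', |f d| * |f' d'| * hh (Nat.lcm d d') := by
  have h1 : ∑ B ∈ lcD D D', |lcf D D' f f' B| * hh B ≤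
      ∑ B ∈ lcD D D', lcf D D' (fun d => |f d|) (fun d => |f' d|) B * hh B := by
    refine sum_le_sum fun B _ => mul_le_mul_of_nonneg_right ?_ (h0 B)
    rw [lcf, lcf]
    refine (abs_sum_le_sum_abs _ _).trans (le_of_eq ?_)
    exact sum_congr rfl fun p _ => abs_mul _ _
  refine h1.trans (le_of_eq ?_)
  rw [lcf_sum]

theorem fAB_sum {Z : ℕ → ℕ} {z M a a' : ℕ} (hz : 1 ≤ z) (hZ : Z a ≤ z ^ M) (hZ' : Z a' ≤ z ^ M) (hM : 2 * M ≤ z) {Γ : ℝ}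
    (h : GG (primorial z) (Z a) ≤ Γ) (h' : GG (primorial z) (Z a') ≤ Γ) :
    ∑ B ∈ DAB Z (primorial z) a a', |fAB Z (primorial z) a a' B| / (B : ℝ) ≤ 4 * Γ ^ 5 := by
  have hΓ : 0 ≤ Γ := (Qfa_GG_nonneg _ _).trans h
  have h1 : ∑ B ∈ DAB Z (primorial z) a a', |fAB Z (primorial z) a a' B| / (B : ℝ) =
      ∑ B ∈ DAB Z (primorial z) a a',
        |fAB Z (primorial z) a a' B| * (fun n : ℕ => 1 / (n : ℝ)) B := by
    refine sum_congr rfl fun B _ => ?_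
    change _ = |fAB Z (primorial z) a a' B| * (1 / (B : ℝ))
    rw [mul_one_div]
  rw [h1]
  refine (Qfa_lcf_abs _ _ _ _ _ (fun n => by positivity)).trans ?_
  have h2 : ∑ d ∈ sq (primorial z) (Z a), ∑ d' ∈ sq (primorial z) (Z a'),
      |lamA Z (primorial z) a d| * |lamA Z (primorial z) a' d'| *
        (fun n : ℕ => 1 / (n : ℝ)) (Nat.lcm d d') ≤
      ∑ d ∈ sq (primorial z) (Z a), ∑ d' ∈ sq (primorial z) (Z a'),
        (2 * Γ * (2 * Γ)) * (1 / (Nat.lcm d d' : ℝ)) := by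
    refine sum_le_sum fun d _ => sum_le_sum fun d' _ => ?_
    refine mul_le_mul_of_nonneg_right ?_ (by positivity)
    exact mul_le_mul (lamA_abs hz hZ hM h d) (lamA_abs hz hZ' hM h' d') (abs_nonneg _)
      (by positivity)
  refine h2.trans ?_
  have h3 : ∑ d ∈ sq (primorial z) (Z a), ∑ d' ∈ sq (primorial z) (Z a'),
        (2 * Γ * (2 * Γ)) * (1 / (Nat.lcm d d' : ℝ)) =
      (2 * Γ * (2 * Γ)) * ∑ d ∈ sq (primorial z) (Z a), ∑ d' ∈ sq (primorial z) (Z a'),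
        1 / (Nat.lcm d d' : ℝ) := by
    rw [mul_sum]
    refine sum_congr rfl fun d _ => ?_
    rw [mul_sum]
  rw [h3]
  have h4 := Qfa_lcm_sum h h'
  have h5 := mul_le_mul_of_nonneg_left h4 (show (0 : ℝ) ≤ 2 * Γ * (2 * Γ) by positivity)
  refine h5.trans (le_of_eq ?_)
  ring

theorem Qfa_card (Q z : ℕ) : ((sq Q z).card : ℝ) ≤ z := by
  have h1 : (sq Q z).card ≤ z := by
    unfold EG.sq
    refine (card_filter_le _ _).trans ?_
    rw [Nat.card_Icc]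
    omega
  exact_mod_cast h1

theorem Qfa_lamA_sum {Z : ℕ → ℕ} {z M a : ℕ} (hz : 1 ≤ z) (hZ : Z a ≤ z ^ M) (hM : 2 * M ≤ z)
    {Γ : ℝ} (h : GG (primorial z) (Z a) ≤ Γ) :
    ∑ d ∈ sq (primorial z) (Z a), |lamA Z (primorial z) a d| ≤ (Z a : ℝ) * (2 * Γ) := by
  have hΓ : 0 ≤ Γ := (Qfa_GG_nonneg _ _).trans h
  refine (sum_le_sum fun d _ => lamA_abs hz hZ hM h d).trans ?_
  rw [sum_const, nsmul_eq_mul]
  exact mul_le_mul_of_nonneg_right (Qfa_card _ _) (by positivity)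

theorem fAB_abs {Z : ℕ → ℕ} {z M a a' : ℕ} (hz : 1 ≤ z) (hZ : Z a ≤ z ^ M) (hZ' : Z a' ≤ z ^ M) (hM : 2 * M ≤ z) {Γ : ℝ}
    (h : GG (primorial z) (Z a) ≤ Γ) (h' : GG (primorial z) (Z a') ≤ Γ) :
    ∑ B ∈ DAB Z (primorial z) a a', |fAB Z (primorial z) a a' B| ≤ 4 * Γ ^ 2 * ((Z a : ℝ) * Z a') := by
  have hΓ : 0 ≤ Γ := (Qfa_GG_nonneg _ _).trans h
  refine (lcf_abs _ _ _ _).trans ?_
  have h1 := Qfa_lamA_sum hz hZ hM h
  have h2 := Qfa_lamA_sum hz hZ' hM h'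
  refine (mul_le_mul h1 h2 (sum_nonneg fun _ _ => abs_nonneg _) (by positivity)).trans
    (le_of_eq ?_)
  ring

end H69PG

end S_H69_PG_Qfa

section S_H69_PG_Qfb

/-!
# QFB: the square of the Selberg sum

`DB Q R = lcD (sq Q R) (sq Q R)`, `fB Q R = lcf ...` with the coefficients `lb Q R = lam Q R (1/GG)`, `|lb| ≤ 1` (`lam_sel_le`).
* `fB_one`: `∑ lb lb/lcm = ∑_{r ∈ sq Q R} (1/GG)²/φ(r) = 1/GG` (`lcf_sum`, `selU` with `b = 1`).
* `fB_ctrl`: `ctrl_of_U` (`c = 4`, `p = 1`), `selB` with `N = N' = 1` (`∑ (1/GG)²/φ ≤ 1/GG ≤ 1`).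
* `fB_sum`: as `fAB_sum` in `Qfa.lean`: `∑_{d,d'} 1/lcm(d,d') ≤ (∑_{sq} 1/g)^3 ≤ Γ³` (via `g = gcd`, `d = g e`, `d' = g e'`). `fB_abs`: `lcf_abs`.
* `fB_be`: `fn_mul`.
-/

open Finset EG

namespace H69PG

theorem Qfb_good (Q R : ℕ) : Good Q (sq Q R) := fun _ hB => (selT_mem.mp hB).2

theorem Qfb_pos (Q R : ℕ) (hR : 1 ≤ R) : 0 < GG Q R := by
  unfold GG
  refine sum_pos (fun r hr => ?_) ⟨1, selT_mem.mpr ⟨⟨le_rfl, hR⟩, squarefree_one, Nat.coprime_one_left Q⟩⟩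
  have h1 : 1 ≤ r := (selT_mem.mp hr).1.1
  have h2 : (0 : ℝ) < (Nat.totient r : ℝ) := by exact_mod_cast Nat.totient_pos.mpr h1
  positivity

theorem Qfb_one_le (Q R : ℕ) (hR : 1 ≤ R) : 1 ≤ GG Q R := by
  unfold GG
  have h : ∀ s ∈ sq Q R, (0 : ℝ) ≤ 1 / (Nat.totient s : ℝ) := fun s _ => by positivity
  refine le_trans ?_ (single_le_sum h (selT_mem.mpr ⟨⟨le_rfl, hR⟩, squarefree_one, Nat.coprime_one_left Q⟩))
  simp

theorem Qfb_N (Q R : ℕ) (hR : 1 ≤ R) (c : ℕ) :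
    ∑ r ∈ sq Q R, (if r * c ∈ sq Q R then ((fun _ => (GG Q R)⁻¹ : ℕ → ℝ) (r * c)) ^ 2 else 0) / (Nat.totient r : ℝ) ≤ 1 := by
  have hG := Qfb_pos Q R hR
  have h1 : ∀ r ∈ sq Q R, (if r * c ∈ sq Q R then ((fun _ => (GG Q R)⁻¹ : ℕ → ℝ) (r * c)) ^ 2 else 0) / (Nat.totient r : ℝ) ≤
      ((GG Q R)⁻¹) ^ 2 * (1 / (Nat.totient r : ℝ)) := by
    intro r _
    have h2 : (0 : ℝ) ≤ (Nat.totient r : ℝ) := Nat.cast_nonneg _
    rw [mul_one_div]
    refine div_le_div_of_nonneg_right ?_ h2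
    split_ifs
    · exact le_rfl
    · positivity
  refine (sum_le_sum h1).trans ?_
  rw [← mul_sum]
  change ((GG Q R)⁻¹) ^ 2 * GG Q R ≤ 1
  have h3 : ((GG Q R)⁻¹) ^ 2 * GG Q R = (GG Q R)⁻¹ := by field_simp
  rw [h3]
  exact inv_le_one_of_one_le₀ (Qfb_one_le Q R hR)

/-- `∑_{d, d'} 1/lcm(d, d') ≤ (∑ 1/g)^3` -/
theorem Qfb_lcm (Q R : ℕ) :
    ∑ d ∈ sq Q R, ∑ d' ∈ sq Q R, 1 / (Nat.lcm d d' : ℝ) ≤ (∑ g ∈ sq Q R, 1 / (g : ℝ)) ^ 3 := by
  classical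
  have h3 : (∑ g ∈ sq Q R, 1 / (g : ℝ)) ^ 3 =
      ∑ x ∈ sq Q R ×ˢ (sq Q R ×ˢ sq Q R), 1 / ((x.1 * (x.2.1 * x.2.2) : ℕ) : ℝ) := by
    have e : ∀ (f : ℕ → ℝ) (s : Finset ℕ), (∑ g ∈ s, f g) ^ 3 = ∑ a ∈ s, ∑ b ∈ s, ∑ c ∈ s, f a * (f b * f c) := by
      intro f s
      rw [pow_succ', pow_two, sum_mul]
      refine sum_congr rfl fun a _ => ?_
      rw [sum_mul_sum, mul_sum]
      refine sum_congr rfl fun b _ => ?_
      rw [mul_sum]
    rw [e, sum_product]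
    refine sum_congr rfl fun x _ => ?_
    rw [sum_product]
    refine sum_congr rfl fun y _ => sum_congr rfl fun z _ => ?_
    push_cast
    rw [one_div_mul_one_div, one_div_mul_one_div]
  rw [h3, ← sum_product']
  have hmem : ∀ {a b : ℕ}, b ∈ sq Q R → a ∣ b → a ∈ sq Q R := fun h1 h2 => selT_dvd h1 h2
  have key : ∀ x ∈ sq Q R ×ˢ sq Q R, 1 / (Nat.lcm x.1 x.2 : ℝ) =
      1 / (((Nat.gcd x.1 x.2) * ((x.1 / Nat.gcd x.1 x.2) * (x.2 / Nat.gcd x.1 x.2)) : ℕ) : ℝ) := by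
    rintro ⟨d, d'⟩ hx
    obtain ⟨hd, hd'⟩ := mem_product.mp hx
    have hd0 : 0 < d := (selT_mem.mp hd).1.1
    have hg0 : 0 < Nat.gcd d d' := Nat.gcd_pos_of_pos_left d' hd0
    have e1 : Nat.gcd d d' * (d / Nat.gcd d d' * (d' / Nat.gcd d d')) = Nat.lcm d d' := by
      rw [← mul_assoc, Nat.mul_div_cancel' (Nat.gcd_dvd_left d d'), Nat.lcm, Nat.mul_div_assoc _ (Nat.gcd_dvd_right d d')]
    simp only
    rw [e1]
  rw [sum_congr rfl key]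
  have hinj : Set.InjOn (fun x : ℕ × ℕ => (Nat.gcd x.1 x.2, (x.1 / Nat.gcd x.1 x.2, x.2 / Nat.gcd x.1 x.2)))
      (sq Q R ×ˢ sq Q R : Finset (ℕ × ℕ)) := by
    rintro ⟨d, d'⟩ hx ⟨e, e'⟩ hy heq
    simp only [Prod.mk.injEq] at heq
    obtain ⟨h1, h2, h4⟩ := heq
    have hd : d = e := by
      calc d = Nat.gcd d d' * (d / Nat.gcd d d') := (Nat.mul_div_cancel' (Nat.gcd_dvd_left d d')).symm
        _ = Nat.gcd e e' * (e / Nat.gcd e e') := by rw [h2, h1]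
        _ = e := Nat.mul_div_cancel' (Nat.gcd_dvd_left e e')
    have hd' : d' = e' := by
      calc d' = Nat.gcd d d' * (d' / Nat.gcd d d') := (Nat.mul_div_cancel' (Nat.gcd_dvd_right d d')).symm
        _ = Nat.gcd e e' * (e' / Nat.gcd e e') := by rw [h4, h1]
        _ = e' := Nat.mul_div_cancel' (Nat.gcd_dvd_right e e')
    rw [hd, hd']
  have h5 := sum_image (f := fun x : ℕ × ℕ × ℕ => 1 / ((x.1 * (x.2.1 * x.2.2) : ℕ) : ℝ)) hinj
  simp only at h5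
  rw [← h5]
  refine sum_le_sum_of_subset_of_nonneg ?_ fun x _ _ => by positivity
  intro y hy
  obtain ⟨⟨d, d'⟩, hx, rfl⟩ := mem_image.mp hy
  obtain ⟨hd, hd'⟩ := mem_product.mp hx
  simp only at hd hd' ⊢
  rw [mem_product, mem_product]
  exact ⟨hmem hd (Nat.gcd_dvd_left d d'), hmem hd (Nat.div_dvd_of_dvd (Nat.gcd_dvd_left d d')),
    hmem hd' (Nat.div_dvd_of_dvd (Nat.gcd_dvd_right d d'))⟩

theorem Qfb_inv (Q R : ℕ) : ∑ g ∈ sq Q R, 1 / (g : ℝ) ≤ GG Q R := by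
  unfold GG
  refine sum_le_sum fun g hg => ?_
  have h1 : 1 ≤ g := (selT_mem.mp hg).1.1
  have h2 : (0 : ℝ) < (Nat.totient g : ℝ) := by exact_mod_cast Nat.totient_pos.mpr h1
  exact one_div_le_one_div_of_le h2 (by exact_mod_cast Nat.totient_le g)

theorem Qfb_lb {Q R : ℕ} (hR : 1 ≤ R) (d : ℕ) : |lb Q R d| ≤ 1 := lam_sel_le Q R hR d

theorem fB_good (Q R : ℕ) : Good Q (DB Q R) := good_lcD (Qfb_good Q R) (Qfb_good Q R)

theorem fB_be (Q R n : ℕ) : Fn (DB Q R) (fB Q R) n = be Q R n := by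
  unfold DB fB be
  rw [← fn_mul, pow_two]

theorem fB_one {Q R : ℕ} (hR : 1 ≤ R) : SS (DB Q R) (fB Q R) 1 = 1 / GG Q R := by
  have hG := Qfb_pos Q R hR
  have hgood := Qfb_good Q R
  have h1 : SS (DB Q R) (fB Q R) 1 =
      ∑ B ∈ lcD (sq Q R) (sq Q R), lcf (sq Q R) (sq Q R) (lb Q R) (lb Q R) B * ((Nat.gcd 1 B : ℝ) / B) := by
    unfold SS DB fB
    rw [filter_true_of_mem (fun B _ => one_dvd B)]
    refine sum_congr rfl fun B _ => ?_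
    rw [Nat.gcd_one_left, Nat.cast_one, mul_one_div]
  rw [h1, lcf_gcd hgood hgood (lb Q R) (lb Q R) le_rfl]
  have h2 := selU Q R R (fun _ => (GG Q R)⁻¹) (fun _ => (GG Q R)⁻¹) (b := 1) squarefree_one (Nat.coprime_one_left Q)
  have h3 : ((1 : ℕ) : ℝ) * ∑ d ∈ sq Q R, ∑ d' ∈ sq Q R, lb Q R d * lb Q R d' / (Nat.lcm 1 (Nat.lcm d d') : ℝ) =
      ((1 : ℕ) : ℝ) * ∑ d ∈ sq Q R, ∑ d' ∈ sq Q R, lam Q R (fun _ => (GG Q R)⁻¹) d * lam Q R (fun _ => (GG Q R)⁻¹) d' / (Nat.lcm 1 (Nat.lcm d d') : ℝ) := rfl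
  rw [h3, h2]
  have h4 : (sq Q R).filter (fun r => Nat.Coprime r 1) = sq Q R :=
    filter_true_of_mem (fun r _ => Nat.coprime_one_right r)
  rw [h4]
  have h5 : ∀ r ∈ sq Q R, Yb Q R (fun _ => (GG Q R)⁻¹) 1 r * Yb Q R (fun _ => (GG Q R)⁻¹) 1 r / (Nat.totient r : ℝ) =
      ((GG Q R)⁻¹) ^ 2 * (1 / (Nat.totient r : ℝ)) := by
    intro r hr
    have h6 : Yb Q R (fun _ => (GG Q R)⁻¹) 1 r = (GG Q R)⁻¹ := by
      unfold Yb
      rw [Nat.divisors_one, sum_singleton, mul_one, if_pos hr]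
      simp
    rw [h6]
    ring
  rw [sum_congr rfl h5, ← mul_sum]
  change ((GG Q R)⁻¹) ^ 2 * GG Q R = 1 / GG Q R
  field_simp

theorem fB_ctrl {Q R : ℕ} (hR : 1 ≤ R) {Γ : ℝ} (hΓ : 1 ≤ Γ) : Ctrl 10 (10 * Γ) 1 (DB Q R) (fB Q R) := by
  have h7 := ctrl_of_U (Q := Q) (D := DB Q R) (fB_good Q R) (f := fB Q R)
      (a := 10 * Γ) (c := 4) (by linarith) (by norm_num) 1 ?_
  · have h8 : (2 * (1 + 4) : ℝ) = 10 := by norm_num
    rw [h8] at h7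
    exact h7
  · intro e he hecop
    have h9 := selB Q R R (fun _ => (GG Q R)⁻¹) (fun _ => (GG Q R)⁻¹)
      (N := 1) (N' := 1) (fun c _ => Qfb_N Q R hR c) (fun c _ => Qfb_N Q R hR c) he hecop
    rw [one_mul, Real.sqrt_one, mul_one] at h9
    have h11 : ∑ B ∈ DB Q R, fB Q R B * ((Nat.gcd e B : ℝ) / B) =
        ∑ B ∈ lcD (sq Q R) (sq Q R), lcf (sq Q R) (sq Q R)
          (lam Q R (fun _ => (GG Q R)⁻¹)) (lam Q R (fun _ => (GG Q R)⁻¹)) B * ((Nat.gcd e B : ℝ) / B) := rfl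
    rw [h11]
    refine h9.trans ?_
    rw [Nat.gcd_one_right, Nat.cast_one, mul_one]
    have h12 : (0 : ℝ) ≤ 4 ^ e.primeFactors.card := by positivity
    nlinarith

theorem fB_sum {Q R : ℕ} (hR : 1 ≤ R) {Γ : ℝ} (h : GG Q R ≤ Γ) : ∑ B ∈ DB Q R, |fB Q R B| / (B : ℝ) ≤ Γ ^ 3 := by
  have h1 : ∑ B ∈ DB Q R, |fB Q R B| / (B : ℝ) ≤
      ∑ B ∈ lcD (sq Q R) (sq Q R), lcf (sq Q R) (sq Q R) (fun d => |lb Q R d|) (fun d => |lb Q R d|) B * (1 / (B : ℝ)) := by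
    unfold DB fB
    refine sum_le_sum fun B _ => ?_
    rw [mul_one_div]
    refine div_le_div_of_nonneg_right ?_ (Nat.cast_nonneg B)
    unfold lcf
    refine (abs_sum_le_sum_abs _ _).trans (le_of_eq ?_)
    refine sum_congr rfl fun p _ => ?_
    rw [abs_mul]
  rw [lcf_sum (h := fun B => 1 / (B : ℝ))] at h1
  have h2 : ∑ d ∈ sq Q R, ∑ d' ∈ sq Q R, |lb Q R d| * |lb Q R d'| * (1 / (Nat.lcm d d' : ℝ)) ≤
      ∑ d ∈ sq Q R, ∑ d' ∈ sq Q R, 1 / (Nat.lcm d d' : ℝ) := by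
    refine sum_le_sum fun d _ => sum_le_sum fun d' _ => ?_
    have h3 : |lb Q R d| * |lb Q R d'| ≤ 1 := mul_le_one₀ (Qfb_lb hR d) (abs_nonneg _) (Qfb_lb hR d')
    exact mul_le_of_le_one_left (by positivity) h3
  have h4 : 0 ≤ ∑ g ∈ sq Q R, 1 / (g : ℝ) := sum_nonneg fun g _ => by positivity
  exact h1.trans (h2.trans ((Qfb_lcm Q R).trans (pow_le_pow_left₀ h4 ((Qfb_inv Q R).trans h) 3)))

theorem fB_abs {Q R : ℕ} (hR : 1 ≤ R) : ∑ B ∈ DB Q R, |fB Q R B| ≤ (R : ℝ) ^ 2 := by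
  have h1 := lcf_abs (sq Q R) (sq Q R) (lb Q R) (lb Q R)
  have h2 : ∑ d ∈ sq Q R, |lb Q R d| ≤ (R : ℝ) := by
    calc ∑ d ∈ sq Q R, |lb Q R d| ≤ ∑ _d ∈ sq Q R, (1 : ℝ) := sum_le_sum fun d _ => Qfb_lb hR d
      _ = ((sq Q R).card : ℝ) := by simp
      _ ≤ (R : ℝ) := by
        have h3 : (sq Q R).card ≤ (Icc 1 R).card := card_le_card (filter_subset _ _)
        rw [Nat.card_Icc] at h3
        exact_mod_cast (by omega : (sq Q R).card ≤ R)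
  have h0 : 0 ≤ ∑ d ∈ sq Q R, |lb Q R d| := sum_nonneg fun d _ => abs_nonneg _
  refine h1.trans ?_
  rw [pow_two]
  exact mul_le_mul h2 h2 h0 (Nat.cast_nonneg R)

end H69PG

end S_H69_PG_Qfb
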