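import Mathlib
import Pool.Agent.H69.PGM.A
import Pool.Agent.H69.PGM.B
import Pool.Agent.H69.PGM.C
import Pool.Agent.H69.PGM.D

/-! Positive proportion of long prime-free intervals, part E: this file joins several modules to save build time. -/

section S_H69_PG_Sys

/-!
# The assumptions on the parameters
-/

open Finset EG

namespace H69PG

/-- the parameters and their relations -/
structure Sys {ι : Type} [Fintype ι] [DecidableEq ι] (C N m M K z Q0 T R b0 : ℕ) (Z : ℕ → ℕ) (v f0 : ℕ → ℝ) (l Γ Pl η : ℝ)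
    (c : ι → ℕ) : Prop where
  fm : Fm K Q0 c
  N_pos : 1 ≤ N
  hK : 8 * N + 8 ≤ K
  hKz : K ≤ z
  hCz : C ≤ z
  hCb : C ≤ b0
  Z0 : Z 0 = 1
  Zm : Monotone Z
  ZM : ∀ a ≤ m, Z a ≤ z ^ M
  RM : R ≤ z ^ M
  R_pos : 1 ≤ R
  hM : 2 * M ≤ z
  T_pos : 1 ≤ T
  Γ_one : 1 ≤ Γ
  ΓZ : ∀ a ≤ m, GG (primorial z) (Z a) ≤ Γ
  ΓR : GG (primorial z) R ≤ Γ
  f0_le : ∀ a, |f0 a| ≤ 1
  Pl_one : 1 ≤ Pl
  hPl : ∀ n ∈ Cf ι m N v l, ∏ i, (Z (n i) : ℝ) ≤ Pl
  hη : Real.exp (-(b0 : ℝ)) * (4 * Γ ^ 5) ^ (2 * N + 1) + C / Real.sqrt z * (10 * Γ) ^ (2 * N + 1) +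
    (z : ℝ) ^ (3 * (4 * b0 + 10)) * (4 * Γ ^ 2) ^ (2 * N + 1) * (Pl ^ 2 * (R : ℝ) ^ 2) / (T * VV K z (2 * N + 1)) ≤ η
  hη4 : Real.exp (-(b0 : ℝ)) + C / Real.sqrt z + (z : ℝ) ^ (3 * (4 * b0 + 10)) / (T * VV K z (4 * N)) ≤ 1

end H69PG

end S_H69_PG_Sys

section S_H69_PG_H1v

/-!
# H1V: the first hypothesis of the abstract theorem

`C` is the constant of `elu` for `J0 = 4 N + 2`. Let `U = sp n ∪ sp n'`, `|U| ≤ 2N`. Outside `U` both factors are `1` (`gA` with `a = 0`). For `i ∈ U`: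
`gA(n_i) gA(n'_i) = e_i th0(L) Fn (DAB (n_i) (n'_i)) (fAB (n_i) (n'_i)) (L)` with `e_i = ff(n_i) ff(n'_i)`, `ff 0 = 1`, `ff a = - f0 a` (`th0² = th0`; `Fn (sq Q (Z a)) (lamA a) * Fn (sq Q (Z a')) (lamA a') = Fn DAB fAB` by
`fn_mul`; `Fn (sq Q 1) (lamA 0) L = lamA 0 1 = 1`, `sq Q (Z 0) = {1}`). Pull out `∏ e_i`, `|e_i| ≤ 1`. `elu` with `Γc = 10 Γ`, `A1 = 4 Γ^5`, `A2 i = 4 Γ² Z(n_i) Z(n'_i)` (`fAB_ctrl`, `fAB_sum`, `fAB_abs`,
`fAB_good`). Main term: `T VV_|U| ∏_{i ∈ U} e_i SS(..)`, by `fAB_one` it is `0` if `n ≠ n'` (some `i` with `n_i ≠ n'_i` is in `U`) and for `n = n'` it is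
`T VV_|sp n| ∏_{i ∈ sp n} f0(n_i)² wA(n_i) = T ms(n)` (`sA 0 = 1`; `Vf = VV` as `|U| ≤ 4N+2`).
Error: `T VV_j (e^(-b0) (4Γ^5)^j + C/√z (10Γ)^j) + z^(..) (4Γ²)^j ∏ Z(n_i) Z(n'_i)`, `j = |U| ≤ 2N`, `∏_{i ∈ U} Z(n_i) = ∏_i Z(n_i) ≤ Pl` (`Z 0 = 1`), and `VV_j ≥ VV_{2N+1}` (`vv_anti`), `R ≥ 1`: at most
`T VV_j η` by `hη`.
-/

open Finset EG

namespace H69PG

/-- the sign factor -/
noncomputable def H1v_ff (f0 : ℕ → ℝ) (a : ℕ) : ℝ := if a = 0 then 1 else - f0 a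

theorem H1v_ff_le {f0 : ℕ → ℝ} (h : ∀ a, |f0 a| ≤ 1) (a : ℕ) : |H1v_ff f0 a| ≤ 1 := by
  unfold H1v_ff
  split_ifs
  · simp
  · rw [abs_neg]
    exact h a

theorem H1v_sq_one (Q : ℕ) : sq Q 1 = {1} := by
  ext r
  simp only [EG.sq, Finset.mem_filter, Finset.mem_Icc, Finset.mem_singleton]
  constructor
  · rintro ⟨h, -⟩
    omega
  · rintro rfl
    simp

theorem H1v_Fn_zero {Z : ℕ → ℕ} (Q : ℕ) (hZ0 : Z 0 = 1) (hZ : Monotone Z) (L : ℕ) :
    Fn (sq Q (Z 0)) (lamA Z Q 0) L = 1 := by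
  unfold Fn
  rw [hZ0, H1v_sq_one, Finset.filter_singleton, if_pos (one_dvd L), Finset.sum_singleton, lamA_one Q hZ0 hZ]
  simp [wA]

theorem H1v_fac {ι : Type} {K z Q0 : ℕ} {Z : ℕ → ℕ} {f0 : ℕ → ℝ} (hZ0 : Z 0 = 1) (hZ : Monotone Z) (c : ι → ℕ) (i : ι)
    (a a' t : ℕ) (h : a ≠ 0 ∨ a' ≠ 0) :
    gA K z Q0 Z f0 c i a t * gA K z Q0 Z f0 c i a' t =
      (H1v_ff f0 a * H1v_ff f0 a') * (th0 K z (Q0 * t + c i) *
        Fn (DAB Z (primorial z) a a') (fAB Z (primorial z) a a') (Q0 * t + c i)) := by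
  have hth : th0 K z (Q0 * t + c i) * th0 K z (Q0 * t + c i) = th0 K z (Q0 * t + c i) := by
    unfold th0
    split_ifs <;> simp
  unfold DAB fAB
  rw [← fn_mul]
  by_cases ha : a = 0
  · have ha' : a' ≠ 0 := by tauto
    subst ha
    rw [H1v_Fn_zero (primorial z) hZ0 hZ]
    unfold gA H1v_ff
    rw [if_pos rfl, if_pos rfl, if_neg ha', if_neg ha']
    ring
  · by_cases ha' : a' = 0
    · subst ha'
      rw [H1v_Fn_zero (primorial z) hZ0 hZ]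
      unfold gA H1v_ff
      rw [if_neg ha, if_neg ha, if_pos rfl, if_pos rfl]
      ring
    · unfold gA H1v_ff
      rw [if_neg ha, if_neg ha, if_neg ha', if_neg ha']
      linear_combination (f0 a * f0 a' * Fn (sq (primorial z) (Z a)) (lamA Z (primorial z) a) (Q0 * t + c i) *
        Fn (sq (primorial z) (Z a')) (lamA Z (primorial z) a') (Q0 * t + c i)) * hth

theorem H1v_mem_sp {ι : Type} [Fintype ι] [DecidableEq ι] {m : ℕ} (n : ι → Fin (m + 1)) (i : ι) :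
    i ∈ sp n ↔ (n i : ℕ) ≠ 0 := by
  unfold sp
  rw [Finset.mem_filter]
  constructor
  · rintro ⟨-, h⟩ h0
    exact h (Fin.ext h0)
  · intro h
    refine ⟨Finset.mem_univ i, fun h0 => h ?_⟩
    rw [h0]
    rfl

theorem h1v (N : ℕ) : ∃ C1 : ℕ, ∀ (ι : Type) [Fintype ι] [DecidableEq ι] (C m M K z Q0 T R b0 : ℕ) (Z : ℕ → ℕ) (v f0 : ℕ → ℝ)
    (l Γ Pl η : ℝ) (c : ι → ℕ), C1 ≤ C → Sys C N m M K z Q0 T R b0 Z v f0 l Γ Pl η c →
    ∀ n ∈ Cf ι m N v l, ∀ n' ∈ Cf ι m N v l,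
      |∑ t ∈ range T, ∏ i, (gA K z Q0 Z f0 c i (n i) t * gA K z Q0 Z f0 c i (n' i) t) -
          ((range T).card : ℝ) * (if n = n' then ms (Vf N K z) (sA Z (primorial z) f0) n else 0)| ≤
        ((range T).card : ℝ) * (η * Vf N K z (sp n ∪ sp n')) := by
  obtain ⟨C0, hC01, helu⟩ := elu (4 * N + 2)
  refine ⟨C0, ?_⟩
  intro ι _ _ C m M K z Q0 T R b0 Z v f0 l Γ Pl η c hC S n hn n' hn'
  set U : Finset ι := sp n ∪ sp n' with hU
  have hK2 : 2 ≤ K := by have := S.hK; omega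
  have hz1 : 1 ≤ z := by have := S.hKz; omega
  have hz0 : (0 : ℝ) < z := by exact_mod_cast hz1
  have hcn : (sp n).card ≤ N := ((Finset.mem_filter.1 hn).2).1
  have hcn' : (sp n').card ≤ N := ((Finset.mem_filter.1 hn').2).1
  have hUc : U.card ≤ 2 * N := by
    have h1 : U.card ≤ (sp n).card + (sp n').card := Finset.card_union_le (sp n) (sp n')
    omega
  have hmU : ∀ i, i ∈ U ↔ ((n i : ℕ) ≠ 0 ∨ (n' i : ℕ) ≠ 0) := by
    intro i
    rw [hU, Finset.mem_union, H1v_mem_sp, H1v_mem_sp]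
  have hΓ0 : (0 : ℝ) ≤ Γ := le_trans zero_le_one S.Γ_one
  have hle : ∀ i, (n i : ℕ) ≤ m := fun i => Nat.lt_succ_iff.1 (n i).2
  have hle' : ∀ i, (n' i : ℕ) ≤ m := fun i => Nat.lt_succ_iff.1 (n' i).2
  have main := helu b0 (hC.trans S.hCb) ι K z Q0 (by have := S.hK; omega) hK2 S.hKz (hC.trans S.hCz) c S.fm T U (by omega)
    (fun i => DAB Z (primorial z) (n i) (n' i)) (fun i => fAB Z (primorial z) (n i) (n' i)) (fun _ => 10 * Γ)
    (fun _ => 4 * Γ ^ 5) (fun i => 4 * Γ ^ 2 * ((Z (n i) : ℝ) * Z (n' i)))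
    (fun i _ => fAB_good Z _ _ _) (fun i _ => by positivity)
    (fun i _ => fAB_ctrl (S.ΓZ _ (hle i)) (S.ΓZ _ (hle' i)) hΓ0)
    (fun i _ => fAB_sum hz1 (S.ZM _ (hle i)) (S.ZM _ (hle' i)) S.hM (S.ΓZ _ (hle i)) (S.ΓZ _ (hle' i)))
    (fun i _ => fAB_abs hz1 (S.ZM _ (hle i)) (S.ZM _ (hle' i)) S.hM (S.ΓZ _ (hle i)) (S.ΓZ _ (hle' i)))
  simp only [Finset.prod_const] at main
  set e : ι → ℝ := fun i => H1v_ff f0 (n i) * H1v_ff f0 (n' i) with he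
  have hsum : ∑ t ∈ range T, ∏ i, (gA K z Q0 Z f0 c i (n i) t * gA K z Q0 Z f0 c i (n' i) t) =
      (∏ i ∈ U, e i) * ∑ t ∈ range T, ∏ i ∈ U, (th0 K z (Q0 * t + c i) *
        Fn (DAB Z (primorial z) (n i) (n' i)) (fAB Z (primorial z) (n i) (n' i)) (Q0 * t + c i)) := by
    rw [Finset.mul_sum]
    refine Finset.sum_congr rfl fun t _ => ?_
    rw [← Finset.prod_mul_distrib]
    have h1 : ∏ i, (gA K z Q0 Z f0 c i (n i) t * gA K z Q0 Z f0 c i (n' i) t) =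
        ∏ i ∈ U, (gA K z Q0 Z f0 c i (n i) t * gA K z Q0 Z f0 c i (n' i) t) := by
      symm
      refine Finset.prod_subset (Finset.subset_univ U) fun i _ hi => ?_
      rw [hmU, not_or, not_not, not_not] at hi
      rw [hi.1, hi.2]
      simp [gA]
    rw [h1]
    refine Finset.prod_congr rfl fun i hi => ?_
    exact H1v_fac S.Z0 S.Zm c i (n i) (n' i) t ((hmU i).1 hi)
  set A : ℝ := ∑ t ∈ range T, ∏ i ∈ U, (th0 K z (Q0 * t + c i) *
        Fn (DAB Z (primorial z) (n i) (n' i)) (fAB Z (primorial z) (n i) (n' i)) (Q0 * t + c i)) with hA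
  have hVf : Vf N K z U = VV K z U.card := by
    unfold Vf
    rw [if_pos (by omega)]
  have hmain : (T : ℝ) * (if n = n' then ms (Vf N K z) (sA Z (primorial z) f0) n else 0) =
      (∏ i ∈ U, e i) * ((T : ℝ) * VV K z U.card *
        ∏ i ∈ U, SS (DAB Z (primorial z) (n i) (n' i)) (fAB Z (primorial z) (n i) (n' i)) 1) := by
    by_cases hnn : n = n'
    · rw [if_pos hnn]
      have hUn : U = sp n := by rw [hU, ← hnn, Finset.union_self]
      have h1 : ms (Vf N K z) (sA Z (primorial z) f0) n = VV K z U.card * ∏ i ∈ U, sA Z (primorial z) f0 (n i) := by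
        unfold ms
        rw [← hUn, hVf]
        congr 1
        symm
        refine Finset.prod_subset (Finset.subset_univ U) fun i _ hi => ?_
        rw [hmU, not_or, not_not, not_not] at hi
        rw [hi.1]
        simp [sA]
      rw [h1]
      have h2 : ∏ i ∈ U, sA Z (primorial z) f0 (n i) = (∏ i ∈ U, e i) *
          ∏ i ∈ U, SS (DAB Z (primorial z) (n i) (n' i)) (fAB Z (primorial z) (n i) (n' i)) 1 := by
        rw [← Finset.prod_mul_distrib]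
        refine Finset.prod_congr rfl fun i hi => ?_
        have h3 : (n i : ℕ) ≠ 0 := by
          have := (hmU i).1 hi
          rw [← hnn] at this
          tauto
        rw [fAB_one (primorial z) S.Z0 S.Zm, ← hnn, if_pos rfl, he]
        simp only
        rw [← hnn]
        unfold H1v_ff sA
        rw [if_neg h3, if_neg h3]
        ring
      rw [h2]
      ring
    · rw [if_neg hnn, mul_zero]
      obtain ⟨i, hi⟩ : ∃ i, n i ≠ n' i := by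
        by_contra hcon
        push Not at hcon
        exact hnn (funext hcon)
      have hi' : (n i : ℕ) ≠ (n' i : ℕ) := fun h => hi (Fin.ext h)
      have hiU : i ∈ U := by
        rw [hmU]
        by_contra hcon
        rw [not_or, not_not, not_not] at hcon
        exact hi' (hcon.1.trans hcon.2.symm)
      have h0 : ∏ i ∈ U, SS (DAB Z (primorial z) (n i) (n' i)) (fAB Z (primorial z) (n i) (n' i)) 1 = 0 := by
        refine Finset.prod_eq_zero hiU ?_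
        rw [fAB_one (primorial z) S.Z0 S.Zm, if_neg hi']
      rw [h0]
      ring
  rw [Finset.card_range, hsum, hmain, ← mul_sub, abs_mul, hVf]
  have hE : |∏ i ∈ U, e i| ≤ 1 := by
    rw [Finset.abs_prod]
    refine Finset.prod_le_one (fun i _ => abs_nonneg _) fun i _ => ?_
    rw [he]
    simp only
    rw [abs_mul]
    exact mul_le_one₀ (H1v_ff_le S.f0_le _) (abs_nonneg _) (H1v_ff_le S.f0_le _)
  refine (mul_le_of_le_one_left (abs_nonneg _) hE).trans (main.trans ?_)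
  -- the error
  have hVpos : 0 < VV K z (2 * N + 1) := vv_pos (by have := S.hK; omega)
  have hVle : VV K z (2 * N + 1) ≤ VV K z U.card := vv_anti (by omega) (by have := S.hK; omega)
  have hV0 : 0 < VV K z U.card := lt_of_lt_of_le hVpos hVle
  have hT1 : (1 : ℝ) ≤ T := by exact_mod_cast S.T_pos
  have hT0 : (0 : ℝ) < T := lt_of_lt_of_le zero_lt_one hT1
  have hR1 : (1 : ℝ) ≤ (R : ℝ) ^ 2 := one_le_pow₀ (by exact_mod_cast S.R_pos)
  have hj : U.card ≤ 2 * N + 1 := by omega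
  have hΓ1 := S.Γ_one
  have p1 : (4 * Γ ^ 5) ^ U.card ≤ (4 * Γ ^ 5) ^ (2 * N + 1) := by
    refine pow_le_pow_right₀ ?_ hj
    have : (1 : ℝ) ≤ Γ ^ 5 := one_le_pow₀ hΓ1
    linarith
  have p2 : (10 * Γ) ^ U.card ≤ (10 * Γ) ^ (2 * N + 1) := by
    refine pow_le_pow_right₀ ?_ hj
    linarith
  have p3 : (4 * Γ ^ 2) ^ U.card ≤ (4 * Γ ^ 2) ^ (2 * N + 1) := by
    refine pow_le_pow_right₀ ?_ hj
    have : (1 : ℝ) ≤ Γ ^ 2 := one_le_pow₀ hΓ1
    linarith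
  have hsq : 0 < Real.sqrt z := Real.sqrt_pos.2 hz0
  have hC' : (C0 : ℝ) / Real.sqrt z ≤ (C : ℝ) / Real.sqrt z := by
    have : (C0 : ℝ) ≤ C := by exact_mod_cast hC
    gcongr
  have hprodZ : ∏ i ∈ U, (4 * Γ ^ 2 * ((Z (n i) : ℝ) * Z (n' i))) = (4 * Γ ^ 2) ^ U.card * ((∏ i, (Z (n i) : ℝ)) * ∏ i, (Z (n' i) : ℝ)) := by
    rw [Finset.prod_mul_distrib, Finset.prod_const]
    congr 1
    rw [← Finset.prod_mul_distrib]
    refine Finset.prod_subset (Finset.subset_univ U) fun i _ hi => ?_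
    rw [hmU, not_or, not_not, not_not] at hi
    rw [hi.1, hi.2, S.Z0]
    simp
  have hPl : (∏ i, (Z (n i) : ℝ)) * ∏ i, (Z (n' i) : ℝ) ≤ Pl ^ 2 := by
    rw [_root_.sq]
    exact mul_le_mul (S.hPl n hn) (S.hPl n' hn') (Finset.prod_nonneg fun i _ => Nat.cast_nonneg _)
      (le_trans zero_le_one S.Pl_one)
  have hprod0 : 0 ≤ (∏ i, (Z (n i) : ℝ)) * ∏ i, (Z (n' i) : ℝ) :=
    mul_nonneg (Finset.prod_nonneg fun i _ => Nat.cast_nonneg _) (Finset.prod_nonneg fun i _ => Nat.cast_nonneg _)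
  rw [hprodZ]
  set E0 : ℝ := Real.exp (-(b0 : ℝ)) with hE0
  have hE00 : 0 ≤ E0 := (Real.exp_pos _).le
  set W : ℝ := (z : ℝ) ^ (3 * (4 * b0 + 10)) with hW
  have hW0 : 0 ≤ W := by positivity
  set G : ℝ := (4 * Γ ^ 2) ^ (2 * N + 1) with hG
  have hG0 : 0 ≤ G := by positivity
  have hη := S.hη
  have q1 : (T : ℝ) * VV K z U.card * (E0 * (4 * Γ ^ 5) ^ U.card + (C0 : ℝ) / Real.sqrt z * (10 * Γ) ^ U.card) ≤
      (T : ℝ) * VV K z U.card * (E0 * (4 * Γ ^ 5) ^ (2 * N + 1) + (C : ℝ) / Real.sqrt z * (10 * Γ) ^ (2 * N + 1)) := by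
    have : 0 ≤ (T : ℝ) * VV K z U.card := (mul_pos hT0 hV0).le
    gcongr
  have q2 : W * ((4 * Γ ^ 2) ^ U.card * ((∏ i, (Z (n i) : ℝ)) * ∏ i, (Z (n' i) : ℝ))) ≤ W * (G * (Pl ^ 2 * (R : ℝ) ^ 2)) := by
    refine mul_le_mul_of_nonneg_left ?_ hW0
    refine mul_le_mul p3 (hPl.trans ?_) hprod0 hG0
    exact le_mul_of_one_le_right (by positivity) hR1
  have q3 : W * (G * (Pl ^ 2 * (R : ℝ) ^ 2)) ≤ (T : ℝ) * VV K z U.card * (W * G * (Pl ^ 2 * (R : ℝ) ^ 2) / (T * VV K z (2 * N + 1))) := by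
    have hTV : 0 < (T : ℝ) * VV K z (2 * N + 1) := mul_pos hT0 hVpos
    rw [mul_div_assoc', le_div_iff₀ hTV]
    have : (T : ℝ) * VV K z (2 * N + 1) ≤ (T : ℝ) * VV K z U.card := mul_le_mul_of_nonneg_left hVle hT0.le
    have h5 : 0 ≤ W * (G * (Pl ^ 2 * (R : ℝ) ^ 2)) := by positivity
    calc W * (G * (Pl ^ 2 * (R : ℝ) ^ 2)) * ((T : ℝ) * VV K z (2 * N + 1)) ≤
        W * (G * (Pl ^ 2 * (R : ℝ) ^ 2)) * ((T : ℝ) * VV K z U.card) := mul_le_mul_of_nonneg_left this h5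
      _ = _ := by ring
  calc (T : ℝ) * VV K z U.card * (E0 * (4 * Γ ^ 5) ^ U.card + (C0 : ℝ) / Real.sqrt z * (10 * Γ) ^ U.card) +
        W * ((4 * Γ ^ 2) ^ U.card * ((∏ i, (Z (n i) : ℝ)) * ∏ i, (Z (n' i) : ℝ)))
      ≤ (T : ℝ) * VV K z U.card * (E0 * (4 * Γ ^ 5) ^ (2 * N + 1) + (C : ℝ) / Real.sqrt z * (10 * Γ) ^ (2 * N + 1)) +
        (T : ℝ) * VV K z U.card * (W * G * (Pl ^ 2 * (R : ℝ) ^ 2) / (T * VV K z (2 * N + 1))) :=
        add_le_add q1 (q2.trans q3)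
    _ = (T : ℝ) * VV K z U.card * (E0 * (4 * Γ ^ 5) ^ (2 * N + 1) + (C : ℝ) / Real.sqrt z * (10 * Γ) ^ (2 * N + 1) +
        W * G * (Pl ^ 2 * (R : ℝ) ^ 2) / (T * VV K z (2 * N + 1))) := by ring
    _ ≤ (T : ℝ) * VV K z U.card * η := mul_le_mul_of_nonneg_left hη (mul_pos hT0 hV0).le
    _ = (T : ℝ) * (η * VV K z U.card) := by ring

end H69PG

end S_H69_PG_H1v

section S_H69_PG_H2v

/-!
# H2V: the second hypothesis of the abstract theorem

As in `H1v.lean`, with the set `U = insert k (sp n ∪ sp n')`, `k ∉ sp n ∪ sp n'`, `|U| ≤ 2N + 1`; at the coordinate `k` the factor is `bA = th0 * be = th0 * Fn (DB Q R) (fB Q R)` (`fB_be`), with `Γc = 10 Γ`,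
`A1 = Γ³ ≤ 4 Γ^5`, `A2 = R²` (`fB_ctrl`, `fB_sum`, `fB_abs`, `fB_good`) and `SS = 1/GG Q R` (`fB_one`). Main term for `n = n'`: `T VV_|insert k (sp n)| (1/GG) ∏_{i ∈ sp n} s(n_i)`. Error:
`T VV_j (e^(-b0) (4Γ^5)^j + C/√z (10Γ)^j) + z^(..) (4Γ²)^(j-1) R² ∏ Z(n_i) Z(n'_i)`, `j = |U| ≤ 2N + 1`.
-/

open Finset EG

namespace H69PG

/-- signs -/
noncomputable def H2v_ff (f0 : ℕ → ℝ) (a : ℕ) : ℝ := if a = 0 then 1 else - f0 a

theorem H2v_ff_abs {f0 : ℕ → ℝ} (h : ∀ a, |f0 a| ≤ 1) (a : ℕ) : |H2v_ff f0 a| ≤ 1 := by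
  unfold H2v_ff
  split_ifs
  · simp
  · rw [abs_neg]; exact h a

theorem H2v_th0_sq (K z L : ℕ) : th0 K z L * th0 K z L = th0 K z L := by
  unfold th0
  split_ifs <;> simp

theorem H2v_th0_abs (K z L : ℕ) : |th0 K z L| ≤ 1 := by
  unfold th0
  split_ifs <;> simp

theorem H2v_sq_one (Q : ℕ) : EG.sq Q 1 = {1} := by
  unfold EG.sq
  ext r
  simp only [Finset.mem_filter, Finset.mem_Icc, Finset.mem_singleton]
  constructor
  · rintro ⟨⟨h1, h2⟩, -⟩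
    omega
  · rintro rfl
    exact ⟨⟨le_refl _, le_refl _⟩, squarefree_one, Nat.coprime_one_left _⟩

theorem H2v_Fn_zero {Z : ℕ → ℕ} (Q : ℕ) (hZ0 : Z 0 = 1) (hZ : Monotone Z) (L : ℕ) :
    Fn (EG.sq Q (Z 0)) (lamA Z Q 0) L = 1 := by
  rw [hZ0, H2v_sq_one]
  unfold Fn
  rw [Finset.filter_singleton, if_pos (one_dvd L), Finset.sum_singleton, lamA_one Q hZ0 hZ]
  unfold wA
  simp

theorem H2v_prod {ι : Type} {K z Q0 : ℕ} {Z : ℕ → ℕ} {f0 : ℕ → ℝ} {c : ι → ℕ} (hZ0 : Z 0 = 1) (hZ : Monotone Z)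
    (i : ι) (a a' t : ℕ) (h : ¬ (a = 0 ∧ a' = 0)) :
    gA K z Q0 Z f0 c i a t * gA K z Q0 Z f0 c i a' t = H2v_ff f0 a * H2v_ff f0 a' *
      (th0 K z (Q0 * t + c i) * Fn (DAB Z (primorial z) a a') (fAB Z (primorial z) a a') (Q0 * t + c i)) := by
  have h1 : Fn (DAB Z (primorial z) a a') (fAB Z (primorial z) a a') (Q0 * t + c i) =
      Fn (sq (primorial z) (Z a)) (lamA Z (primorial z) a) (Q0 * t + c i) *
        Fn (sq (primorial z) (Z a')) (lamA Z (primorial z) a') (Q0 * t + c i) := by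
    rw [fn_mul]; rfl
  rw [h1]
  unfold gA H2v_ff
  by_cases ha : a = 0
  · by_cases ha' : a' = 0
    · exact absurd ⟨ha, ha'⟩ h
    · subst ha
      rw [if_pos rfl, if_pos rfl, if_neg ha', if_neg ha', H2v_Fn_zero _ hZ0 hZ]
      ring
  · by_cases ha' : a' = 0
    · subst ha'
      rw [if_pos rfl, if_pos rfl, if_neg ha, if_neg ha, H2v_Fn_zero _ hZ0 hZ]
      ring
    · rw [if_neg ha, if_neg ha, if_neg ha', if_neg ha']
      have h2 := H2v_th0_sq K z (Q0 * t + c i)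
      set θ := th0 K z (Q0 * t + c i)
      set x := Fn (sq (primorial z) (Z a)) (lamA Z (primorial z) a) (Q0 * t + c i)
      set y := Fn (sq (primorial z) (Z a')) (lamA Z (primorial z) a') (Q0 * t + c i)
      calc -f0 a * (θ * x) * (-f0 a' * (θ * y)) = f0 a * f0 a' * (θ * θ) * (x * y) := by ring
        _ = f0 a * f0 a' * θ * (x * y) := by rw [h2]
        _ = _ := by ring

theorem h2v (N : ℕ) : ∃ C1 : ℕ, ∀ (ι : Type) [Fintype ι] [DecidableEq ι] (C m M K z Q0 T R b0 : ℕ) (Z : ℕ → ℕ) (v f0 : ℕ → ℝ)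
    (l Γ Pl η : ℝ) (c : ι → ℕ), C1 ≤ C → Sys C N m M K z Q0 T R b0 Z v f0 l Γ Pl η c →
    ∀ k : ι, ∀ n ∈ Cf ι m N v l, ∀ n' ∈ Cf ι m N v l, n k = 0 → n' k = 0 →
      |∑ t ∈ range T, (∏ i, (gA K z Q0 Z f0 c i (n i) t * gA K z Q0 Z f0 c i (n' i) t)) * bA K z Q0 R c k t -
          ((range T).card : ℝ) * (if n = n' then 1 / GG (primorial z) R *
            (Vf N K z (insert k (sp n)) * ∏ i, sA Z (primorial z) f0 (n i)) else 0)| ≤
        ((range T).card : ℝ) * (η * Vf N K z (insert k (sp n ∪ sp n'))) := by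
  classical
  obtain ⟨Ce, hCe1, hCe⟩ := elu (4 * N + 2)
  refine ⟨Ce, ?_⟩
  intro ι _ _ C m M K z Q0 T R b0 Z v f0 l Γ Pl η c hC h k n hn n' hn' hk hk'
  have hcn := (Finset.mem_filter.1 hn).2.1
  have hcn' := (Finset.mem_filter.1 hn').2.1
  have hK2 : 2 ≤ K := by have := h.hK; omega
  have hz1 : 1 ≤ z := by have := h.hKz; omega
  set Q := primorial z with hQ
  set U0 := sp n ∪ sp n' with hU0
  have hk0 : k ∉ U0 := by
    rw [hU0, Finset.mem_union]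
    simp [sp, hk, hk']
  have hout : ∀ i, i ∉ U0 → n i = 0 ∧ n' i = 0 := by
    intro i hi
    rw [hU0, Finset.mem_union] at hi
    simpa [sp] using hi
  have hin : ∀ i ∈ U0, ¬ (((n i : Fin (m + 1)) : ℕ) = 0 ∧ ((n' i : Fin (m + 1)) : ℕ) = 0) := by
    intro i hi hc
    rw [hU0, Finset.mem_union] at hi
    have h1 : n i = 0 := Fin.ext (by simpa using hc.1)
    have h2 : n' i = 0 := Fin.ext (by simpa using hc.2)
    rcases hi with hi | hi
    · simp [sp, h1] at hi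
    · simp [sp, h2] at hi
  have hU0c : U0.card ≤ 2 * N := (Finset.card_union_le _ _).trans (by omega)
  set U := insert k U0 with hU
  have hUc : U.card = U0.card + 1 := Finset.card_insert_of_notMem hk0
  have hUle : U.card ≤ 2 * N + 1 := by omega
  let D : ι → Finset ℕ := fun i => if i = k then DB Q R else DAB Z Q (n i) (n' i)
  let f : ι → ℕ → ℝ := fun i => if i = k then fB Q R else fAB Z Q (n i) (n' i)
  let A2 : ι → ℝ := fun i => if i = k then (R : ℝ) ^ 2 else 4 * Γ ^ 2 * ((Z (n i) : ℝ) * Z (n' i))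
  have hDk : D k = DB Q R := if_pos rfl
  have hfk : f k = fB Q R := if_pos rfl
  have hA2k : A2 k = (R : ℝ) ^ 2 := if_pos rfl
  have hne0 : ∀ i ∈ U0, i ≠ k := by
    rintro i hi rfl
    exact hk0 hi
  have hD0 : ∀ i ∈ U0, D i = DAB Z Q (n i) (n' i) := fun i hi => if_neg (hne0 i hi)
  have hf0 : ∀ i ∈ U0, f i = fAB Z Q (n i) (n' i) := fun i hi => if_neg (hne0 i hi)
  have hA20 : ∀ i ∈ U0, A2 i = 4 * Γ ^ 2 * ((Z (n i) : ℝ) * Z (n' i)) :=
    fun i hi => if_neg (hne0 i hi)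
  have hnm : ∀ i, ((n i : Fin (m + 1)) : ℕ) ≤ m := fun i => by have := (n i).2; omega
  have hnm' : ∀ i, ((n' i : Fin (m + 1)) : ℕ) ≤ m := fun i => by have := (n' i).2; omega
  have hΓ0 : 0 ≤ Γ := by linarith [h.Γ_one]
  have hΓ35 : Γ ^ 3 ≤ 4 * Γ ^ 5 := by
    have h1 : Γ ^ 3 ≤ Γ ^ 5 := pow_le_pow_right₀ h.Γ_one (by norm_num)
    have h2 : 0 ≤ Γ ^ 5 := by positivity
    linarith
  have hel := hCe b0 (hC.trans h.hCb) ι K z Q0 (by have := h.hK; omega) hK2 h.hKz (hC.trans h.hCz) c h.fm T U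
    (by omega) D f (fun _ => 10 * Γ) (fun _ => 4 * Γ ^ 5) A2
    (by
      intro i hi
      rcases Finset.mem_insert.1 hi with rfl | hi
      · rw [hDk]; exact fB_good _ _
      · rw [hD0 i hi]; exact fAB_good _ _ _ _)
    (fun i _ => by positivity)
    (by
      intro i hi
      rcases Finset.mem_insert.1 hi with rfl | hi
      · rw [hDk, hfk]; exact fB_ctrl h.R_pos h.Γ_one
      · rw [hD0 i hi, hf0 i hi]
        exact fAB_ctrl (h.ΓZ _ (hnm i)) (h.ΓZ _ (hnm' i)) hΓ0)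
    (by
      intro i hi
      rcases Finset.mem_insert.1 hi with rfl | hi
      · rw [hDk, hfk]; exact (fB_sum h.R_pos h.ΓR).trans hΓ35
      · rw [hD0 i hi, hf0 i hi]
        exact fAB_sum hz1 (h.ZM _ (hnm i)) (h.ZM _ (hnm' i)) h.hM (h.ΓZ _ (hnm i)) (h.ΓZ _ (hnm' i)))
    (by
      intro i hi
      rcases Finset.mem_insert.1 hi with rfl | hi
      · rw [hDk, hfk, hA2k]; exact fB_abs h.R_pos
      · rw [hD0 i hi, hf0 i hi, hA20 i hi]
        exact fAB_abs hz1 (h.ZM _ (hnm i)) (h.ZM _ (hnm' i)) h.hM (h.ΓZ _ (hnm i)) (h.ΓZ _ (hnm' i)))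
  -- the product formula
  set E : ℝ := ∏ i ∈ U0, (H2v_ff f0 (n i) * H2v_ff f0 (n' i)) with hE
  have hEabs : |E| ≤ 1 := by
    rw [hE, Finset.abs_prod]
    refine Finset.prod_le_one (fun i _ => abs_nonneg _) (fun i _ => ?_)
    rw [abs_mul]
    exact mul_le_one₀ (H2v_ff_abs h.f0_le _) (abs_nonneg _) (H2v_ff_abs h.f0_le _)
  have hpt : ∀ t, (∏ i, (gA K z Q0 Z f0 c i (n i) t * gA K z Q0 Z f0 c i (n' i) t)) * bA K z Q0 R c k t =
      E * ∏ i ∈ U, (th0 K z (Q0 * t + c i) * Fn (D i) (f i) (Q0 * t + c i)) := by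
    intro t
    have h1 : ∏ i, (gA K z Q0 Z f0 c i (n i) t * gA K z Q0 Z f0 c i (n' i) t) =
        ∏ i ∈ U0, (gA K z Q0 Z f0 c i (n i) t * gA K z Q0 Z f0 c i (n' i) t) := by
      symm
      refine Finset.prod_subset (Finset.subset_univ _) (fun i _ hi => ?_)
      obtain ⟨h2, h3⟩ := hout i hi
      rw [h2, h3]
      simp [gA]
    have h2 : bA K z Q0 R c k t = th0 K z (Q0 * t + c k) * Fn (D k) (f k) (Q0 * t + c k) := by
      rw [hDk, hfk, fB_be]; rfl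
    rw [h1, hU, Finset.prod_insert hk0, ← h2, hE]
    have h3 : ∏ i ∈ U0, (gA K z Q0 Z f0 c i (n i) t * gA K z Q0 Z f0 c i (n' i) t) =
        (∏ i ∈ U0, (H2v_ff f0 (n i) * H2v_ff f0 (n' i))) *
          ∏ i ∈ U0, (th0 K z (Q0 * t + c i) * Fn (D i) (f i) (Q0 * t + c i)) := by
      rw [← Finset.prod_mul_distrib]
      refine Finset.prod_congr rfl fun i hi => ?_
      rw [H2v_prod h.Z0 h.Zm i _ _ t (hin i hi), hD0 i hi, hf0 i hi]
    rw [h3]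
    ring
  simp_rw [hpt]
  rw [← Finset.mul_sum, Finset.card_range]
  set S := ∑ t ∈ range T, ∏ i ∈ U, (th0 K z (Q0 * t + c i) * Fn (D i) (f i) (Q0 * t + c i)) with hS
  set PS := ∏ i ∈ U, SS (D i) (f i) 1 with hPS
  have hPS1 : PS = 1 / GG Q R * ∏ i ∈ U0, (if ((n i : Fin (m + 1)) : ℕ) = ((n' i : Fin (m + 1)) : ℕ) then wA Z Q (n i) else 0) := by
    rw [hPS, hU, Finset.prod_insert hk0, hDk, hfk, fB_one h.R_pos]
    congr 1
    refine Finset.prod_congr rfl fun i hi => ?_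
    rw [hD0 i hi, hf0 i hi, fAB_one Q h.Z0 h.Zm]
  have hVfU : Vf N K z U = VV K z U.card := by
    unfold Vf
    rw [if_pos (by omega)]
  -- main term
  have hmain : (if n = n' then 1 / GG Q R * (Vf N K z (insert k (sp n)) * ∏ i, sA Z Q f0 (n i)) else 0) =
      VV K z U.card * (E * PS) := by
    by_cases hnn : n = n'
    · rw [if_pos hnn]
      have hUn : U0 = sp n := by rw [hU0, ← hnn, Finset.union_self]
      have hUn' : insert k (sp n) = U := by rw [hU, hUn]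
      rw [hUn', hVfU, hPS1, hE]
      have h1 : ∏ i, sA Z Q f0 (n i) = ∏ i ∈ U0, sA Z Q f0 (n i) := by
        symm
        refine Finset.prod_subset (Finset.subset_univ _) (fun i _ hi => ?_)
        rw [(hout i hi).1]
        simp [sA]
      have h2 : ∏ i ∈ U0, sA Z Q f0 (n i) = (∏ i ∈ U0, (H2v_ff f0 (n i) * H2v_ff f0 (n' i))) *
          ∏ i ∈ U0, (if ((n i : Fin (m + 1)) : ℕ) = ((n' i : Fin (m + 1)) : ℕ) then wA Z Q (n i) else 0) := by
        rw [← Finset.prod_mul_distrib]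
        refine Finset.prod_congr rfl fun i hi => ?_
        have h3 := hin i hi
        rw [← hnn] at h3 ⊢
        have h4 : ¬ ((n i : Fin (m + 1)) : ℕ) = 0 := fun e => h3 ⟨e, e⟩
        unfold sA H2v_ff
        rw [if_neg h4, if_neg h4, if_pos rfl]
        ring
      rw [h1, h2]
      ring
    · rw [if_neg hnn]
      obtain ⟨i, hi⟩ := Function.ne_iff.1 hnn
      have hiU : i ∈ U0 := by
        by_contra hcon
        obtain ⟨h2, h3⟩ := hout i hcon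
        exact hi (h2.trans h3.symm)
      have hz : ∏ i ∈ U0, (if ((n i : Fin (m + 1)) : ℕ) = ((n' i : Fin (m + 1)) : ℕ) then wA Z Q (n i) else 0) = 0 := by
        refine Finset.prod_eq_zero hiU ?_
        rw [if_neg (fun e => hi (Fin.ext e))]
      rw [hPS1, hz]
      ring
  rw [hmain]
  have hVpos : 0 < VV K z U.card := vv_pos (by have := h.hK; omega)
  have hVpos' : 0 < VV K z (2 * N + 1) := vv_pos (by have := h.hK; omega)
  have hVle : VV K z (2 * N + 1) ≤ VV K z U.card := vv_anti hUle (by have := h.hK; omega)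
  have hTpos : (0 : ℝ) < T := by exact_mod_cast h.T_pos
  have hzpos : (0 : ℝ) < z := by exact_mod_cast hz1
  have e1 : E * S - (T : ℝ) * (VV K z U.card * (E * PS)) = E * (S - (T : ℝ) * VV K z U.card * PS) := by ring
  rw [e1, abs_mul]
  have hstep : |E| * |S - (T : ℝ) * VV K z U.card * PS| ≤ 1 * |S - (T : ℝ) * VV K z U.card * PS| :=
    mul_le_mul_of_nonneg_right hEabs (abs_nonneg _)
  rw [one_mul] at hstep
  refine hstep.trans (hel.trans ?_)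
  rw [hVfU]
  have hb1 : ∏ i ∈ U, (4 * Γ ^ 5) ≤ (4 * Γ ^ 5) ^ (2 * N + 1) := by
    rw [Finset.prod_const]
    exact pow_le_pow_right₀ (by
      have : (1 : ℝ) ≤ Γ ^ 5 := one_le_pow₀ h.Γ_one
      linarith) hUle
  have hb2 : ∏ i ∈ U, (10 * Γ) ≤ (10 * Γ) ^ (2 * N + 1) := by
    rw [Finset.prod_const]
    exact pow_le_pow_right₀ (by linarith [h.Γ_one]) hUle
  have hZprod : ∀ q ∈ Cf ι m N v l, (∀ i, i ∉ U0 → q i = 0) → ∏ i ∈ U0, (Z (q i) : ℝ) ≤ Pl := by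
    intro q hq hq0
    have h1 : ∏ i ∈ U0, (Z (q i) : ℝ) = ∏ i, (Z (q i) : ℝ) := by
      refine Finset.prod_subset (Finset.subset_univ _) (fun i _ hi => ?_)
      rw [hq0 i hi]
      simp [h.Z0]
    rw [h1]
    exact h.hPl q hq
  have hb3 : ∏ i ∈ U, A2 i ≤ (4 * Γ ^ 2) ^ (2 * N + 1) * (Pl ^ 2 * (R : ℝ) ^ 2) := by
    have hsplit : ∏ i ∈ U0, (4 * Γ ^ 2 * ((Z (n i) : ℝ) * Z (n' i))) =
        (4 * Γ ^ 2) ^ U0.card * ((∏ i ∈ U0, (Z (n i) : ℝ)) * (∏ i ∈ U0, (Z (n' i) : ℝ))) := by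
      rw [← Finset.prod_const, ← Finset.prod_mul_distrib, ← Finset.prod_mul_distrib]
    rw [hU, Finset.prod_insert hk0, hA2k, Finset.prod_congr rfl hA20, hsplit]
    have h1 := hZprod n hn (fun i hi => (hout i hi).1)
    have h2 := hZprod n' hn' (fun i hi => (hout i hi).2)
    have h0 : (0 : ℝ) ≤ ∏ i ∈ U0, (Z (n i) : ℝ) := Finset.prod_nonneg fun i _ => Nat.cast_nonneg _
    have h0' : (0 : ℝ) ≤ ∏ i ∈ U0, (Z (n' i) : ℝ) := Finset.prod_nonneg fun i _ => Nat.cast_nonneg _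
    have h3 : (4 * Γ ^ 2) ^ U0.card ≤ (4 * Γ ^ 2) ^ (2 * N + 1) :=
      pow_le_pow_right₀ (by
        have : (1 : ℝ) ≤ Γ ^ 2 := one_le_pow₀ h.Γ_one
        linarith) (by omega)
    have h4 : (∏ i ∈ U0, (Z (n i) : ℝ)) * (∏ i ∈ U0, (Z (n' i) : ℝ)) ≤ Pl * Pl :=
      mul_le_mul h1 h2 h0' (by linarith [h.Pl_one])
    have h5 : (4 * Γ ^ 2) ^ U0.card * ((∏ i ∈ U0, (Z (n i) : ℝ)) * (∏ i ∈ U0, (Z (n' i) : ℝ))) ≤
        (4 * Γ ^ 2) ^ (2 * N + 1) * (Pl * Pl) :=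
      mul_le_mul h3 h4 (mul_nonneg h0 h0') (by positivity)
    have h6 := mul_le_mul_of_nonneg_left h5 (sq_nonneg (R : ℝ))
    calc (R : ℝ) ^ 2 * ((4 * Γ ^ 2) ^ U0.card * ((∏ i ∈ U0, (Z (n i) : ℝ)) * (∏ i ∈ U0, (Z (n' i) : ℝ))))
        ≤ (R : ℝ) ^ 2 * ((4 * Γ ^ 2) ^ (2 * N + 1) * (Pl * Pl)) := h6
      _ = _ := by ring
  have hCC : (Ce : ℝ) / Real.sqrt z ≤ (C : ℝ) / Real.sqrt z :=
    div_le_div_of_nonneg_right (by exact_mod_cast hC) (Real.sqrt_nonneg _)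
  have hTV : 0 < (T : ℝ) * VV K z U.card := mul_pos hTpos hVpos
  have hA : Real.exp (-(b0 : ℝ)) * ∏ i ∈ U, (4 * Γ ^ 5) + (Ce : ℝ) / Real.sqrt z * ∏ i ∈ U, (10 * Γ) ≤
      Real.exp (-(b0 : ℝ)) * (4 * Γ ^ 5) ^ (2 * N + 1) + (C : ℝ) / Real.sqrt z * (10 * Γ) ^ (2 * N + 1) := by
    refine add_le_add (mul_le_mul_of_nonneg_left hb1 (Real.exp_pos _).le) ?_
    exact mul_le_mul hCC hb2 (Finset.prod_nonneg fun i _ => by positivity) (by positivity)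
  have hB : (z : ℝ) ^ (3 * (4 * b0 + 10)) * ∏ i ∈ U, A2 i ≤ (T : ℝ) * VV K z U.card *
      ((z : ℝ) ^ (3 * (4 * b0 + 10)) * (4 * Γ ^ 2) ^ (2 * N + 1) * (Pl ^ 2 * (R : ℝ) ^ 2) /
        (T * VV K z (2 * N + 1))) := by
    set W := (z : ℝ) ^ (3 * (4 * b0 + 10)) * (4 * Γ ^ 2) ^ (2 * N + 1) * (Pl ^ 2 * (R : ℝ) ^ 2) with hW
    have hW0 : 0 ≤ W := by positivity
    have h1 : (z : ℝ) ^ (3 * (4 * b0 + 10)) * ∏ i ∈ U, A2 i ≤ W := by
      rw [hW, mul_assoc]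
      exact mul_le_mul_of_nonneg_left hb3 (by positivity)
    refine h1.trans ?_
    rw [mul_div_assoc', le_div_iff₀ (mul_pos hTpos hVpos')]
    have h2 : (T : ℝ) * VV K z (2 * N + 1) ≤ (T : ℝ) * VV K z U.card :=
      mul_le_mul_of_nonneg_left hVle hTpos.le
    calc W * ((T : ℝ) * VV K z (2 * N + 1)) ≤ W * ((T : ℝ) * VV K z U.card) :=
          mul_le_mul_of_nonneg_left h2 hW0
      _ = _ := by ring
  have hA' := mul_le_mul_of_nonneg_left hA hTV.le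
  have hη := mul_le_mul_of_nonneg_left h.hη hTV.le
  calc (T : ℝ) * VV K z U.card * (Real.exp (-(b0 : ℝ)) * ∏ i ∈ U, (4 * Γ ^ 5) +
          (Ce : ℝ) / Real.sqrt z * ∏ i ∈ U, (10 * Γ)) + (z : ℝ) ^ (3 * (4 * b0 + 10)) * ∏ i ∈ U, A2 i
      ≤ (T : ℝ) * VV K z U.card * (Real.exp (-(b0 : ℝ)) * (4 * Γ ^ 5) ^ (2 * N + 1) +
          (C : ℝ) / Real.sqrt z * (10 * Γ) ^ (2 * N + 1)) + (T : ℝ) * VV K z U.card *
      ((z : ℝ) ^ (3 * (4 * b0 + 10)) * (4 * Γ ^ 2) ^ (2 * N + 1) * (Pl ^ 2 * (R : ℝ) ^ 2) /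
        (T * VV K z (2 * N + 1))) := add_le_add hA' hB
    _ = (T : ℝ) * VV K z U.card * (Real.exp (-(b0 : ℝ)) * (4 * Γ ^ 5) ^ (2 * N + 1) + C / Real.sqrt z * (10 * Γ) ^ (2 * N + 1) +
    (z : ℝ) ^ (3 * (4 * b0 + 10)) * (4 * Γ ^ 2) ^ (2 * N + 1) * (Pl ^ 2 * (R : ℝ) ^ 2) / (T * VV K z (2 * N + 1))) := by ring
    _ ≤ (T : ℝ) * VV K z U.card * η := hη
    _ = (T : ℝ) * (η * VV K z U.card) := by ring

end H69PG

end S_H69_PG_H2v

section S_H69_PG_H4v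

/-!
# H4V: the other hypotheses of the abstract theorem

* `h4v`: `elu` (`J0 = 4N + 2`) with `D i = {1}`, `f i = 1`: `Fn = 1`, `SS = 1`, `Γc = A1 = A2 = 1` (`Ctrl 10 1 1 {1} 1`: `SS {1} 1 b` is `1` if `b = 1` and `0` otherwise), so
  `∑_t ∏ th0 ≤ T VV_j (1 + e^(-b0) + C/√z) + z^(..) ≤ 2 T VV_j`, `j = |U| ≤ 4N`, by `hη4` and `vv_anti`.
* `vh`: `∑_{k ∉ A} Vf(insert k A) = (|ι| - |A|) VV_{|A|+1} ≤ |ι| VV_1 VV_|A|` (`vv_succ`), for `|A| < 4N`; `Vf ≥ 0`, `Vf ∅ = VV_0 = 1`.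
* `gA_abs`: `|Fn (sq Q (Z a)) (lamA a) L| ≤ 2 Γ #{d ∈ sq Q (Z a) : d ∣ L} ≤ 2 Γ 2^ω`, `ω` the number of primes `p > z` dividing `L` (`d` is squarefree and composed of such primes); `L ≤ z^M'` gives `ω ≤ M'`.
* `rough`: if no prime `p ≤ y` divides `L` then `th0 = 1` (`z ≤ y`), the only divisor of `L` in `sq Q (Z a)`, `sq Q R` is `1` (`Z a, R ≤ y`), so `Fn = lamA 1 = wA` (`lamA_one`) and `be = (lb 1)² = 1` (`lam_sel_one`).
-/

open Finset EG

namespace H69PG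

theorem H4v_good (Q : ℕ) : Good Q {1} := by
  intro B hB
  rw [Finset.mem_singleton] at hB
  subst hB
  exact ⟨squarefree_one, Nat.coprime_one_left Q⟩

theorem H4v_SS (b : ℕ) : SS {1} (fun _ => (1 : ℝ)) b = if b ∣ 1 then 1 else 0 := by
  unfold SS
  rw [Finset.filter_singleton]
  split_ifs <;> simp

theorem H4v_ctrl : Ctrl 10 1 1 {1} (fun _ => (1 : ℝ)) := by
  intro b hb
  rw [H4v_SS]
  by_cases h : b ∣ 1
  · have hb1 : b = 1 := Nat.dvd_one.1 h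
    subst hb1
    simp
  · rw [if_neg h]
    simp only [abs_zero]
    positivity

theorem H4v_Fn (L : ℕ) : Fn {1} (fun _ => (1 : ℝ)) L = 1 := by
  unfold Fn
  rw [Finset.filter_singleton, if_pos (one_dvd L)]
  simp

theorem h4v (N : ℕ) : ∃ C1 : ℕ, ∀ (ι : Type) [Fintype ι] [DecidableEq ι] (C m M K z Q0 T R b0 : ℕ) (Z : ℕ → ℕ) (v f0 : ℕ → ℝ)
    (l Γ Pl η : ℝ) (c : ι → ℕ), C1 ≤ C → Sys C N m M K z Q0 T R b0 Z v f0 l Γ Pl η c →
    ∀ U : Finset ι, U.card ≤ 4 * N →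
      ∑ t ∈ range T, ∏ i ∈ U, th0 K z (Q0 * t + c i) ≤ 2 * ((range T).card : ℝ) * Vf N K z U := by
  obtain ⟨C0, hC01, hC0⟩ := elu (4 * N)
  refine ⟨C0, ?_⟩
  intro ι _ _ C m M K z Q0 T R b0 Z v f0 l Γ Pl η c hC hS U hU
  have hK := hS.hK
  have hKz := hS.hKz
  have h1 := hC0 b0 (hC.trans hS.hCb) ι K z Q0 (by omega) (by omega) hKz (hC.trans hS.hCz) c hS.fm T U hU
    (fun _ => {1}) (fun _ _ => 1) (fun _ => 1) (fun _ => 1) (fun _ => 1) (fun _ _ => H4v_good _) (fun _ _ => zero_le_one)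
    (fun _ _ => H4v_ctrl) (fun _ _ => by simp) (fun _ _ => by simp)
  simp only [H4v_Fn, mul_one, Finset.prod_const_one] at h1
  have hSS : ∏ _i ∈ U, SS {1} (fun _ => (1 : ℝ)) 1 = 1 := by
    rw [H4v_SS, if_pos (one_dvd 1), Finset.prod_const_one]
  rw [hSS, mul_one] at h1
  have hVf : Vf N K z U = VV K z U.card := by
    unfold Vf
    rw [if_pos (by omega)]
  rw [hVf, Finset.card_range]
  have hV4 : 0 < VV K z (4 * N) := vv_pos (by omega)
  have hVj : VV K z (4 * N) ≤ VV K z U.card := vv_anti hU (by omega)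
  have hVj0 : 0 < VV K z U.card := lt_of_lt_of_le hV4 hVj
  have hT : (1 : ℝ) ≤ T := by exact_mod_cast hS.T_pos
  have hT0 : (0 : ℝ) < T := by linarith
  have hη := hS.hη4
  set W : ℝ := (z : ℝ) ^ (3 * (4 * b0 + 10)) with hW
  have hW0 : 0 ≤ W := by positivity
  have e1 : W ≤ (T : ℝ) * VV K z U.card * (W / (T * VV K z (4 * N))) := by
    have e2 : (T : ℝ) * VV K z U.card * (W / (T * VV K z (4 * N))) = W * (VV K z U.card / VV K z (4 * N)) := by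
      field_simp
    rw [e2]
    have e3 : 1 ≤ VV K z U.card / VV K z (4 * N) := (one_le_div hV4).2 hVj
    nlinarith
  have e4 : (C0 : ℝ) / Real.sqrt z ≤ (C : ℝ) / Real.sqrt z := by
    have : (C0 : ℝ) ≤ C := by exact_mod_cast hC
    gcongr
  have hTV : 0 ≤ (T : ℝ) * VV K z U.card := by positivity
  have h2 := (abs_le.1 h1).2
  have h3 : (T : ℝ) * VV K z U.card * (Real.exp (-(b0 : ℝ)) + C0 / Real.sqrt z) + W ≤
      (T : ℝ) * VV K z U.card * 1 := by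
    calc (T : ℝ) * VV K z U.card * (Real.exp (-(b0 : ℝ)) + C0 / Real.sqrt z) + W
        ≤ (T : ℝ) * VV K z U.card * (Real.exp (-(b0 : ℝ)) + C / Real.sqrt z) +
            (T : ℝ) * VV K z U.card * (W / (T * VV K z (4 * N))) :=
          add_le_add (mul_le_mul_of_nonneg_left (by linarith) hTV) e1
      _ = (T : ℝ) * VV K z U.card * (Real.exp (-(b0 : ℝ)) + C / Real.sqrt z + W / (T * VV K z (4 * N))) := by ring
      _ ≤ (T : ℝ) * VV K z U.card * 1 := mul_le_mul_of_nonneg_left hη hTV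
  linarith

theorem vh {ι : Type} [Fintype ι] [DecidableEq ι] {N K z : ℕ} (hK : 8 * N + 8 ≤ K) :
    Vh (Vf N K z : Finset ι → ℝ) ((Fintype.card ι : ℝ) * VV K z 1) (4 * N) where
  nonneg := by
    intro U
    unfold Vf
    split_ifs with h
    · exact (vv_pos (by omega)).le
    · exact le_rfl
  empty := by
    unfold Vf
    rw [if_pos (by simp), Finset.card_empty, vv_zero]
  μ_nonneg := mul_nonneg (Nat.cast_nonneg _) (vv_pos (by omega)).le
  step := by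
    intro A hA
    have h0 : Vf N K z A = VV K z A.card := by
      unfold Vf
      rw [if_pos (by omega)]
    have h1 : ∀ k ∈ Aᶜ, Vf N K z (insert k A) ≤ VV K z 1 * VV K z A.card := by
      intro k hk
      have hk' : k ∉ A := by rwa [Finset.mem_compl] at hk
      unfold Vf
      rw [Finset.card_insert_of_notMem hk', if_pos (by omega)]
      exact vv_succ (by omega)
    refine (Finset.sum_le_sum h1).trans ?_
    rw [Finset.sum_const, nsmul_eq_mul, h0]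
    have h2 : ((Aᶜ).card : ℝ) ≤ Fintype.card ι := by
      exact_mod_cast Finset.card_le_univ _
    have h3 : 0 ≤ VV K z 1 * VV K z A.card := mul_nonneg (vv_pos (by omega)).le (vv_pos (by omega)).le
    calc ((Aᶜ).card : ℝ) * (VV K z 1 * VV K z A.card) ≤ (Fintype.card ι : ℝ) * (VV K z 1 * VV K z A.card) :=
          mul_le_mul_of_nonneg_right h2 h3
      _ = _ := by ring

theorem H4v_th0 (K z L : ℕ) : 0 ≤ th0 K z L := by
  unfold th0
  split_ifs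
  · exact zero_le_one
  · exact le_rfl

theorem H4v_mem {Q z r : ℕ} : r ∈ sq Q z ↔ (1 ≤ r ∧ r ≤ z) ∧ Squarefree r ∧ Nat.Coprime r Q := by
  unfold EG.sq
  rw [Finset.mem_filter, Finset.mem_Icc]

theorem H4v_omega {z L M' : ℕ} (hz : 2 ≤ z) (hL1 : 1 ≤ L) (hL : L ≤ z ^ M') :
    (L.primeFactors.filter (fun p => z < p)).card ≤ M' := by
  by_contra hcon
  push Not at hcon
  set W := L.primeFactors.filter (fun p => z < p) with hW
  have h1 : ∏ p ∈ W, p ∣ L := (Finset.prod_dvd_prod_of_subset _ _ _ (Finset.filter_subset _ _)).trans (Nat.prod_primeFactors_dvd L)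
  have h2 : ∏ p ∈ W, p ≤ L := Nat.le_of_dvd hL1 h1
  have h3 : z ^ W.card ≤ ∏ p ∈ W, p := by
    rw [← Finset.prod_const]
    refine Finset.prod_le_prod' fun p hp => ?_
    rw [hW, Finset.mem_filter] at hp
    exact hp.2.le
  have h4 : z ^ M' < z ^ W.card := Nat.pow_lt_pow_right (by omega) hcon
  omega

theorem H4v_count {z L M' y : ℕ} (hz : 2 ≤ z) (hL1 : 1 ≤ L) (hL : L ≤ z ^ M') :
    ((sq (primorial z) y).filter (fun B => B ∣ L)).card ≤ 2 ^ M' := by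
  have h1 : ((sq (primorial z) y).filter (fun B => B ∣ L)).card ≤
      ((L.primeFactors.filter (fun p => z < p)).powerset).card := by
    refine Finset.card_le_card_of_injOn (fun B => B.primeFactors) ?_ ?_
    · intro B hB
      rw [Finset.mem_coe, Finset.mem_filter, H4v_mem] at hB
      obtain ⟨⟨_, _, hcop⟩, hdvd⟩ := hB
      rw [Finset.mem_coe, Finset.mem_powerset]
      intro p hp
      have hpp := Nat.prime_of_mem_primeFactors hp
      have hpB := Nat.dvd_of_mem_primeFactors hp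
      rw [Finset.mem_filter, Nat.mem_primeFactors]
      refine ⟨⟨hpp, hpB.trans hdvd, by omega⟩, ?_⟩
      by_contra hle
      have hdv : p ∣ primorial z := (hpp.dvd_primorial_iff).2 (not_lt.1 hle)
      have := Nat.dvd_gcd hpB hdv
      rw [hcop] at this
      exact hpp.one_lt.ne' (Nat.dvd_one.1 this)
    · intro B hB B' hB' h
      rw [Finset.mem_coe, Finset.mem_filter, H4v_mem] at hB hB'
      have e1 := Nat.prod_primeFactors_of_squarefree hB.1.2.1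
      have e2 := Nat.prod_primeFactors_of_squarefree hB'.1.2.1
      have h' : B.primeFactors = B'.primeFactors := h
      rw [← e1, ← e2, h']
  rw [Finset.card_powerset] at h1
  exact h1.trans (Nat.pow_le_pow_right (by norm_num) (H4v_omega hz hL1 hL))

theorem gA_abs {ι : Type} {K z Q0 m M M' : ℕ} {Z : ℕ → ℕ} {f0 : ℕ → ℝ} {Γ : ℝ} {c : ι → ℕ} (hz : 2 ≤ z) (hM : 2 * M ≤ z)
    (hΓ : 1 ≤ Γ) (hZM : ∀ a ≤ m, Z a ≤ z ^ M) (hG : ∀ a ≤ m, GG (primorial z) (Z a) ≤ Γ) (hf : ∀ a, |f0 a| ≤ 1)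
    {i : ι} {t : ℕ} (hL1 : 1 ≤ Q0 * t + c i) (hL : Q0 * t + c i ≤ z ^ M') {a : ℕ} (ha : a ∈ Icc 1 m) :
    |gA K z Q0 Z f0 c i a t| ≤ (2 * Γ * 2 ^ M') * th0 K z (Q0 * t + c i) := by
  rw [Finset.mem_Icc] at ha
  unfold gA
  rw [if_neg (by omega), abs_mul, abs_neg, abs_mul, abs_of_nonneg (H4v_th0 _ _ _)]
  have h1 : |Fn (sq (primorial z) (Z a)) (lamA Z (primorial z) a) (Q0 * t + c i)| ≤ 2 * Γ * 2 ^ M' := by
    unfold Fn
    refine (Finset.abs_sum_le_sum_abs _ _).trans ?_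
    refine (Finset.sum_le_sum fun B _ => lamA_abs (by omega) (hZM a ha.2) hM (hG a ha.2) B).trans ?_
    rw [Finset.sum_const, nsmul_eq_mul]
    have h2 : ((((sq (primorial z) (Z a)).filter (fun B => B ∣ Q0 * t + c i)).card : ℕ) : ℝ) ≤ 2 ^ M' := by
      exact_mod_cast H4v_count hz hL1 hL
    nlinarith
  have h0 := H4v_th0 K z (Q0 * t + c i)
  calc |f0 a| * (th0 K z (Q0 * t + c i) * |Fn (sq (primorial z) (Z a)) (lamA Z (primorial z) a) (Q0 * t + c i)|)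
      ≤ 1 * (th0 K z (Q0 * t + c i) * (2 * Γ * 2 ^ M')) :=
        mul_le_mul (hf a) (mul_le_mul_of_nonneg_left h1 h0) (mul_nonneg h0 (abs_nonneg _)) zero_le_one
    _ = _ := by ring

theorem H4v_filter {Q x y L : ℕ} (hx : 1 ≤ x) (hxy : x ≤ y) (hr : ∀ p : ℕ, p.Prime → p ≤ y → ¬ p ∣ L) :
    (sq Q x).filter (fun B => B ∣ L) = {1} := by
  ext B
  rw [Finset.mem_filter, H4v_mem, Finset.mem_singleton]
  constructor
  · rintro ⟨⟨⟨h1, h2⟩, _, _⟩, h3⟩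
    by_contra hne
    obtain ⟨p, hp, hpB⟩ := Nat.exists_prime_and_dvd hne
    exact hr p hp ((Nat.le_of_dvd h1 hpB).trans (h2.trans hxy)) (hpB.trans h3)
  · rintro rfl
    exact ⟨⟨⟨le_rfl, hx⟩, squarefree_one, Nat.coprime_one_left Q⟩, one_dvd L⟩

theorem rough {ι : Type} {K z Q0 m R y : ℕ} {Z : ℕ → ℕ} {f0 : ℕ → ℝ} {c : ι → ℕ} (hZ0 : Z 0 = 1) (hZ : Monotone Z)
    (hR : 1 ≤ R) (hRy : R ≤ y) (hzy : z ≤ y) (hZy : ∀ a ≤ m, Z a ≤ y) {i : ι} {t : ℕ}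
    (hr : ∀ p : ℕ, p.Prime → p ≤ y → ¬ p ∣ Q0 * t + c i) :
    1 ≤ bA K z Q0 R c i t ∧ ∀ a ∈ Icc 1 m, gA K z Q0 Z f0 c i a t = - (f0 a * wA Z (primorial z) a) := by
  have hth : th0 K z (Q0 * t + c i) = 1 := by
    unfold th0
    rw [if_pos]
    intro p hp
    unfold PK at hp
    rw [Finset.mem_filter, Finset.mem_Ioc] at hp
    exact hr p hp.2 (hp.1.2.trans hzy)
  constructor
  · unfold bA be Fn
    rw [hth, H4v_filter hR hRy hr, Finset.sum_singleton]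
    unfold lb
    rw [lam_sel_one _ R hR]
    norm_num
  · intro a ha
    rw [Finset.mem_Icc] at ha
    unfold gA
    rw [if_neg (by omega), hth]
    have hZa : 1 ≤ Z a := by
      have := hZ (Nat.zero_le a)
      rw [hZ0] at this
      exact this
    have h1 : Fn (sq (primorial z) (Z a)) (lamA Z (primorial z) a) (Q0 * t + c i) = wA Z (primorial z) a := by
      unfold Fn
      rw [H4v_filter hZa (hZy a ha.2) hr, Finset.sum_singleton, lamA_one _ hZ0 hZ]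
    rw [h1]
    ring

end H69PG

end S_H69_PG_H4v

section S_H69_PG_CoA

open Finset EG

/-!
# COA: the abstract theorem applied to linear forms

`abs_main` with `T = range T`, `V = Vf N K z`, `s = sA Z Q f0`, `q a = f0 a * wA Z Q a`, `g = gA`, `β = bA`, `th i t = th0 K z (Q0 t + c i)`, `ρ i t` = no prime `p ≤ y` divides `Q0 t + c i`, `G = 1/GG Q R`,
`C0 = 2 Γ 2^M'`. `C1` = the maximum of the constants of `h1v`, `h2v`, `h4v`.
(`sA ≥ 0` by `wA_nonneg`; `η ≥ 0` by `hη`; `bA ≥ 0` is `th0` times a square; `Q0 t + c i ≥ 1` by `cpos`.)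
-/

namespace H69PG

theorem CoA_th (K z L : ℕ) : th0 K z L = 0 ∨ th0 K z L = 1 := by
  classical
  unfold th0
  split_ifs
  · exact Or.inr rfl
  · exact Or.inl rfl

theorem CoA_GG (Q R : ℕ) : 0 ≤ GG Q R := by
  unfold GG
  exact Finset.sum_nonneg fun r _ => by positivity

theorem CoA_bA {ι : Type} (K z Q0 R : ℕ) (c : ι → ℕ) (i : ι) (t : ℕ) : 0 ≤ bA K z Q0 R c i t := by
  unfold bA be
  rcases CoA_th K z (Q0 * t + c i) with h | h <;> rw [h]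
  · simp
  · rw [one_mul]
    exact sq_nonneg _

theorem CoA_eta {ι : Type} [Fintype ι] [DecidableEq ι] {C N m M K z Q0 T R b0 : ℕ} {Z : ℕ → ℕ}
    {v f0 : ℕ → ℝ} {l Γ Pl η : ℝ} {c : ι → ℕ} (h : Sys C N m M K z Q0 T R b0 Z v f0 l Γ Pl η c) :
    0 ≤ η := by
  refine le_trans ?_ h.hη
  have h1 := h.Γ_one
  have h2 := h.Pl_one
  have h3 : 0 < VV K z (2 * N + 1) := vv_pos (by have := h.hK; omega)
  have h4 : 0 ≤ Γ := by linarith
  have h5 : 0 ≤ Pl := by linarith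
  positivity

open Classical in
theorem coA (N : ℕ) : ∃ C1 : ℕ, ∀ (ι : Type) [Fintype ι] [DecidableEq ι] (C m M M' K z Q0 T R b0 y : ℕ) (Z : ℕ → ℕ) (v f0 : ℕ → ℝ)
    (l vm Γ Pl η : ℝ) (c : ι → ℕ), C1 ≤ C → Sys C N m M K z Q0 T R b0 Z v f0 l Γ Pl η c →
    (∀ a, 0 ≤ v a) → v 0 = 0 → (∀ a ∈ Icc 1 m, v a ≤ vm) → vm < l → 0 ≤ l →
    (∀ a, 0 ≤ f0 a) → ∑ a ∈ Icc 1 m, f0 a * wA Z (primorial z) a = 1 →
    R ≤ y → z ≤ y → (∀ a ≤ m, Z a ≤ y) → (∀ i, ∀ t < T, Q0 * t + c i ≤ z ^ M') →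
    η * (1 + ((m : ℝ) + 1) ^ 2 * ((Fintype.card ι : ℝ) * VV K z 1)) ^ (2 * N) ≤ 1 / 8 →
    η * ((2 * (N : ℝ) + 1) * (1 + ((m : ℝ) + 1) ^ 2 * ((Fintype.card ι : ℝ) * VV K z 1)) ^ (2 * N + 1)) ≤ 1 / 8 →
    1 / GG (primorial z) R * (((Fintype.card ι : ℝ) * VV K z 1) *
      (((Fintype.card ι : ℝ) * VV K z 1) * (∑ a ∈ Icc 1 m, f0 a ^ 2 * wA Z (primorial z) a) / N +
        ((Fintype.card ι : ℝ) * VV K z 1) * (∑ a ∈ Icc 1 m, f0 a ^ 2 * wA Z (primorial z) a * v a) / (l - vm))) ≤ 1 / 8 →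
    (T : ℝ) ≤ 4 * ((1 + m * (2 * Γ * 2 ^ M')) ^ (4 * N) * ((4 * N).factorial : ℝ) * 2 ^ (4 * N + 1) *
        (1 + (Fintype.card ι : ℝ) * VV K z 1) ^ (4 * N)) *
      (((range T).filter (fun t => ∀ i, ∃ p : ℕ, p.Prime ∧ p ≤ y ∧ p ∣ Q0 * t + c i)).card : ℝ) := by
  obtain ⟨c1, hc1⟩ := h1v N
  obtain ⟨c2, hc2⟩ := h2v N
  obtain ⟨c4, hc4⟩ := h4v N
  refine ⟨max c1 (max c2 c4), ?_⟩
  intro ι _ _ C m M M' K z Q0 T R b0 y Z v f0 l vm Γ Pl η c hC hS hv hv0 hvm hl hl0 hf0 hq1 hRy hzy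
    hZy hLz hE1 hE2 hB
  have hC1 : c1 ≤ C := le_trans (le_max_left _ _) hC
  have hC2 : c2 ≤ C := le_trans (le_trans (le_max_left _ _) (le_max_right _ _)) hC
  have hC4 : c4 ≤ C := le_trans (le_trans (le_max_right _ _) (le_max_right _ _)) hC
  have hK := hS.hK
  have hKz := hS.hKz
  have hN := hS.N_pos
  have hs0 : ∀ a, 0 ≤ sA Z (primorial z) f0 a := by
    intro a
    unfold sA
    split_ifs
    · exact zero_le_one
    · exact mul_nonneg (sq_nonneg _) (wA_nonneg _ hS.Zm a)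
  have hsum1 : ∑ a ∈ Icc 1 m, sA Z (primorial z) f0 a =
      ∑ a ∈ Icc 1 m, f0 a ^ 2 * wA Z (primorial z) a := by
    refine Finset.sum_congr rfl fun a ha => ?_
    unfold sA
    rw [if_neg (by have := (Finset.mem_Icc.1 ha).1; omega)]
  have hsum2 : ∑ a ∈ Icc 1 m, sA Z (primorial z) f0 a * v a =
      ∑ a ∈ Icc 1 m, f0 a ^ 2 * wA Z (primorial z) a * v a := by
    refine Finset.sum_congr rfl fun a ha => ?_
    unfold sA
    rw [if_neg (by have := (Finset.mem_Icc.1 ha).1; omega)]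
  have hC0 : (1 : ℝ) ≤ 2 * Γ * 2 ^ M' := by
    have h1 := hS.Γ_one
    have h2 : (1 : ℝ) ≤ 2 ^ M' := one_le_pow₀ (by norm_num)
    nlinarith
  have hres := abs_main (ι := ι) (m := m) (N := N) hN (v := v) (l := l) (vm := vm)
    (V := Vf N K z) (μ := (Fintype.card ι : ℝ) * VV K z 1) (vh hK)
    (s := sA Z (primorial z) f0) (q := fun a => f0 a * wA Z (primorial z) a)
    hs0 (by unfold sA; simp) hv hv0 hvm hl hl0
    (fun a => mul_nonneg (hf0 a) (wA_nonneg _ hS.Zm a)) hq1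
    (T := range T) (g := gA K z Q0 Z f0 c) (β := bA K z Q0 R c)
    (th := fun i t => th0 K z (Q0 * t + c i))
    (ρ := fun i t => ∀ p : ℕ, p.Prime → p ≤ y → ¬ p ∣ Q0 * t + c i)
    (η := η) (G := 1 / GG (primorial z) R) (C0 := 2 * Γ * 2 ^ M')
    (CoA_eta hS) (by have := CoA_GG (primorial z) R; positivity) hC0
    (fun i t => by unfold gA; simp)
    (fun i t => CoA_bA K z Q0 R c i t)
    (fun i t => CoA_th K z _)
    (fun i t ht a ha => gA_abs (M := M) (M' := M') (by omega) hS.hM hS.Γ_one hS.ZM hS.ΓZ hS.f0_le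
      (by have := hS.fm.cpos i; omega) (hLz i t (Finset.mem_range.1 ht)) ha)
    (fun i t _ hr => rough hS.Z0 hS.Zm hS.R_pos hRy hzy hZy hr)
    (hc1 ι C m M K z Q0 T R b0 Z v f0 l Γ Pl η c hC1 hS)
    (hc2 ι C m M K z Q0 T R b0 Z v f0 l Γ Pl η c hC2 hS)
    (hc4 ι C m M K z Q0 T R b0 Z v f0 l Γ Pl η c hC4 hS)
    hE1 hE2 (by rw [hsum1, hsum2]; exact hB)
  rw [Finset.card_range] at hres
  refine hres.trans (le_of_eq ?_)
  congr 3
  ext t
  simp only [Finset.mem_filter, Finset.mem_range]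
  refine and_congr_right fun _ => forall_congr' fun i => ?_
  push Not
  rfl

end H69PG

end S_H69_PG_CoA
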