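import Mathlib
import Pool.Agent.H69.PGM.C
import Pool.Agent.H69.PGM.E

/-! Positive proportion of long prime-free intervals, part F: this file joins several modules to save build time. -/

section S_H69_PG_CoB

/-!
# COB: choice of the parameters

Let `D` be the maximum of the constants of `wbd` and `mub` (the bounds of `mub` stay true with a larger `D`; use `wbd` with its own constant `D1 ≤ D` — choose `B ≥ 8 D²`, `ε ≤ v_1/(4D)`, and weaken the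
conclusions to `D`). `r' = min(r,1)/16`, `v = r'`, `l = 1/8`, `vm = v ≤ 1/16`, so `l - vm ≥ 1/16`. `B = ⌈8D²⌉₊`, `m = ⌈70000 D^4 Λ²/r'⌉₊`, `v_a = vs B m v a`, `N = ⌈1/v_1⌉₊` (`≥ 1`), `C` = constant of `coA N`;
`ε` from `epsch N m C` (also `ε ≤ v_1 ≤ r'`), `b0 = ⌊1/(60ε)⌋₊`, `Γ = 2D/ε`, `M = ⌈2/ε⌉₊`, `M' = ⌈2(A+2)/ε⌉₊`, `κ0 = exp(-b0) (4Γ^5)^(2N+1)`, `η = 3 κ0`; `x` large as in `wbd`, `mub`, `evt` (`G0 = Γ`).
`K = ⌊Λ log x⌋₊`, `z = zf ε x`, `R = y = zf r' x`, `Z a = zf (v_a) x` (for all `a`; monotone; `Z 0 = 1`), `T`, `Q0` as in the statement, `Pl = x^(1/8)`: `∏ Z(n_i) ≤ x^(∑ v(n_i)) ≤ x^(1/8)`.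
`f0 a = cφ/v_a` for `a ≥ 1`, `f0 0 = 0`, with `cφ = (∑_{a=1}^m wA_a/v_a)^(-1) ≤ 4Dε/m`; `f0 ≤ cφ/v_1 ≤ 1` (`ε ≤ v_1/(4D)`). `∑ f0 wA = 1`; `∑ f0² wA v = cφ`; `∑ f0² wA ≤ cφ/v_1`.
`μ = |ι| VV K z 1 ≤ 8DΛ/ε` (`mub`, hypothesis on `|ι|`). So
`(1/GG R) μ (μ ∑ f0² wA/N + μ ∑ f0² wA v/(l - vm)) ≤ (2Dε/r') (8DΛ/ε)² (4Dε/m) (1/(v_1 N) + 16) ≤ 512·17 D^4 Λ²/(r' m) ≤ 1/8`.
The conditions on `η` follow from `epsch` (`(…)^(2N) ≤ (…)^(2N+1)`), those of `Sys` from `evt`. `coA` gives the claim with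
`c = 1/(4 (1 + m (2Γ 2^M'))^(4N) (4N)! 2^(4N+1) (1 + 8DΛ/ε)^(4N))`; `y ≤ x^r' ≤ x^r`; `Q0 t + cc i ≤ x + x^A ≤ z^M'` for `t < T`.
-/

open Finset EG

namespace H69PG

theorem CoB_vs_pos {B m : ℕ} {v : ℝ} (hB : 1 ≤ B) (hv : 0 < v) {a : ℕ} (ha : 1 ≤ a) : 0 < vs B m v a := by
  unfold vs
  rw [if_neg (by omega)]
  have : (0 : ℝ) < B := by exact_mod_cast hB
  positivity

/-- the coefficients of the scales -/
theorem CoB_f0 {m : ℕ} (hm : 1 ≤ m) {w W : ℕ → ℝ} {v1 E : ℝ} (hv1 : 0 < v1) (hw : ∀ a ∈ Icc 1 m, v1 ≤ w a)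
    (hE : 0 < E) (hW : ∀ a ∈ Icc 1 m, w a / E ≤ W a) :
    ∃ cφ : ℝ, 0 < cφ ∧ cφ ≤ E / m ∧ ∑ a ∈ Icc 1 m, cφ / w a * W a = 1 ∧
      ∑ a ∈ Icc 1 m, (cφ / w a) ^ 2 * W a ≤ cφ / v1 ∧ ∑ a ∈ Icc 1 m, (cφ / w a) ^ 2 * W a * w a = cφ := by
  have hm0 : (0 : ℝ) < m := by exact_mod_cast hm
  have hw0 : ∀ a ∈ Icc 1 m, 0 < w a := fun a ha => lt_of_lt_of_le hv1 (hw a ha)
  set S := ∑ a ∈ Icc 1 m, W a / w a with hS
  have hS1 : (m : ℝ) / E ≤ S := by
    have h1 : ∑ _a ∈ Icc 1 m, (1 / E : ℝ) ≤ S := by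
      refine Finset.sum_le_sum fun a ha => ?_
      rw [le_div_iff₀ (hw0 a ha)]
      refine le_trans (le_of_eq ?_) (hW a ha)
      ring
    rw [Finset.sum_const, Nat.card_Icc, nsmul_eq_mul] at h1
    have h2 : ((m + 1 - 1 : ℕ) : ℝ) = m := by simp
    rw [h2] at h1
    rwa [mul_one_div] at h1
  have hS0 : 0 < S := lt_of_lt_of_le (by positivity) hS1
  have hsum1 : ∑ a ∈ Icc 1 m, S⁻¹ / w a * W a = 1 := by
    have : ∑ a ∈ Icc 1 m, S⁻¹ / w a * W a = S⁻¹ * S := by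
      rw [hS, Finset.mul_sum]
      refine Finset.sum_congr rfl fun a _ => ?_
      rw [← hS]
      ring
    rw [this, inv_mul_cancel₀ hS0.ne']
  refine ⟨S⁻¹, inv_pos.2 hS0, ?_, hsum1, ?_, ?_⟩
  · rw [inv_le_comm₀ hS0 (by positivity), inv_div]
    exact hS1
  · have h1 : ∑ a ∈ Icc 1 m, (S⁻¹ / w a) ^ 2 * W a ≤ ∑ a ∈ Icc 1 m, (S⁻¹ / v1) * (S⁻¹ / w a * W a) := by
      refine Finset.sum_le_sum fun a ha => ?_
      have hwa := hw0 a ha
      have hWa : 0 ≤ W a := le_trans (by positivity) (hW a ha)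
      have h2 : S⁻¹ / w a ≤ S⁻¹ / v1 := div_le_div_of_nonneg_left (inv_pos.2 hS0).le hv1 (hw a ha)
      have h3 : 0 ≤ S⁻¹ / w a * W a := by positivity
      calc (S⁻¹ / w a) ^ 2 * W a = (S⁻¹ / w a) * (S⁻¹ / w a * W a) := by ring
        _ ≤ (S⁻¹ / v1) * (S⁻¹ / w a * W a) := mul_le_mul_of_nonneg_right h2 h3
    rw [← Finset.mul_sum, hsum1, mul_one] at h1
    exact h1
  · have h1 : ∑ a ∈ Icc 1 m, (S⁻¹ / w a) ^ 2 * W a * w a = ∑ a ∈ Icc 1 m, S⁻¹ * (S⁻¹ / w a * W a) := by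
      refine Finset.sum_congr rfl fun a ha => ?_
      have hwa := (hw0 a ha).ne'
      field_simp
    rw [h1, ← Finset.mul_sum, hsum1, mul_one]

theorem CoB_num {D Λ r' ε m G μ S1 S2 N v1 l vm cφ : ℝ} (hD : 1 ≤ D) (hΛ : 1 ≤ Λ) (hr : 0 < r') (hε : 0 < ε)
    (hm : 70000 * D ^ 4 * Λ ^ 2 / r' ≤ m) (hG : G ≤ 2 * D * ε / r') (hG0 : 0 ≤ G)
    (hμ0 : 0 ≤ μ) (hμ : μ ≤ 8 * D * Λ / ε) (hc : 0 < cφ) (hcm : cφ ≤ 4 * D * ε / m) (hS1 : S1 ≤ cφ / v1) (hS2 : S2 = cφ)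
    (hv1 : 0 < v1) (hN : 1 / v1 ≤ N) (hl : 1 / 16 ≤ l - vm) :
    G * (μ * (μ * S1 / N + μ * S2 / (l - vm))) ≤ 1 / 8 := by
  have hD0 : 0 < D := by linarith
  have hΛ0 : 0 < Λ := by linarith
  have hN0 : 0 < N := lt_of_lt_of_le (by positivity) hN
  have hm0 : 0 < m := lt_of_lt_of_le (by positivity) hm
  have h1 : μ * S1 / N ≤ μ * cφ := by
    rw [div_le_iff₀ hN0]
    have h2 : S1 ≤ cφ * N := by
      refine hS1.trans ?_
      rw [div_eq_mul_one_div]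
      exact mul_le_mul_of_nonneg_left hN hc.le
    calc μ * S1 ≤ μ * (cφ * N) := mul_le_mul_of_nonneg_left h2 hμ0
      _ = μ * cφ * N := by ring
  have hl0 : 0 < l - vm := by linarith
  have h2 : μ * S2 / (l - vm) ≤ 16 * (μ * cφ) := by
    rw [div_le_iff₀ hl0, hS2]
    have h3 : 0 ≤ μ * cφ := by positivity
    nlinarith
  have h3 : μ * (μ * S1 / N + μ * S2 / (l - vm)) ≤ 17 * (μ ^ 2 * cφ) := by
    have : μ * (μ * S1 / N + μ * S2 / (l - vm)) ≤ μ * (17 * (μ * cφ)) := mul_le_mul_of_nonneg_left (by linarith) hμ0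
    linarith [this, show μ * (17 * (μ * cφ)) = 17 * (μ ^ 2 * cφ) by ring]
  have h4 : μ ^ 2 * cφ ≤ (8 * D * Λ / ε) ^ 2 * (4 * D * ε / m) := by
    refine mul_le_mul (pow_le_pow_left₀ hμ0 hμ 2) hcm hc.le (by positivity)
  have h5 : G * (μ * (μ * S1 / N + μ * S2 / (l - vm))) ≤ (2 * D * ε / r') * (17 * ((8 * D * Λ / ε) ^ 2 * (4 * D * ε / m))) := by
    refine (mul_le_mul_of_nonneg_left (h3.trans (mul_le_mul_of_nonneg_left h4 (by norm_num))) hG0).trans ?_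
    exact mul_le_mul_of_nonneg_right hG (by positivity)
  refine h5.trans ?_
  have h6 : (2 * D * ε / r') * (17 * ((8 * D * Λ / ε) ^ 2 * (4 * D * ε / m))) = 8704 * D ^ 4 * Λ ^ 2 / r' / m := by
    field_simp
    ring
  rw [h6, div_le_iff₀ hm0]
  have h7 : 8704 * D ^ 4 * Λ ^ 2 / r' = 8704 / 70000 * (70000 * D ^ 4 * Λ ^ 2 / r') := by ring
  rw [h7]
  have h8 : 0 < 70000 * D ^ 4 * Λ ^ 2 / r' := by positivity
  nlinarith

theorem CoB_fin {N : ℕ} {m Γ M2 μ U T c1 : ℝ} (hm : 0 ≤ m) (hΓ : 0 ≤ Γ) (hM : 0 ≤ M2) (hμ : 0 ≤ μ) (hμU : μ ≤ U)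
    (hc1 : 0 ≤ c1) {F : ℝ} (hF : 0 < F)
    (h : T ≤ 4 * ((1 + m * (2 * Γ * M2)) ^ (4 * N) * F * 2 ^ (4 * N + 1) * (1 + μ) ^ (4 * N)) * c1) :
    1 / (4 * ((1 + m * (2 * Γ * M2)) ^ (4 * N) * F * 2 ^ (4 * N + 1) * (1 + U) ^ (4 * N))) * T ≤ c1 := by
  have hU : 0 ≤ U := hμ.trans hμU
  have h1 : 0 < 4 * ((1 + m * (2 * Γ * M2)) ^ (4 * N) * F * 2 ^ (4 * N + 1) * (1 + U) ^ (4 * N)) := by positivity
  rw [div_mul_eq_mul_div, one_mul, div_le_iff₀ h1]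
  refine h.trans ?_
  have h2 : (1 + μ) ^ (4 * N) ≤ (1 + U) ^ (4 * N) := pow_le_pow_left₀ (by positivity) (by linarith) _
  calc 4 * ((1 + m * (2 * Γ * M2)) ^ (4 * N) * F * 2 ^ (4 * N + 1) * (1 + μ) ^ (4 * N)) * c1
      ≤ 4 * ((1 + m * (2 * Γ * M2)) ^ (4 * N) * F * 2 ^ (4 * N + 1) * (1 + U) ^ (4 * N)) * c1 := by gcongr
    _ = _ := by ring

open Classical in
theorem core {Λ r A : ℝ} (hΛ : 1 ≤ Λ) (hr : 0 < r) (hA : 0 < A) : ∃ c : ℝ, 0 < c ∧ ∃ x0 : ℝ, ∀ x : ℝ, x0 ≤ x →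
    ∀ (ι : Type) [Fintype ι] [DecidableEq ι],
      (Fintype.card ι : ℝ) ≤ 2 * (⌊Λ * Real.log x⌋₊ : ℝ) *
        ((Nat.totient (primorial ⌊Real.log x / 100⌋₊) : ℝ) / (primorial ⌊Real.log x / 100⌋₊ : ℝ)) →
      ∀ cc : ι → ℕ, Fm ⌊Λ * Real.log x⌋₊ (primorial ⌊Real.log x / 100⌋₊) cc → (∀ i, (cc i : ℝ) ≤ x ^ A) →
      c * (⌊x / (primorial ⌊Real.log x / 100⌋₊ : ℝ)⌋₊ : ℝ) ≤
        (((range ⌊x / (primorial ⌊Real.log x / 100⌋₊ : ℝ)⌋₊).filter (fun t => ∀ i, ∃ p : ℕ, p.Prime ∧ (p : ℝ) ≤ x ^ r ∧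
          p ∣ primorial ⌊Real.log x / 100⌋₊ * t + cc i)).card : ℝ) := by
  obtain ⟨D1, hD1, hwbd⟩ := wbd
  obtain ⟨D2, hD2, hmub⟩ := mub
  obtain ⟨D, hDD1, hDD2⟩ : ∃ D : ℝ, D1 ≤ D ∧ D2 ≤ D := ⟨max D1 D2, le_max_left _ _, le_max_right _ _⟩
  have hD : 1 ≤ D := hD1.trans hDD1
  have hD0 : 0 < D := by linarith
  have hD10 : 0 < D1 := by linarith
  have hΛ0 : 0 < Λ := by linarith
  obtain ⟨v, hv, hv16, hvr⟩ : ∃ v : ℝ, 0 < v ∧ v ≤ 1 / 16 ∧ v ≤ r :=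
    ⟨min r (1 / 16), lt_min hr (by norm_num), min_le_right _ _, min_le_left _ _⟩
  obtain ⟨B, hB8⟩ : ∃ B : ℕ, 8 * D ^ 2 ≤ (B : ℝ) := ⟨⌈8 * D ^ 2⌉₊, Nat.le_ceil _⟩
  have hB1 : 1 ≤ B := by
    have h1 : (1 : ℝ) ≤ B := by nlinarith
    exact_mod_cast h1
  obtain ⟨m, hm70⟩ : ∃ m : ℕ, 70000 * D ^ 4 * Λ ^ 2 / v ≤ (m : ℝ) := ⟨⌈70000 * D ^ 4 * Λ ^ 2 / v⌉₊, Nat.le_ceil _⟩
  have hm1 : 1 ≤ m := by
    have h1 : (0 : ℝ) < m := lt_of_lt_of_le (by positivity) hm70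
    have h2 : 0 < m := by exact_mod_cast h1
    omega
  set w : ℕ → ℝ := vs B m v with hw
  have hw1 : 0 < w 1 := CoB_vs_pos hB1 hv le_rfl
  have hwm : Monotone w := vs_mono hB1 hv.le
  have hw0 : ∀ a, 0 ≤ w a := vs_nonneg hv.le
  have hwv : ∀ a, w a ≤ v := vs_le hB1 hv.le
  have hwz : w 0 = 0 := by simp [hw, vs]
  obtain ⟨N, hN1, hNv⟩ : ∃ N : ℕ, 1 ≤ N ∧ 1 / w 1 ≤ (N : ℝ) := by
    refine ⟨⌈1 / w 1⌉₊, ?_, Nat.le_ceil _⟩
    exact Nat.one_le_ceil_iff.2 (by positivity)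
  obtain ⟨C, hcoA⟩ := coA N
  obtain ⟨ε, hε, hεv, hε1, hCb, hexp, hbig⟩ := epsch N m C hD hΛ hw1
  set b0 := ⌊1 / (60 * ε)⌋₊ with hb0
  set Γ : ℝ := 2 * D / ε with hΓ
  set M := ⌈2 / ε⌉₊ with hM
  set M' := ⌈2 * (A + 2) / ε⌉₊ with hM'
  have hΓ1 : 1 ≤ Γ := by
    rw [hΓ, le_div_iff₀ hε]
    linarith
  set κ0 : ℝ := Real.exp (-(b0 : ℝ)) * (4 * Γ ^ 5) ^ (2 * N + 1) with hκ0
  have hκ : 0 < κ0 := by positivity
  have hεw : ε ≤ w 1 / (4 * D1) := by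
    refine hεv.trans (div_le_div_of_nonneg_left hw1.le (by positivity) (by linarith))
  have hεv' : ε ≤ v := by
    refine hεv.trans (le_trans ?_ (hwv 1))
    rw [div_le_iff₀ (by positivity)]
    nlinarith
  obtain ⟨xw, hxw⟩ := hwbd B m v v ε (by nlinarith) hm1 hv (by linarith) hv (by linarith) hε hεw hεv'
  obtain ⟨xm, hxm⟩ := hmub Λ ε hΛ hε
  obtain ⟨xe, hxe1, hxe⟩ := evt N C hΛ hε hε1 hv hv16 hA hΓ1 hκ
  have hU0 : 0 < 8 * D * Λ / ε := by positivity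
  refine ⟨1 / (4 * ((1 + (m : ℝ) * (2 * Γ * 2 ^ M')) ^ (4 * N) * ((4 * N).factorial : ℝ) * 2 ^ (4 * N + 1) *
    (1 + 8 * D * Λ / ε) ^ (4 * N))), by positivity, max xw (max xm xe), ?_⟩
  intro x hx ι _ _ hcard cc hFm hcc
  have hx1 : xw ≤ x := (le_max_left _ _).trans hx
  have hx2 : xm ≤ x := ((le_max_left _ _).trans (le_max_right _ _)).trans hx
  have hx3 : xe ≤ x := ((le_max_right _ _).trans (le_max_right _ _)).trans hx
  have hx0 : 1 ≤ x := hxe1.trans hx3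
  have hxpos : 0 < x := by linarith
  obtain ⟨w1, w2, w3, w4⟩ := hxw x hx1
  have m1 := hxm x hx2
  obtain ⟨e1, e2, e3, e4, e5, e6, e7, e8, e9, e10, e11, e12⟩ := hxe x hx3
  set K := ⌊Λ * Real.log x⌋₊ with hK
  set Q0 := primorial ⌊Real.log x / 100⌋₊ with hQ0
  set z := zf ε x with hz
  set R := zf v x with hR
  set T := ⌊x / (Q0 : ℝ)⌋₊ with hT
  set Z : ℕ → ℕ := fun a => zf (w a) x with hZ
  have hVV1 : 0 < VV K z 1 := vv_pos (by omega)
  set μ : ℝ := (Fintype.card ι : ℝ) * VV K z 1 with hμ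
  have hμ0 : 0 ≤ μ := by positivity
  have hμU : μ ≤ 8 * D * Λ / ε := by
    have h1 : μ ≤ 8 * D2 * Λ / ε := (mul_le_mul_of_nonneg_right hcard hVV1.le).trans m1
    refine h1.trans ?_
    gcongr
  -- the coefficients
  obtain ⟨cφ, hc0, hcE, hs1, hs2, hs3⟩ := CoB_f0 (m := m) hm1 (w := w) (W := wA Z (primorial z)) (v1 := w 1) (E := 4 * D * ε)
    hw1 (fun a ha => hwm (Finset.mem_Icc.1 ha).1) (by positivity) (fun a ha => by
      refine le_trans ?_ (w1 a ha)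
      refine div_le_div_of_nonneg_left (hw0 a) (by positivity) ?_
      gcongr)
  set f0 : ℕ → ℝ := fun a => if a = 0 then 0 else cφ / w a with hf0
  have hf0' : ∀ a ∈ Icc 1 m, f0 a = cφ / w a := by
    intro a ha
    have := (Finset.mem_Icc.1 ha).1
    simp only [hf0]
    rw [if_neg (by omega)]
  have hf0n : ∀ a, 0 ≤ f0 a := by
    intro a
    simp only [hf0]
    split_ifs
    · exact le_rfl
    · exact div_nonneg hc0.le (hw0 a)
  have hmpos : (0 : ℝ) < m := by exact_mod_cast hm1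
  have hf0le : ∀ a, |f0 a| ≤ 1 := by
    intro a
    rw [abs_of_nonneg (hf0n a)]
    simp only [hf0]
    split_ifs with ha
    · norm_num
    · have hwa : w 1 ≤ w a := hwm (by omega)
      have hwa0 : 0 < w a := lt_of_lt_of_le hw1 hwa
      rw [div_le_one hwa0]
      refine le_trans ?_ hwa
      refine hcE.trans ?_
      rw [div_le_iff₀ hmpos]
      have h1 : ε * (4 * D) ≤ w 1 := by rwa [le_div_iff₀ (by positivity)] at hεv
      have h2 : (1 : ℝ) ≤ m := by exact_mod_cast hm1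
      calc 4 * D * ε = ε * (4 * D) := by ring
        _ ≤ w 1 := h1
        _ ≤ w 1 * m := le_mul_of_one_le_right hw1.le h2
  have hsum1 : ∑ a ∈ Icc 1 m, f0 a * wA Z (primorial z) a = 1 := by
    rw [← hs1]
    exact Finset.sum_congr rfl fun a ha => by rw [hf0' a ha]
  have hsum2 : ∑ a ∈ Icc 1 m, f0 a ^ 2 * wA Z (primorial z) a ≤ cφ / w 1 := by
    refine le_trans (le_of_eq ?_) hs2
    exact Finset.sum_congr rfl fun a ha => by rw [hf0' a ha]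
  have hsum3 : ∑ a ∈ Icc 1 m, f0 a ^ 2 * wA Z (primorial z) a * w a = cφ := by
    refine Eq.trans ?_ hs3
    exact Finset.sum_congr rfl fun a ha => by rw [hf0' a ha]
  have hzfM : ∀ e : ℝ, e ≤ 1 → zf e x ≤ z ^ M := by
    intro e he
    have h1 : (zf e x : ℝ) ≤ x := by
      refine (zf_le hxpos.le).trans ?_
      calc x ^ e ≤ x ^ (1 : ℝ) := Real.rpow_le_rpow_of_exponent_le hx0 he
        _ = x := Real.rpow_one x
    have h2 : (zf e x : ℝ) ≤ ((z ^ M : ℕ) : ℝ) := by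
      push_cast
      exact h1.trans e5
    exact_mod_cast h2
  have hw1' : ∀ a, w a ≤ 1 := fun a => (hwv a).trans (by linarith)
  have hsys : Sys C N m M K z Q0 T R b0 Z w f0 (1 / 8) Γ (x ^ (1 / 8 : ℝ)) (3 * κ0) cc := by
    refine ⟨hFm, hN1, e1, e2, e3, hCb, ?_, ?_, ?_, ?_, e8, e4, e7, hΓ1, ?_, ?_, hf0le, ?_, ?_, ?_, ?_⟩
    · simp only [hZ, hwz]
      exact zf_zero x
    · intro a b hab
      exact zf_mono hx0 (hwm hab)
    · intro a _
      exact hzfM _ (hw1' a)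
    · exact hzfM _ (by linarith)
    · intro a ha
      refine (w2 a ha).trans ?_
      rw [hΓ]
      gcongr
    · refine w3.trans ?_
      rw [hΓ]
      gcongr
    · exact Real.one_le_rpow hx0 (by norm_num)
    · intro n hn
      unfold Cf at hn
      rw [Finset.mem_filter] at hn
      calc ∏ i, (Z (n i) : ℝ) ≤ ∏ i, x ^ (w (n i)) := by
            refine Finset.prod_le_prod (fun i _ => Nat.cast_nonneg _) fun i _ => zf_le hxpos.le
        _ = x ^ (∑ i, w (n i)) := (Real.rpow_sum_of_pos hxpos _ _).symm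
        _ ≤ x ^ (1 / 8 : ℝ) := Real.rpow_le_rpow_of_exponent_le hx0 hn.2.2
    · have h1 : Real.exp (-(b0 : ℝ)) * (4 * Γ ^ 5) ^ (2 * N + 1) = κ0 := rfl
      rw [h1]
      linarith only [e9, e10]
    · linarith only [hexp, e11, e12]
  have hmle : (0 : ℝ) ≤ ((m : ℝ) + 1) ^ 2 := by positivity
  have hη : 3 * κ0 * ((2 * (N : ℝ) + 1) * (1 + ((m : ℝ) + 1) ^ 2 * μ) ^ (2 * N + 1)) ≤ 1 / 8 := by
    refine le_trans ?_ hbig
    have h1 : (1 + ((m : ℝ) + 1) ^ 2 * μ) ^ (2 * N + 1) ≤ (1 + ((m : ℝ) + 1) ^ 2 * (8 * D * Λ / ε)) ^ (2 * N + 1) := by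
      refine pow_le_pow_left₀ (by positivity) ?_ _
      have := mul_le_mul_of_nonneg_left hμU hmle
      linarith only [this]
    have h2 : 3 * κ0 = 3 * Real.exp (-(b0 : ℝ)) * (4 * (2 * D / ε) ^ 5) ^ (2 * N + 1) := by
      rw [hκ0, hΓ]; ring
    rw [h2]
    refine mul_le_mul_of_nonneg_left (mul_le_mul_of_nonneg_left h1 (by positivity)) (by positivity)
  have hη' : 3 * κ0 * (1 + ((m : ℝ) + 1) ^ 2 * μ) ^ (2 * N) ≤ 1 / 8 := by
    refine le_trans ?_ hη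
    refine mul_le_mul_of_nonneg_left ?_ (by positivity)
    have h1 : (1 : ℝ) ≤ 1 + ((m : ℝ) + 1) ^ 2 * μ := by
      have := mul_nonneg hmle hμ0
      linarith only [this]
    have h2 : (1 + ((m : ℝ) + 1) ^ 2 * μ) ^ (2 * N) ≤ (1 + ((m : ℝ) + 1) ^ 2 * μ) ^ (2 * N + 1) :=
      pow_le_pow_right₀ h1 (by omega)
    have h3 : 0 ≤ (1 + ((m : ℝ) + 1) ^ 2 * μ) ^ (2 * N + 1) := by positivity
    have h4 : (1 : ℝ) ≤ 2 * (N : ℝ) + 1 := by
      have : (0 : ℝ) ≤ N := Nat.cast_nonneg _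
      linarith only [this]
    exact h2.trans (le_mul_of_one_le_left h3 h4)
  have hG0 : 0 ≤ 1 / GG (primorial z) R := by
    have := CoA_GG (primorial z) R
    positivity
  have hthird : 1 / GG (primorial z) R * (μ *
      (μ * (∑ a ∈ Icc 1 m, f0 a ^ 2 * wA Z (primorial z) a) / N +
        μ * (∑ a ∈ Icc 1 m, f0 a ^ 2 * wA Z (primorial z) a * w a) / (1 / 8 - v))) ≤ 1 / 8 := by
    refine CoB_num (D := D) (Λ := Λ) (r' := v) (ε := ε) (m := (m : ℝ)) (cφ := cφ) (v1 := w 1) hD hΛ hv hε hm70 ?_ hG0 hμ0 hμU hc0 ?_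
      hsum2 hsum3 hw1 hNv (by linarith)
    · refine w4.trans ?_
      gcongr
    · exact hcE
  have hres := hcoA ι C m M M' K z Q0 T R b0 R Z w f0 (1 / 8) v Γ (x ^ (1 / 8 : ℝ)) (3 * κ0) cc le_rfl hsys hw0 hwz
    (fun a _ => hwv a) (by linarith) (by norm_num) hf0n hsum1 le_rfl (zf_mono hx0 hεv') (fun a _ => zf_mono hx0 (hwv a))
    (fun i t ht => by
      have hQ0pos : (0 : ℝ) < Q0 := by exact_mod_cast primorial_pos _
      have h1 : (t : ℝ) ≤ x / Q0 := by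
        have h2 : (T : ℝ) ≤ x / Q0 := Nat.floor_le (by positivity)
        have h3 : (t : ℝ) ≤ T := by exact_mod_cast ht.le
        exact h3.trans h2
      have h2 : (Q0 : ℝ) * t ≤ x := by
        rw [le_div_iff₀ hQ0pos] at h1
        linarith only [h1]
      have h3 : ((Q0 * t + cc i : ℕ) : ℝ) ≤ ((z ^ M' : ℕ) : ℝ) := by
        push_cast
        have := hcc i
        linarith only [this, h2, e6]
      exact_mod_cast h3)
    hη' hη hthird
  have hfin := CoB_fin (N := N) (m := (m : ℝ)) (Γ := Γ) (M2 := 2 ^ M') (μ := μ) (U := 8 * D * Λ / ε) (T := (T : ℝ))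
    (F := ((4 * N).factorial : ℝ)) (by positivity) (by positivity) (by positivity) hμ0 hμU (Nat.cast_nonneg _)
    (by exact_mod_cast Nat.factorial_pos _) hres
  refine hfin.trans ?_
  have hsub : ((range T).filter (fun t => ∀ i, ∃ p : ℕ, p.Prime ∧ p ≤ R ∧ p ∣ Q0 * t + cc i)) ⊆
      ((range T).filter (fun t => ∀ i, ∃ p : ℕ, p.Prime ∧ (p : ℝ) ≤ x ^ r ∧ p ∣ Q0 * t + cc i)) := by
    intro t ht
    rw [Finset.mem_filter] at ht ⊢
    refine ⟨ht.1, fun i => ?_⟩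
    obtain ⟨p, hp1, hp2, hp3⟩ := ht.2 i
    refine ⟨p, hp1, ?_, hp3⟩
    have h1 : (p : ℝ) ≤ R := by exact_mod_cast hp2
    refine h1.trans ((zf_le hxpos.le).trans (Real.rpow_le_rpow_of_exponent_le hx0 hvr))
  exact_mod_cast Finset.card_le_card hsub

end H69PG

end S_H69_PG_CoB

section S_H69_PG_Fin

/-!
# FIN: the theorem

Put `Λ = max lam 1`, `r1 = min r (1/2)`, `K = ⌊Λ log x⌋₊`, `z0 = ⌊log x/100⌋₊`, `Q0 = primorial z0 ≤ x^(1/50)` (`prim_le`), `T = ⌊x/Q0⌋₊`. For `b < Q0` let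
`S_b = {k ∈ Icc 1 K : (X+1+b+k, Q0) = 1}`. `∑_{b < Q0} |S_b| = K φ(Q0)` (for every `k` the numbers `X+1+b+k` run through a complete residue system), so at least `Q0/2` of the `b` are good:
`|S_b| ≤ 2 K φ(Q0)/Q0`. For a good `b` use `core` (exponent `A + 1`, `r1`) with `ι = {k // k ∈ S_b}`, `cc k = X+1+b+k ≤ x^A + 1 + x^(1/50) + Λ log x ≤ x^(A+1)`; `Fm`: primes dividing `Q0` are `≤ z0 ≤ K`,
`|k - k'| ≤ K`. For each `t < T` counted there put `n = X+1+b+Q0 t`: `X < n ≤ X + Q0 T ≤ X + ⌊x⌋₊`, and different `(b,t)` give different `n`. Every `k'` with `n < k' ≤ n + lam log x` is `n + k`, `1 ≤ k ≤ K`: if `(n+k, Q0) = 1`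
then `k ∈ S_b` and some prime `p ≤ x^r1` divides `n + k = Q0 t + cc k`; otherwise a prime `p ≤ z0 ≤ x^r1` divides it. So `minFac k' ≤ x^r1 ≤ x^r`, and if `k'` is prime then `n < k' = p ≤ x^(1/2)`.
The number of `n` is at least `(Q0/2) c T - x^(1/2) ≥ (c/4) x - x^(1/2) ≥ (c/8) x` for large `x` (`Q0 T ≥ x - Q0 ≥ x/2`).
-/

open Finset EG

namespace H69PG

theorem Fin_count (Q0 X k : ℕ) :
    ((range Q0).filter (fun b => Nat.Coprime (X + 1 + b + k) Q0)).card = Nat.totient Q0 := by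
  rw [← Nat.filter_coprime_Ico_eq_totient Q0 (X + 1 + k), Finset.card_filter, Finset.card_filter,
    Finset.sum_Ico_eq_sum_range, Nat.add_sub_cancel_left]
  refine Finset.sum_congr rfl fun b _ => ?_
  refine if_congr ?_ rfl rfl
  have e : X + 1 + b + k = X + 1 + k + b := by ring
  rw [e]
  exact Nat.coprime_comm

theorem Fin_sum (Q0 X K : ℕ) :
    ∑ b ∈ range Q0, ((Icc 1 K).filter (fun k => Nat.Coprime (X + 1 + b + k) Q0)).card
      = K * Nat.totient Q0 := by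
  simp only [Finset.card_filter]
  rw [Finset.sum_comm]
  have h : ∀ k ∈ Icc 1 K, (∑ b ∈ range Q0, if Nat.Coprime (X + 1 + b + k) Q0 then 1 else 0)
      = Nat.totient Q0 := by
    intro k _
    rw [← Finset.card_filter]
    exact Fin_count Q0 X k
  rw [Finset.sum_congr rfl h]
  simp

open Classical in
theorem Fin_good (Q0 X K : ℕ) (hQ : 0 < Q0) (hK : 0 < K) :
    (Q0 : ℝ) / 2 ≤ (((range Q0).filter (fun b =>
      (((Icc 1 K).filter (fun k => Nat.Coprime (X + 1 + b + k) Q0)).card : ℝ) ≤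
        2 * (K : ℝ) * ((Nat.totient Q0 : ℝ) / (Q0 : ℝ)))).card : ℝ) := by
  have hQ' : (0 : ℝ) < Q0 := by exact_mod_cast hQ
  have hφ : (0 : ℝ) < Nat.totient Q0 := by exact_mod_cast Nat.totient_pos.2 hQ
  have hK' : (0 : ℝ) < K := by exact_mod_cast hK
  have h1 : (∑ b ∈ range Q0,
      (((Icc 1 K).filter (fun k => Nat.Coprime (X + 1 + b + k) Q0)).card : ℝ)) = K * Nat.totient Q0 := by
    exact_mod_cast Fin_sum Q0 X K
  set s : ℕ → ℝ := fun b => (((Icc 1 K).filter (fun k => Nat.Coprime (X + 1 + b + k) Q0)).card : ℝ) with hs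
  have hs0 : ∀ b, 0 ≤ s b := fun b => Nat.cast_nonneg _
  set β : ℝ := 2 * (K : ℝ) * ((Nat.totient Q0 : ℝ) / (Q0 : ℝ)) with hβ
  have hβ0 : 0 < β := by positivity
  have h1' : ∑ b ∈ range Q0, s b = K * Nat.totient Q0 := h1
  have h2 : (((range Q0).filter (fun b => ¬ s b ≤ β)).card : ℝ) * β ≤ K * Nat.totient Q0 := by
    rw [← h1', ← nsmul_eq_mul]
    refine (Finset.card_nsmul_le_sum _ s _ ?_).trans
      (Finset.sum_le_sum_of_subset_of_nonneg (Finset.filter_subset _ _) fun b _ _ => hs0 b)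
    intro b hb
    exact (not_le.1 (Finset.mem_filter.1 hb).2).le
  have h3 : (((range Q0).filter (fun b => ¬ s b ≤ β)).card : ℝ) ≤ Q0 / 2 := by
    have e : (K : ℝ) * Nat.totient Q0 = Q0 / 2 * β := by
      rw [hβ]
      field_simp
    rw [e] at h2
    exact le_of_mul_le_mul_right h2 hβ0
  have h4 : ((range Q0).filter (fun b => s b ≤ β)).card +
      ((range Q0).filter (fun b => ¬ s b ≤ β)).card = Q0 := by
    rw [Finset.card_filter_add_card_filter_not, Finset.card_range]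
  have h5 : (((range Q0).filter (fun b => s b ≤ β)).card : ℝ) +
      (((range Q0).filter (fun b => ¬ s b ≤ β)).card : ℝ) = Q0 := by
    exact_mod_cast h4
  have h6 : (Q0 : ℝ) / 2 ≤ (((range Q0).filter (fun b => s b ≤ β)).card : ℝ) := by linarith
  exact h6

theorem Fin_ev {L r1 c0 x1 : ℝ} (hL : 1 ≤ L) (hr1 : 0 < r1) (hc : 0 < c0) :
    ∃ x0 : ℝ, ∀ x : ℝ, x0 ≤ x →
      x1 ≤ x ∧ 1 ≤ x ∧ 1 ≤ Real.log x ∧ 2 + x ^ (1 / 50 : ℝ) + L * Real.log x ≤ x ∧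
      Real.log x / 100 ≤ x ^ r1 ∧ x ^ (1 / 50 : ℝ) ≤ x / 2 ∧ x ^ (1 / 2 : ℝ) + 1 ≤ c0 / 8 * x := by
  have hL0 : 0 < L := by linarith
  have e1 := Filter.eventually_ge_atTop x1
  have e2 := Filter.eventually_ge_atTop (Real.exp 1)
  have e3 := (isLittleO_log_rpow_atTop (r := 1) one_pos).bound
    (show (0 : ℝ) < 1 / (4 * L) by positivity)
  have e4 := (isLittleO_log_rpow_atTop hr1).bound (show (0 : ℝ) < 1 by norm_num)
  have e5 := (tendsto_rpow_atTop (show (0 : ℝ) < 1 / 2 by norm_num)).eventually_ge_atTop 8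
  have e6 := (tendsto_rpow_atTop (show (0 : ℝ) < 1 / 2 by norm_num)).eventually_ge_atTop (16 / c0)
  refine Filter.eventually_atTop.1 ?_
  filter_upwards [e1, e2, e3, e4, e5, e6] with x a1 a2 a3 a4 a5 a6
  have hx1 : 1 ≤ x := by
    have := Real.add_one_le_exp (1 : ℝ)
    linarith
  have hx0 : 0 < x := by linarith
  have hlog : 1 ≤ Real.log x := by
    rw [← Real.log_exp 1]
    exact Real.log_le_log (Real.exp_pos 1) a2
  have hsq : x ^ (1 / 2 : ℝ) * x ^ (1 / 2 : ℝ) = x := by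
    rw [← Real.rpow_add hx0]
    norm_num
  have h50 : x ^ (1 / 50 : ℝ) ≤ x ^ (1 / 2 : ℝ) := Real.rpow_le_rpow_of_exponent_le hx1 (by norm_num)
  set y := x ^ (1 / 2 : ℝ)
  have hy : y ≤ x / 8 := by nlinarith
  have a3' : Real.log x ≤ 1 / (4 * L) * x := by
    have := (le_abs_self (Real.log x)).trans a3
    rwa [Real.rpow_one, Real.norm_eq_abs, abs_of_pos hx0] at this
  have a3'' : L * Real.log x ≤ x / 4 := by
    have := mul_le_mul_of_nonneg_left a3' hL0.le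
    have e : L * (1 / (4 * L) * x) = x / 4 := by field_simp
    linarith
  have a4' : Real.log x ≤ x ^ r1 := by
    have := (le_abs_self (Real.log x)).trans a4
    rwa [one_mul, Real.norm_eq_abs, abs_of_pos (Real.rpow_pos_of_pos hx0 r1)] at this
  have hx8 : 64 ≤ x := by nlinarith
  refine ⟨a1, hx1, hlog, ?_, ?_, ?_, ?_⟩
  · linarith
  · linarith
  · linarith
  · rw [div_le_iff₀ hc] at a6
    nlinarith

open Classical in
/-- one residue class -/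
theorem Fin_map (Q0 X T : ℕ) (B : Finset ℕ) (G : ℕ → Finset ℕ) (c : ℝ) (hQ : 0 < Q0)
    (hB : B ⊆ range Q0) (hG : ∀ b ∈ B, G b ⊆ range T) (hc : ∀ b ∈ B, c ≤ ((G b).card : ℝ)) :
    (B.card : ℝ) * c ≤ ((((B.sigma G).image (fun p => X + 1 + p.1 + Q0 * p.2))).card : ℝ) := by
  rw [Finset.card_image_of_injOn]
  · rw [Finset.card_sigma, Nat.cast_sum, ← nsmul_eq_mul]
    exact Finset.card_nsmul_le_sum _ _ _ hc
  · rintro ⟨b, t⟩ h ⟨b', t'⟩ h' e
    simp only [Finset.coe_sigma, Set.mem_sigma_iff, Finset.mem_coe] at h h'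
    have hb := Finset.mem_range.1 (hB h.1)
    have hb' := Finset.mem_range.1 (hB h'.1)
    have e' : X + 1 + b + Q0 * t = X + 1 + b' + Q0 * t' := e
    have e2 : b + Q0 * t = b' + Q0 * t' := by omega
    have e3 : b = b' := by
      have := congrArg (fun n => n % Q0) e2
      simpa [Nat.add_mul_mod_self_left, Nat.mod_eq_of_lt hb, Nat.mod_eq_of_lt hb'] using this
    have e4 : t = t' := by
      rw [e3] at e2
      exact Nat.eq_of_mul_eq_mul_left hQ (Nat.add_left_cancel e2)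
    rw [e3, e4]

theorem Fin_Fm (X b K z0 : ℕ) (hz : z0 ≤ K) (S : Finset ℕ) (hS : S ⊆ Icc 1 K) :
    Fm K (primorial z0) (fun k : {k // k ∈ S} => X + 1 + b + k.1) where
  pos := primorial_pos z0
  pr := fun p hp hd => (hp.dvd_primorial_iff.1 hd).trans hz
  inj := by
    intro i j h
    have h' : X + 1 + b + i.1 = X + 1 + b + j.1 := h
    exact Subtype.ext (by omega)
  df := by
    intro i j
    have hi := Finset.mem_Icc.1 (hS i.2)
    have hj := Finset.mem_Icc.1 (hS j.2)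
    rw [abs_le]
    constructor
    · push_cast
      omega
    · push_cast
      omega
  cpos := fun i => by
    show 1 ≤ X + 1 + b + i.1
    omega

open Classical in
theorem fin_main {lam r A : ℝ} (hlam : 0 < lam) (hr : 0 < r) (hA : 0 < A) :
    ∃ c : ℝ, 0 < c ∧ ∃ x0 : ℝ, ∀ x : ℝ, x0 ≤ x → ∀ X : ℕ, (X : ℝ) ≤ x ^ A →
      c * x ≤ (((Ioc X (X + ⌊x⌋₊)).filter (fun n : ℕ => ∀ k : ℕ, n < k → (k : ℝ) ≤ n + lam * Real.log x →
        ¬ k.Prime ∧ (k.minFac : ℝ) ≤ x ^ r)).card : ℝ) := by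
  set L : ℝ := max lam 1 with hLdef
  have hL : 1 ≤ L := le_max_right _ _
  have hlamL : lam ≤ L := le_max_left _ _
  set r1 : ℝ := min r (1 / 2) with hr1def
  have hr1 : 0 < r1 := lt_min hr (by norm_num)
  have hr1r : r1 ≤ r := min_le_left _ _
  have hr1h : r1 ≤ 1 / 2 := min_le_right _ _
  obtain ⟨c0, hc0, x1, hcore⟩ := core hL hr1 (show 0 < A + 1 by linarith)
  obtain ⟨x0, hev⟩ := Fin_ev (x1 := x1) hL hr1 hc0
  refine ⟨c0 / 8, by positivity, x0, ?_⟩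
  intro x hx X hX
  obtain ⟨hx1, h1x, hlog, hsz, hlx, hq, hcx⟩ := hev x hx
  have hx0 : 0 < x := by linarith
  set K : ℕ := ⌊L * Real.log x⌋₊ with hK
  set z0 : ℕ := ⌊Real.log x / 100⌋₊ with hz0
  set Q0 : ℕ := primorial z0 with hQ0
  set T : ℕ := ⌊x / (Q0 : ℝ)⌋₊ with hT
  have hQ : 0 < Q0 := primorial_pos z0
  have hQr : (0 : ℝ) < Q0 := by exact_mod_cast hQ
  have hQle : (Q0 : ℝ) ≤ x ^ (1 / 50 : ℝ) := prim_le h1x
  have hLl : 1 ≤ L * Real.log x := by nlinarith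
  have hKpos : 0 < K := Nat.floor_pos.2 hLl
  have hKle : (K : ℝ) ≤ L * Real.log x := Nat.floor_le (by linarith)
  have hzK : z0 ≤ K := Nat.floor_le_floor (by nlinarith)
  have hzr : (z0 : ℝ) ≤ x ^ r1 := (Nat.floor_le (by positivity)).trans hlx
  set S : ℕ → Finset ℕ := fun b => (Icc 1 K).filter (fun k => Nat.Coprime (X + 1 + b + k) Q0) with hS
  set B : Finset ℕ := (range Q0).filter (fun b =>
      (((Icc 1 K).filter (fun k => Nat.Coprime (X + 1 + b + k) Q0)).card : ℝ) ≤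
        2 * (K : ℝ) * ((Nat.totient Q0 : ℝ) / (Q0 : ℝ))) with hB
  have hBc : (Q0 : ℝ) / 2 ≤ (B.card : ℝ) := Fin_good Q0 X K hQ hKpos
  set G : ℕ → Finset ℕ := fun b => (range T).filter (fun t => ∀ k ∈ S b, ∃ p : ℕ, p.Prime ∧
    (p : ℝ) ≤ x ^ r1 ∧ p ∣ Q0 * t + (X + 1 + b + k)) with hG
  have hGc : ∀ b ∈ B, c0 * (T : ℝ) ≤ ((G b).card : ℝ) := by
    intro b hb
    have hbq := Finset.mem_range.1 (Finset.mem_filter.1 hb).1
    have hbs := (Finset.mem_filter.1 hb).2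
    have hSs : S b ⊆ Icc 1 K := Finset.filter_subset _ _
    have h1 := hcore x hx1 {k // k ∈ S b} (by
      rw [Fintype.card_coe]
      exact hbs) (fun k => X + 1 + b + k.1) (Fin_Fm X b K z0 hzK (S b) hSs) (by
      intro i
      have hi := Finset.mem_Icc.1 (hSs i.2)
      have hiK : (i.1 : ℝ) ≤ K := by exact_mod_cast hi.2
      have hbQ : (b : ℝ) ≤ Q0 := by exact_mod_cast hbq.le
      have hA1 : x ^ (A + 1) = x ^ A * x := by rw [Real.rpow_add hx0, Real.rpow_one]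
      have hA2 : 1 ≤ x ^ A := Real.one_le_rpow h1x hA.le
      rw [hA1]
      push_cast
      have h2 : (X : ℝ) + 1 + b + i.1 ≤ x ^ A + (1 + x ^ (1 / 50 : ℝ) + L * Real.log x) := by linarith
      have h3 : x ^ A + (1 + x ^ (1 / 50 : ℝ) + L * Real.log x) ≤ x ^ A + (x - 1) := by linarith
      have h4 : x ^ A + (x - 1) ≤ x ^ A * x := by nlinarith
      linarith)
    refine h1.trans ?_
    norm_cast
    refine Finset.card_le_card ?_
    intro t ht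
    rw [Finset.mem_filter] at ht ⊢
    exact ⟨ht.1, fun k hk => ht.2 ⟨k, hk⟩⟩
  have hBs : B ⊆ range Q0 := Finset.filter_subset _ _
  have hW := Fin_map Q0 X T B G (c0 * T) hQ hBs (fun b _ => Finset.filter_subset _ _) hGc
  set W : Finset ℕ := (B.sigma G).image (fun p => X + 1 + p.1 + Q0 * p.2) with hWdef
  have hQT : ((Q0 * T : ℕ) : ℝ) ≤ x := by
    have := Nat.floor_le (show 0 ≤ x / (Q0 : ℝ) by positivity)
    rw [le_div_iff₀ hQr] at this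
    push_cast
    linarith
  have hQT' : Q0 * T ≤ ⌊x⌋₊ := Nat.le_floor hQT
  have hTl : x - Q0 ≤ (Q0 : ℝ) * T := by
    have := Nat.lt_floor_add_one (x / (Q0 : ℝ))
    rw [div_lt_iff₀ hQr] at this
    have h2 : (⌊x / (Q0 : ℝ)⌋₊ : ℝ) = T := rfl
    rw [h2] at this
    nlinarith
  have hsub : W ⊆ ((Ioc X (X + ⌊x⌋₊)).filter (fun n : ℕ => ∀ k : ℕ, n < k →
      (k : ℝ) ≤ n + lam * Real.log x → ¬ k.Prime ∧ (k.minFac : ℝ) ≤ x ^ r)) ∪
        range (⌊x ^ (1 / 2 : ℝ)⌋₊ + 1) := by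
    intro n hn
    obtain ⟨⟨b, t⟩, hbt, e⟩ := Finset.mem_image.1 hn
    have e' : X + 1 + b + Q0 * t = n := e
    rw [Finset.mem_sigma] at hbt
    have hb : b ∈ B := hbt.1
    have ht : t ∈ G b := hbt.2
    have hbq := Finset.mem_range.1 (hBs hb)
    have ht1 := Finset.mem_range.1 (Finset.mem_filter.1 ht).1
    have ht2 := (Finset.mem_filter.1 ht).2
    have key : ∀ k : ℕ, n < k → (k : ℝ) ≤ n + lam * Real.log x →
        ∃ p : ℕ, p.Prime ∧ (p : ℝ) ≤ x ^ r1 ∧ p ∣ k := by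
      intro k hnk hk
      obtain ⟨j, rfl⟩ := Nat.exists_eq_add_of_lt hnk
      have hj : ((j + 1 : ℕ) : ℝ) ≤ L * Real.log x := by
        push_cast at hk ⊢
        have : lam * Real.log x ≤ L * Real.log x := mul_le_mul_of_nonneg_right hlamL (by linarith)
        linarith
      have hjK : j + 1 ≤ K := Nat.le_floor hj
      have ek : Q0 * t + (X + 1 + b + (j + 1)) = n + j + 1 := by omega
      by_cases hco : Nat.Coprime (X + 1 + b + (j + 1)) Q0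
      · have hmem : j + 1 ∈ S b := Finset.mem_filter.2 ⟨Finset.mem_Icc.2 ⟨by omega, hjK⟩, hco⟩
        obtain ⟨p, hp, hpr, hd⟩ := ht2 (j + 1) hmem
        rw [ek] at hd
        exact ⟨p, hp, hpr, hd⟩
      · obtain ⟨p, hp, hd1, hd2⟩ := Nat.Prime.not_coprime_iff_dvd.1 hco
        refine ⟨p, hp, ?_, ?_⟩
        · have : p ≤ z0 := hp.dvd_primorial_iff.1 hd2
          have h' : (p : ℝ) ≤ z0 := by exact_mod_cast this
          exact h'.trans hzr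
        · rw [← ek]
          exact dvd_add (hd2.mul_right t) hd1
    by_cases hnx : n < ⌊x ^ (1 / 2 : ℝ)⌋₊ + 1
    · exact Finset.mem_union_right _ (Finset.mem_range.2 hnx)
    · refine Finset.mem_union_left _ (Finset.mem_filter.2 ⟨?_, ?_⟩)
      · rw [Finset.mem_Ioc]
        have h1 : Q0 * (t + 1) ≤ Q0 * T := Nat.mul_le_mul_left _ ht1
        have h2 : Q0 * (t + 1) = Q0 * t + Q0 := by ring
        omega
      · intro k hnk hk
        obtain ⟨p, hp, hpr, hd⟩ := key k hnk hk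
        refine ⟨?_, ?_⟩
        · intro hkp
          have hpk : p = k := (Nat.prime_dvd_prime_iff_eq hp hkp).1 hd
          have h1 : (k : ℝ) ≤ x ^ (1 / 2 : ℝ) := by
            rw [← hpk]
            exact hpr.trans (Real.rpow_le_rpow_of_exponent_le h1x hr1h)
          have h2 : k ≤ ⌊x ^ (1 / 2 : ℝ)⌋₊ := Nat.le_floor h1
          omega
        · have h1 : k.minFac ≤ p := Nat.minFac_le_of_dvd hp.two_le hd
          have h2 : (k.minFac : ℝ) ≤ p := by exact_mod_cast h1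
          exact h2.trans (hpr.trans (Real.rpow_le_rpow_of_exponent_le h1x hr1r))
  have hcard := (Finset.card_le_card hsub).trans (Finset.card_union_le _ _)
  rw [Finset.card_range] at hcard
  have hcard' : (W.card : ℝ) ≤ (((Ioc X (X + ⌊x⌋₊)).filter (fun n : ℕ => ∀ k : ℕ, n < k →
      (k : ℝ) ≤ n + lam * Real.log x → ¬ k.Prime ∧ (k.minFac : ℝ) ≤ x ^ r)).card : ℝ) +
        ((⌊x ^ (1 / 2 : ℝ)⌋₊ : ℝ) + 1) := by exact_mod_cast hcard
  have hfl : (⌊x ^ (1 / 2 : ℝ)⌋₊ : ℝ) ≤ x ^ (1 / 2 : ℝ) := Nat.floor_le (by positivity)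
  have hlow : c0 / 4 * x ≤ (B.card : ℝ) * (c0 * T) := by
    have h1 : x / 2 ≤ (Q0 : ℝ) * T := by linarith
    have h2 : (Q0 : ℝ) / 2 * (c0 * T) ≤ (B.card : ℝ) * (c0 * T) :=
      mul_le_mul_of_nonneg_right hBc (by positivity)
    nlinarith
  linarith

end H69PG

end S_H69_PG_Fin
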